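import Mathlib

/-!
Averages over finite types and functions of bounded degree on product spaces.
-/

open scoped Classical
open Finset

namespace Pool.Agent.Lib.MP_8d8c46_lc

/-- the average of `f` over a finite type -/
noncomputable def avg {α : Type*} [Fintype α] (f : α → ℝ) : ℝ := (∑ x, f x) / Fintype.card α

/-- The functions on `Fin n → A` that are sums of functions of at most `k` coordinates. -/
def Deg {A : Type*} {n : ℕ} (k : ℕ) (f : (Fin n → A) → ℝ) : Prop :=
  f ∈ Submodule.span ℝ {g : (Fin n → A) → ℝ | ∃ K : Finset (Fin n), K.card ≤ k ∧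
    ∀ x y, (∀ i ∈ K, x i = y i) → g x = g y}

section avg
variable {α : Type*} [Fintype α]

lemma avg_add (f g : α → ℝ) : avg (fun x => f x + g x) = avg f + avg g := by
  unfold avg; rw [sum_add_distrib, add_div]

lemma avg_sub (f g : α → ℝ) : avg (fun x => f x - g x) = avg f - avg g := by
  unfold avg; rw [sum_sub_distrib, sub_div]

lemma avg_const_mul (a : ℝ) (f : α → ℝ) : avg (fun x => a * f x) = a * avg f := by
  unfold avg; rw [← mul_sum, mul_div_assoc]

lemma avg_mul_const (a : ℝ) (f : α → ℝ) : avg (fun x => f x * a) = avg f * a := by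
  unfold avg; rw [← sum_mul]; ring

lemma avg_sum {ι : Type*} (s : Finset ι) (f : ι → α → ℝ) :
    avg (fun x => ∑ i ∈ s, f i x) = ∑ i ∈ s, avg (f i) := by
  unfold avg; rw [sum_comm, sum_div]

lemma avg_nonneg {f : α → ℝ} (h : ∀ x, 0 ≤ f x) : 0 ≤ avg f :=
  div_nonneg (sum_nonneg (fun x _ => h x)) (Nat.cast_nonneg _)

lemma avg_mono {f g : α → ℝ} (h : ∀ x, f x ≤ g x) : avg f ≤ avg g :=
  div_le_div_of_nonneg_right (sum_le_sum (fun x _ => h x)) (Nat.cast_nonneg _)

lemma avg_const [Nonempty α] (a : ℝ) : avg (fun _ : α => a) = a := by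
  unfold avg
  rw [sum_const, card_univ, nsmul_eq_mul]
  have : (Fintype.card α : ℝ) ≠ 0 := by exact_mod_cast Fintype.card_ne_zero
  field_simp

lemma abs_avg_le (f : α → ℝ) : |avg f| ≤ avg (fun x => |f x|) := by
  unfold avg
  rw [abs_div, Nat.abs_cast]
  exact div_le_div_of_nonneg_right (abs_sum_le_sum_abs _ _) (Nat.cast_nonneg _)

lemma avg_equiv {β : Type*} [Fintype β] (e : α ≃ β) (f : β → ℝ) :
    avg (fun x => f (e x)) = avg f := by
  unfold avg
  rw [e.sum_comp, Fintype.card_congr e]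

lemma card_mul_avg [Nonempty α] (f : α → ℝ) : (Fintype.card α : ℝ) * avg f = ∑ x, f x := by
  unfold avg
  have : (Fintype.card α : ℝ) ≠ 0 := by exact_mod_cast Fintype.card_ne_zero
  field_simp

/-- Markov's inequality. -/
lemma markov {f : α → ℝ} (h : ∀ x, 0 ≤ f x) {a : ℝ} (ha : 0 < a) :
    ((univ.filter (fun x => a ≤ f x)).card : ℝ) ≤ (∑ x, f x) / a := by
  rw [le_div_iff₀ ha]
  calc ((univ.filter (fun x => a ≤ f x)).card : ℝ) * a
      = ∑ x ∈ univ.filter (fun x => a ≤ f x), a := by rw [sum_const, nsmul_eq_mul]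
    _ ≤ ∑ x ∈ univ.filter (fun x => a ≤ f x), f x :=
        sum_le_sum (fun x hx => (mem_filter.1 hx).2)
    _ ≤ ∑ x, f x := sum_le_sum_of_subset_of_nonneg (filter_subset _ _) (fun x _ _ => h x)

end avg

end Pool.Agent.Lib.MP_8d8c46_lc
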