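import Pool.Agent.Lib.MP_8d8c46_lc.Problem

/-!
The bijective pebble game on two graphs.
-/

open scoped Classical

namespace Pool.Agent.Lib.MP_8d8c46_lc

/-- A position of the `k`-pebble game on two graphs `G` and `H`: each of the `k` pairs of pebbles
is off the board (`none`) or lies on a pair of vertices.  The position is a partial isomorphism
if the pebbled pairs preserve and reflect equality and adjacency. -/
def IsPartialIso {V W : Type*} (G : SimpleGraph V) (H : SimpleGraph W) {k : ℕ}
    (p : Fin k → Option (V × W)) : Prop :=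
  ∀ i j a b, p i = some a → p j = some b →
    ((a.1 = b.1 ↔ a.2 = b.2) ∧ (G.Adj a.1 b.1 ↔ H.Adj a.2 b.2))

/-- Duplicator wins the bijective `k`-pebble game on `G` and `H`: there is a set `𝒲` of
positions, containing the empty position, such that every position in `𝒲` is a partial
isomorphism and, whichever pair `i` of pebbles Spoiler picks up, there is a bijection `f` such
that for every vertex `v` on which Spoiler may place his pebble the new position, with the pair
`i` on `(v, f v)`, is in `𝒲` again. -/
def PebbleEquiv (k : ℕ) {V W : Type*} (G : SimpleGraph V) (H : SimpleGraph W) : Prop :=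
  ∃ 𝒲 : Set (Fin k → Option (V × W)), (fun _ => none) ∈ 𝒲 ∧
    ∀ p ∈ 𝒲, IsPartialIso G H p ∧
      ∀ i : Fin k, ∃ f : V ≃ W, ∀ v : V, Function.update p i (some (v, f v)) ∈ 𝒲

/-- Isomorphic graphs are equivalent for every number of pebbles. -/
theorem PebbleEquiv.of_iso {k : ℕ} {V W : Type*} {G : SimpleGraph V} {H : SimpleGraph W}
    (e : G ≃g H) : PebbleEquiv k G H := by
  refine ⟨{p | ∀ i a, p i = some a → a.2 = e a.1}, ?_, ?_⟩
  · intro i a h
    simp at h
  · intro p hp
    refine ⟨?_, fun i => ⟨e.toEquiv, fun v => ?_⟩⟩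
    · intro i j a b ha hb
      rw [hp i a ha, hp j b hb]
      refine ⟨⟨fun h => by rw [h], fun h => e.injective h⟩, e.map_adj_iff.symm⟩
    · intro j a ha
      by_cases hj : j = i
      · subst hj
        simp only [Function.update_self, Option.some.injEq] at ha
        subst ha
        rfl
      · rw [Function.update_of_ne hj] at ha
        exact hp j a ha

/-- With as many pebbles as vertices the game characterises isomorphism. -/
theorem PebbleEquiv.iso {n : ℕ} {V W : Type*} (e : Fin n ≃ V) {G : SimpleGraph V}
    {H : SimpleGraph W} (hn : 0 < n) (h : PebbleEquiv n G H) : Nonempty (G ≃g H) := by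
  obtain ⟨𝒲, h0, h𝒲⟩ := h
  -- place the pebbles one after another
  have key : ∀ m : ℕ, m ≤ n → ∃ p ∈ 𝒲, ∀ i : Fin n, (i : ℕ) < m →
      ∃ w, p i = some (e i, w) := by
    intro m
    induction m with
    | zero => intro _; exact ⟨_, h0, fun i hi => absurd hi (Nat.not_lt_zero _)⟩
    | succ m ih =>
      intro hm
      obtain ⟨p, hp, hpi⟩ := ih (by omega)
      obtain ⟨f, hf⟩ := (h𝒲 p hp).2 ⟨m, by omega⟩
      refine ⟨_, hf (e ⟨m, by omega⟩), fun i hi => ?_⟩
      by_cases him : i = ⟨m, by omega⟩
      · rw [him]
        exact ⟨f (e ⟨m, by omega⟩), by simp⟩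
      · rw [Function.update_of_ne him]
        refine hpi i ?_
        have : (i : ℕ) ≠ m := fun h => him (Fin.ext h)
        omega
  obtain ⟨p, hp, hpi⟩ := key n le_rfl
  obtain ⟨f0, _⟩ := (h𝒲 p hp).2 ⟨0, hn⟩
  choose g hg using fun i : Fin n => hpi i i.2
  have hiso := (h𝒲 p hp).1
  have hinj : Function.Injective g := by
    intro i j hij
    have := (hiso i j _ _ (hg i) (hg j)).1.2 hij
    exact e.injective this
  have : Fintype V := Fintype.ofEquiv _ e
  have : Fintype W := Fintype.ofEquiv _ f0
  have hcard : Fintype.card (Fin n) = Fintype.card W := by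
    rw [Fintype.card_congr e, Fintype.card_congr f0]
  have hbij : Function.Bijective g :=
    (Fintype.bijective_iff_injective_and_card g).2 ⟨hinj, hcard⟩
  refine ⟨⟨e.symm.trans (Equiv.ofBijective g hbij), ?_⟩⟩
  intro a b
  obtain ⟨i, rfl⟩ := e.surjective a
  obtain ⟨j, rfl⟩ := e.surjective b
  have := (hiso i j _ _ (hg i) (hg j)).2
  simpa using this.symm

end Pool.Agent.Lib.MP_8d8c46_lc
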