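import Pool.Agent.Lib.MP_8d8c46_lc.Problem

/-!
The two definitions used in the statement about bounded-depth reductions besides those of the
problem itself: Boolean circuits of unbounded fan-in, and adjacency matrices of graphs.
-/

open scoped Classical

namespace Pool.Agent.Lib.MP_8d8c46_lc

/-- A Boolean circuit with `s` gates of unbounded fan-in over `m` input bits.  Every gate `g`
has a level; `val g x` is the value of gate `g` on input `x`.  A gate of level `0` is a
constant or a literal (an input bit or its negation).  Every other gate is the conjunction,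
or the disjunction, of some gates `h ∈ A` and of the negations of some gates `h ∈ B`, all of
smaller level. -/
structure Circuit (m s : ℕ) where
  /-- the level of a gate -/
  level : Fin s → ℕ
  /-- the Boolean function computed at a gate -/
  val : Fin s → (Fin m → Bool) → Bool
  /-- the gate condition -/
  gate : ∀ g : Fin s,
    (level g = 0 ∧ ((∃ b : Bool, ∀ x, val g x = b) ∨
      (∃ i : Fin m, ∃ b : Bool, ∀ x, val g x = true ↔ x i = b))) ∨
    (∃ A B : Finset (Fin s), (∀ h ∈ A, level h < level g) ∧ (∀ h ∈ B, level h < level g) ∧
      ((∀ x, val g x = true ↔ (∀ h ∈ A, val h x = true) ∧ (∀ h ∈ B, val h x = false)) ∨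
       (∀ x, val g x = true ↔ (∃ h ∈ A, val h x = true) ∨ (∃ h ∈ B, val h x = false))))

/-- The `N × N` matrix `a` of bits is the adjacency matrix, padded with zeros, of the graph
`G`, whose vertices are the labels in `V ⊆ {0, ..., N - 1}`. -/
def Encodes {N : ℕ} (a : Fin N → Fin N → Bool) (V : Finset (Fin N)) (G : SimpleGraph V) :
    Prop :=
  ∀ u v : Fin N, a u v = true ↔ ∃ (hu : u ∈ V) (hv : v ∈ V), G.Adj ⟨u, hu⟩ ⟨v, hv⟩

end Pool.Agent.Lib.MP_8d8c46_lc
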