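import Pool.Agent.Lib.MP_8d8c46_lc.Switching
import Pool.Agent.Lib.MP_8d8c46_lc.Model

/-!
Constant-depth circuits under random restrictions, and the resulting bound on the total
sensitivity of the outputs of a circuit, weighted by the number of ones in the output.
-/

open scoped Classical

namespace Pool.Agent.Lib.MP_8d8c46_lc

variable {m : ℕ}

/-- `f` is a disjunction of terms of width at most `w`. -/
def IsDNF (w : ℕ) (f : Cube m → Bool) : Prop :=
  ∃ 𝒯 : Finset (Restr m), (∀ T ∈ 𝒯, (supp T).card ≤ w) ∧
    ∀ x, f x = true ↔ ∃ T ∈ 𝒯, Holds T x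

lemma supp_update_le (T : Restr m) (i : Fin m) (b : Bool) :
    (supp (Function.update T i (some b))).card ≤ (supp T).card + 1 := by
  refine (Finset.card_le_card (t := insert i (supp T)) ?_).trans (Finset.card_insert_le _ _)
  intro j hj
  by_cases hji : j = i
  · simp [hji]
  · simp only [supp, Finset.mem_filter, Finset.mem_univ, true_and, Finset.mem_insert] at hj ⊢
    simp only [Function.update, hji, dif_neg, not_false_iff] at hj
    exact Or.inr hj

lemma DT.isDNF {n : ℕ} {f : Cube m → Bool} (h : DT n f) : IsDNF n f := by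
  induction h with
  | const n f b h =>
    cases b with
    | true =>
      refine ⟨{fun _ => none}, ?_, ?_⟩
      · intro T hT
        rw [Finset.mem_singleton] at hT
        subst hT
        simp [supp]
      · intro x
        simp [h x, Holds]
    | false =>
      refine ⟨∅, by simp, ?_⟩
      intro x
      simp [h x]
  | query n f i h ih =>
    choose 𝒯 h1 h2 using ih
    refine ⟨Finset.univ.biUnion (fun b : Bool => ((𝒯 b).filter
      (fun T => T i ≠ some (!b))).image (fun T => Function.update T i (some b))), ?_, ?_⟩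
    · intro T hT
      simp only [Finset.mem_biUnion, Finset.mem_univ, true_and, Finset.mem_image,
        Finset.mem_filter] at hT
      obtain ⟨b, T', ⟨hT', _⟩, rfl⟩ := hT
      exact (supp_update_le T' i b).trans (Nat.succ_le_succ (h1 b T' hT'))
    · intro x
      have e0 : f x = true ↔ ∃ T ∈ 𝒯 (x i), Holds T x := by
        have := h2 (x i) x
        beta_reduce at this
        rwa [Function.update_eq_self] at this
      rw [e0]
      constructor
      · rintro ⟨T, hT, hx⟩
        refine ⟨Function.update T i (some (x i)), ?_, ?_⟩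
        · simp only [Finset.mem_biUnion, Finset.mem_univ, true_and, Finset.mem_image,
            Finset.mem_filter]
          refine ⟨x i, T, ⟨hT, ?_⟩, rfl⟩
          intro hc
          have := hx i (by rw [hc]; simp)
          rw [hc] at this
          simp at this
        · intro j hj
          by_cases hji : j = i
          · subst hji; simp
          · simp only [Function.update, hji, dif_neg, not_false_iff] at hj ⊢
            exact hx j hj
      · rintro ⟨T, hT, hx⟩
        simp only [Finset.mem_biUnion, Finset.mem_univ, true_and, Finset.mem_image,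
          Finset.mem_filter] at hT
        obtain ⟨b, T', ⟨hT', hne⟩, rfl⟩ := hT
        have hb : b = x i := by
          have := hx i (by simp)
          simpa using this
        subst hb
        refine ⟨T', hT', ?_⟩
        intro j hj
        by_cases hji : j = i
        · subst hji
          cases hTj : T' j with
          | none => exact absurd hTj hj
          | some c =>
            rw [hTj] at hne
            cases c <;> cases hxj : x j <;> simp_all
        · have := hx j (by simp only [Function.update, hji, dif_neg, not_false_iff]; exact hj)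
          simpa only [Function.update, hji, dif_neg, not_false_iff] using this

lemma IsDNF.biUnion {w : ℕ} {ι : Type*} (s : Finset ι) (F : ι → Cube m → Bool)
    (h : ∀ i ∈ s, IsDNF w (F i)) (f : Cube m → Bool)
    (hf : ∀ x, f x = true ↔ ∃ i ∈ s, F i x = true) : IsDNF w f := by
  have h' : ∀ i, ∃ 𝒯 : Finset (Restr m), (∀ T ∈ 𝒯, (supp T).card ≤ w) ∧
      (i ∈ s → ∀ x, F i x = true ↔ ∃ T ∈ 𝒯, Holds T x) := by
    intro i
    by_cases hi : i ∈ s
    · obtain ⟨𝒯, h1, h2⟩ := h i hi
      exact ⟨𝒯, h1, fun _ => h2⟩
    · exact ⟨∅, by simp, fun hh => absurd hh hi⟩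
  choose 𝒯 h1 h2 using h'
  refine ⟨s.biUnion 𝒯, ?_, ?_⟩
  · intro T hT
    obtain ⟨i, _, hT⟩ := Finset.mem_biUnion.1 hT
    exact h1 i T hT
  · intro x
    rw [hf]
    constructor
    · rintro ⟨i, hi, hx⟩
      obtain ⟨T, hT, hTx⟩ := (h2 i hi x).1 hx
      exact ⟨T, Finset.mem_biUnion.2 ⟨i, hi, hT⟩, hTx⟩
    · rintro ⟨T, hT, hTx⟩
      obtain ⟨i, hi, hT⟩ := Finset.mem_biUnion.1 hT
      exact ⟨i, hi, (h2 i hi x).2 ⟨T, hT, hTx⟩⟩

/-- Switching lemma for functions given by a width `w` disjunctive normal form. -/
lemma IsDNF.switch {w : ℕ} {p : ℝ} (h0 : 0 < p) (h1 : p < 1)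
    (hp : (1 + 8 * p / (1 - p)) ^ w ≤ 2) {f : Cube m → Bool} (hf : IsDNF w f) (t : ℕ) :
    W p (fun ρ => ¬ DT t (fun x => f (app ρ x))) ≤ (1 / 2) ^ (t + 1) *
      W p (fun _ : Restr m => True) := by
  obtain ⟨𝒯, h2, h3⟩ := hf
  set L : Fin 𝒯.card → Restr m := fun i => (𝒯.equivFin.symm i : Restr m) with hL
  have hLw : ∀ i, (supp (L i)).card ≤ w := fun i => h2 _ (𝒯.equivFin.symm i).2
  have hfx : ∀ x, f x = true ↔ ∃ i, Holds (L i) x := by
    intro x
    rw [h3]
    constructor
    · rintro ⟨T, hT, hx⟩
      exact ⟨𝒯.equivFin ⟨T, hT⟩, by simpa [hL] using hx⟩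
    · rintro ⟨i, hx⟩
      exact ⟨L i, (𝒯.equivFin.symm i).2, hx⟩
  have key := switching h0 h1 hp L hLw (t + 1) (fun _ => True) (fun _ _ _ _ _ => trivial)
  refine le_trans (W_mono h0.le h1.le (fun ρ hρ => ?_)) key
  refine ⟨trivial, ?_⟩
  by_contra hb
  exact hρ (dt_of_not_bad L f hfx t ρ hb)

/-- Push-forward of product weights. -/
lemma push {A B : Type*} [Fintype A] [Fintype B] (v : Fin m → A → ℝ) (φ : Fin m → A → B)
    (F : (Fin m → B) → ℝ) :
    ∑ a : Fin m → A, (∏ i, v i (a i)) * F (fun i => φ i (a i)) =
      ∑ b : Fin m → B, (∏ i, ∑ a ∈ Finset.univ.filter (fun a => φ i a = b i), v i a) * F b := by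
  have e1 : ∀ b : Fin m → B, (∏ i, ∑ a ∈ Finset.univ.filter (fun a => φ i a = b i), v i a) =
      ∑ a ∈ Finset.univ.filter (fun a : Fin m → A => (fun i => φ i (a i)) = b),
        ∏ i, v i (a i) := by
    intro b
    rw [Finset.prod_univ_sum]
    refine Finset.sum_congr ?_ (fun _ _ => rfl)
    ext a
    simp only [Fintype.mem_piFinset, Finset.mem_filter, Finset.mem_univ, true_and]
    constructor
    · intro h; funext i; exact h i
    · intro h i; exact congrFun h i
  simp only [e1, Finset.sum_mul]
  rw [← Finset.sum_fiberwise (s := Finset.univ) (g := fun a : Fin m → A => fun i => φ i (a i))]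
  refine Finset.sum_congr rfl (fun b _ => ?_)
  refine Finset.sum_congr rfl (fun a ha => ?_)
  simp only [Finset.mem_filter, Finset.mem_univ, true_and] at ha
  rw [ha]

lemma wt1_sum (p : ℝ) : ∑ o : Option Bool, wt1 p o = 1 := by
  rw [Fintype.sum_option]
  simp only [wt1, if_true, reduceCtorEq, if_false, Fintype.sum_bool]
  ring

lemma W_true (p : ℝ) : W p (fun _ : Restr m => True) = 1 := by
  unfold W wt
  simp only [if_true]
  have := Finset.prod_univ_sum (fun _ : Fin m => (Finset.univ : Finset (Option Bool)))
    (fun _ o => wt1 p o)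
  simp only [wt1_sum, Finset.prod_const_one, Fintype.piFinset_univ] at this
  exact this.symm

/-- First restrict by `ρ`, then restrict the remaining coordinates by `σ`. -/
def comp (ρ σ : Restr m) : Restr m := fun i => (ρ i).orElse (fun _ => σ i)

lemma app_comp (ρ σ : Restr m) (x : Cube m) : app (comp ρ σ) x = app ρ (app σ x) := by
  funext i
  unfold app comp
  cases ρ i <;> simp

/-- Expectation over a `q`-random restriction. -/
noncomputable def Ex (p : ℝ) (F : Restr m → ℝ) : ℝ := ∑ ρ : Restr m, wt p ρ * F ρ

lemma Ex_comp (p q : ℝ) (F : Restr m → ℝ) :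
    Ex p (fun ρ => Ex q (fun σ => F (comp ρ σ))) = Ex (p * q) F := by
  unfold Ex
  have h1 : ∑ ρ : Restr m, wt p ρ * ∑ σ : Restr m, wt q σ * F (comp ρ σ) =
      ∑ a : Fin m → Option Bool × Option Bool,
        (∏ i, (wt1 p (a i).1 * wt1 q (a i).2)) *
          F (fun i => (a i).1.orElse (fun _ => (a i).2)) := by
    rw [← (Equiv.arrowProdEquivProdArrow (Fin m) (fun _ => Option Bool)
      (fun _ => Option Bool)).symm.sum_comp, Fintype.sum_prod_type]
    refine Finset.sum_congr rfl (fun ρ _ => ?_)
    rw [Finset.mul_sum]
    refine Finset.sum_congr rfl (fun σ _ => ?_)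
    unfold wt
    rw [← mul_assoc, ← Finset.prod_mul_distrib]
    rfl
  rw [h1]
  have h2 := push (m := m) (fun _ (o : Option Bool × Option Bool) => wt1 p o.1 * wt1 q o.2)
    (fun _ o => o.1.orElse (fun _ => o.2)) F
  rw [h2]
  refine Finset.sum_congr rfl (fun b _ => ?_)
  congr 1
  unfold wt
  refine Finset.prod_congr rfl (fun i _ => ?_)
  rw [Finset.sum_filter, Fintype.sum_prod_type, Fintype.sum_option]
  simp only [Fintype.sum_option, Fintype.sum_bool, wt1]
  cases hb : b i with
  | none => simp
  | some c => cases c <;> simp <;> ring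

/-- Averaging over a random restriction with coordinate `i` free and a random point. -/
lemma Ex_point (q : ℝ) (i : Fin m) (h : Cube m → ℝ) :
    Ex q (fun ρ => ∑ x : Cube m, if ρ i = none then h (app ρ x) else 0) =
      q * ∑ y : Cube m, h y := by
  unfold Ex
  have h1 : ∑ ρ : Restr m, wt q ρ * ∑ x : Cube m, (if ρ i = none then h (app ρ x) else 0) =
      ∑ a : Fin m → Option Bool × Bool,
        (∏ j, (wt1 q (a j).1 * (if j = i ∧ (a j).1 ≠ none then 0 else 1))) *
          h (fun j => (a j).1.getD (a j).2) := by
    rw [← (Equiv.arrowProdEquivProdArrow (Fin m) (fun _ => Option Bool)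
      (fun _ => Bool)).symm.sum_comp, Fintype.sum_prod_type]
    refine Finset.sum_congr rfl (fun ρ _ => ?_)
    rw [Finset.mul_sum]
    refine Finset.sum_congr rfl (fun x _ => ?_)
    rw [Finset.prod_mul_distrib]
    have e : (∏ j, (if j = i ∧ ρ j ≠ none then (0 : ℝ) else 1)) =
        if ρ i = none then 1 else 0 := by
      by_cases hi : ρ i = none
      · rw [if_pos hi]
        refine Finset.prod_eq_one (fun j _ => ?_)
        rw [if_neg]
        rintro ⟨rfl, hj⟩
        exact hj hi
      · rw [if_neg hi]
        refine Finset.prod_eq_zero (Finset.mem_univ i) ?_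
        simp [hi]
    change wt q ρ * _ = ((∏ j, wt1 q (ρ j)) * ∏ j, (if j = i ∧ ρ j ≠ none then (0 : ℝ) else 1))
      * h (app ρ x)
    rw [e]
    unfold wt
    split_ifs <;> ring
  rw [h1]
  have h2 := push (m := m) (fun j (o : Option Bool × Bool) =>
    wt1 q o.1 * (if j = i ∧ o.1 ≠ none then 0 else 1)) (fun _ o => o.1.getD o.2) h
  rw [h2, Finset.mul_sum]
  refine Finset.sum_congr rfl (fun b _ => ?_)
  congr 1
  have h3 : ∀ j : Fin m, ∑ a ∈ Finset.univ.filter (fun a : Option Bool × Bool =>
      a.1.getD a.2 = b j), wt1 q a.1 * (if j = i ∧ a.1 ≠ none then (0 : ℝ) else 1) =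
      if j = i then q else 1 := by
    intro j
    rw [Finset.sum_filter, Fintype.sum_prod_type, Fintype.sum_option]
    simp only [Fintype.sum_bool, wt1]
    by_cases hj : j = i
    · cases b j <;> simp [hj]
    · cases b j <;> simp [hj]
  calc _ = ∏ j : Fin m, (if j = i then q else 1) :=
        Finset.prod_congr rfl (fun j _ => by convert h3 j)
    _ = q := by simp

variable {s : ℕ}

/-- All gates of level at most `j` have shallow decision trees under `ρ`. -/
def Good (C : Circuit m s) (l j : ℕ) (ρ : Restr m) : Prop :=
  ∀ g, C.level g ≤ j → DT l (fun x => C.val g (app ρ x))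

lemma Good.comp {C : Circuit m s} {l j : ℕ} {ρ : Restr m} (h : Good C l j ρ) (σ : Restr m) :
    Good C l j (comp ρ σ) := by
  intro g hg
  have := (h g hg).app σ
  convert this using 3 with x
  rw [app_comp]

/-- Under a good restriction, a gate of the next level is, up to negation, a narrow
disjunctive normal form. -/
lemma Good.next {C : Circuit m s} {l j : ℕ} {ρ : Restr m} (h : Good C l j ρ)
    (g : Fin s) (hg : C.level g = j + 1) :
    IsDNF l (fun x => C.val g (app ρ x)) ∨ IsDNF l (fun x => !(C.val g (app ρ x))) := by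
  rcases C.gate g with ⟨h0, _⟩ | ⟨A, B, hA, hB, hand | hor⟩
  · rw [hg] at h0; exact absurd h0 (Nat.succ_ne_zero _)
  · right
    refine IsDNF.biUnion ((A.image Sum.inl) ∪ (B.image Sum.inr) : Finset (Fin s ⊕ Fin s))
      (fun q => match q with
        | Sum.inl h => fun x => !(C.val h (app ρ x))
        | Sum.inr h => fun x => C.val h (app ρ x)) ?_ _ ?_
    · intro q hq
      rcases Finset.mem_union.1 hq with hq | hq
      · obtain ⟨h', hh', rfl⟩ := Finset.mem_image.1 hq
        exact ((h h' (by have := hA h' hh'; omega)).not).isDNF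
      · obtain ⟨h', hh', rfl⟩ := Finset.mem_image.1 hq
        exact (h h' (by have := hB h' hh'; omega)).isDNF
    · intro x
      have e : (!(C.val g (app ρ x))) = true ↔ ¬ (C.val g (app ρ x) = true) := by simp
      rw [e, hand]
      constructor
      · intro hn
        by_cases hAx : ∀ h ∈ A, C.val h (app ρ x) = true
        · have : ¬ ∀ h ∈ B, C.val h (app ρ x) = false := fun hb => hn ⟨hAx, hb⟩
          push Not at this
          obtain ⟨h', hh', hv⟩ := this
          exact ⟨Sum.inr h', Finset.mem_union_right _ (Finset.mem_image_of_mem _ hh'),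
            by simpa using hv⟩
        · push Not at hAx
          obtain ⟨h', hh', hv⟩ := hAx
          exact ⟨Sum.inl h', Finset.mem_union_left _ (Finset.mem_image_of_mem _ hh'),
            by simpa using hv⟩
      · rintro ⟨q, hq, hv⟩ ⟨h1, h2⟩
        rcases Finset.mem_union.1 hq with hq | hq
        · obtain ⟨h', hh', rfl⟩ := Finset.mem_image.1 hq
          have := h1 h' hh'
          simp [this] at hv
        · obtain ⟨h', hh', rfl⟩ := Finset.mem_image.1 hq
          have := h2 h' hh'
          simp [this] at hv
  · left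
    refine IsDNF.biUnion ((A.image Sum.inl) ∪ (B.image Sum.inr) : Finset (Fin s ⊕ Fin s))
      (fun q => match q with
        | Sum.inl h => fun x => C.val h (app ρ x)
        | Sum.inr h => fun x => !(C.val h (app ρ x))) ?_ _ ?_
    · intro q hq
      rcases Finset.mem_union.1 hq with hq | hq
      · obtain ⟨h', hh', rfl⟩ := Finset.mem_image.1 hq
        exact (h h' (by have := hA h' hh'; omega)).isDNF
      · obtain ⟨h', hh', rfl⟩ := Finset.mem_image.1 hq
        exact ((h h' (by have := hB h' hh'; omega)).not).isDNF
    · intro x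
      rw [hor]
      constructor
      · rintro (⟨h', hh', hv⟩ | ⟨h', hh', hv⟩)
        · exact ⟨Sum.inl h', Finset.mem_union_left _ (Finset.mem_image_of_mem _ hh'), hv⟩
        · exact ⟨Sum.inr h', Finset.mem_union_right _ (Finset.mem_image_of_mem _ hh'),
            by simp [hv]⟩
      · rintro ⟨q, hq, hv⟩
        rcases Finset.mem_union.1 hq with hq | hq
        · obtain ⟨h', hh', rfl⟩ := Finset.mem_image.1 hq
          exact Or.inl ⟨h', hh', hv⟩
        · obtain ⟨h', hh', rfl⟩ := Finset.mem_image.1 hq
          exact Or.inr ⟨h', hh', by simpa using hv⟩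

/-- The indicator of a proposition. -/
noncomputable def ind (P : Prop) : ℝ := if P then 1 else 0

lemma ind_pos {P : Prop} (h : P) : ind P = 1 := if_pos h

lemma ind_neg {P : Prop} (h : ¬ P) : ind P = 0 := if_neg h

lemma W_eq_Ex (p : ℝ) (E : Restr m → Prop) : W p E = Ex p (fun ρ => ind (E ρ)) := by
  unfold W Ex
  refine Finset.sum_congr rfl (fun ρ _ => ?_)
  beta_reduce
  by_cases h : E ρ
  · rw [if_pos h, ind_pos h, mul_one]
  · rw [if_neg h, ind_neg h, mul_zero]

lemma Ex_mono {p : ℝ} (h0 : 0 ≤ p) (h1 : p ≤ 1) {F G : Restr m → ℝ} (h : ∀ ρ, F ρ ≤ G ρ) :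
    Ex p F ≤ Ex p G :=
  Finset.sum_le_sum (fun ρ _ => mul_le_mul_of_nonneg_left (h ρ) (wt_nonneg h0 h1 ρ))

/-- The probability that a random restriction is not good for the first `j` levels. -/
lemma bad_prob (C : Circuit m s) {l : ℕ} (hl : 1 ≤ l) {p : ℝ} (h0 : 0 < p) (h1 : p < 1)
    (hp : (1 + 8 * p / (1 - p)) ^ l ≤ 2) :
    ∀ j : ℕ, W (p ^ j) (fun ρ => ¬ Good C l j ρ) ≤
      ((Finset.univ.filter (fun g => 1 ≤ C.level g ∧ C.level g ≤ j)).card : ℝ) *
        (1 / 2) ^ (l + 1) := by
  intro j
  induction j with
  | zero =>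
    have : ∀ ρ : Restr m, Good C l 0 ρ := by
      intro ρ g hg
      rcases C.gate g with ⟨_, ⟨b, hb⟩ | ⟨i, b, hb⟩⟩ | ⟨A, B, hA, hB, hand | hor⟩
      · exact DT.const _ _ b (fun x => hb _)
      · refine DT.mono (n := 1) ?_ hl
        refine DT.app (f := C.val g) ?_ ρ
        refine DT.query _ _ i (fun c => ?_)
        refine DT.const _ _ (decide (c = b)) (fun x => ?_)
        have := hb (Function.update x i c)
        simp only [Function.update_self] at this
        by_cases hcb : c = b
        · simp only [hcb, decide_true]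
          rw [← hcb]; exact this.2 hcb
        · have h3 : ¬ (C.val g (Function.update x i c) = true) := fun hh => hcb (this.1 hh)
          simp [hcb]
          simpa using h3
      · have hA' : A = ∅ := Finset.eq_empty_of_forall_notMem (fun h hh => by
          have := hA h hh; omega)
        have hB' : B = ∅ := Finset.eq_empty_of_forall_notMem (fun h hh => by
          have := hB h hh; omega)
        subst hA'; subst hB'
        exact DT.const _ _ true (fun x => (hand _).2 (by simp))
      · have hA' : A = ∅ := Finset.eq_empty_of_forall_notMem (fun h hh => by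
          have := hA h hh; omega)
        have hB' : B = ∅ := Finset.eq_empty_of_forall_notMem (fun h hh => by
          have := hB h hh; omega)
        subst hA'; subst hB'
        refine DT.const _ _ false (fun x => ?_)
        by_contra hc
        have : C.val g (app ρ x) = true := by simpa using hc
        simpa using (hor _).1 this
    have e : W (p ^ 0) (fun ρ : Restr m => ¬ Good C l 0 ρ) = 0 := by
      unfold W
      simp [this]
    rw [e]
    positivity
  | succ j ih =>
    have hpj0 : 0 ≤ p ^ j := pow_nonneg h0.le _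
    have hpj1 : p ^ j ≤ 1 := pow_le_one₀ h0.le h1.le
    rw [W_eq_Ex, pow_succ, ← Ex_comp]
    -- the gates of level exactly `j + 1`
    set S : Finset (Fin s) := Finset.univ.filter (fun g => C.level g = j + 1) with hS
    have hcard : ((Finset.univ.filter (fun g => 1 ≤ C.level g ∧ C.level g ≤ j + 1)).card : ℝ) =
        ((Finset.univ.filter (fun g => 1 ≤ C.level g ∧ C.level g ≤ j)).card : ℝ) + S.card := by
      have : Finset.univ.filter (fun g => 1 ≤ C.level g ∧ C.level g ≤ j + 1) =
          Finset.univ.filter (fun g => 1 ≤ C.level g ∧ C.level g ≤ j) ∪ S := by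
        ext g
        simp only [Finset.mem_filter, Finset.mem_univ, true_and, Finset.mem_union, hS]
        omega
      rw [this, Finset.card_union_of_disjoint]
      · push_cast; ring
      · refine Finset.disjoint_left.2 (fun g hg hg' => ?_)
        simp only [Finset.mem_filter, Finset.mem_univ, true_and, hS] at hg hg'
        omega
    have hbound : ∀ ρ : Restr m,
        Ex p (fun σ => ind (¬ Good C l (j + 1) (comp ρ σ))) ≤
          ind (¬ Good C l j ρ) + S.card * (1 / 2) ^ (l + 1) := by
      intro ρ
      by_cases hρ : Good C l j ρ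
      · rw [ind_neg (not_not.2 hρ), zero_add]
        rw [← W_eq_Ex]
        have hu := W_union (m := m) h0.le h1.le S
          (fun σ => ¬ Good C l (j + 1) (comp ρ σ))
          (fun g σ => ¬ DT l (fun x => C.val g (app (comp ρ σ) x))) (by
            intro σ hσ
            by_contra hcon
            push Not at hcon
            apply hσ
            intro g hg
            by_cases hgj : C.level g ≤ j
            · exact hρ.comp σ g hgj
            · exact hcon g (by simp only [hS, Finset.mem_filter, Finset.mem_univ, true_and]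
                               omega))
        refine hu.trans ?_
        have : ∀ g ∈ S, W p (fun σ : Restr m => ¬ DT l (fun x => C.val g (app (comp ρ σ) x)))
            ≤ (1 / 2) ^ (l + 1) := by
          intro g hg
          simp only [hS, Finset.mem_filter, Finset.mem_univ, true_and] at hg
          rcases hρ.next g hg with hd | hd
          · have := hd.switch h0 h1 hp l
            rw [W_true, mul_one] at this
            simpa only [app_comp] using this
          · have := hd.switch h0 h1 hp l
            rw [W_true, mul_one] at this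
            refine le_trans (W_mono h0.le h1.le ?_) this
            intro σ hσ hc
            apply hσ
            have := hc.not
            simpa only [app_comp, Bool.not_not] using this
        calc _ ≤ ∑ g ∈ S, ((1 : ℝ) / 2) ^ (l + 1) := Finset.sum_le_sum this
          _ = _ := by simp
      · rw [ind_pos hρ]
        have : Ex p (fun σ => ind (¬ Good C l (j + 1) (comp ρ σ))) ≤ 1 := by
          rw [← W_eq_Ex]
          calc _ ≤ W p (fun _ : Restr m => True) :=
              W_mono h0.le h1.le (fun _ _ => trivial)
            _ = 1 := W_true p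
        have h3 : (0 : ℝ) ≤ S.card * (1 / 2) ^ (l + 1) := by positivity
        linarith
    calc Ex (p ^ j) (fun ρ => Ex p (fun σ => ind (¬ Good C l (j + 1) (comp ρ σ))))
        ≤ Ex (p ^ j) (fun ρ => ind (¬ Good C l j ρ) +
            S.card * (1 / 2) ^ (l + 1)) := Ex_mono hpj0 hpj1 hbound
      _ = W (p ^ j) (fun ρ => ¬ Good C l j ρ) +
            S.card * (1 / 2) ^ (l + 1) * W (p ^ j) (fun _ : Restr m => True) := by
          rw [W_eq_Ex, W_eq_Ex]
          unfold Ex
          rw [Finset.mul_sum, ← Finset.sum_add_distrib]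
          refine Finset.sum_congr rfl (fun ρ _ => ?_)
          beta_reduce
          rw [ind_pos trivial]
          ring
      _ ≤ ((Finset.univ.filter (fun g => 1 ≤ C.level g ∧ C.level g ≤ j + 1)).card : ℝ) *
            (1 / 2) ^ (l + 1) := by
          rw [W_true, mul_one, hcard, add_mul]
          linarith

/-- **Weighted total sensitivity of a circuit.**  For any family `o` of output gates of a
circuit with `s` gates of level at most `k`, the total number of pairs (point, coordinate)
at which an output changes from one to zero is at most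
`(16 l)^k * (l * (number of ones) + (error term))`. -/
theorem circuit_sensitivity (C : Circuit m s) {k l : ℕ} (hl : 1 ≤ l)
    (hk : ∀ g, C.level g ≤ k) {ι : Type*} [Fintype ι] (o : ι → Fin s) :
    (∑ x : Cube m, ∑ i : Fin m,
      ((Finset.univ.filter (fun a => C.val (o a) x = true ∧
        C.val (o a) (flipBit x i) = false)).card : ℝ)) ≤
    (16 * l) ^ k * (l * (∑ x : Cube m,
        ((Finset.univ.filter (fun a => C.val (o a) x = true)).card : ℝ)) +
      2 ^ m * (m * Fintype.card ι * (s * (1 / 2) ^ (l + 1)))) := by
  set p : ℝ := 1 / (16 * l) with hpdef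
  have hlr : (1 : ℝ) ≤ l := by exact_mod_cast hl
  have h0 : 0 < p := by positivity
  have h1 : p < 1 := by
    rw [hpdef, div_lt_one (by positivity)]
    linarith
  have hp : (1 + 8 * p / (1 - p)) ^ l ≤ 2 := by
    have e : 8 * p / (1 - p) = 8 / (16 * l - 1) := by
      rw [hpdef]
      have h3 : (16 * (l : ℝ)) ≠ 0 := by positivity
      have h4 : (16 * (l : ℝ)) - 1 ≠ 0 := by linarith
      field_simp
    rw [e]
    have h5 : 8 / (16 * (l : ℝ) - 1) ≤ (8 / 15) / l := by
      rw [div_le_div_iff₀ (by linarith) (by linarith)]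
      nlinarith
    have h6 : 1 + 8 / (16 * (l : ℝ) - 1) ≤ Real.exp ((8 / 15) / l) := by
      have := Real.add_one_le_exp ((8 / 15) / (l : ℝ))
      linarith
    have h7 : (1 + 8 / (16 * (l : ℝ) - 1)) ^ l ≤ Real.exp (8 / 15) := by
      calc (1 + 8 / (16 * (l : ℝ) - 1)) ^ l ≤ (Real.exp ((8 / 15) / l)) ^ l := by
            refine pow_le_pow_left₀ ?_ h6 l
            have : 0 < 8 / (16 * (l : ℝ) - 1) := div_pos (by norm_num) (by linarith)
            linarith
        _ = Real.exp (8 / 15) := by
            rw [← Real.exp_nat_mul]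
            congr 1
            have : (l : ℝ) ≠ 0 := by linarith
            field_simp
    refine h7.trans ?_
    have h8 : Real.exp (8 / 15) ≤ Real.exp (Real.log 2) := by
      refine Real.exp_le_exp.2 ?_
      have := Real.log_two_gt_d9
      linarith
    rwa [Real.exp_log (by norm_num)] at h8
  have hpk0 : 0 < p ^ k := pow_pos h0 _
  have hpk1 : p ^ k ≤ 1 := pow_le_one₀ h0.le h1.le
  -- the number of output gates equal to one
  set T : Cube m → ℝ := fun y =>
    ((Finset.univ.filter (fun a => C.val (o a) y = true)).card : ℝ) with hT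
  set D : Fin m → Cube m → ℝ := fun i y =>
    ((Finset.univ.filter (fun a => C.val (o a) y = true ∧
        C.val (o a) (flipBit y i) = false)).card : ℝ) with hD
  have hTcard : ∀ y, T y ≤ Fintype.card ι := by
    intro y
    simp only [hT]
    exact_mod_cast Finset.card_le_univ _
  have hT0 : ∀ y, 0 ≤ T y := fun y => by simp only [hT]; positivity
  have hDT : ∀ i y, D i y ≤ T y := by
    intro i y
    simp only [hT, hD]
    exact_mod_cast Finset.card_le_card (fun a ha => by
      simp only [Finset.mem_filter, Finset.mem_univ, true_and] at ha ⊢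
      exact ha.1)
  have hD0 : ∀ i y, 0 ≤ D i y := fun i y => by simp only [hD]; positivity
  -- pointwise bound
  have hpt : ∀ (ρ : Restr m) (x : Cube m),
      ∑ i : Fin m, (if ρ i = none then D i (app ρ x) else 0) ≤
        (l : ℝ) * T (app ρ x) + m * (Fintype.card ι) * ind (¬ Good C l k ρ) := by
    intro ρ x
    by_cases hρ : Good C l k ρ
    · rw [ind_neg (not_not.2 hρ), mul_zero, add_zero]
      have hflip : ∀ i, ρ i = none → flipBit (app ρ x) i = app ρ (flipBit x i) := by
        intro i hi
        funext j
        by_cases hj : j = i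
        · subst hj; simp [flipBit, app, hi]
        · simp [flipBit, app, hj]
      have h9 : ∀ i, (if ρ i = none then D i (app ρ x) else 0) ≤
          ∑ a : ι, (if C.val (o a) (app ρ x) = true ∧
            C.val (o a) (app ρ x) ≠ C.val (o a) (app ρ (flipBit x i)) then (1 : ℝ) else 0) := by
        intro i
        split_ifs with hi
        · simp only [hD]
          rw [Finset.card_filter]
          push_cast
          refine Finset.sum_le_sum (fun a _ => ?_)
          rw [hflip i hi]
          split_ifs with h10 h11 h11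
          · exact le_rfl
          · exact absurd ⟨h10.1, by rw [h10.1, h10.2]; simp⟩ h11
          · norm_num
          · exact le_rfl
        · refine Finset.sum_nonneg (fun a _ => ?_)
          split_ifs <;> norm_num
      calc ∑ i : Fin m, (if ρ i = none then D i (app ρ x) else 0)
          ≤ ∑ i : Fin m, ∑ a : ι, (if C.val (o a) (app ρ x) = true ∧
            C.val (o a) (app ρ x) ≠ C.val (o a) (app ρ (flipBit x i)) then (1 : ℝ) else 0) :=
            Finset.sum_le_sum (fun i _ => h9 i)
        _ = ∑ a : ι, ∑ i : Fin m, (if C.val (o a) (app ρ x) = true ∧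
            C.val (o a) (app ρ x) ≠ C.val (o a) (app ρ (flipBit x i)) then (1 : ℝ) else 0) :=
            Finset.sum_comm
        _ ≤ ∑ a : ι, (if C.val (o a) (app ρ x) = true then (l : ℝ) else 0) := by
            refine Finset.sum_le_sum (fun a _ => ?_)
            by_cases ha : C.val (o a) (app ρ x) = true
            · have hs := (hρ (o a) (hk _)).sens x
              simp only [ha, true_and, if_true]
              rw [Finset.sum_boole]
              have : (Finset.univ.filter (fun i => C.val (o a) (app ρ x) ≠
                  C.val (o a) (app ρ (flipBit x i)))).card ≤ l := hs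
              rw [ha] at this
              exact_mod_cast this
            · simp [ha]
        _ = (l : ℝ) * T (app ρ x) := by
            simp only [hT]
            rw [← Finset.sum_filter, Finset.sum_const, nsmul_eq_mul, mul_comm]
    · rw [ind_pos hρ, mul_one]
      have : ∑ i : Fin m, (if ρ i = none then D i (app ρ x) else 0) ≤
          ∑ _i : Fin m, (Fintype.card ι : ℝ) := by
        refine Finset.sum_le_sum (fun i _ => ?_)
        split_ifs
        · exact (hDT i _).trans (hTcard _)
        · positivity
      rw [Finset.sum_const, Finset.card_univ, Fintype.card_fin, nsmul_eq_mul] at this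
      have h12 : 0 ≤ (l : ℝ) * T (app ρ x) := mul_nonneg (by positivity) (hT0 _)
      linarith
  -- average
  have havg : Ex (p ^ k) (fun ρ => ∑ x : Cube m,
      ∑ i : Fin m, (if ρ i = none then D i (app ρ x) else 0)) ≤
      Ex (p ^ k) (fun ρ => ∑ x : Cube m, ((l : ℝ) * T (app ρ x) +
        m * (Fintype.card ι) * ind (¬ Good C l k ρ))) :=
    Ex_mono hpk0.le hpk1 (fun ρ => Finset.sum_le_sum (fun x _ => hpt ρ x))
  have hlhs : Ex (p ^ k) (fun ρ => ∑ x : Cube m,
      ∑ i : Fin m, (if ρ i = none then D i (app ρ x) else 0)) =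
      p ^ k * ∑ x : Cube m, ∑ i : Fin m, D i x := by
    have : ∀ ρ : Restr m, ∑ x : Cube m, ∑ i : Fin m,
        (if ρ i = none then D i (app ρ x) else 0) =
        ∑ i : Fin m, ∑ x : Cube m, (if ρ i = none then D i (app ρ x) else 0) :=
      fun ρ => Finset.sum_comm
    simp only [this]
    unfold Ex
    simp only [Finset.mul_sum]
    rw [Finset.sum_comm]
    rw [Finset.sum_comm (s := (Finset.univ : Finset (Cube m)))]
    refine Finset.sum_congr rfl (fun i _ => ?_)
    have h13 := Ex_point (p ^ k) i (D i)
    unfold Ex at h13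
    simp only [Finset.mul_sum] at h13
    exact h13
  -- average of `T (app ρ x)`
  have hTavg : Ex (p ^ k) (fun ρ => ∑ x : Cube m, T (app ρ x)) = ∑ x : Cube m, T x := by
    unfold Ex
    have h14 : ∑ ρ : Restr m, wt (p ^ k) ρ * ∑ x : Cube m, T (app ρ x) =
        ∑ a : Fin m → Option Bool × Bool, (∏ j, wt1 (p ^ k) (a j).1) *
          T (fun j => (a j).1.getD (a j).2) := by
      rw [← (Equiv.arrowProdEquivProdArrow (Fin m) (fun _ => Option Bool)
        (fun _ => Bool)).symm.sum_comp, Fintype.sum_prod_type]
      refine Finset.sum_congr rfl (fun ρ _ => ?_)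
      rw [Finset.mul_sum]
      rfl
    rw [h14]
    have h2 := push (m := m) (fun _ (o : Option Bool × Bool) => wt1 (p ^ k) o.1)
      (fun _ o => o.1.getD o.2) T
    rw [h2]
    refine Finset.sum_congr rfl (fun b _ => ?_)
    have h3 : ∀ j : Fin m, ∑ a ∈ Finset.univ.filter (fun a : Option Bool × Bool =>
        a.1.getD a.2 = b j), wt1 (p ^ k) a.1 = 1 := by
      intro j
      rw [Finset.sum_filter, Fintype.sum_prod_type, Fintype.sum_option]
      simp only [Fintype.sum_bool, wt1]
      cases b j <;> simp
    have h4 : (∏ j : Fin m, ∑ a ∈ Finset.univ.filter (fun a : Option Bool × Bool =>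
        a.1.getD a.2 = b j), wt1 (p ^ k) a.1) = 1 :=
      Finset.prod_eq_one (fun j _ => h3 j)
    calc _ = 1 * T b := by congr 1; convert h4
      _ = T b := one_mul _
  have hrhs : Ex (p ^ k) (fun ρ => ∑ x : Cube m, ((l : ℝ) * T (app ρ x) +
        m * (Fintype.card ι) * ind (¬ Good C l k ρ))) =
      l * (∑ x : Cube m, T x) + 2 ^ m * (m * Fintype.card ι *
        W (p ^ k) (fun ρ => ¬ Good C l k ρ)) := by
    rw [← hTavg, W_eq_Ex]
    unfold Ex
    rw [Finset.mul_sum, Finset.mul_sum, Finset.mul_sum, ← Finset.sum_add_distrib]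
    refine Finset.sum_congr rfl (fun ρ _ => ?_)
    beta_reduce
    rw [Finset.sum_add_distrib, ← Finset.mul_sum, Finset.sum_const, Finset.card_univ]
    simp only [Fintype.card_pi, Fintype.card_bool, Finset.prod_const, Finset.card_univ,
      Fintype.card_fin, nsmul_eq_mul]
    push_cast
    ring
  rw [hlhs, hrhs] at havg
  have hbp := bad_prob C hl h0 h1 hp k
  have hs : ((Finset.univ.filter (fun g => 1 ≤ C.level g ∧ C.level g ≤ k)).card : ℝ) ≤ s := by
    have := Finset.card_le_univ (Finset.univ.filter (fun g => 1 ≤ C.level g ∧ C.level g ≤ k))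
    rw [Fintype.card_fin] at this
    exact_mod_cast this
  have hbp2 : W (p ^ k) (fun ρ => ¬ Good C l k ρ) ≤ s * (1 / 2) ^ (l + 1) :=
    hbp.trans (mul_le_mul_of_nonneg_right hs (by positivity))
  have hfin : p ^ k * ∑ x : Cube m, ∑ i : Fin m, D i x ≤
      l * (∑ x : Cube m, T x) + 2 ^ m * (m * Fintype.card ι * (s * (1 / 2) ^ (l + 1))) := by
    refine havg.trans ?_
    have h15 : (m : ℝ) * Fintype.card ι * W (p ^ k) (fun ρ => ¬ Good C l k ρ) ≤
        m * Fintype.card ι * (s * (1 / 2) ^ (l + 1)) :=
      mul_le_mul_of_nonneg_left hbp2 (by positivity)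
    have h16 : (2 : ℝ) ^ m * (m * Fintype.card ι * W (p ^ k) (fun ρ => ¬ Good C l k ρ)) ≤
        2 ^ m * (m * Fintype.card ι * (s * (1 / 2) ^ (l + 1))) :=
      mul_le_mul_of_nonneg_left h15 (by positivity)
    linarith
  have hinv : (16 * (l : ℝ)) ^ k * p ^ k = 1 := by
    rw [← mul_pow, hpdef]
    have : (16 * (l : ℝ)) ≠ 0 := by positivity
    rw [mul_one_div_cancel this, one_pow]
  calc ∑ x : Cube m, ∑ i : Fin m, D i x
      = (16 * (l : ℝ)) ^ k * (p ^ k * ∑ x : Cube m, ∑ i : Fin m, D i x) := by
        rw [← mul_assoc, hinv, one_mul]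
    _ ≤ _ := mul_le_mul_of_nonneg_left hfin (by positivity)

end Pool.Agent.Lib.MP_8d8c46_lc
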