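import Pool.Agent.Lib.MP_8d8c46_lc.Mg.G017

/-!
Concentration of the statistics of a random system, uniformly over all `[0,1]`-valued functions on
the literals.
-/

open scoped Classical
open Finset

namespace Pool.Agent.Lib.MP_8d8c46_lc

section
variable {n D : ℕ}

/-- The statistics `emp ω ψ F` is, up to `ε` per local solution, at most its expectation. -/
def QR (ω : Fin D → Om n) (ψ : ℝ → ℝ) (ε : ℝ) : Prop :=
  ∀ F : Fin n × ZMod 2 → ℝ, (∀ ℓ, 0 ≤ F ℓ ∧ F ℓ ≤ 1) →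
    emp ω ψ F ≤ D * (tri ψ F / (2 * n ^ 2) + 4 * n * ε)

lemma emp_lip (ω : Fin D → Om n) {ψ : ℝ → ℝ} {Λ κ : ℝ}
    (hψ : ∀ T T', 0 ≤ T → T ≤ 3 → 0 ≤ T' → T' ≤ 3 → |ψ T - ψ T'| ≤ Λ * |T - T'|) (hΛ : 0 ≤ Λ)
    {F F' : Fin n × ZMod 2 → ℝ} (hF : ∀ ℓ, 0 ≤ F ℓ ∧ F ℓ ≤ 1) (hF' : ∀ ℓ, 0 ≤ F' ℓ ∧ F' ℓ ≤ 1)
    (hd : ∀ ℓ, |F ℓ - F' ℓ| ≤ κ) :
    emp ω ψ F ≤ emp ω ψ F' + 4 * n * D * (3 * Λ * κ) := by
  have h1 : ∀ q : (Fin n × Fin D) × Lab, ψ (∑ i, F (rx ω q.1 i, sval (rb ω) q i)) ≤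
      ψ (∑ i, F' (rx ω q.1 i, sval (rb ω) q i)) + 3 * Λ * κ := by
    intro q
    have hb : ∀ G : Fin n × ZMod 2 → ℝ, (∀ ℓ, 0 ≤ G ℓ ∧ G ℓ ≤ 1) →
        0 ≤ ∑ i, G (rx ω q.1 i, sval (rb ω) q i) ∧
        ∑ i, G (rx ω q.1 i, sval (rb ω) q i) ≤ 3 := by
      intro G hG
      rw [Fin.sum_univ_three]
      have a0 := hG (rx ω q.1 0, sval (rb ω) q 0)
      have a1 := hG (rx ω q.1 1, sval (rb ω) q 1)
      have a2 := hG (rx ω q.1 2, sval (rb ω) q 2)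
      constructor <;> linarith
    have h2 := hψ _ _ (hb F hF).1 (hb F hF).2 (hb F' hF').1 (hb F' hF').2
    have h3 : |∑ i, F (rx ω q.1 i, sval (rb ω) q i) - ∑ i, F' (rx ω q.1 i, sval (rb ω) q i)| ≤
        3 * κ := by
      rw [← sum_sub_distrib]
      refine (abs_sum_le_sum_abs _ _).trans ?_
      refine (sum_le_sum (fun i _ => hd _)).trans ?_
      rw [sum_const, card_univ, Fintype.card_fin, nsmul_eq_mul]
      norm_num
    have h4 := (abs_le.1 (h2.trans (mul_le_mul_of_nonneg_left h3 hΛ))).2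
    linarith
  unfold emp
  refine (sum_le_sum (fun q _ => h1 q)).trans (le_of_eq ?_)
  rw [sum_add_distrib, sum_const, card_univ, Fintype.card_prod, Fintype.card_prod,
    Fintype.card_prod, ZMod.card, Fintype.card_fin, Fintype.card_fin, nsmul_eq_mul]
  push_cast
  ring

lemma tri_lip {ψ : ℝ → ℝ} {Λ κ : ℝ}
    (hψ : ∀ T T', 0 ≤ T → T ≤ 3 → 0 ≤ T' → T' ≤ 3 → |ψ T - ψ T'| ≤ Λ * |T - T'|) (hΛ : 0 ≤ Λ)
    {F F' : Fin n × ZMod 2 → ℝ} (hF : ∀ ℓ, 0 ≤ F ℓ ∧ F ℓ ≤ 1) (hF' : ∀ ℓ, 0 ≤ F' ℓ ∧ F' ℓ ≤ 1)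
    (hd : ∀ ℓ, |F ℓ - F' ℓ| ≤ κ) :
    tri ψ F ≤ tri ψ F' + 8 * n ^ 3 * (3 * Λ * κ) := by
  have h1 : ∀ a b c, ψ (F a + F b + F c) ≤ ψ (F' a + F' b + F' c) + 3 * Λ * κ := by
    intro a b c
    have hb : ∀ G : Fin n × ZMod 2 → ℝ, (∀ ℓ, 0 ≤ G ℓ ∧ G ℓ ≤ 1) →
        0 ≤ G a + G b + G c ∧ G a + G b + G c ≤ 3 := by
      intro G hG
      have a0 := hG a
      have a1 := hG b
      have a2 := hG c
      constructor <;> linarith
    have h2 := hψ _ _ (hb F hF).1 (hb F hF).2 (hb F' hF').1 (hb F' hF').2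
    have h3 : |(F a + F b + F c) - (F' a + F' b + F' c)| ≤ 3 * κ := by
      have a0 := abs_le.1 (hd a)
      have a1 := abs_le.1 (hd b)
      have a2 := abs_le.1 (hd c)
      rw [abs_le]
      constructor <;> linarith [a0.1, a0.2, a1.1, a1.2, a2.1, a2.2]
    have h4 := (abs_le.1 (h2.trans (mul_le_mul_of_nonneg_left h3 hΛ))).2
    linarith
  unfold tri
  calc ∑ a, ∑ b, ∑ c, ψ (F a + F b + F c)
      ≤ ∑ a : Fin n × ZMod 2, ∑ b : Fin n × ZMod 2, ∑ c : Fin n × ZMod 2,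
        (ψ (F' a + F' b + F' c) + 3 * Λ * κ) :=
        sum_le_sum (fun a _ => sum_le_sum (fun b _ => sum_le_sum (fun c _ => h1 a b c)))
    _ = _ := by
        simp only [sum_add_distrib, sum_const, card_univ, Fintype.card_prod, ZMod.card,
          Fintype.card_fin, nsmul_eq_mul]
        push_cast
        ring

/-- rounding down to multiples of `1 / K` -/
noncomputable def grid (K : ℕ) (G : Fin n × ZMod 2 → Fin (K + 1)) (ℓ : Fin n × ZMod 2) : ℝ :=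
  (G ℓ : ℕ) / (K : ℝ)

lemma grid_mem {K : ℕ} (hK : 0 < K) (G : Fin n × ZMod 2 → Fin (K + 1)) (ℓ : Fin n × ZMod 2) :
    0 ≤ grid K G ℓ ∧ grid K G ℓ ≤ 1 := by
  have hK' : (0 : ℝ) < K := by exact_mod_cast hK
  unfold grid
  refine ⟨by positivity, ?_⟩
  rw [div_le_one hK']
  exact_mod_cast Nat.lt_succ_iff.1 (G ℓ).2

lemma exists_grid {K : ℕ} (hK : 0 < K) {F : Fin n × ZMod 2 → ℝ}
    (hF : ∀ ℓ, 0 ≤ F ℓ ∧ F ℓ ≤ 1) :
    ∃ G : Fin n × ZMod 2 → Fin (K + 1), ∀ ℓ, |F ℓ - grid K G ℓ| ≤ 1 / K := by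
  have hK' : (0 : ℝ) < K := by exact_mod_cast hK
  have hlt : ∀ ℓ, ⌊(K : ℝ) * F ℓ⌋₊ < K + 1 := by
    intro ℓ
    have h1 : ⌊(K : ℝ) * F ℓ⌋₊ ≤ ⌊(K : ℝ)⌋₊ := by
      refine Nat.floor_le_floor ?_
      calc (K : ℝ) * F ℓ ≤ K * 1 := mul_le_mul_of_nonneg_left (hF ℓ).2 hK'.le
        _ = K := mul_one _
    rw [Nat.floor_natCast] at h1
    omega
  refine ⟨fun ℓ => ⟨⌊(K : ℝ) * F ℓ⌋₊, hlt ℓ⟩, fun ℓ => ?_⟩
  unfold grid
  simp only
  have h1 : (⌊(K : ℝ) * F ℓ⌋₊ : ℝ) ≤ K * F ℓ :=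
    Nat.floor_le (mul_nonneg hK'.le (hF ℓ).1)
  have h2 : (K : ℝ) * F ℓ < ⌊(K : ℝ) * F ℓ⌋₊ + 1 := Nat.lt_floor_add_one _
  have h3 : F ℓ - (⌊(K : ℝ) * F ℓ⌋₊ : ℝ) / K = (K * F ℓ - ⌊(K : ℝ) * F ℓ⌋₊) / K := by
    field_simp
  rw [h3, abs_div, abs_of_pos hK']
  refine div_le_div_of_nonneg_right ?_ hK'.le
  rw [abs_le]
  constructor <;> linarith

end

/-- For all large `D`, at least `7/8` of all systems have concentrated statistics. -/
theorem card_not_QR {ψ : ℝ → ℝ} {B Λ ε : ℝ} (hB : 0 < B) (hΛ : 0 ≤ Λ) (hε : 0 < ε)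
    (hb : ∀ T, 0 ≤ T → T ≤ 3 → |ψ T| ≤ B)
    (hl : ∀ T T', 0 ≤ T → T ≤ 3 → 0 ≤ T' → T' ≤ 3 → |ψ T - ψ T'| ≤ Λ * |T - T'|) :
    ∃ D₀ : ℕ, ∀ D n : ℕ, D₀ ≤ D → 0 < n →
      ((univ.filter (fun ω : Fin D → Om n => ¬ QR ω ψ ε)).card : ℝ) ≤
        (Fintype.card (Om n) : ℝ) ^ D / 8 := by
  -- the net
  obtain ⟨K, hK⟩ := exists_nat_gt (12 * Λ / ε)
  have hK0 : (0 : ℝ) < K := lt_of_le_of_lt (by positivity) hK
  have hKpos : 0 < K := by exact_mod_cast hK0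
  have hK6 : 6 * Λ * (1 / K) ≤ ε / 2 := by
    rw [div_lt_iff₀ hε] at hK
    rw [mul_one_div, div_le_iff₀ hK0]
    linarith
  set c : ℝ := (ε / 2) ^ 2 / (144 * B ^ 2) with hc
  have hc0 : 0 < c := by positivity
  obtain ⟨D₀, hD₀⟩ := exists_nat_gt (Real.log (8 * (K + 1) ^ 2) / c)
  refine ⟨D₀, fun D n hD hn => ?_⟩
  have hn' : (0 : ℝ) < n := by exact_mod_cast hn
  have hexp : ((K : ℝ) + 1) ^ 2 * Real.exp (-(D * c)) ≤ 1 / 8 := by
    have h1 : Real.log (8 * (K + 1) ^ 2) ≤ D * c := by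
      rw [div_lt_iff₀ hc0] at hD₀
      have : (D₀ : ℝ) ≤ D := by exact_mod_cast hD
      nlinarith
    have h2 : 8 * ((K : ℝ) + 1) ^ 2 ≤ Real.exp (D * c) := by
      rw [← Real.exp_log (by positivity : (0 : ℝ) < 8 * (K + 1) ^ 2)]
      exact Real.exp_le_exp.2 h1
    rw [Real.exp_neg, ← div_eq_mul_inv, div_le_div_iff₀ (Real.exp_pos _) (by norm_num)]
    linarith
  have hsub : univ.filter (fun ω : Fin D → Om n => ¬ QR ω ψ ε) ⊆
      (univ : Finset (Fin n × ZMod 2 → Fin (K + 1))).biUnion (fun G =>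
        univ.filter (fun ω : Fin D → Om n =>
          D * (tri ψ (grid K G) / (2 * n ^ 2) + 4 * n * (ε / 2)) < emp ω ψ (grid K G))) := by
    intro ω hω
    simp only [mem_filter, mem_univ, true_and] at hω
    unfold QR at hω
    push Not at hω
    obtain ⟨F, hF, hlt⟩ := hω
    obtain ⟨G, hG⟩ := exists_grid hKpos hF
    simp only [mem_biUnion, mem_univ, true_and, mem_filter]
    refine ⟨G, ?_⟩
    have h1 := emp_lip ω hl hΛ hF (fun ℓ => grid_mem hKpos G ℓ) hG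
    have h2 := tri_lip hl hΛ (fun ℓ => grid_mem hKpos G ℓ) hF
      (fun ℓ => by rw [abs_sub_comm]; exact hG ℓ)
    have h3 : tri ψ (grid K G) / (2 * n ^ 2) ≤ tri ψ F / (2 * n ^ 2) +
        4 * n * (3 * Λ * (1 / K)) := by
      rw [div_add' _ _ _ (by positivity)]
      refine div_le_div_of_nonneg_right (h2.trans (le_of_eq ?_)) (by positivity)
      ring
    have hD0 : (0 : ℝ) ≤ D := Nat.cast_nonneg D
    calc (D : ℝ) * (tri ψ (grid K G) / (2 * n ^ 2) + 4 * n * (ε / 2))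
        ≤ D * ((tri ψ F / (2 * n ^ 2) + 4 * n * (3 * Λ * (1 / K))) + 4 * n * (ε / 2)) :=
          mul_le_mul_of_nonneg_left (by linarith) hD0
      _ ≤ D * (tri ψ F / (2 * n ^ 2) + 4 * n * ε) - 4 * n * D * (3 * Λ * (1 / K)) := by
          have h4 : 4 * (n : ℝ) * D * (6 * Λ * (1 / K)) ≤ 4 * n * D * (ε / 2) :=
            mul_le_mul_of_nonneg_left hK6 (by positivity)
          nlinarith
      _ < emp ω ψ F - 4 * n * D * (3 * Λ * (1 / K)) := by linarith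
      _ ≤ emp ω ψ (grid K G) := by linarith
  calc ((univ.filter (fun ω : Fin D → Om n => ¬ QR ω ψ ε)).card : ℝ)
      ≤ ∑ G : Fin n × ZMod 2 → Fin (K + 1), ((univ.filter (fun ω : Fin D → Om n =>
          D * (tri ψ (grid K G) / (2 * n ^ 2) + 4 * n * (ε / 2)) <
            emp ω ψ (grid K G))).card : ℝ) := by
        exact_mod_cast (card_le_card hsub).trans card_biUnion_le
    _ ≤ ∑ _G : Fin n × ZMod 2 → Fin (K + 1), (Fintype.card (Om n) : ℝ) ^ D *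
          Real.exp (-(D * n * (ε / 2) ^ 2 / (144 * B ^ 2))) :=
        sum_le_sum (fun G _ => emp_tail (fun ℓ => grid_mem hKpos G ℓ) hB (by positivity) hb)
    _ = (Fintype.card (Om n) : ℝ) ^ D * (((K : ℝ) + 1) ^ 2 * Real.exp (-(D * c))) ^ n := by
        rw [sum_const, card_univ, Fintype.card_fun, Fintype.card_fin, Fintype.card_prod,
          ZMod.card, Fintype.card_fin, nsmul_eq_mul, mul_pow, ← Real.exp_nat_mul, ← pow_mul]
        push_cast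
        have e1 : (n : ℝ) * -(D * c) = -(D * n * (ε / 2) ^ 2 / (144 * B ^ 2)) := by
          rw [hc]; ring
        rw [e1, mul_comm n 2]
        ring
    _ ≤ (Fintype.card (Om n) : ℝ) ^ D * (1 / 8) ^ n := by
        refine mul_le_mul_of_nonneg_left ?_ (by positivity)
        exact pow_le_pow_left₀ (by positivity) hexp n
    _ ≤ (Fintype.card (Om n) : ℝ) ^ D * (1 / 8) ^ 1 := by
        refine mul_le_mul_of_nonneg_left ?_ (by positivity)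
        exact pow_le_pow_of_le_one (by norm_num) (by norm_num) hn
    _ = _ := by ring

end Pool.Agent.Lib.MP_8d8c46_lc
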