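import Pool.Agent.Lib.MP_8d8c46_lc.Model

/-!
A Yes instance and a No instance of `SSE(η, δ)` are far apart as labelled graphs.
-/

open scoped Classical

namespace Pool.Agent.Lib.MP_8d8c46_lc

variable {N : ℕ}

/-- number of ones of a matrix -/
noncomputable def ones (a : Fin N → Fin N → Bool) : ℕ :=
  (Finset.univ.filter (fun p : Fin N × Fin N => a p.1 p.2 = true)).card

/-- number of entries that are one in `a` and zero in `b` -/
noncomputable def diff (a b : Fin N → Fin N → Bool) : ℕ :=
  (Finset.univ.filter (fun p : Fin N × Fin N => a p.1 p.2 = true ∧ b p.1 p.2 = false)).card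

/-- number of ones of a matrix inside `S × S` -/
noncomputable def ins (a : Fin N → Fin N → Bool) (S : Finset (Fin N)) : ℕ :=
  (Finset.univ.filter
    (fun p : Fin N × Fin N => p.1 ∈ S ∧ p.2 ∈ S ∧ a p.1 p.2 = true)).card

lemma ins_map {a : Fin N → Fin N → Bool} {V : Finset (Fin N)} {G : SimpleGraph V}
    (h : Encodes a V G) (S : Finset V) :
    ins a (S.map (Function.Embedding.subtype _)) = inside G S := by
  unfold ins inside
  symm
  refine Finset.card_bij (fun p _ => ((p.1 : Fin N), (p.2 : Fin N))) ?_ ?_ ?_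
  · intro p hp
    simp only [Finset.mem_filter, Finset.mem_univ, true_and] at hp ⊢
    refine ⟨?_, ?_, ?_⟩
    · simpa using hp.1
    · simpa using hp.2.1
    · exact (h _ _).2 ⟨p.1.2, p.2.2, hp.2.2⟩
  · intro p _ q _ hpq
    simp only [Prod.mk.injEq] at hpq
    exact Prod.ext (Subtype.ext hpq.1) (Subtype.ext hpq.2)
  · rintro ⟨u, v⟩ hp
    simp only [Finset.mem_filter, Finset.mem_univ, true_and] at hp
    obtain ⟨hu, hv, hadj⟩ := hp
    obtain ⟨hu', hv', hG⟩ := (h u v).1 hadj
    refine ⟨(⟨u, hu'⟩, ⟨v, hv'⟩), ?_, rfl⟩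
    simp only [Finset.mem_filter, Finset.mem_univ, true_and]
    refine ⟨?_, ?_, hG⟩
    · simpa [hu'] using hu
    · simpa [hv'] using hv

lemma row_card {a : Fin N → Fin N → Bool} {V : Finset (Fin N)} {G : SimpleGraph V} {d : ℕ}
    (h : Encodes a V G) (hr : Regular G d) {u : Fin N} (hu : u ∈ V) :
    (Finset.univ.filter (fun v => a u v = true)).card = d := by
  rw [← hr ⟨u, hu⟩]
  symm
  refine Finset.card_bij (fun p _ => (p : Fin N)) ?_ ?_ ?_
  · intro p hp
    simp only [Finset.mem_filter, Finset.mem_univ, true_and] at hp ⊢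
    exact (h _ _).2 ⟨hu, p.2, hp⟩
  · intro p _ q _ hpq
    exact Subtype.ext hpq
  · intro v hv
    simp only [Finset.mem_filter, Finset.mem_univ, true_and] at hv
    obtain ⟨_, hv', hG⟩ := (h u v).1 hv
    exact ⟨⟨v, hv'⟩, by simpa using hG, rfl⟩

lemma Encodes.symm {a : Fin N → Fin N → Bool} {V : Finset (Fin N)} {G : SimpleGraph V}
    (h : Encodes a V G) (u v : Fin N) (huv : a u v = true) : a v u = true := by
  obtain ⟨hu, hv, hG⟩ := (h u v).1 huv
  exact (h v u).2 ⟨hv, hu, hG.symm⟩

/-- Number of ones in the rows with index in `U ⊆ V`. -/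
lemma rows_card {a : Fin N → Fin N → Bool} {V : Finset (Fin N)} {G : SimpleGraph V} {d : ℕ}
    (h : Encodes a V G) (hr : Regular G d) {U : Finset (Fin N)} (hU : U ⊆ V) :
    (Finset.univ.filter (fun p : Fin N × Fin N => p.1 ∈ U ∧ a p.1 p.2 = true)).card =
      d * U.card := by
  have e : Finset.univ.filter (fun p : Fin N × Fin N => p.1 ∈ U ∧ a p.1 p.2 = true) =
      U.biUnion (fun u => (Finset.univ.filter (fun v => a u v = true)).image
        (fun v => (u, v))) := by
    ext ⟨u, v⟩
    simp only [Finset.mem_filter, Finset.mem_univ, true_and, Finset.mem_biUnion,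
      Finset.mem_image, Prod.mk.injEq]
    constructor
    · rintro ⟨h1, h2⟩
      exact ⟨u, h1, v, h2, rfl, rfl⟩
    · rintro ⟨u', h1, v', h2, rfl, rfl⟩
      exact ⟨h1, h2⟩
  rw [e, Finset.card_biUnion]
  · rw [Finset.sum_congr rfl (g := fun _ => d), Finset.sum_const, smul_eq_mul, mul_comm]
    intro u hu
    rw [Finset.card_image_of_injective]
    · exact row_card h hr (hU hu)
    · intro a b hab
      simpa using hab
  · intro v _ v' _ hne
    refine Finset.disjoint_left.2 (fun q hq hq' => ?_)
    simp only [Finset.mem_image] at hq hq'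
    obtain ⟨a, _, rfl⟩ := hq
    obtain ⟨b, _, h2⟩ := hq'
    simp only [Prod.mk.injEq] at h2
    exact hne h2.1.symm

lemma ones_eq {a : Fin N → Fin N → Bool} {V : Finset (Fin N)} {G : SimpleGraph V} {d : ℕ}
    (h : Encodes a V G) (hr : Regular G d) : ones a = d * V.card := by
  rw [← rows_card h hr (subset_refl V)]
  unfold ones
  congr 1
  ext p
  simp only [Finset.mem_filter, Finset.mem_univ, true_and]
  constructor
  · intro hp
    obtain ⟨hu, _, _⟩ := (h p.1 p.2).1 hp
    exact ⟨hu, hp⟩
  · exact fun hp => hp.2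

/-- **Distance lemma.**  If `a` encodes a Yes instance and `b` encodes a No instance, then
the two matrices differ in at least `(1 - 2η)δ/6` times the total number of their ones. -/
theorem distance {η δ : ℚ} (hη0 : 0 ≤ η) (hη : η ≤ 1 / 2) (hδ0 : 0 < δ) (hδ1 : δ ≤ 1)
    {a b : Fin N → Fin N → Bool} {V V' : Finset (Fin N)} {G : SimpleGraph V}
    {G' : SimpleGraph V'} (ha : Encodes a V G) (hb : Encodes b V' G')
    (hY : SSEYes η δ G) (hN : SSENo η δ G') :
    (1 - 2 * η) * δ * ((ones a : ℚ) + ones b) ≤ 6 * ((diff a b : ℚ) + diff b a) := by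
  obtain ⟨d, ⟨hd, hr, k, hk, hkn⟩, S, hS, hexp⟩ := hY
  obtain ⟨d', ⟨hd', hr', k', hk', hkn'⟩, hall⟩ := hN
  simp only [Fintype.card_coe] at hkn hkn' hS hall
  have hSk : S.card = k := by
    have : (S.card : ℚ) = k := by rw [hS, hkn]
    exact_mod_cast this
  set S0 : Finset (Fin N) := S.map (Function.Embedding.subtype _) with hS0
  have hS0card : S0.card = k := by rw [hS0, Finset.card_map, hSk]
  have hS0V : S0 ⊆ V := by
    intro u hu
    simp only [hS0, Finset.mem_map, Function.Embedding.subtype_apply] at hu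
    obtain ⟨v, _, rfl⟩ := hu
    exact v.2
  -- choose the set in the other graph
  have hk'V : k' ≤ V'.card := by
    have : (k' : ℚ) ≤ V'.card := by
      rw [hkn']
      have : (0 : ℚ) ≤ V'.card := by positivity
      nlinarith
    exact_mod_cast this
  have hVV : (V.card : ℚ) ≤ V'.card + (V \ V').card := by
    have h1 : V.card ≤ V'.card + (V \ V').card := by
      have h2 : V ⊆ V' ∪ (V \ V') := by
        intro u hu
        by_cases hu' : u ∈ V'
        · exact Finset.mem_union_left _ hu'
        · exact Finset.mem_union_right _ (Finset.mem_sdiff.2 ⟨hu, hu'⟩)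
      exact (Finset.card_le_card h2).trans (Finset.card_union_le _ _)
    exact_mod_cast h1
  obtain ⟨T, hTV, hTk, hTd⟩ : ∃ T : Finset (Fin N), T ⊆ V' ∧ T.card = k' ∧
      (S0 \ T).card ≤ (V \ V').card := by
    rcases le_total (S0 ∩ V').card k' with hle | hle
    · obtain ⟨T, h1, h2, h3⟩ := Finset.exists_subsuperset_card_eq
        (Finset.inter_subset_right : S0 ∩ V' ⊆ V') hle hk'V
      refine ⟨T, h2, h3, Finset.card_le_card ?_⟩
      intro u hu
      rw [Finset.mem_sdiff] at hu ⊢
      refine ⟨hS0V hu.1, fun hu' => hu.2 (h1 (Finset.mem_inter.2 ⟨hu.1, hu'⟩))⟩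
    · obtain ⟨T, h1, h2⟩ := Finset.exists_subset_card_eq hle
      refine ⟨T, h1.trans Finset.inter_subset_right, h2, ?_⟩
      have hTS : T ⊆ S0 := h1.trans Finset.inter_subset_left
      have h3 : (S0 \ T).card + k' = k := by
        rw [← hS0card, ← h2]
        exact Finset.card_sdiff_add_card_eq_card hTS
      have h4 : ((S0 \ T).card : ℚ) = k - k' := by
        have : ((S0 \ T).card : ℚ) + k' = k := by exact_mod_cast h3
        linarith
      have h5 : ((S0 \ T).card : ℚ) ≤ (V \ V').card := by
        rw [h4, hkn, hkn']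
        have h6 : (0 : ℚ) ≤ (V \ V').card := by positivity
        nlinarith
      exact_mod_cast h5
  -- (3) rows of the vertices outside `V'`
  have h3 : d * (V \ V').card ≤ diff a b := by
    rw [← rows_card ha hr (Finset.sdiff_subset : V \ V' ⊆ V)]
    unfold diff
    refine Finset.card_le_card (fun p hp => ?_)
    simp only [Finset.mem_filter, Finset.mem_univ, true_and, Finset.mem_sdiff] at hp ⊢
    refine ⟨hp.2, ?_⟩
    by_contra hc
    have : b p.1 p.2 = true := by simpa using hc
    obtain ⟨hu, _, _⟩ := (hb p.1 p.2).1 this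
    exact hp.1.2 hu
  -- (4)
  have h4 : ins a (S0 ∩ T) ≤ ins b T + diff a b := by
    unfold ins diff
    refine (Finset.card_le_card ?_).trans (Finset.card_union_le _ _)
    intro p hp
    simp only [Finset.mem_filter, Finset.mem_univ, true_and, Finset.mem_inter,
      Finset.mem_union] at hp ⊢
    cases hbp : b p.1 p.2
    · exact Or.inr ⟨hp.2.2, rfl⟩
    · exact Or.inl ⟨hp.1.2, hp.2.1.2, rfl⟩
  -- (5)
  have h5 : ins a S0 ≤ ins a (S0 ∩ T) + (d * (S0 \ T).card + d * (S0 \ T).card) := by
    have hsub : S0 \ T ⊆ V := Finset.sdiff_subset.trans hS0V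
    have e1 := rows_card ha hr hsub
    have e2 : (Finset.univ.filter (fun p : Fin N × Fin N =>
        p.2 ∈ S0 \ T ∧ a p.1 p.2 = true)).card = d * (S0 \ T).card := by
      rw [← e1]
      refine Finset.card_bij (fun p _ => (p.2, p.1)) ?_ ?_ ?_
      · intro p hp
        simp only [Finset.mem_filter, Finset.mem_univ, true_and] at hp ⊢
        exact ⟨hp.1, ha.symm _ _ hp.2⟩
      · intro p _ q _ hpq
        simp only [Prod.mk.injEq] at hpq
        exact Prod.ext hpq.2 hpq.1
      · intro p hp
        simp only [Finset.mem_filter, Finset.mem_univ, true_and] at hp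
        exact ⟨(p.2, p.1), by
          simp only [Finset.mem_filter, Finset.mem_univ, true_and]
          exact ⟨hp.1, ha.symm _ _ hp.2⟩, rfl⟩
    nth_rewrite 1 [← e1]
    rw [← e2]
    unfold ins
    refine (Finset.card_le_card ?_).trans ((Finset.card_union_le _ _).trans
      (Nat.add_le_add_left (Finset.card_union_le _ _) _))
    intro p hp
    simp only [Finset.mem_filter, Finset.mem_univ, true_and, Finset.mem_inter,
      Finset.mem_union, Finset.mem_sdiff] at hp ⊢
    tauto
  -- the Yes and No conditions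
  have hSpos : 0 < S.card := by rw [hSk]; exact hk
  have hYes := (expansion_le_iff hr hd hSpos η).1 hexp
  rw [← ins_map ha S] at hYes
  change (1 - η) * (d * S.card) ≤ (ins a S0 : ℚ) at hYes
  set T1 : Finset V' := T.subtype (fun u => u ∈ V') with hT1
  have hT1map : T1.map (Function.Embedding.subtype _) = T := by
    rw [hT1, Finset.subtype_map]
    exact Finset.filter_true_of_mem (fun u hu => hTV hu)
  have hT1card : T1.card = k' := by
    rw [← hTk, ← hT1map, Finset.card_map]
  have hT1pos : 0 < T1.card := by rw [hT1card]; exact hk'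
  have hNo := (le_expansion_iff hr' hd' hT1pos η).1 (hall T1 (by rw [hT1card, hkn']))
  rw [← ins_map hb T1, hT1map, hT1card] at hNo
  rw [hSk] at hYes
  -- numbers of ones
  have hoa : (ones a : ℚ) = d * V.card := by exact_mod_cast ones_eq ha hr
  have hob : (ones b : ℚ) = d' * V'.card := by exact_mod_cast ones_eq hb hr'
  have h7 : (ones b : ℚ) ≤ ones a + diff b a := by
    have : ones b ≤ ones a + diff b a := by
      unfold ones diff
      refine (Finset.card_le_card ?_).trans (Finset.card_union_le _ _)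
      intro p hp
      simp only [Finset.mem_filter, Finset.mem_univ, true_and, Finset.mem_union] at hp ⊢
      cases hap : a p.1 p.2
      · exact Or.inr ⟨hp, rfl⟩
      · exact Or.inl rfl
    exact_mod_cast this
  have h3' : (d : ℚ) * (V \ V').card ≤ diff a b := by exact_mod_cast h3
  have h4' : (ins a (S0 ∩ T) : ℚ) ≤ ins b T + diff a b := by exact_mod_cast h4
  have h5' : (ins a S0 : ℚ) ≤ ins a (S0 ∩ T) + (d * (S0 \ T).card + d * (S0 \ T).card) := by
    exact_mod_cast h5
  have h8 : (d : ℚ) * (S0 \ T).card ≤ d * (V \ V').card := by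
    have : ((S0 \ T).card : ℚ) ≤ (V \ V').card := by exact_mod_cast hTd
    exact mul_le_mul_of_nonneg_left this (by positivity)
  have hA0 : (0 : ℚ) ≤ diff a b := by positivity
  have hB0 : (0 : ℚ) ≤ diff b a := by positivity
  -- combine
  have h9 : (1 - η) * δ * ones a ≤ η * δ * ones b + 3 * diff a b := by
    have e1 : (1 - η) * (d * (k : ℚ)) = (1 - η) * δ * ones a := by
      rw [hkn, hoa]; ring
    have e2 : η * (d' * (k' : ℚ)) = η * δ * ones b := by
      rw [hkn', hob]; ring
    rw [e1] at hYes
    rw [e2] at hNo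
    linarith
  have h10 : η * δ * ones b ≤ η * δ * (ones a + diff b a) :=
    mul_le_mul_of_nonneg_left h7 (by positivity)
  have h11 : (1 - 2 * η) * δ * ones b ≤ (1 - 2 * η) * δ * (ones a + diff b a) :=
    mul_le_mul_of_nonneg_left h7 (mul_nonneg (by linarith) hδ0.le)
  have h12 : δ * (diff b a : ℚ) ≤ 1 * diff b a := mul_le_mul_of_nonneg_right hδ1 hB0
  nlinarith

end Pool.Agent.Lib.MP_8d8c46_lc
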