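import Pool.Agent.Lib.MP_8d8c46_lc.Mg.G023

/-!
Flows on a multigraph with values in the labels, and the pseudo-density built from short flows.
-/

open scoped Classical
open Finset

namespace Pool.Agent.Lib.MP_8d8c46_lc

section flows
variable {n j : ℕ} {E : Type} [Fintype E]

/-- the boundary of `φ` -/
noncomputable def bdy (s t : E → Fin n) (φ : E → Lb j) (u : Fin n) : Lb j :=
  ∑ e, ((if s e = u then φ e else 0) + (if t e = u then φ e else 0))

/-- the support of `φ` -/
noncomputable def fs (φ : E → Lb j) : Finset E := univ.filter (fun e => φ e ≠ 0)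

lemma mem_fs {φ : E → Lb j} {e : E} : e ∈ fs φ ↔ φ e ≠ 0 := by unfold fs; simp

lemma fs_add_subset (φ ψ : E → Lb j) : fs (φ + ψ) ⊆ fs φ ∪ fs ψ := by
  intro e he
  rw [mem_union, mem_fs, mem_fs]
  rw [mem_fs, Pi.add_apply] at he
  by_contra hcon
  push Not at hcon
  rw [hcon.1, hcon.2, add_zero] at he
  exact he rfl

lemma fs_zero : fs (0 : E → Lb j) = ∅ := by
  ext e; simp [mem_fs]

lemma bd_add (s t : E → Fin n) (φ ψ : E → Lb j) : bdy s t (φ + ψ) = bdy s t φ + bdy s t ψ := by
  funext u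
  rw [Pi.add_apply]
  unfold bdy
  rw [← sum_add_distrib]
  refine sum_congr rfl (fun e _ => ?_)
  rw [Pi.add_apply]
  split_ifs <;> abel

lemma bd_zero (s t : E → Fin n) : bdy s t (0 : E → Lb j) = 0 := by
  funext u; unfold bdy; simp

lemma pr_bd (s t : E → Fin n) (φ : E → Lb j) (x : Fin n → Lb j) :
    pr (bdy s t φ) x = ∑ e, dt (φ e) (x (s e) + x (t e)) := by
  unfold pr bdy
  have h1 : ∀ u, dt (∑ e, ((if s e = u then φ e else 0) + (if t e = u then φ e else 0))) (x u) =
      ∑ e, ((if s e = u then dt (φ e) (x u) else 0) + (if t e = u then dt (φ e) (x u) else 0)) := by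
    intro u
    rw [dt_sum_left]
    refine sum_congr rfl (fun e _ => ?_)
    rw [dt_add_left]
    split_ifs <;> simp [dt_zero_left]
  rw [sum_congr rfl (fun u _ => h1 u), sum_comm]
  refine sum_congr rfl (fun e _ => ?_)
  rw [sum_add_distrib, dt_add_right]
  simp

omit [Fintype E] in
lemma func_add_eq_zero {φ ψ : E → Lb j} (h : φ + ψ = 0) : φ = ψ := by
  funext e
  have h1 : φ e + ψ e = 0 := congrFun h e
  calc φ e = φ e + (ψ e + ψ e) := by rw [lb_add_self, add_zero]
    _ = (φ e + ψ e) + ψ e := by rw [add_assoc]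
    _ = ψ e := by rw [h1, zero_add]

/-- The edges in `G` carry no nonzero circulation with at most `g` edges. -/
def NoCirc (j : ℕ) (s t : E → Fin n) (G : Finset E) (g : ℕ) : Prop :=
  ∀ φ : E → Lb j, fs φ ⊆ G → (fs φ).card ≤ g → bdy s t φ = 0 → φ = 0

variable (lam : ℝ) (s t : E → Fin n) (c : E → Lb j)

/-- the coefficient of a flow -/
noncomputable def co (φ : E → Lb j) : ℝ := lam ^ (fs φ).card * sg (∑ e, dt (φ e) (c e))

lemma abs_co_le {lam : ℝ} (h0 : 0 ≤ lam) (h1 : lam ≤ 1) (φ : E → Lb j) : |co lam c φ| ≤ 1 := by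
  unfold co
  rw [abs_mul, abs_sg, mul_one, abs_of_nonneg (pow_nonneg h0 _)]
  exact pow_le_one₀ h0 h1

lemma abs_co_le' {lam : ℝ} (h0 : 0 ≤ lam) (h1 : lam ≤ 1) (φ : E → Lb j) {L : ℕ}
    (hL : L ≤ (fs φ).card) : |co lam c φ| ≤ lam ^ L := by
  unfold co
  rw [abs_mul, abs_sg, mul_one, abs_of_nonneg (pow_nonneg h0 _)]
  exact pow_le_pow_of_le_one h0 h1 hL

/-- the term of a flow -/
noncomputable def tm (φ : E → Lb j) (x : Fin n → Lb j) : ℝ := co lam c φ * chr (bdy s t φ) x

lemma tm_eq (φ : E → Lb j) (x : Fin n → Lb j) :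
    tm lam s t c φ x = lam ^ (fs φ).card * sg (∑ e, dt (φ e) (x (s e) + x (t e) + c e)) := by
  unfold tm co chr
  rw [pr_bd, mul_assoc, ← sg_add, ← sum_add_distrib]
  congr 2
  exact sum_congr rfl (fun e _ => by rw [← dt_add_right, add_comm])

lemma abs_tm (φ : E → Lb j) (x : Fin n → Lb j) : |tm lam s t c φ x| = |co lam c φ| := by
  unfold tm; rw [abs_mul, abs_chr, mul_one]

/-- the short flows -/
noncomputable def SF (j : ℕ) (G : Finset E) (L : ℕ) : Finset (E → Lb j) :=
  univ.filter (fun φ => fs φ ⊆ G ∧ (fs φ).card ≤ L)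

lemma mem_SF {G : Finset E} {L : ℕ} {φ : E → Lb j} :
    φ ∈ SF j G L ↔ fs φ ⊆ G ∧ (fs φ).card ≤ L := by
  unfold SF; simp

/-- the pseudo-moments -/
noncomputable def pmo (G : Finset E) (L : ℕ) (β : Fin n → Lb j) : ℝ :=
  ∑ φ ∈ SF j G L, if bdy s t φ = β then co lam c φ else 0

variable {lam s t}

lemma short_unique {G : Finset E} {L g : ℕ} (hg : 2 * L ≤ g) (hG : NoCirc j s t G g)
    {φ ψ : E → Lb j} (hφ : φ ∈ SF j G L) (hψ : ψ ∈ SF j G L) (h : bdy s t φ = bdy s t ψ) :
    φ = ψ := by
  rw [mem_SF] at hφ hψ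
  apply func_add_eq_zero
  apply hG
  · exact (fs_add_subset φ ψ).trans (union_subset hφ.1 hψ.1)
  · refine (card_le_card (fs_add_subset φ ψ)).trans ((card_union_le _ _).trans ?_)
    omega
  · rw [bd_add, h]
    funext u
    exact lb_add_self _

lemma pm_bd {G : Finset E} {L g : ℕ} (hg : 2 * L ≤ g) (hG : NoCirc j s t G g)
    {φ : E → Lb j} (hφ : φ ∈ SF j G L) : pmo lam s t c G L (bdy s t φ) = co lam c φ := by
  unfold pmo
  rw [Finset.sum_eq_single φ]
  · rw [if_pos rfl]
  · intro ψ hψ hne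
    rw [if_neg]
    intro h
    exact hne (short_unique hg hG hψ hφ h)
  · intro h; exact absurd hφ h

lemma exists_of_pm_ne {G : Finset E} {L : ℕ} {β : Fin n → Lb j}
    (h : pmo lam s t c G L β ≠ 0) : ∃ φ ∈ SF j G L, bdy s t φ = β := by
  by_contra hcon
  push Not at hcon
  apply h
  unfold pmo
  refine sum_eq_zero (fun φ hφ => ?_)
  rw [if_neg (hcon φ hφ)]

lemma abs_pm_le {G : Finset E} {L g : ℕ} (hg : 2 * L ≤ g) (hG : NoCirc j s t G g)
    (h0 : 0 ≤ lam) (h1 : lam ≤ 1) (β : Fin n → Lb j) : |pmo lam s t c G L β| ≤ 1 := by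
  by_cases h : pmo lam s t c G L β = 0
  · rw [h]; simp
  · obtain ⟨φ, hφ, rfl⟩ := exists_of_pm_ne c h
    rw [pm_bd c hg hG hφ]
    exact abs_co_le c h0 h1 φ

variable (lam s t)

/-- the marginal pseudo-density on `W` -/
noncomputable def DW (G : Finset E) (L : ℕ) (W : Finset (Fin n)) (x : Fin n → Lb j) : ℝ :=
  ∑ β ∈ univ.filter (fun β : Fin n → Lb j => sp β ⊆ W), pmo lam s t c G L β * chr β x

lemma DW_eq (G : Finset E) (L : ℕ) (W : Finset (Fin n)) (x : Fin n → Lb j) :
    DW lam s t c G L W x =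
      ∑ φ ∈ (SF j G L).filter (fun φ => sp (bdy s t φ) ⊆ W), tm lam s t c φ x := by
  unfold DW pmo
  simp_rw [sum_mul]
  rw [sum_comm, sum_filter]
  refine sum_congr rfl (fun φ _ => ?_)
  simp_rw [ite_mul, zero_mul]
  rw [sum_ite_eq]
  simp only [mem_filter, mem_univ, true_and]
  rfl

/-- The honest density attached to a set `H` of edges. -/
noncomputable def gib (H : Finset E) (x : Fin n → Lb j) : ℝ :=
  ∏ e ∈ H, (1 - lam + lam * 2 ^ j * (if x (s e) + x (t e) + c e = 0 then 1 else 0))

omit [Fintype E] in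
lemma sum_sg_dt (z : Lb j) : ∑ b : Lb j, sg (dt b z) = 2 ^ j * (if z = 0 then 1 else 0) := by
  by_cases hz : z = 0
  · subst hz
    rw [if_pos rfl]
    simp [dt_zero_right, sg_zero]
  · rw [if_neg hz, mul_zero]
    obtain ⟨b, hb⟩ := exists_dt_ne hz
    let φ : Lb j →+ ZMod 2 :=
      { toFun := fun b => dt b z
        map_zero' := dt_zero_left z
        map_add' := fun a b => dt_add_left a b z }
    exact sum_sg_hom φ ⟨b, by rw [← dt_comm] at hb; exact hb⟩

omit [Fintype E] in
lemma factor_eq (z : Lb j) :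
    1 - lam + lam * 2 ^ j * (if z = 0 then 1 else 0) =
      ∑ b : Lb j, (if b = 0 then 1 else lam) * sg (dt b z) := by
  have h1 : ∀ b : Lb j, (if b = 0 then 1 else lam) * sg (dt b z) =
      lam * sg (dt b z) + (if b = 0 then (1 - lam) else 0) := by
    intro b
    by_cases hb : b = 0
    · rw [if_pos hb, if_pos hb, hb, dt_zero_left, sg_zero]; ring
    · rw [if_neg hb, if_neg hb]; ring
  rw [sum_congr rfl (fun b _ => h1 b), sum_add_distrib, ← mul_sum, sum_sg_dt, sum_ite_eq',
    if_pos (mem_univ _)]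
  ring

lemma gib_eq (H : Finset E) (x : Fin n → Lb j) :
    gib lam s t c H x =
      ∑ φ ∈ univ.filter (fun φ : E → Lb j => fs φ ⊆ H), tm lam s t c φ x := by
  set T : E → Finset (Lb j) := fun e => if e ∈ H then univ else {0} with hT
  set f : E → Lb j → ℝ := fun e b =>
    (if b = 0 then 1 else lam) * sg (dt b (x (s e) + x (t e) + c e)) with hf
  have h1 : gib lam s t c H x = ∏ e, ∑ b ∈ T e, f e b := by
    unfold gib
    rw [← prod_subset (subset_univ H)]
    · refine prod_congr rfl (fun e he => ?_)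
      rw [hT, hf]
      simp only [he, if_true]
      exact factor_eq lam _
    · intro e _ he
      rw [hT, hf]
      simp only [he, if_false, sum_singleton, if_true, dt_zero_left, sg_zero, one_mul]
  rw [h1, prod_univ_sum]
  have h2 : Fintype.piFinset T = univ.filter (fun φ : E → Lb j => fs φ ⊆ H) := by
    ext φ
    simp only [Fintype.mem_piFinset, mem_filter, mem_univ, true_and]
    constructor
    · intro h e he
      by_contra hH
      have := h e
      rw [hT] at this
      simp only [hH, if_false, mem_singleton] at this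
      exact (mem_fs.1 he) this
    · intro h e
      rw [hT]
      by_cases he : e ∈ H
      · simp [he]
      · simp only [he, if_false, mem_singleton]
        by_contra h0
        exact he (h (mem_fs.2 h0))
  rw [h2]
  refine sum_congr rfl (fun φ _ => ?_)
  rw [tm_eq, hf]
  simp only
  rw [prod_mul_distrib, ← sg_sum]
  congr 1
  rw [← prod_subset (subset_univ (fs φ))]
  · rw [prod_congr rfl (g := fun _ => lam) (fun e he => if_neg (mem_fs.1 he)), prod_const]
  · intro e _ he
    rw [mem_fs, not_not] at he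
    rw [if_pos he]

/-- the vector that is `x` on `W` and `y` elsewhere -/
def mix (W : Finset (Fin n)) (x y : Fin n → Lb j) (u : Fin n) : Lb j := if u ∈ W then x u else y u

omit [Fintype E] in
lemma chr_mix (W : Finset (Fin n)) (β x y : Fin n → Lb j) :
    chr β (mix W x y) = chr (fun u => if u ∈ W then β u else 0) x *
      chr (fun u => if u ∈ W then 0 else β u) y := by
  have h1 : β = (fun u => if u ∈ W then β u else 0) + (fun u => if u ∈ W then 0 else β u) := by
    funext u
    rw [Pi.add_apply]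
    split_ifs <;> simp
  conv_lhs => rw [h1]
  rw [chr_add_left]
  congr 1
  · apply chr_congr
    intro u hu
    rw [mem_sp] at hu
    have : u ∈ W := by
      by_contra h
      rw [if_neg h] at hu
      exact hu rfl
    unfold mix
    rw [if_pos this]
  · apply chr_congr
    intro u hu
    rw [mem_sp] at hu
    have : u ∉ W := by
      intro h
      rw [if_pos h] at hu
      exact hu rfl
    unfold mix
    rw [if_neg this]

omit [Fintype E] in
lemma avg_chr_mix (W : Finset (Fin n)) (β x : Fin n → Lb j) :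
    avg (fun y => chr β (mix W x y)) = if sp β ⊆ W then chr β x else 0 := by
  simp_rw [chr_mix]
  rw [avg_const_mul]
  have h0 : avg (fun y => chr (fun u => if u ∈ W then 0 else β u) y) =
      if (fun u => if u ∈ W then 0 else β u) = 0 then 1 else 0 := avg_chr _
  rw [h0]
  by_cases h : sp β ⊆ W
  · have h1 : (fun u => if u ∈ W then 0 else β u) = 0 := by
      funext u
      by_cases hu : u ∈ W
      · rw [if_pos hu]; rfl
      · rw [if_neg hu]
        by_contra h2
        exact hu (h (mem_sp.2 h2))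
    have h2 : (fun u => if u ∈ W then β u else 0) = β := by
      funext u
      by_cases hu : u ∈ W
      · rw [if_pos hu]
      · rw [if_neg hu]
        by_contra h3
        exact hu (h (mem_sp.2 (Ne.symm h3)))
    rw [if_pos h1, if_pos h, h2, mul_one]
  · have h1 : ¬ (fun u => if u ∈ W then 0 else β u) = 0 := by
      intro h2
      apply h
      intro u hu
      by_contra hu2
      have := congrFun h2 u
      simp only [hu2, if_false, Pi.zero_apply] at this
      exact (mem_sp.1 hu) this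
    rw [if_neg h1, if_neg h, mul_zero]

lemma avg_gib (H : Finset E) (W : Finset (Fin n)) (x : Fin n → Lb j) :
    avg (fun y => gib lam s t c H (mix W x y)) =
      ∑ φ ∈ univ.filter (fun φ : E → Lb j => fs φ ⊆ H ∧ sp (bdy s t φ) ⊆ W),
        tm lam s t c φ x := by
  simp_rw [gib_eq]
  rw [avg_sum, ← filter_filter, sum_filter (fun φ => sp (bdy s t φ) ⊆ W)]
  refine sum_congr rfl (fun φ _ => ?_)
  unfold tm
  rw [avg_const_mul, avg_chr_mix]
  split_ifs <;> simp

variable {lam s t}

/-- Flows with boundary in `W` are determined by their boundary. -/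
lemma card_flows {W : Finset (Fin n)} (Φ : Finset (E → Lb j))
    (h1 : ∀ φ ∈ Φ, sp (bdy s t φ) ⊆ W)
    (h2 : ∀ φ ∈ Φ, ∀ ψ ∈ Φ, bdy s t (φ + ψ) = 0 → φ + ψ = 0) :
    Φ.card ≤ (2 ^ j) ^ W.card := by
  have h3 : (2 ^ j) ^ W.card = (univ : Finset (W → Lb j)).card := by
    rw [card_univ, Fintype.card_fun, Fintype.card_fun, ZMod.card, Fintype.card_fin,
      Fintype.card_coe]
  rw [h3]
  refine card_le_card_of_injOn (fun φ u => bdy s t φ u) (fun _ _ => mem_coe.2 (mem_univ _)) ?_
  intro φ hφ ψ hψ h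
  apply func_add_eq_zero
  apply h2 φ hφ ψ hψ
  rw [bd_add]
  funext u
  rw [Pi.add_apply]
  by_cases hu : u ∈ W
  · have := congrFun h ⟨u, hu⟩
    simp only at this
    rw [this]
    exact lb_add_self _
  · have a1 : bdy s t φ u = 0 := by
      by_contra h0; exact hu (h1 φ hφ (mem_sp.2 h0))
    have a2 : bdy s t ψ u = 0 := by
      by_contra h0; exact hu (h1 ψ hψ (mem_sp.2 h0))
    rw [a1, a2]; rfl

/-- the number of edges that touch `u` is at most `Δ` -/
def DegLE (s t : E → Fin n) (Δ : ℕ) : Prop :=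
  ∀ u, (univ.filter (fun e => s e = u ∨ t e = u)).card ≤ Δ

/-- The pseudo-density is nonnegative on small sets. -/
theorem DW_nonneg {G : Finset E} {L g k Δ : ℕ} (hg : 2 * L ≤ g) (hg' : (2 ^ j) ^ k * L ≤ g)
    (hG : NoCirc j s t G g) (h0 : 0 ≤ lam) (h1 : lam ≤ 1) (hΔ : DegLE s t Δ)
    (hsmall : ((2 : ℝ) ^ j) ^ k * lam ^ L ≤ (1 - lam) ^ (Δ * k))
    {W : Finset (Fin n)} (hW : W.card ≤ k) (x : Fin n → Lb j) :
    0 ≤ DW lam s t c G L W x := by
  set Φ := (SF j G L).filter (fun φ => sp (bdy s t φ) ⊆ W) with hΦ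
  have hΦc : Φ.card ≤ (2 ^ j) ^ W.card := by
    refine card_flows Φ (fun φ hφ => (mem_filter.1 hφ).2) (fun φ hφ ψ hψ h => ?_)
    have a1 := mem_SF.1 (mem_filter.1 hφ).1
    have a2 := mem_SF.1 (mem_filter.1 hψ).1
    refine hG _ ((fs_add_subset φ ψ).trans (union_subset a1.1 a2.1)) ?_ h
    refine (card_le_card (fs_add_subset φ ψ)).trans ((card_union_le _ _).trans ?_)
    omega
  have hΦc' : Φ.card ≤ (2 ^ j) ^ k := hΦc.trans (Nat.pow_le_pow_right (by positivity) hW)
  set H := Φ.biUnion fs with hH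
  have hHG : H ⊆ G := by
    intro e he
    rw [hH, mem_biUnion] at he
    obtain ⟨φ, hφ, he⟩ := he
    exact (mem_SF.1 (mem_filter.1 hφ).1).1 he
  have hHc : H.card ≤ g := by
    refine le_trans ?_ hg'
    rw [hH]
    refine card_biUnion_le.trans ?_
    refine (sum_le_card_nsmul Φ _ L (fun φ hφ => (mem_SF.1 (mem_filter.1 hφ).1).2)).trans ?_
    rw [smul_eq_mul]
    exact Nat.mul_le_mul_right _ hΦc'
  -- all flows on `H` with boundary in `W`
  set Ψ := univ.filter (fun φ : E → Lb j => fs φ ⊆ H ∧ sp (bdy s t φ) ⊆ W) with hΨ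
  have hΨc : Ψ.card ≤ (2 ^ j) ^ k := by
    refine le_trans ?_ (Nat.pow_le_pow_right (by positivity) hW)
    refine card_flows Ψ (fun φ hφ => (mem_filter.1 hφ).2.2) (fun φ hφ ψ hψ h => ?_)
    have a1 := (mem_filter.1 hφ).2.1
    have a2 := (mem_filter.1 hψ).2.1
    have a3 : fs (φ + ψ) ⊆ H := (fs_add_subset φ ψ).trans (union_subset a1 a2)
    exact hG _ (a3.trans hHG) ((card_le_card a3).trans hHc) h
  have hsplit : ∑ φ ∈ Ψ, tm lam s t c φ x = DW lam s t c G L W x +
      ∑ φ ∈ Ψ.filter (fun φ => ¬ (fs φ).card ≤ L), tm lam s t c φ x := by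
    rw [DW_eq, ← sum_filter_add_sum_filter_not Ψ (fun φ => (fs φ).card ≤ L)]
    congr 1
    apply sum_congr _ (fun _ _ => rfl)
    ext φ
    rw [← hΦ]
    constructor
    · intro h
      obtain ⟨h2, h3⟩ := mem_filter.1 h
      obtain ⟨_, h4, h5⟩ := mem_filter.1 h2
      exact mem_filter.2 ⟨mem_SF.2 ⟨h4.trans hHG, h3⟩, h5⟩
    · intro h
      obtain ⟨h2, h3⟩ := mem_filter.1 h
      refine mem_filter.2 ⟨mem_filter.2 ⟨mem_univ _, ?_, h3⟩, (mem_SF.1 h2).2⟩
      intro e he
      exact mem_biUnion.2 ⟨φ, h, he⟩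
  have herr : |∑ φ ∈ Ψ.filter (fun φ => ¬ (fs φ).card ≤ L), tm lam s t c φ x| ≤
      ((2 : ℝ) ^ j) ^ k * lam ^ L := by
    refine (abs_sum_le_sum_abs _ _).trans ?_
    refine (sum_le_card_nsmul _ _ (lam ^ L) (fun φ hφ => ?_)).trans ?_
    · rw [abs_tm]
      have := (mem_filter.1 hφ).2
      exact abs_co_le' c h0 h1 φ (by omega)
    · rw [nsmul_eq_mul]
      refine mul_le_mul_of_nonneg_right ?_ (pow_nonneg h0 _)
      have : ((Ψ.filter (fun φ => ¬ (fs φ).card ≤ L)).card : ℝ) ≤ ((2 ^ j) ^ k : ℕ) := by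
        exact_mod_cast (card_filter_le _ _).trans hΨc
      push_cast at this
      exact this
  -- the lower bound for the honest density
  set H1 := H.filter (fun e => s e ∈ W ∨ t e ∈ W) with hH1
  set H2 := H.filter (fun e => ¬ (s e ∈ W ∨ t e ∈ W)) with hH2
  have hfac : ∀ (z : Fin n → Lb j) (e : E), 1 - lam ≤
      1 - lam + lam * 2 ^ j * (if z (s e) + z (t e) + c e = 0 then 1 else 0) := by
    intro z e
    have : 0 ≤ lam * 2 ^ j * (if z (s e) + z (t e) + c e = 0 then (1 : ℝ) else 0) := by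
      split_ifs <;> positivity
    linarith
  have hgnn : ∀ (K : Finset E) (z : Fin n → Lb j), 0 ≤ gib lam s t c K z := by
    intro K z
    unfold gib
    exact prod_nonneg (fun e _ => (by linarith : (0 : ℝ) ≤ 1 - lam).trans (hfac z e))
  have hH1c : H1.card ≤ Δ * k := by
    have : H1 ⊆ W.biUnion (fun u => univ.filter (fun e => s e = u ∨ t e = u)) := by
      intro e he
      rw [hH1, mem_filter] at he
      rw [mem_biUnion]
      rcases he.2 with h | h
      · exact ⟨_, h, by simp⟩
      · exact ⟨_, h, by simp⟩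
    refine (card_le_card this).trans (card_biUnion_le.trans ?_)
    refine (sum_le_card_nsmul W _ Δ (fun u _ => hΔ u)).trans ?_
    rw [smul_eq_mul, mul_comm]
    exact Nat.mul_le_mul_left _ hW
  have hlow : ∀ z : Fin n → Lb j, (1 - lam) ^ (Δ * k) * gib lam s t c H2 z ≤
      gib lam s t c H z := by
    intro z
    have e1 : gib lam s t c H z = gib lam s t c H1 z * gib lam s t c H2 z := by
      unfold gib
      rw [hH1, hH2, prod_filter_mul_prod_filter_not]
    rw [e1]
    refine mul_le_mul_of_nonneg_right ?_ (hgnn _ _)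
    calc (1 - lam) ^ (Δ * k) ≤ (1 - lam) ^ H1.card :=
          pow_le_pow_of_le_one (by linarith) (by linarith) hH1c
      _ = ∏ _e ∈ H1, (1 - lam) := by rw [prod_const]
      _ ≤ gib lam s t c H1 z := by
          unfold gib
          exact prod_le_prod (fun _ _ => by linarith) (fun e _ => hfac z e)
  have hH2avg : avg (fun y => gib lam s t c H2 (mix W x y)) = 1 := by
    rw [avg_gib]
    have hset : univ.filter (fun φ : E → Lb j => fs φ ⊆ H2 ∧ sp (bdy s t φ) ⊆ W) = {0} := by
      ext φ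
      simp only [mem_filter, mem_univ, true_and, mem_singleton]
      constructor
      · rintro ⟨a1, a2⟩
        have a3 : fs φ ⊆ H := a1.trans (filter_subset _ _)
        apply hG φ (a3.trans hHG) ((card_le_card a3).trans hHc)
        funext u
        by_contra h
        have hu : u ∈ W := a2 (mem_sp.2 h)
        apply h
        unfold bdy
        refine sum_eq_zero (fun e _ => ?_)
        by_cases he : φ e = 0
        · rw [he]; simp
        · have h4 := (mem_filter.1 (a1 (mem_fs.2 he))).2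
          push Not at h4
          rw [if_neg (fun h5 => h4.1 (by rw [h5]; exact hu)),
            if_neg (fun h5 => h4.2 (by rw [h5]; exact hu)), add_zero]
      · rintro rfl
        rw [fs_zero, bd_zero]
        refine ⟨by simp, ?_⟩
        intro u hu
        rw [mem_sp] at hu
        exact absurd rfl hu
    rw [hset, sum_singleton]
    unfold tm co
    rw [fs_zero, bd_zero, chr_zero_left]
    simp [dt_zero_left, sg_zero]
  have hmain : (1 - lam) ^ (Δ * k) ≤ ∑ φ ∈ Ψ, tm lam s t c φ x := by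
    rw [hΨ, ← avg_gib]
    calc (1 - lam) ^ (Δ * k) = avg (fun y => (1 - lam) ^ (Δ * k) *
            gib lam s t c H2 (mix W x y)) := by
          rw [avg_const_mul, hH2avg, mul_one]
      _ ≤ _ := avg_mono (fun y => hlow _)
  rw [hsplit] at hmain
  have := (abs_le.1 herr).2
  linarith

end flows

end Pool.Agent.Lib.MP_8d8c46_lc
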