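import Mathlib

/-!
Exponential moments of sums over random permutations and random bits.
-/

open Finset

namespace Pool.Agent.Lib.MP_8d8c46_lc

lemma exp_le_add_exp_sq (x : ℝ) : Real.exp x ≤ x + Real.exp (x ^ 2) := by
  have h1 : 1 + x ^ 2 ≤ Real.exp (x ^ 2) := by
    have := Real.add_one_le_exp (x ^ 2); linarith
  by_cases hx : |x| ≤ 1
  · have h2 := Real.abs_exp_sub_one_sub_id_le hx
    have h3 := (abs_le.1 h2).2
    linarith
  · rw [not_le] at hx
    rcases lt_abs.1 hx with h | h
    · have h2 : Real.exp x ≤ Real.exp (x ^ 2) := Real.exp_le_exp.2 (by nlinarith)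
      linarith
    · have h2 : Real.exp x ≤ 1 := by
        rw [Real.exp_le_one_iff]; linarith
      nlinarith

/-- A form of Hoeffding's lemma for the uniform distribution on a finite type. -/
lemma sum_exp_le {ι : Type*} [Fintype ι] [Nonempty ι] (Y : ι → ℝ) {C : ℝ}
    (hC : ∀ k l, |Y k - Y l| ≤ C) :
    ∑ k, Real.exp (Y k) ≤
      Fintype.card ι * Real.exp ((∑ k, Y k) / Fintype.card ι + C ^ 2) := by
  set N : ℝ := (Fintype.card ι : ℝ) with hN
  have hN0 : 0 < N := by rw [hN]; exact_mod_cast Fintype.card_pos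
  set m : ℝ := (∑ k, Y k) / N with hm
  have hdev : ∀ k, |Y k - m| ≤ C := by
    intro k
    have h1 : Y k - m = (∑ l, (Y k - Y l)) / N := by
      rw [sum_sub_distrib, sum_const, card_univ, nsmul_eq_mul, ← hN, hm]
      field_simp
    rw [h1, abs_div, abs_of_pos hN0, div_le_iff₀ hN0]
    calc |∑ l, (Y k - Y l)| ≤ ∑ l, |Y k - Y l| := abs_sum_le_sum_abs _ _
      _ ≤ ∑ _l : ι, C := sum_le_sum (fun l _ => hC k l)
      _ = C * N := by rw [sum_const, card_univ, nsmul_eq_mul, ← hN, mul_comm]
  have h2 : ∑ k, Real.exp (Y k - m) ≤ N * Real.exp (C ^ 2) := by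
    calc ∑ k, Real.exp (Y k - m) ≤ ∑ k, ((Y k - m) + Real.exp ((Y k - m) ^ 2)) :=
          sum_le_sum (fun k _ => exp_le_add_exp_sq _)
      _ = ∑ k, (Y k - m) + ∑ k, Real.exp ((Y k - m) ^ 2) := sum_add_distrib
      _ ≤ 0 + ∑ _k : ι, Real.exp (C ^ 2) := by
          refine add_le_add (le_of_eq ?_) (sum_le_sum (fun k _ => Real.exp_le_exp.2 ?_))
          · rw [sum_sub_distrib, sum_const, card_univ, nsmul_eq_mul, ← hN, hm]
            field_simp
            ring
          · exact sq_le_sq' (by have := (abs_le.1 (hdev k)).1; linarith)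
              (abs_le.1 (hdev k)).2
      _ = N * Real.exp (C ^ 2) := by rw [zero_add, sum_const, card_univ, nsmul_eq_mul, ← hN]
  calc ∑ k, Real.exp (Y k) = ∑ k, Real.exp (Y k - m) * Real.exp m := by
        refine sum_congr rfl (fun k _ => ?_)
        rw [← Real.exp_add]; congr 1; ring
    _ = (∑ k, Real.exp (Y k - m)) * Real.exp m := by rw [sum_mul]
    _ ≤ (N * Real.exp (C ^ 2)) * Real.exp m :=
        mul_le_mul_of_nonneg_right h2 (Real.exp_pos _).le
    _ = N * Real.exp (m + C ^ 2) := by rw [Real.exp_add]; ring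

/-- Exponential moments of `∑ i, a i (π i)` for a uniformly random permutation `π`. -/
theorem perm_mgf {B : ℝ} : ∀ (n : ℕ) (a : Fin n → Fin n → ℝ), (∀ i k, |a i k| ≤ B) →
    ∑ π : Equiv.Perm (Fin n), Real.exp (∑ i, a i (π i)) ≤
      (n.factorial : ℝ) * Real.exp ((∑ i, ∑ k, a i k) / n + 16 * B ^ 2 * n) := by
  intro n
  induction n with
  | zero => intro a _; simp
  | succ n ih =>
    intro a ha
    have hB : 0 ≤ B := (abs_nonneg _).trans (ha 0 0)
    rw [← Equiv.sum_comp Equiv.Perm.decomposeFin.symm, Fintype.sum_prod_type]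
    set Y : Fin (n + 1) → ℝ := fun k =>
      a 0 k + (∑ i : Fin n, ∑ l : Fin n, a i.succ (Equiv.swap 0 k l.succ)) / n with hY
    have h1 : ∀ k : Fin (n + 1), ∑ e : Equiv.Perm (Fin n),
        Real.exp (∑ i, a i ((Equiv.Perm.decomposeFin.symm (k, e)) i)) ≤
        (n.factorial : ℝ) * Real.exp (16 * B ^ 2 * n) * Real.exp (Y k) := by
      intro k
      have h2 := ih (fun i l => a i.succ (Equiv.swap 0 k l.succ)) (fun i l => ha _ _)
      have h3 : ∀ e : Equiv.Perm (Fin n),
          Real.exp (∑ i, a i ((Equiv.Perm.decomposeFin.symm (k, e)) i)) =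
          Real.exp (a 0 k) * Real.exp (∑ i, a i.succ (Equiv.swap 0 k (e i).succ)) := by
        intro e
        rw [← Real.exp_add, Fin.sum_univ_succ]
        simp
      rw [sum_congr rfl (fun e _ => h3 e), ← mul_sum]
      calc Real.exp (a 0 k) * ∑ e : Equiv.Perm (Fin n),
            Real.exp (∑ i, a i.succ (Equiv.swap 0 k (e i).succ))
          ≤ Real.exp (a 0 k) * ((n.factorial : ℝ) * Real.exp
              ((∑ i : Fin n, ∑ l : Fin n, a i.succ (Equiv.swap 0 k l.succ)) / n +
                16 * B ^ 2 * n)) :=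
            mul_le_mul_of_nonneg_left h2 (Real.exp_pos _).le
        _ = (n.factorial : ℝ) * Real.exp (16 * B ^ 2 * n) * Real.exp (Y k) := by
            rw [hY, Real.exp_add, Real.exp_add]; ring
    have hrow : ∀ (i : Fin n) (k : Fin (n + 1)),
        ∑ l : Fin n, a i.succ (Equiv.swap 0 k l.succ) = (∑ m, a i.succ m) - a i.succ k := by
      intro i k
      have h4 : ∑ m, a i.succ (Equiv.swap 0 k m) = ∑ m, a i.succ m :=
        Equiv.sum_comp (Equiv.swap 0 k) (fun m => a i.succ m)
      rw [← h4, Fin.sum_univ_succ, Equiv.swap_apply_left]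
      ring
    have hYdiff : ∀ k l, |Y k - Y l| ≤ 4 * B := by
      intro k l
      have e1 : Y k - Y l = (a 0 k - a 0 l) - (∑ i : Fin n, (a i.succ k - a i.succ l)) / n := by
        simp only [hY, hrow, sum_sub_distrib]
        ring
      rw [e1]
      have e2 : |a 0 k - a 0 l| ≤ 2 * B := by
        have h1 := ha 0 k
        have h2 := ha 0 l
        rw [abs_le] at *
        constructor <;> linarith
      have e3 : |(∑ i : Fin n, (a i.succ k - a i.succ l)) / n| ≤ 2 * B := by
        rcases Nat.eq_zero_or_pos n with hn | hn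
        · subst hn; simpa using hB
        · have hn' : (0 : ℝ) < n := by exact_mod_cast hn
          rw [abs_div, abs_of_pos hn', div_le_iff₀ hn']
          calc |∑ i : Fin n, (a i.succ k - a i.succ l)|
              ≤ ∑ i : Fin n, |a i.succ k - a i.succ l| := abs_sum_le_sum_abs _ _
            _ ≤ ∑ _i : Fin n, (2 * B) := by
                refine sum_le_sum (fun i _ => ?_)
                have h1 := ha i.succ k
                have h2 := ha i.succ l
                rw [abs_le] at *
                constructor <;> linarith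
            _ = 2 * B * n := by
                rw [sum_const, card_univ, Fintype.card_fin, nsmul_eq_mul]; ring
      calc _ ≤ |a 0 k - a 0 l| + |(∑ i : Fin n, (a i.succ k - a i.succ l)) / n| :=
            abs_sub _ _
        _ ≤ 2 * B + 2 * B := add_le_add e2 e3
        _ = 4 * B := by ring
    have hYsum : ∑ k, Y k = ∑ i, ∑ k, a i k := by
      simp only [hY, sum_add_distrib]
      rw [Fin.sum_univ_succ (f := fun i => ∑ k, a i k)]
      congr 1
      rw [← sum_div]
      simp only [hrow, sum_sub_distrib]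
      rcases Nat.eq_zero_or_pos n with hn | hn
      · subst hn; simp
      · have hn' : (n : ℝ) ≠ 0 := by exact_mod_cast hn.ne'
        rw [sum_const, card_univ, Fintype.card_fin, nsmul_eq_mul, div_eq_iff hn']
        rw [sum_comm (s := (univ : Finset (Fin (n + 1))))]
        push_cast
        ring
    have hfin := sum_exp_le Y hYdiff
    rw [hYsum, Fintype.card_fin] at hfin
    calc _ ≤ ∑ k : Fin (n + 1), (n.factorial : ℝ) * Real.exp (16 * B ^ 2 * n) *
          Real.exp (Y k) := sum_le_sum (fun k _ => h1 k)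
      _ = (n.factorial : ℝ) * Real.exp (16 * B ^ 2 * n) * ∑ k, Real.exp (Y k) := by
          rw [mul_sum]
      _ ≤ (n.factorial : ℝ) * Real.exp (16 * B ^ 2 * n) * (((n + 1 : ℕ) : ℝ) *
          Real.exp ((∑ i, ∑ k, a i k) / ((n + 1 : ℕ) : ℝ) + (4 * B) ^ 2)) :=
          mul_le_mul_of_nonneg_left hfin (by positivity)
      _ = _ := by
          rw [Nat.factorial_succ, Real.exp_add, Real.exp_add]
          have : Real.exp (16 * B ^ 2 * ((n + 1 : ℕ) : ℝ)) =
              Real.exp (16 * B ^ 2 * n) * Real.exp ((4 * B) ^ 2) := by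
            rw [← Real.exp_add]; congr 1; push_cast; ring
          rw [this]
          push_cast
          ring

end Pool.Agent.Lib.MP_8d8c46_lc
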