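import Pool.Agent.Lib.MP_8d8c46_lc.Query
import Pool.Agent.Lib.MP_8d8c46_lc.Mg.G015

/-!
Algorithms with few queries do not distinguish a random consistent right-hand side of an expanding
system from a uniformly random one.
-/

open scoped Classical
open Finset

namespace Pool.Agent.Lib.MP_8d8c46_lc

/-- A surjective homomorphism of finite groups has fibres of equal size. -/
lemma fiber_count {G H : Type*} [AddCommGroup G] [AddCommGroup H] [Fintype G] [Fintype H]
    (Φ : G →+ H) (hs : Function.Surjective Φ) (y : H) :
    (univ.filter (fun g => Φ g = y)).card * Fintype.card H = Fintype.card G := by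
  have h1 : ∀ y' : H, (univ.filter (fun g => Φ g = y')).card =
      (univ.filter (fun g => Φ g = y)).card := by
    intro y'
    obtain ⟨a, ha⟩ := hs (y - y')
    refine card_bij (fun g _ => g + a) ?_ ?_ ?_
    · intro g hg
      simp only [mem_filter, mem_univ, true_and] at hg ⊢
      rw [map_add, hg, ha]; abel
    · intro g _ g' _ h
      exact add_right_cancel h
    · intro g hg
      simp only [mem_filter, mem_univ, true_and] at hg
      refine ⟨g - a, ?_, by abel⟩
      simp only [mem_filter, mem_univ, true_and]
      rw [map_sub, hg, ha]; abel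
  have h2 : Fintype.card G = ∑ y' : H, (univ.filter (fun g => Φ g = y')).card := by
    rw [← card_univ]
    exact card_eq_sum_card_fiberwise (fun _ _ => by simp)
  rw [h2, sum_congr rfl (fun y' _ => h1 y'), sum_const, card_univ, smul_eq_mul, mul_comm]

section
variable {V E : Type*} [Fintype V] [Fintype E] [DecidableEq V] [DecidableEq E]

/-- the right-hand side for which the assignment `g` is a solution -/
def rhs (x : E → Fin 3 → V) (g : V → ZMod 2) : E → ZMod 2 :=
  fun e => g (x e 0) + g (x e 1) + g (x e 2)

/-- the mean of `f` over the consistent right-hand sides -/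
noncomputable def meanA (x : E → Fin 3 → V) (f : (E → ZMod 2) → ℝ) : ℝ :=
  (∑ g : V → ZMod 2, f (rhs x g)) / Fintype.card (V → ZMod 2)

/-- the mean of `f` over all right-hand sides -/
noncomputable def meanB (f : (E → ZMod 2) → ℝ) : ℝ :=
  (∑ b : E → ZMod 2, f b) / Fintype.card (E → ZMod 2)

/-- indicator of a proposition -/
noncomputable def indR (P : Prop) : ℝ := if P then 1 else 0

lemma mean_cylinder {x : E → Fin 3 → V} {s : ℕ} (hexp : Expands x s) {F : Finset E}
    (hF : F.card ≤ s) (c : E → ZMod 2) :
    meanA x (fun b => indR (∀ e ∈ F, b e = c e)) = meanB (fun b => indR (∀ e ∈ F, b e = c e)) := by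
  have hV : (0 : ℝ) < Fintype.card (V → ZMod 2) := by exact_mod_cast Fintype.card_pos
  have hE : (0 : ℝ) < Fintype.card (E → ZMod 2) := by exact_mod_cast Fintype.card_pos
  have hR : (0 : ℝ) < Fintype.card (F → ZMod 2) := by exact_mod_cast Fintype.card_pos
  have h1 := fiber_count
    ({ toFun := fun (g : V → ZMod 2) (e : F) => rhs x g e.1
       map_zero' := by funext e; simp [rhs]
       map_add' := by intro g g'; funext e; simp only [rhs, Pi.add_apply]; ring } :
      (V → ZMod 2) →+ (F → ZMod 2)) (by
      intro y
      obtain ⟨h, _, h2⟩ := good_empty (c := fun e => if he : e ∈ F then y ⟨e, he⟩ else 0) hexp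
        (0 : V → ZMod 2) F hF
      refine ⟨h, ?_⟩
      funext ⟨e, he⟩
      have h3 := h2 e he
      simp only [dif_pos he] at h3
      exact h3) (fun e => c e.1)
  have h2 := fiber_count
    ({ toFun := fun (g : E → ZMod 2) (e : F) => g e.1
       map_zero' := rfl
       map_add' := fun _ _ => rfl } :
      (E → ZMod 2) →+ (F → ZMod 2)) (by
      intro y
      refine ⟨fun e => if he : e ∈ F then y ⟨e, he⟩ else 0, ?_⟩
      funext ⟨e, he⟩
      show (if he : e ∈ F then y ⟨e, he⟩ else 0) = y ⟨e, he⟩
      rw [dif_pos he]) (fun e => c e.1)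
  have e1 : ∑ g : V → ZMod 2, indR (∀ e ∈ F, rhs x g e = c e) =
      Fintype.card (V → ZMod 2) / Fintype.card (F → ZMod 2) := by
    rw [eq_div_iff hR.ne', ← h1]
    push_cast
    congr 1
    rw [card_filter]
    push_cast
    refine sum_congr rfl (fun g _ => ?_)
    unfold indR
    congr 1
    rw [eq_iff_iff]
    constructor
    · intro h; funext ⟨e, he⟩; exact h e he
    · intro h e he; exact congrFun h ⟨e, he⟩
  have e2 : ∑ g : E → ZMod 2, indR (∀ e ∈ F, g e = c e) =
      Fintype.card (E → ZMod 2) / Fintype.card (F → ZMod 2) := by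
    rw [eq_div_iff hR.ne', ← h2]
    push_cast
    congr 1
    rw [card_filter]
    push_cast
    refine sum_congr rfl (fun g _ => ?_)
    unfold indR
    congr 1
    rw [eq_iff_iff]
    constructor
    · intro h; funext ⟨e, he⟩; exact h e he
    · intro h e he; exact congrFun h ⟨e, he⟩
  unfold meanA meanB
  rw [e1, e2]
  field_simp

/-- the extensions of the values `c` on `F` to `F ∪ B` -/
noncomputable def pats (F B : Finset E) (c : E → ZMod 2) : Finset (E → ZMod 2) :=
  Fintype.piFinset (fun e => if e ∈ F then {c e} else if e ∈ B then univ else {0})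

lemma sum_pats (F B : Finset E) (c b : E → ZMod 2) (Φ : (E → ZMod 2) → ℝ) :
    ∑ c' ∈ pats F B c, indR (∀ e ∈ F ∪ B, b e = c' e) * Φ c' =
      indR (∀ e ∈ F, b e = c e) * Φ (fun e => if e ∈ F ∪ B then b e else 0) := by
  by_cases hb : ∀ e ∈ F, b e = c e
  · have hmem : (fun e => if e ∈ F ∪ B then b e else 0) ∈ pats F B c := by
      unfold pats
      rw [Fintype.mem_piFinset]
      intro e
      by_cases h1 : e ∈ F
      · simp only [h1, mem_union, true_or, if_true, mem_singleton]
        exact hb e h1
      · by_cases h2 : e ∈ B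
        · simp [h1, h2]
        · simp [h1, h2]
    rw [Finset.sum_eq_single_of_mem _ hmem]
    · unfold indR
      rw [if_pos hb, if_pos]
      intro e he
      exact (if_pos he).symm
    · intro c' hc' hne
      have : ¬ ∀ e ∈ F ∪ B, b e = c' e := by
        intro h
        apply hne
        funext e
        by_cases he : e ∈ F ∪ B
        · rw [if_pos he]; exact (h e he).symm
        · rw [if_neg he]
          unfold pats at hc'
          rw [Fintype.mem_piFinset] at hc'
          have h3 := hc' e
          have h1 : e ∉ F := fun h' => he (mem_union_left _ h')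
          have h2 : e ∉ B := fun h' => he (mem_union_right _ h')
          rw [if_neg h1, if_neg h2, mem_singleton] at h3
          exact h3
      unfold indR
      rw [if_neg this, zero_mul]
  · have h0 : indR (∀ e ∈ F, b e = c e) = 0 := if_neg hb
    rw [h0, zero_mul]
    refine sum_eq_zero (fun c' hc' => ?_)
    have : ¬ ∀ e ∈ F ∪ B, b e = c' e := by
      intro h
      apply hb
      intro e he
      rw [h e (mem_union_left _ he)]
      unfold pats at hc'
      rw [Fintype.mem_piFinset] at hc'
      have h3 := hc' e
      rw [if_pos he, mem_singleton] at h3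
      exact h3
    unfold indR
    rw [if_neg this, zero_mul]

omit [Fintype E] [DecidableEq E] in
lemma meanA_sum {ι : Type*} (x : E → Fin 3 → V) (s : Finset ι)
    (f : ι → (E → ZMod 2) → ℝ) :
    meanA x (fun b => ∑ i ∈ s, f i b) = ∑ i ∈ s, meanA x (f i) := by
  unfold meanA
  rw [sum_comm, sum_div]

lemma meanB_sum {ι : Type*} (s : Finset ι) (f : ι → (E → ZMod 2) → ℝ) :
    meanB (fun b => ∑ i ∈ s, f i b) = ∑ i ∈ s, meanB (f i) := by
  unfold meanB
  rw [sum_comm, sum_div]

variable {W : Type} [Fintype W]

/-- Algorithms with few queries are fooled. -/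
theorem fooled {x : E → Fin 3 → V} {s K : ℕ} (hexp : Expands x s)
    (G : (E → ZMod 2) → SimpleGraph W) (B : W → Finset E) (hB : ∀ w, (B w).card ≤ K)
    (hG : ∀ w b b', (∀ e ∈ B w, b e = b' e) → nbrs (G b) w = nbrs (G b') w) (T : QueryAlg W) :
    ∀ (F : Finset E) (c : E → ZMod 2) (q : ℕ),
      (∀ b, (∀ e ∈ F, b e = c e) → T.queries (G b) ≤ q) → F.card + K * q ≤ s →
      meanA x (fun b => indR (∀ e ∈ F, b e = c e) * indR (T.run (G b) = true)) =
        meanB (fun b => indR (∀ e ∈ F, b e = c e) * indR (T.run (G b) = true)) := by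
  induction T with
  | answer a =>
    intro F c q _ hF
    have h1 : ∀ b, (QueryAlg.answer a : QueryAlg W).run (G b) = a := fun b => rfl
    simp only [h1]
    have h2 := mean_cylinder hexp (F := F) (by omega) c
    unfold meanA meanB at *
    rw [← sum_mul, ← sum_mul, mul_div_right_comm, mul_div_right_comm, h2]
  | ask w next ih =>
    intro F c q hq hF
    have hq1 : 1 ≤ q := by
      have := hq c (fun _ _ => rfl)
      have h2 : (QueryAlg.ask w next).queries (G c) =
        (next (nbrs (G c) w)).queries (G c) + 1 := rfl
      omega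
    have key : ∀ b, indR (∀ e ∈ F, b e = c e) * indR ((QueryAlg.ask w next).run (G b) = true) =
        ∑ c' ∈ pats F (B w) c, indR (∀ e ∈ F ∪ B w, b e = c' e) *
          indR ((next (nbrs (G c') w)).run (G b) = true) := by
      intro b
      rw [sum_pats F (B w) c b (fun c' => indR ((next (nbrs (G c') w)).run (G b) = true))]
      congr 2
      have h1 : nbrs (G b) w = nbrs (G (fun e => if e ∈ F ∪ B w then b e else 0)) w := by
        refine hG w _ _ (fun e he => ?_)
        rw [if_pos (mem_union_right _ he)]
      rw [← h1]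
      rfl
    simp only [key]
    rw [meanA_sum, meanB_sum]
    refine sum_congr rfl (fun c' hc' => ?_)
    have hc'F : ∀ e ∈ F, c' e = c e := by
      intro e he
      unfold pats at hc'
      rw [Fintype.mem_piFinset] at hc'
      have h3 := hc' e
      rw [if_pos he, mem_singleton] at h3
      exact h3
    refine ih _ (F ∪ B w) c' (q - 1) ?_ ?_
    · intro b hb
      have h1 := hq b (fun e he => by rw [hb e (mem_union_left _ he)]; exact hc'F e he)
      have h2 : (QueryAlg.ask w next).queries (G b) =
        (next (nbrs (G b) w)).queries (G b) + 1 := rfl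
      have h3 : nbrs (G b) w = nbrs (G c') w :=
        hG w _ _ (fun e he => hb e (mem_union_right _ he))
      rw [h2, h3] at h1
      omega
    · have h1 := card_union_le F (B w)
      have h2 := hB w
      obtain ⟨q', rfl⟩ : ∃ q', q = q' + 1 := ⟨q - 1, by omega⟩
      have h3 : K * (q' + 1) = K * q' + K := by ring
      simp only [Nat.add_sub_cancel]
      omega

/-- The acceptance frequencies agree. -/
theorem fooled' {x : E → Fin 3 → V} {s K q : ℕ} (hexp : Expands x s)
    (G : (E → ZMod 2) → SimpleGraph W) (B : W → Finset E) (hB : ∀ w, (B w).card ≤ K)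
    (hG : ∀ w b b', (∀ e ∈ B w, b e = b' e) → nbrs (G b) w = nbrs (G b') w) (T : QueryAlg W)
    (hq : ∀ b, T.queries (G b) ≤ q) (hs : K * q ≤ s) :
    meanA x (fun b => indR (T.run (G b) = true)) = meanB (fun b => indR (T.run (G b) = true)) := by
  have h := fooled hexp G B hB hG T ∅ 0 q (fun b _ => hq b) (by simpa using hs)
  have h1 : ∀ b : E → ZMod 2, indR (∀ e ∈ (∅ : Finset E), b e = (0 : E → ZMod 2) e) = 1 :=
    fun b => if_pos (by simp)
  simpa only [h1, one_mul] using h

end

end Pool.Agent.Lib.MP_8d8c46_lc
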