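import Pool.Agent.Lib.MP_8d8c46_lc.Problem

/-!
Linear programming relaxations for small-set expansion.
-/

open scoped Classical
open Finset

namespace Pool.Agent.Lib.MP_8d8c46_lc

/-- A linear programming relaxation for finding a set `S` of `δ|V|` vertices of small expansion in
a `d`-regular graph on `V`. The polyhedron `{y | A y ≤ b}` has `size` inequalities in `vars`
variables and does not depend on the graph; every set `S` of `δ|V|` vertices is mapped to a point
of it, and the graph `G` enters only through an affine objective function whose value at the
point of `S` is the expansion of `S` in `G`. -/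
structure LPRelaxation (V : Type) [Fintype V] (δ : ℚ) (d : ℕ) where
  vars : ℕ
  size : ℕ
  A : Fin size → Fin vars → ℝ
  b : Fin size → ℝ
  point : Finset V → Fin vars → ℝ
  feasible : ∀ S : Finset V, (S.card : ℚ) = δ * Fintype.card V →
    ∀ i, ∑ t, A i t * point S t ≤ b i
  obj : SimpleGraph V → Fin vars → ℝ
  const : SimpleGraph V → ℝ
  exact : ∀ G : SimpleGraph V, Regular G d → ∀ S : Finset V,
    (S.card : ℚ) = δ * Fintype.card V →
    ∑ t, obj G t * point S t + const G = (expansion G d S : ℝ)

/-- The relaxation separates the `d`-regular Yes and No instances of `SSE(η, δ)` on `V`: the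
objective exceeds `η` on all of the polyhedron for every No instance. (For a Yes instance the
point of a set of expansion at most `η` has objective value at most `η`.) -/
def LPRelaxation.Solves {V : Type} [Fintype V] {δ : ℚ} {d : ℕ} (P : LPRelaxation V δ d)
    (η : ℚ) : Prop :=
  ∀ G : SimpleGraph V, Regular G d → SSENo η δ G → ∀ y : Fin P.vars → ℝ,
    (∀ i, ∑ t, P.A i t * y t ≤ P.b i) → (η : ℝ) < ∑ t, P.obj G t * y t + P.const G

/-- The relaxation separates the `d`-regular graphs on `V` which have a set of `δ|V|` vertices of
expansion at most `ε` from the `d`-regular No instances of `SSE(η, δ)` on `V`: the objective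
exceeds `ε` on all of the polyhedron for every No instance. (For a graph with a set of expansion
at most `ε` the point of that set has objective value at most `ε`.) -/
def LPRelaxation.Separates {V : Type} [Fintype V] {δ : ℚ} {d : ℕ} (P : LPRelaxation V δ d)
    (ε : ℝ) (η : ℚ) : Prop :=
  ∀ G : SimpleGraph V, Regular G d → SSENo η δ G → ∀ y : Fin P.vars → ℝ,
    (∀ i, ∑ t, P.A i t * y t ≤ P.b i) → ε < ∑ t, P.obj G t * y t + P.const G

end Pool.Agent.Lib.MP_8d8c46_lc
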