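import Pool.Agent.Lib.MP_8d8c46_lc.PseudoYes
import Pool.Agent.Lib.MP_8d8c46_lc.Mg.G021
import Pool.Agent.Lib.MP_8d8c46_lc.LPDef

/-!
The contradiction between a small relaxation and the randomly relabelled pseudo-expectations.
-/

open scoped Classical
open Finset

namespace Pool.Agent.Lib.MP_8d8c46_lc

section core
variable {n j : ℕ}

/-- relabelled moments -/
noncomputable def rlm (p : (Fin n → Lb j) → ℝ) (τ : Equiv.Perm (Fin n)) (w : Fin n → Lb j)
    (β : Fin n → Lb j) : ℝ := p (rl τ β) * chr β w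

lemma RL_eq_L0 (p : (Fin n → Lb j) → ℝ) (k : ℕ) (τ : Equiv.Perm (Fin n)) (w : Fin n → Lb j)
    (g : (Fin n → Lb j) → ℝ) : RL p k τ w g = L0 (rlm p τ w) k g := by
  unfold RL L0 rlm
  exact sum_congr rfl (fun β _ => by ring)

lemma abs_L0_le {P : (Fin n → Lb j) → ℝ} (hP : ∀ β, |P β| ≤ 1) (k : ℕ)
    {g : (Fin n → Lb j) → ℝ} (hg : ∀ x, 0 ≤ g x) :
    |L0 P k g| ≤ (lowk n j k).card * avg g := by
  unfold L0
  refine (abs_sum_le_sum_abs _ _).trans ?_
  refine (sum_le_card_nsmul _ _ (avg g) (fun β _ => ?_)).trans (le_of_eq (nsmul_eq_mul _ _))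
  rw [abs_mul]
  have h1 := abs_ft_le g β
  have h2 : avg (fun x => |g x|) = avg g := by
    congr 1; funext x; exact abs_of_nonneg (hg x)
  rw [h2] at h1
  calc |P β| * |ft g β| ≤ 1 * |ft g β| := mul_le_mul_of_nonneg_right (hP β) (abs_nonneg _)
    _ ≤ avg g := by rw [one_mul]; exact h1

/-- relabellings -/
abbrev Rlb (n j : ℕ) := Equiv.Perm (Fin n) × (Fin n → Lb j)

/-- The contradiction. -/
theorem lp_contra {k R : ℕ} (p : (Fin n → Lb j) → ℝ) (hp1 : ∀ β, |p β| ≤ 1) (hp0 : p 0 = 1)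
    {η M T : ℝ} (hη : 0 < η) (hM0 : 0 < M)
    (q : Fin R → (Fin n → Lb j) → ℝ) (hq : ∀ i x, 0 ≤ q i x)
    (v : Rlb n j → (Fin n → Lb j) → ℝ)
    (hv : ∀ ω x, v ω x ≤ 1)
    (lam : Rlb n j → Fin R → ℝ) (hlam : ∀ ω i, 0 ≤ lam ω i)
    (mu : Rlb n j → ℝ) (hmu : ∀ ω, 0 ≤ mu ω)
    (hF : ∀ ω x, v ω x - η = mu ω + ∑ i, lam ω i * q i x)
    (hL : ∀ ω, RL p k ω.1 ω.2 (v ω) ≤ η / 4)
    (hM : (R : ℝ) * (lowk n j k).card ≤ (η / 8) * M)
    (hT : (R : ℝ) < T)
    (htail : ∀ g : (Fin n → Lb j) → ℝ, (∀ x, 0 ≤ g x) → avg g = 1 → (∀ x, g x ≤ M) →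
      ((univ.filter (fun ω : Rlb n j =>
        RL p k ω.1 ω.2 g < -(η / 8))).card : ℝ) ≤
        (Fintype.card (Rlb n j) : ℝ) / T) : False := by
  have hT0 : 0 < T := lt_of_le_of_lt (Nat.cast_nonneg _) hT
  have hcard0 : (0 : ℝ) < Fintype.card (Rlb n j) := by exact_mod_cast Fintype.card_pos
  -- the functions of small norm
  set a : Fin R → ℝ := fun i => avg (q i) with ha
  have ha0 : ∀ i, 0 ≤ a i := fun i => avg_nonneg (hq i)
  set I := univ.filter (fun i : Fin R => 0 < a i ∧ ∀ x, q i x ≤ M * a i) with hI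
  have hbad : ∀ i ∈ I, ((univ.filter (fun ω : Rlb n j =>
      RL p k ω.1 ω.2 (fun x => (a i)⁻¹ * q i x) < -(η / 8))).card : ℝ) ≤
      (Fintype.card (Rlb n j) : ℝ) / T := by
    intro i hi
    rw [hI, mem_filter] at hi
    obtain ⟨_, hi1, hi2⟩ := hi
    apply htail
    · intro x; exact mul_nonneg (inv_pos.2 hi1).le (hq i x)
    · rw [avg_const_mul]
      exact inv_mul_cancel₀ hi1.ne'
    · intro x
      rw [inv_mul_le_iff₀ hi1]
      calc q i x ≤ M * a i := hi2 x
        _ = a i * M := mul_comm _ _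
  have hex : ∃ ω : Rlb n j, ∀ i ∈ I, -(η / 8) ≤ RL p k ω.1 ω.2 (fun x => (a i)⁻¹ * q i x) := by
    by_contra hcon
    push Not at hcon
    have h1 : (univ : Finset (Rlb n j)) ⊆ I.biUnion (fun i => univ.filter (fun ω : Rlb n j =>
        RL p k ω.1 ω.2 (fun x => (a i)⁻¹ * q i x) < -(η / 8))) := by
      intro ω _
      obtain ⟨i, hi, h⟩ := hcon ω
      exact mem_biUnion.2 ⟨i, hi, mem_filter.2 ⟨mem_univ _, h⟩⟩
    have h2 := (card_le_card h1).trans card_biUnion_le
    have h3 : (Fintype.card (Rlb n j) : ℝ) ≤ R * ((Fintype.card (Rlb n j) : ℝ) / T) := by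
      calc (Fintype.card (Rlb n j) : ℝ) = ((univ : Finset (Rlb n j)).card : ℝ) := by rw [card_univ]
        _ ≤ ((∑ i ∈ I, (univ.filter (fun ω : Rlb n j =>
            RL p k ω.1 ω.2 (fun x => (a i)⁻¹ * q i x) < -(η / 8))).card : ℕ) : ℝ) := by
            exact_mod_cast h2
        _ = ∑ i ∈ I, ((univ.filter (fun ω : Rlb n j =>
            RL p k ω.1 ω.2 (fun x => (a i)⁻¹ * q i x) < -(η / 8))).card : ℝ) := by
            push_cast; rfl
        _ ≤ ∑ i ∈ I, (Fintype.card (Rlb n j) : ℝ) / T := sum_le_sum hbad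
        _ = I.card * ((Fintype.card (Rlb n j) : ℝ) / T) := by rw [sum_const, nsmul_eq_mul]
        _ ≤ R * ((Fintype.card (Rlb n j) : ℝ) / T) := by
            refine mul_le_mul_of_nonneg_right ?_ (by positivity)
            have : I.card ≤ R := by
              calc I.card ≤ (univ : Finset (Fin R)).card := card_filter_le _ _
                _ = R := by rw [card_univ, Fintype.card_fin]
            exact_mod_cast this
    have h4 : (R : ℝ) * ((Fintype.card (Rlb n j) : ℝ) / T) < Fintype.card (Rlb n j) := by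
      rw [← mul_div_assoc, div_lt_iff₀ hT0, mul_comm]
      exact mul_lt_mul_of_pos_left hT hcard0
    linarith
  obtain ⟨ω, hω⟩ := hex
  set P := rlm p ω.1 ω.2 with hP
  have hPle : ∀ β, |P β| ≤ 1 := by
    intro β
    rw [hP]
    unfold rlm
    rw [abs_mul, abs_chr, mul_one]
    exact hp1 _
  have hP0 : P 0 = 1 := by
    rw [hP]
    unfold rlm
    have : rl ω.1 (0 : Fin n → Lb j) = 0 := rfl
    rw [this, hp0, chr_zero_left, mul_one]
  have hone : L0 P k (fun _ => 1) = 1 := by rw [L0_one, hP0]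
  -- constraints on the multipliers
  have hsum1 : ∀ x, ∑ i, lam ω i * q i x ≤ 1 := by
    intro x
    have h1 := hF ω x
    have h2 := hv ω x
    have h3 := hmu ω
    linarith
  have hsuma : ∑ i, lam ω i * a i ≤ 1 := by
    have h1 : avg (fun x => ∑ i, lam ω i * q i x) = ∑ i, lam ω i * a i := by
      rw [avg_sum]
      exact sum_congr rfl (fun i _ => avg_const_mul _ _)
    rw [← h1]
    calc avg (fun x => ∑ i, lam ω i * q i x) ≤ avg (fun _ : Fin n → Lb j => (1 : ℝ)) :=
          avg_mono hsum1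
      _ = 1 := avg_const _
  -- the pseudo-expectation of each term
  set Λ : ℝ := ((lowk n j k).card : ℝ) with hΛ
  have hΛ0 : 0 ≤ Λ := Nat.cast_nonneg _
  have hterm : ∀ i, -(η / 8) * (lam ω i * a i) - Λ / M ≤ lam ω i * L0 P k (q i) := by
    intro i
    have hli := hlam ω i
    have hΛM : 0 ≤ Λ / M := by positivity
    by_cases hi : i ∈ I
    · have h1 := hω i hi
      rw [RL_eq_L0, L0_const_mul] at h1
      rw [hI, mem_filter] at hi
      obtain ⟨_, hi1, _⟩ := hi
      have h2 : -(η / 8) * a i ≤ L0 P k (q i) := by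
        have h3 := mul_le_mul_of_nonneg_left h1 hi1.le
        have h4 : a i * ((a i)⁻¹ * L0 (rlm p ω.1 ω.2) k (q i)) = L0 P k (q i) := by
          rw [← mul_assoc, mul_inv_cancel₀ hi1.ne', one_mul]
        rw [h4] at h3
        linarith
      have h3 := mul_le_mul_of_nonneg_left h2 hli
      have h4 : lam ω i * (-(η / 8) * a i) = -(η / 8) * (lam ω i * a i) := by ring
      linarith
    · by_cases hai : 0 < a i
      · -- large norm
        have h1 : ∃ x, M * a i < q i x := by
          by_contra hcon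
          push Not at hcon
          exact hi (mem_filter.2 ⟨mem_univ _, hai, hcon⟩)
        obtain ⟨x, hx⟩ := h1
        have h2 : lam ω i * q i x ≤ 1 := by
          refine le_trans ?_ (hsum1 x)
          exact single_le_sum (f := fun i => lam ω i * q i x)
            (fun i _ => mul_nonneg (hlam ω i) (hq i x)) (mem_univ i)
        have h3 : lam ω i * a i ≤ 1 / M := by
          rw [le_div_iff₀ hM0]
          calc lam ω i * a i * M = lam ω i * (M * a i) := by ring
            _ ≤ lam ω i * q i x := mul_le_mul_of_nonneg_left hx.le hli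
            _ ≤ 1 := h2
        have h4 := (abs_le.1 (abs_L0_le hPle k (hq i))).1
        have h5 : -(Λ * (lam ω i * a i)) ≤ lam ω i * L0 P k (q i) := by
          calc -(Λ * (lam ω i * a i)) = lam ω i * (-(Λ * a i)) := by ring
            _ ≤ _ := mul_le_mul_of_nonneg_left h4 hli
        have h6 : Λ * (lam ω i * a i) ≤ Λ / M := by
          calc Λ * (lam ω i * a i) ≤ Λ * (1 / M) := mul_le_mul_of_nonneg_left h3 hΛ0
            _ = Λ / M := by ring
        have h7 : 0 ≤ (η / 8) * (lam ω i * a i) :=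
          mul_nonneg (by linarith) (mul_nonneg hli hai.le)
        linarith
      · -- zero function
        have hz : a i = 0 := le_antisymm (not_lt.1 hai) (ha0 i)
        have h4 := abs_L0_le hPle k (hq i)
        have hz' : avg (q i) = 0 := hz
        rw [hz', mul_zero] at h4
        have h5 : L0 P k (q i) = 0 := abs_eq_zero.1 (le_antisymm h4 (abs_nonneg _))
        rw [h5, hz, mul_zero, mul_zero]
        linarith
  have htot : -(η / 8) - (η / 8) ≤ ∑ i, lam ω i * L0 P k (q i) := by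
    calc -(η / 8) - (η / 8) ≤ -(η / 8) * ∑ i, lam ω i * a i - R * (Λ / M) := by
          have h1 : (R : ℝ) * (Λ / M) ≤ η / 8 := by
            rw [← mul_div_assoc, div_le_iff₀ hM0]
            exact hM
          have h2 : (η / 8) * ∑ i, lam ω i * a i ≤ (η / 8) * 1 :=
            mul_le_mul_of_nonneg_left hsuma (by linarith)
          linarith
      _ = ∑ i : Fin R, (-(η / 8) * (lam ω i * a i) - Λ / M) := by
          rw [sum_sub_distrib, ← mul_sum, sum_const, card_univ, Fintype.card_fin, nsmul_eq_mul]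
      _ ≤ _ := sum_le_sum (fun i _ => hterm i)
  -- evaluate both sides
  have hev : L0 P k (v ω) = (mu ω + η) + ∑ i, lam ω i * L0 P k (q i) := by
    have h1 : v ω = fun x => (mu ω + η) * 1 + ∑ i, lam ω i * q i x := by
      funext x
      have := hF ω x
      linarith
    rw [h1, L0_add, L0_const_mul, hone, mul_one, L0_sum]
    congr 1
    exact sum_congr rfl (fun i _ => L0_const_mul _ _ _ _)
  have h1 := hL ω
  rw [RL_eq_L0] at h1
  have h2 := hmu ω
  rw [← hP, hev] at h1
  linarith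

end core

section pd
variable {n j : ℕ} {E : Type} [Fintype E] {s t : E → Fin n} (c : E → Lb j)

/-- The pseudo-moments of a system without short circulations have all required properties. -/
lemma pd_of {D L g k : ℕ} {G : Finset E} {lam : ℝ} (hreg : RegSys s t D)
    (hG : NoCirc j s t G g) (hg : 2 * L ≤ g) (hg' : (2 ^ j) ^ k * L ≤ g) (h0 : 0 ≤ lam)
    (h1 : lam ≤ 1) (hsmall : ((2 : ℝ) ^ j) ^ k * lam ^ L ≤ (1 - lam) ^ (2 * D * k)) :
    PD (pmo lam s t c G L) (near s t L) k ((1 + 2 * D) ^ L) where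
  symm := fun _ _ h => near_symm h
  ball := card_near hreg.degLE L
  le_one := abs_pm_le c hg hG h0 h1
  paired := fun _ h => pm_paired c h
  pos := fun _ hW x => DW_nonneg c hg hg' hG h0 h1 hreg.degLE hsmall hW x

end pd

end Pool.Agent.Lib.MP_8d8c46_lc
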