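import Pool.Agent.Lib.MP_8d8c46_lc.Flows

/-!
The pseudo-expectation attached to a multigraph without short circulations.
-/

open scoped Classical
open Finset

namespace Pool.Agent.Lib.MP_8d8c46_lc

section near
variable {n j : ℕ} {E : Type} [Fintype E] (s t : E → Fin n)

/-- the simple graph of pairs joined by an edge -/
def eg : SimpleGraph (Fin n) := SimpleGraph.fromRel (fun u v => ∃ e, s e = u ∧ t e = v)

/-- `u` and `v` are at distance at most `L` -/
def near (L : ℕ) (u v : Fin n) : Prop := ∃ p : (eg s t).Walk u v, p.length ≤ L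

variable {s t}

omit [Fintype E] in
lemma near_symm {L : ℕ} {u v : Fin n} (h : near s t L u v) : near s t L v u := by
  obtain ⟨p, hp⟩ := h
  exact ⟨p.reverse, by rwa [SimpleGraph.Walk.length_reverse]⟩

omit [Fintype E] in
lemma near_refl (L : ℕ) (u : Fin n) : near s t L u u := ⟨SimpleGraph.Walk.nil, by simp⟩

omit [Fintype E] in
lemma near_mono {L L' : ℕ} (h : L ≤ L') {u v : Fin n} (hn : near s t L u v) :
    near s t L' u v := by
  obtain ⟨p, hp⟩ := hn
  exact ⟨p, hp.trans h⟩

omit [Fintype E] in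
lemma near_edge (e : E) : near s t 1 (s e) (t e) := by
  by_cases h : s e = t e
  · rw [h]; exact near_refl _ _
  · have hadj : (eg s t).Adj (s e) (t e) := by
      unfold eg
      rw [SimpleGraph.fromRel_adj]
      exact ⟨h, Or.inl ⟨e, rfl, rfl⟩⟩
    exact ⟨SimpleGraph.Walk.cons hadj SimpleGraph.Walk.nil, by simp⟩

omit [Fintype E] in
lemma near_trans {L L' : ℕ} {u v w : Fin n} (h : near s t L u v) (h' : near s t L' v w) :
    near s t (L + L') u w := by
  obtain ⟨p, hp⟩ := h
  obtain ⟨q, hq⟩ := h'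
  exact ⟨p.append q, by rw [SimpleGraph.Walk.length_append]; omega⟩

lemma card_near {Δ : ℕ} (hΔ : DegLE s t Δ) (L : ℕ) : ∀ u,
    (univ.filter (fun v => near s t L u v)).card ≤ (1 + Δ) ^ L := by
  have hnb : ∀ u, (univ.filter (fun v => (eg s t).Adj u v)).card ≤ Δ := by
    intro u
    refine le_trans ?_ (hΔ u)
    have hsub : univ.filter (fun v => (eg s t).Adj u v) ⊆
        (univ.filter (fun e => s e = u ∨ t e = u)).image (fun e => if s e = u then t e else s e) := by
      intro v hv
      simp only [mem_filter, mem_univ, true_and] at hv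
      unfold eg at hv
      rw [SimpleGraph.fromRel_adj] at hv
      rw [mem_image]
      obtain ⟨hne, ⟨e, h1, h2⟩ | ⟨e, h1, h2⟩⟩ := hv
      · exact ⟨e, by simp [h1], by rw [if_pos h1, h2]⟩
      · refine ⟨e, by simp [h2], ?_⟩
        rw [if_neg (by rw [h1]; exact fun h => hne h.symm), h1]
    exact (card_le_card hsub).trans card_image_le
  induction L with
  | zero =>
    intro u
    rw [pow_zero, card_le_one]
    intro a ha b hb
    simp only [mem_filter, mem_univ, true_and] at ha hb
    obtain ⟨p, hp⟩ := ha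
    obtain ⟨q, hq⟩ := hb
    rw [← SimpleGraph.Walk.eq_of_length_eq_zero (Nat.le_zero.1 hp),
      ← SimpleGraph.Walk.eq_of_length_eq_zero (Nat.le_zero.1 hq)]
  | succ L ih =>
    intro u
    have hsub : univ.filter (fun v => near s t (L + 1) u v) ⊆
        insert u ((univ.filter (fun v => (eg s t).Adj u v)).biUnion
          (fun w => univ.filter (fun v => near s t L w v))) := by
      intro v hv
      simp only [mem_filter, mem_univ, true_and] at hv
      obtain ⟨p, hp⟩ := hv
      rw [mem_insert, mem_biUnion]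
      cases p with
      | nil => exact Or.inl rfl
      | cons h q =>
        refine Or.inr ⟨_, by simpa using h, ?_⟩
        simp only [mem_filter, mem_univ, true_and]
        refine ⟨q, ?_⟩
        rw [SimpleGraph.Walk.length_cons] at hp
        omega
    refine (card_le_card hsub).trans ((card_insert_le _ _).trans ?_)
    have h1 : ((univ.filter (fun v => (eg s t).Adj u v)).biUnion
          (fun w => univ.filter (fun v => near s t L w v))).card ≤ Δ * (1 + Δ) ^ L := by
      refine card_biUnion_le.trans ?_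
      refine (sum_le_card_nsmul _ _ ((1 + Δ) ^ L) (fun w _ => ih w)).trans ?_
      rw [smul_eq_mul]
      exact Nat.mul_le_mul_right _ (hnb u)
    have h2 : 1 ≤ (1 + Δ) ^ L := Nat.one_le_pow _ _ (by omega)
    calc _ ≤ Δ * (1 + Δ) ^ L + 1 := by omega
      _ ≤ Δ * (1 + Δ) ^ L + (1 + Δ) ^ L := by omega
      _ = (1 + Δ) ^ (L + 1) := by ring

omit [Fintype E] in
/-- A set of vertices grows to one closed under the edges in `F` within distance `|F|`. -/
lemma exists_closed : ∀ (m : ℕ) (F : Finset E), F.card = m → ∀ S : Finset (Fin n),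
    ∃ C : Finset (Fin n), S ⊆ C ∧ (∀ e ∈ F, (s e ∈ C ↔ t e ∈ C)) ∧
      ∀ v ∈ C, ∃ w ∈ S, near s t m w v := by
  intro m
  induction m with
  | zero =>
    intro F hF S
    rw [card_eq_zero] at hF
    subst hF
    exact ⟨S, Subset.refl _, by simp, fun v hv => ⟨v, hv, near_refl _ _⟩⟩
  | succ m ih =>
    intro F hF S
    by_cases hcl : ∀ e ∈ F, (s e ∈ S ↔ t e ∈ S)
    · exact ⟨S, Subset.refl _, hcl, fun v hv => ⟨v, hv, near_refl _ _⟩⟩
    · push Not at hcl
      obtain ⟨e, heF, he⟩ := hcl
      have hw : ∃ w ∈ S, near s t 1 w (s e) ∧ near s t 1 w (t e) := by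
        rcases he with ⟨h1, _⟩ | ⟨_, h2⟩
        · exact ⟨s e, h1, near_refl _ _, near_edge e⟩
        · exact ⟨t e, h2, near_symm (near_edge e), near_refl _ _⟩
      obtain ⟨C, hC1, hC2, hC3⟩ := ih (F.erase e) (by rw [card_erase_of_mem heF, hF]; rfl)
        (insert (s e) (insert (t e) S))
      refine ⟨C, ?_, ?_, ?_⟩
      · exact ((subset_insert _ _).trans (subset_insert _ _)).trans hC1
      · intro e' he'
        by_cases heq : e' = e
        · subst heq
          have a1 : s e' ∈ C := hC1 (mem_insert_self _ _)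
          have a2 : t e' ∈ C := hC1 (mem_insert_of_mem (mem_insert_self _ _))
          simp [a1, a2]
        · exact hC2 e' (mem_erase.2 ⟨heq, he'⟩)
      · intro v hv
        obtain ⟨w, hw1, hw2⟩ := hC3 v hv
        rw [mem_insert, mem_insert] at hw1
        obtain ⟨w', hw'S, hws, hwt⟩ := hw
        rcases hw1 with rfl | rfl | h
        · exact ⟨w', hw'S, near_mono (by omega) (near_trans hws hw2)⟩
        · exact ⟨w', hw'S, near_mono (by omega) (near_trans hwt hw2)⟩
        · exact ⟨w, h, near_mono (by omega) hw2⟩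

/-- A boundary point of a flow has another boundary point nearby. -/
lemma exists_near_bd {φ : E → Lb j} {u : Fin n} (hu : bdy s t φ u ≠ 0) :
    ∃ v, v ≠ u ∧ bdy s t φ v ≠ 0 ∧ near s t (fs φ).card u v := by
  obtain ⟨C, hC1, hC2, hC3⟩ := exists_closed (s := s) (t := t) (fs φ).card (fs φ) rfl {u}
  by_contra hcon
  push Not at hcon
  have huC : u ∈ C := hC1 (mem_singleton_self _)
  have h1 : ∑ v ∈ C, bdy s t φ v = bdy s t φ u := by
    refine sum_eq_single u ?_ (fun h => absurd huC h)
    intro v hv hne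
    by_contra h0
    obtain ⟨w, hw, hn⟩ := hC3 v hv
    rw [mem_singleton] at hw
    subst hw
    exact hcon v hne h0 hn
  have h2 : ∑ v ∈ C, bdy s t φ v = 0 := by
    unfold bdy
    rw [sum_comm]
    refine sum_eq_zero (fun e _ => ?_)
    rw [sum_add_distrib, sum_ite_eq, sum_ite_eq]
    by_cases he : φ e = 0
    · rw [he]; simp
    · have := hC2 e (mem_fs.2 he)
      by_cases h : s e ∈ C
      · rw [if_pos h, if_pos (this.1 h)]
        exact lb_add_self _
      · rw [if_neg h, if_neg (fun h' => h (this.2 h')), add_zero]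
  exact hu (h1.symm.trans h2)

end near

section L0
variable {n j : ℕ}

lemma ft_add (g h : (Fin n → Lb j) → ℝ) (β : Fin n → Lb j) :
    ft (fun x => g x + h x) β = ft g β + ft h β := by
  unfold ft
  rw [← avg_add]
  congr 1; funext x; ring

lemma ft_const_mul (a : ℝ) (g : (Fin n → Lb j) → ℝ) (β : Fin n → Lb j) :
    ft (fun x => a * g x) β = a * ft g β := by
  unfold ft
  rw [← avg_const_mul]
  congr 1; funext x; ring

lemma ft_sum {ι : Type*} (F : Finset ι) (g : ι → (Fin n → Lb j) → ℝ) (β : Fin n → Lb j) :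
    ft (fun x => ∑ i ∈ F, g i x) β = ∑ i ∈ F, ft (g i) β := by
  unfold ft
  rw [← avg_sum]
  congr 1; funext x; rw [sum_mul]

lemma ft_chr (γ β : Fin n → Lb j) : ft (chr γ) β = if γ = β then 1 else 0 := avg_chr_mul γ β

/-- A function of the coordinates in `W` has no Fourier coefficients outside `W`. -/
lemma ft_eq_zero {h : (Fin n → Lb j) → ℝ} {W : Finset (Fin n)}
    (hh : ∀ x y, (∀ u ∈ W, x u = y u) → h x = h y) {β : Fin n → Lb j} (hβ : ¬ sp β ⊆ W) :
    ft h β = 0 := by
  rw [not_subset] at hβ
  obtain ⟨u, hu, huW⟩ := hβ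
  obtain ⟨b, hb⟩ := exists_dt_ne (mem_sp.1 hu)
  obtain ⟨y₀, hy₀, hy₁⟩ : ∃ y₀ : Fin n → Lb j, y₀ u = b ∧ ∀ v, v ≠ u → y₀ v = 0 :=
    ⟨Pi.single u b, Pi.single_eq_same _ _, fun v hv => Pi.single_eq_of_ne hv _⟩
  have hy : pr β y₀ = 1 := by
    have : pr β y₀ = dt (β u) b := by
      unfold pr
      rw [Finset.sum_eq_single u]
      · rw [hy₀]
      · intro u' _ hne
        rw [hy₁ u' hne, dt_zero_right]
      · simp
    rw [this]
    exact (zmod2_cases _).resolve_left hb
  have h1 : ft h β = avg (fun x => h (x + y₀) * chr β (x + y₀)) :=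
    (avg_equiv (Equiv.addRight y₀) (fun x => h x * chr β x)).symm
  have h2 : (fun x => h (x + y₀) * chr β (x + y₀)) =
      fun x => (-1) * (h x * chr β x) := by
    funext x
    have e1 : h (x + y₀) = h x := by
      apply hh
      intro v hv
      have : v ≠ u := fun h => huW (h ▸ hv)
      rw [Pi.add_apply, hy₁ v this, add_zero]
    have e2 : chr β (x + y₀) = - chr β x := by
      rw [chr_add_right]
      unfold chr
      rw [hy, sg_one]; ring
    rw [e1, e2]; ring
  rw [h2, avg_const_mul] at h1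
  have h3 : avg (fun x => h x * chr β x) = ft h β := rfl
  rw [h3] at h1
  linarith

variable (p : (Fin n → Lb j) → ℝ) (k : ℕ)

/-- the functional with moments `p` in degree at most `k` -/
noncomputable def L0 (h : (Fin n → Lb j) → ℝ) : ℝ := ∑ β ∈ lowk n j k, p β * ft h β

lemma L0_add (g h : (Fin n → Lb j) → ℝ) : L0 p k (fun x => g x + h x) = L0 p k g + L0 p k h := by
  unfold L0
  rw [← sum_add_distrib]
  exact sum_congr rfl (fun β _ => by rw [ft_add]; ring)

lemma L0_const_mul (a : ℝ) (h : (Fin n → Lb j) → ℝ) :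
    L0 p k (fun x => a * h x) = a * L0 p k h := by
  unfold L0
  rw [mul_sum]
  exact sum_congr rfl (fun β _ => by rw [ft_const_mul]; ring)

lemma L0_sum {ι : Type*} (F : Finset ι) (g : ι → (Fin n → Lb j) → ℝ) :
    L0 p k (fun x => ∑ i ∈ F, g i x) = ∑ i ∈ F, L0 p k (g i) := by
  unfold L0
  rw [sum_comm]
  refine sum_congr rfl (fun β _ => ?_)
  rw [ft_sum, mul_sum]

lemma L0_chr {γ : Fin n → Lb j} (hγ : (sp γ).card ≤ k) : L0 p k (chr γ) = p γ := by
  unfold L0
  rw [Finset.sum_eq_single γ]
  · rw [ft_chr, if_pos rfl, mul_one]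
  · intro β _ hne
    rw [ft_chr, if_neg (Ne.symm hne), mul_zero]
  · intro h
    exact absurd (mem_lowk.2 hγ) h

lemma L0_one : L0 p k (fun _ => 1) = p 0 := by
  have h : (fun _ : Fin n → Lb j => (1 : ℝ)) = chr 0 := by
    funext x; rw [chr_zero_left]
  rw [h, L0_chr]
  have : sp (0 : Fin n → Lb j) = ∅ := by ext u; simp [mem_sp]
  rw [this]; simp

/-- The functional is nonnegative on nonnegative functions of at most `k` coordinates. -/
lemma L0_nonneg {W : Finset (Fin n)} (hW : W.card ≤ k)
    (hpos : ∀ x, 0 ≤ ∑ β ∈ univ.filter (fun β : Fin n → Lb j => sp β ⊆ W), p β * chr β x)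
    {h : (Fin n → Lb j) → ℝ} (h0 : ∀ x, 0 ≤ h x)
    (hh : ∀ x y, (∀ u ∈ W, x u = y u) → h x = h y) : 0 ≤ L0 p k h := by
  have h1 : L0 p k h = avg (fun x => h x *
      ∑ β ∈ univ.filter (fun β : Fin n → Lb j => sp β ⊆ W), p β * chr β x) := by
    rw [avg_mul_sum]
    unfold L0
    symm
    refine sum_subset_zero_on_sdiff ?_ ?_ (fun _ _ => rfl)
    · intro β hβ
      rw [mem_filter] at hβ
      exact mem_lowk.2 ((card_le_card hβ.2).trans hW)
    · intro β hβ
      rw [mem_sdiff, mem_filter, not_and] at hβ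
      rw [ft_eq_zero hh (hβ.2 (mem_univ _)), mul_zero]
  rw [h1]
  exact avg_nonneg (fun x => mul_nonneg (h0 x) (hpos x))

end L0

section edge
variable {n j : ℕ} {E : Type} [Fintype E] {lam : ℝ} {s t : E → Fin n} (c : E → Lb j)

lemma fs_single (e : E) (b : Lb j) : fs (Pi.single e b : E → Lb j) ⊆ {e} := by
  intro e' he'
  rw [mem_fs] at he'
  rw [mem_singleton]
  by_contra h
  exact he' (Pi.single_eq_of_ne h _)

lemma fs_single_card (e : E) (b : Lb j) :
    (fs (Pi.single e b : E → Lb j)).card = if b = 0 then 0 else 1 := by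
  by_cases hb : b = 0
  · rw [if_pos hb, hb, Pi.single_zero, fs_zero, card_empty]
  · rw [if_neg hb]
    have : fs (Pi.single e b : E → Lb j) = {e} := by
      apply Subset.antisymm (fs_single e b)
      rw [singleton_subset_iff, mem_fs, Pi.single_eq_same]
      exact hb
    rw [this, card_singleton]

lemma bd_single (e : E) (b : Lb j) (u : Fin n) :
    bdy s t (Pi.single e b) u = (if s e = u then b else 0) + (if t e = u then b else 0) := by
  unfold bdy
  rw [Finset.sum_eq_single e]
  · rw [Pi.single_eq_same]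
  · intro e' _ hne
    rw [Pi.single_eq_of_ne hne]; simp
  · simp

/-- The pseudo-probability that a good edge is satisfied is at least `lam`. -/
lemma L0_edge {G : Finset E} {L g k : ℕ} (hL : 1 ≤ L) (hg : 2 * L ≤ g)
    (hG : NoCirc j s t G g) (h1 : lam ≤ 1) (hk : 2 ≤ k) {e : E} (he : e ∈ G) :
    lam ≤ L0 (pmo lam s t c G L) k
      (fun x => if x (s e) + x (t e) + c e = 0 then 1 else 0) := by
  have hfun : (fun x : Fin n → Lb j => if x (s e) + x (t e) + c e = 0 then (1 : ℝ) else 0) =
      fun x => ((2 : ℝ) ^ j)⁻¹ * ∑ b : Lb j, sg (dt b (c e)) * chr (bdy s t (Pi.single e b)) x := by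
    funext x
    have h2 : ∀ b : Lb j, sg (dt b (c e)) * chr (bdy s t (Pi.single e b)) x =
        sg (dt b (x (s e) + x (t e) + c e)) := by
      intro b
      unfold chr
      rw [pr_bd, ← sg_add]
      congr 1
      rw [Finset.sum_eq_single e]
      · rw [Pi.single_eq_same, ← dt_add_right, add_comm]
      · intro e' _ hne
        rw [Pi.single_eq_of_ne hne, dt_zero_left]
      · simp
    rw [sum_congr rfl (fun b _ => h2 b), sum_sg_dt, ← mul_assoc,
      inv_mul_cancel₀ (by positivity), one_mul]
  rw [hfun, L0_const_mul, L0_sum]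
  have h3 : ∀ b : Lb j, L0 (pmo lam s t c G L) k
      (fun x => sg (dt b (c e)) * chr (bdy s t (Pi.single e b)) x) =
      if b = 0 then 1 else lam := by
    intro b
    rw [L0_const_mul]
    have hsp : (sp (bdy s t (Pi.single e b))).card ≤ k := by
      refine le_trans ?_ hk
      have hsub : sp (bdy s t (Pi.single e b)) ⊆ {s e, t e} := by
        intro u hu
        rw [mem_sp, bd_single] at hu
        rw [mem_insert, mem_singleton]
        by_contra hcon
        push Not at hcon
        apply hu
        rw [if_neg (Ne.symm hcon.1), if_neg (Ne.symm hcon.2), add_zero]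
      exact (card_le_card hsub).trans card_le_two
    have h4 := L0_chr (pmo lam s t c G L) k hsp
    rw [h4, pm_bd c hg hG]
    · unfold co
      rw [fs_single_card]
      have h5 : ∑ e', dt ((Pi.single e b : E → Lb j) e') (c e') = dt b (c e) := by
        rw [Finset.sum_eq_single e]
        · rw [Pi.single_eq_same]
        · intro e' _ hne
          rw [Pi.single_eq_of_ne hne, dt_zero_left]
        · simp
      rw [h5]
      by_cases hb : b = 0
      · rw [if_pos hb, if_pos hb, pow_zero, one_mul, sg_mul_self]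
      · rw [if_neg hb, if_neg hb, pow_one]
        calc sg (dt b (c e)) * (lam * sg (dt b (c e))) = lam * (sg (dt b (c e)) * sg (dt b (c e))) := by
              ring
          _ = lam := by rw [sg_mul_self, mul_one]
    · rw [mem_SF]
      refine ⟨(fs_single e b).trans (singleton_subset_iff.2 he), ?_⟩
      rw [fs_single_card]
      split_ifs <;> omega
  rw [sum_congr rfl (fun b _ => h3 b)]
  have h5 : ∑ b : Lb j, (if b = 0 then 1 else lam) = 1 - lam + 2 ^ j * lam := by
    have h6 : ∀ b : Lb j, (if b = 0 then 1 else lam) = lam + (if b = 0 then 1 - lam else 0) := by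
      intro b
      split_ifs <;> ring
    rw [sum_congr rfl (fun b _ => h6 b), sum_add_distrib, sum_const, card_univ, Fintype.card_fun,
      ZMod.card, Fintype.card_fin, sum_ite_eq', if_pos (mem_univ _), nsmul_eq_mul]
    push_cast; ring
  rw [h5]
  have h7 : (0 : ℝ) < 2 ^ j := by positivity
  rw [inv_mul_eq_div, le_div_iff₀ h7]
  linarith

/-- A nonzero pseudo-moment has a paired support. -/
lemma pm_paired {G : Finset E} {L : ℕ} {β : Fin n → Lb j} (h : pmo lam s t c G L β ≠ 0) :
    ∀ u ∈ sp β, ∃ v ∈ sp β, v ≠ u ∧ near s t L u v := by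
  intro u hu
  obtain ⟨φ, hφ, rfl⟩ := exists_of_pm_ne c h
  obtain ⟨v, h1, h2, h3⟩ := exists_near_bd (mem_sp.1 hu)
  exact ⟨v, mem_sp.2 h2, h1, near_mono (mem_SF.1 hφ).2 h3⟩

lemma pm_zero {G : Finset E} {L g : ℕ} (hg : 2 * L ≤ g) (hG : NoCirc j s t G g) :
    pmo lam s t c G L 0 = 1 := by
  have h := pm_bd (lam := lam) c hg hG (φ := 0) (by rw [mem_SF, fs_zero]; simp)
  rw [bd_zero] at h
  rw [h]
  unfold co
  rw [fs_zero]
  simp [dt_zero_left, sg_zero]

end edge

end Pool.Agent.Lib.MP_8d8c46_lc
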