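import Pool.Agent.Lib.MP_8d8c46_lc.Mg.G015
import Pool.Agent.Lib.MP_8d8c46_lc.Pseudo

/-!
The lift of a multigraph with labels on the edges, blown up to a simple regular graph.
-/

open scoped Classical
open Finset

namespace Pool.Agent.Lib.MP_8d8c46_lc

section lift
variable {n j : ℕ} {E : Type} [Fintype E] (s t : E → Fin n) (c : E → Lb j)

/-- The multiplicity of the pair `(q, r)` of lifted vertices. -/
noncomputable def lW (q r : Fin n × Lb j) : ℕ :=
  ∑ e, (indN (s e = q.1 ∧ t e = r.1 ∧ q.2 + r.2 = c e) +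
    indN (s e = r.1 ∧ t e = q.1 ∧ q.2 + r.2 = c e))

lemma lW_symm (q r : Fin n × Lb j) : lW s t c q r = lW s t c r q := by
  unfold lW
  refine sum_congr rfl (fun e _ => ?_)
  rw [add_comm, add_comm q.2 r.2]

lemma lb_add_eq_iff {a b d : Lb j} : a + b = d ↔ b = a + d := by
  constructor
  · rintro rfl
    rw [← add_assoc, lb_add_self, zero_add]
  · rintro rfl
    rw [← add_assoc, lb_add_self, zero_add]

/-- Sums against the multiplicities. -/
lemma sum_lW (F : Fin n × Lb j → Fin n × Lb j → ℝ) :
    ∑ q, ∑ r, (lW s t c q r : ℝ) * F q r =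
      ∑ e, ∑ a, (F (s e, a) (t e, a + c e) + F (t e, a + c e) (s e, a)) := by
  have h1 : ∀ (u v : Fin n) (d : Lb j) (F : Fin n × Lb j → Fin n × Lb j → ℝ),
      ∑ q, ∑ r, (indN (u = q.1 ∧ v = r.1 ∧ q.2 + r.2 = d) : ℝ) * F q r =
      ∑ a, F (u, a) (v, a + d) := by
    intro u v d F
    rw [Fintype.sum_prod_type, Finset.sum_eq_single u]
    · refine sum_congr rfl (fun a _ => ?_)
      rw [Finset.sum_eq_single (v, a + d)]
      · rw [indN_pos ⟨rfl, rfl, lb_add_eq_iff.2 rfl⟩]; simp
      · rintro ⟨v', b⟩ _ hne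
        rw [indN_neg]
        · simp
        · rintro ⟨_, h2, h3⟩
          apply hne
          simp only at h2 h3
          rw [lb_add_eq_iff] at h3
          rw [h2, h3]
      · simp
    · intro u' _ hne
      refine sum_eq_zero (fun a _ => sum_eq_zero (fun r _ => ?_))
      rw [indN_neg (fun h => hne h.1.symm)]; simp
    · simp
  have h2 : ∀ (u v : Fin n) (d : Lb j) (F : Fin n × Lb j → Fin n × Lb j → ℝ),
      ∑ q, ∑ r, (indN (u = r.1 ∧ v = q.1 ∧ q.2 + r.2 = d) : ℝ) * F q r =
      ∑ a, F (v, a + d) (u, a) := by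
    intro u v d F
    rw [sum_comm, ← h1 u v d (fun r q => F q r)]
    refine sum_congr rfl (fun r _ => sum_congr rfl (fun q _ => ?_))
    rw [add_comm q.2 r.2]
  unfold lW
  push_cast
  simp_rw [sum_mul, add_mul]
  rw [sum_congr rfl (fun q _ => sum_comm), sum_comm]
  refine sum_congr rfl (fun e _ => ?_)
  simp_rw [sum_add_distrib]
  rw [h1, h2]

/-- every vertex is the source of `D` edges and the target of `D` edges -/
def RegSys (D : ℕ) : Prop :=
  (∀ v, (univ.filter (fun e => s e = v)).card = D) ∧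
    (∀ v, (univ.filter (fun e => t e = v)).card = D)

variable {s t c}

lemma RegSys.degLE {D : ℕ} (h : RegSys s t D) : DegLE s t (2 * D) := by
  intro u
  have h1 : univ.filter (fun e => s e = u ∨ t e = u) ⊆
      univ.filter (fun e => s e = u) ∪ univ.filter (fun e => t e = u) := by
    intro e he
    simp only [mem_filter, mem_univ, true_and, mem_union] at he ⊢
    exact he
  refine (card_le_card h1).trans ((card_union_le _ _).trans ?_)
  rw [h.1 u, h.2 u]; omega

lemma RegSys.card {D : ℕ} (h : RegSys s t D) : Fintype.card E = D * n := by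
  have h1 : Fintype.card E = ∑ v : Fin n, (univ.filter (fun e => s e = v)).card := by
    rw [← card_univ]
    exact card_eq_sum_card_fiberwise (fun _ _ => mem_coe.2 (mem_univ _))
  rw [h1, sum_congr rfl (fun v _ => h.1 v), sum_const, card_univ, Fintype.card_fin, smul_eq_mul,
    mul_comm]

lemma row_lW {D : ℕ} (h : RegSys s t D) (q : Fin n × Lb j) : ∑ r, lW s t c q r = 2 * D := by
  unfold lW
  rw [sum_comm]
  have h1 : ∀ e, ∑ r : Fin n × Lb j, (indN (s e = q.1 ∧ t e = r.1 ∧ q.2 + r.2 = c e) +
    indN (s e = r.1 ∧ t e = q.1 ∧ q.2 + r.2 = c e)) = indN (s e = q.1) + indN (t e = q.1) := by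
    intro e
    rw [sum_add_distrib]
    congr 1
    · by_cases hs : s e = q.1
      · rw [indN_pos hs, Finset.sum_eq_single (t e, q.2 + c e)]
        · exact indN_pos ⟨hs, rfl, lb_add_eq_iff.2 rfl⟩
        · rintro ⟨v', b⟩ _ hne
          apply indN_neg
          rintro ⟨_, h2, h3⟩
          apply hne
          simp only at h2 h3
          rw [lb_add_eq_iff] at h3
          rw [h2, h3]
        · simp
      · rw [indN_neg hs]
        exact sum_eq_zero (fun r _ => indN_neg (fun h => hs h.1))
    · by_cases ht : t e = q.1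
      · rw [indN_pos ht, Finset.sum_eq_single (s e, q.2 + c e)]
        · exact indN_pos ⟨rfl, ht, lb_add_eq_iff.2 rfl⟩
        · rintro ⟨v', b⟩ _ hne
          apply indN_neg
          rintro ⟨h2, _, h3⟩
          apply hne
          simp only at h2 h3
          rw [lb_add_eq_iff] at h3
          rw [h2, h3]
        · simp
      · rw [indN_neg ht]
        exact sum_eq_zero (fun r _ => indN_neg (fun h => ht h.2.1))
  rw [sum_congr rfl (fun e _ => h1 e), sum_add_distrib, ← card_filter_indN, ← card_filter_indN,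
    h.1, h.2]
  ring

lemma lW_le {D : ℕ} (h : RegSys s t D) (q r : Fin n × Lb j) : lW s t c q r ≤ 2 * D := by
  rw [← row_lW h q]
  exact single_le_sum (f := fun r => lW s t c q r) (fun _ _ => Nat.zero_le _) (mem_univ r)

variable (s t c)

/-- The lift is quasi-random up to `ε`. -/
def QRL (ε : ℝ) : Prop :=
  ∀ h : Fin n × Lb j → ℝ, (∀ q, 0 ≤ h q ∧ h q ≤ 1) →
    ∑ e, ∑ a, h (s e, a) * h (t e, a + c e) ≤ Fintype.card E * 2 ^ j * ((avg h) ^ 2 + ε)

/-- the blown-up lift -/
noncomputable def LG (p : ℕ) : SimpleGraph ((Fin n × Lb j) × Pl p) :=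
  blow p (lW s t c) (lW_symm s t c)

variable {s t c}

lemma card_LG (n j p : ℕ) [Fact p.Prime] :
    Fintype.card ((Fin n × Lb j) × Pl p) = n * 2 ^ j * p ^ 2 := by
  simp only [Fintype.card_prod, Fintype.card_fun, Fintype.card_fin, ZMod.card]
  ring

lemma LG_regular {p D : ℕ} [Fact p.Prime] (h : RegSys s t D) (hp : 4 * D < p) :
    Regular (LG s t c p) (4 * (p - 1) * D) := by
  have h1 := blow_regular (p := p) (W := lW s t c) (hW := lW_symm s t c) (d := 2 * D)
    (row_lW h) (fun u v => by have := lW_le (c := c) h u v; omega)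
  have e : 2 * (p - 1) * (2 * D) = 4 * (p - 1) * D := by ring
  rw [e] at h1
  exact h1

/-- The blown-up quasi-random lift is a No instance. -/
theorem LG_no {p D : ℕ} [Fact p.Prime] (hn : 0 < n) (hD : 0 < D) (h : RegSys s t D)
    (hp : 4 * D < p) {ε : ℝ} (hq : QRL s t c ε) {η δ : ℚ} (hδ : 0 < δ)
    (hint : ∃ m : ℕ, (m : ℚ) = δ * Fintype.card ((Fin n × Lb j) × Pl p))
    (hbound : ((p : ℝ) / (p - 1)) * (δ + ε / δ) + √(3 * p) / (p - 1) ≤ η) :
    SSENo η δ (LG s t c p) := by
  have hp1 : 1 < p := (Fact.out : p.Prime).one_lt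
  have hp2 : 2 < p := by omega
  have hd1 : 1 ≤ 4 * (p - 1) * D := Nat.mul_pos (by omega) hD
  have hV : 0 < Fintype.card ((Fin n × Lb j) × Pl p) := by
    rw [card_LG]
    have : 0 < p := by omega
    positivity
  have hreg := LG_regular (c := c) h hp
  refine ⟨4 * (p - 1) * D, ⟨hd1, hreg, ?_⟩, ?_⟩
  · obtain ⟨m, hm⟩ := hint
    refine ⟨m, ?_, hm⟩
    have : (0 : ℚ) < m := by
      rw [hm]
      exact mul_pos hδ (by exact_mod_cast hV)
    exact_mod_cast this
  · intro S hS
    have hScard : 0 < S.card := by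
      have : (0 : ℚ) < S.card := by
        rw [hS]
        exact mul_pos hδ (by exact_mod_cast hV)
      exact_mod_cast this
    rw [le_expansion_iff hreg hd1 hScard]
    -- real numbers
    have hδR : (0 : ℝ) < (δ : ℝ) := by exact_mod_cast hδ
    have hSR : (S.card : ℝ) = δ * (n * 2 ^ j * p ^ 2) := by
      have h1 : ((S.card : ℚ) : ℝ) = ((δ * Fintype.card ((Fin n × Lb j) × Pl p) : ℚ) : ℝ) := by
        rw [hS]
      rw [card_LG] at h1
      push_cast at h1
      exact_mod_cast h1
    have hpR : (2 : ℝ) < p := by exact_mod_cast hp2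
    have hp0 : (0 : ℝ) < p := by linarith
    have hp10 : (0 : ℝ) < (p : ℝ) - 1 := by linarith
    have hDR : (0 : ℝ) < D := by exact_mod_cast hD
    have hnR : (0 : ℝ) < n := by exact_mod_cast hn
    set hh : Fin n × Lb j → ℝ := fun q => (sl S q).card / (p : ℝ) ^ 2 with hhh
    have hh01 : ∀ q, 0 ≤ hh q ∧ hh q ≤ 1 := by
      intro q
      refine ⟨by rw [hhh]; positivity, ?_⟩
      rw [hhh]
      simp only
      rw [div_le_one (by positivity)]
      have h1 : (sl S q).card ≤ p * p := by
        calc (sl S q).card ≤ (univ : Finset (Pl p)).card := card_le_card (subset_univ _)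
          _ = p * p := by rw [card_univ, Fintype.card_prod, ZMod.card]
      rw [sq]; exact_mod_cast h1
    have havg : avg hh = δ := by
      unfold avg
      rw [hhh]
      simp only
      rw [← sum_div]
      have h1 : ∑ q, ((sl S q).card : ℝ) = S.card := by
        rw [card_slices S]; push_cast; rfl
      rw [h1, hSR, Fintype.card_prod, Fintype.card_fun, ZMod.card, Fintype.card_fin,
        Fintype.card_fin]
      push_cast
      field_simp
    have hq' := hq hh hh01
    rw [havg, h.card] at hq'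
    have hup := inside_blow_le (p := p) (W := lW s t c) (hW := lW_symm s t c) (d := 2 * D)
      (row_lW h) (fun u v => by have := lW_le (c := c) h u v; omega) hp2 S
    have e1 : ∑ v, ∑ u, (lW s t c v u : ℝ) * ((sl S v).card * (sl S u).card) =
        2 * (p : ℝ) ^ 4 * ∑ e, ∑ a, hh (s e, a) * hh (t e, a + c e) := by
      rw [sum_lW s t c (fun v u => ((sl S v).card * (sl S u).card : ℝ)), mul_sum]
      refine sum_congr rfl (fun e _ => ?_)
      rw [mul_sum]
      refine sum_congr rfl (fun a _ => ?_)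
      rw [hhh]
      simp only
      field_simp
      ring
    rw [e1] at hup
    have hmain : (inside (LG s t c p) S : ℝ) ≤ η * ((4 * (p - 1) * D) * S.card) := by
      calc (inside (LG s t c p) S : ℝ) ≤ _ := hup
        _ ≤ 2 / p * (2 * (p : ℝ) ^ 4 * (((D * n : ℕ) : ℝ) * 2 ^ j * ((δ : ℝ) ^ 2 + ε))) +
            2 * √(3 * p) * ((2 * D : ℕ) : ℝ) * S.card := by
            gcongr
        _ = (((p : ℝ) / (p - 1)) * (δ + ε / δ) + √(3 * p) / (p - 1)) *
              ((4 * (p - 1) * D) * S.card) := by
            rw [hSR]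
            push_cast
            field_simp
            ring
        _ ≤ η * ((4 * (p - 1) * D) * S.card) := by
            refine mul_le_mul_of_nonneg_right hbound (by positivity)
    have hcast : ((p - 1 : ℕ) : ℝ) = (p : ℝ) - 1 := by
      rw [Nat.cast_sub (by omega)]; simp
    have : ((inside (LG s t c p) S : ℚ) : ℝ) ≤
        ((η * (((4 * (p - 1) * D : ℕ) : ℚ) * S.card) : ℚ) : ℝ) := by
      push_cast
      rw [hcast]
      exact hmain
    exact_mod_cast this

end lift

end Pool.Agent.Lib.MP_8d8c46_lc
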