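import Pool.Agent.Lib.MP_8d8c46_lc.Concentration
import Pool.Agent.Lib.MP_8d8c46_lc.Lift

/-!
Random permutations with random shifts give quasi-random lifts with few short circulations.
-/

open scoped Classical
open Finset

namespace Pool.Agent.Lib.MP_8d8c46_lc

/-- one random permutation with random shifts -/
abbrev Oj (n j : ℕ) := Equiv.Perm (Fin n) × (Fin n → Lb j)

lemma card_Oj (n j : ℕ) : (Fintype.card (Oj n j) : ℝ) = n.factorial * ((2 : ℝ) ^ j) ^ n := by
  rw [Fintype.card_prod, Fintype.card_perm, Fintype.card_fun, Fintype.card_fun,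
      Fintype.card_fin, Fintype.card_fin, ZMod.card]
  push_cast; ring

theorem lift_mgf {B : ℝ} {n j : ℕ} (φ : Fin n → Fin n → Lb j → ℝ)
    (hφ : ∀ u v a, |φ u v a| ≤ B) :
    ∑ o : Oj n j, Real.exp (∑ u, φ u (o.1 u) (o.2 u)) ≤
      (Fintype.card (Oj n j) : ℝ) *
        Real.exp ((∑ u, ∑ v, ∑ a, φ u v a) / (2 ^ j * n) + 20 * B ^ 2 * n) := by
  rcases Nat.eq_zero_or_pos n with hn | hn
  · subst hn; simp
  have hn' : (0 : ℝ) < n := by exact_mod_cast hn
  have hQ : (0 : ℝ) < (2 : ℝ) ^ j := by positivity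
  have hQc : (Fintype.card (Lb j) : ℝ) = 2 ^ j := by
    rw [Fintype.card_fun, ZMod.card, Fintype.card_fin]; push_cast; rfl
  rw [Fintype.sum_prod_type]
  set φ' : Fin n → Fin n → ℝ := fun u v => (∑ a, φ u v a) / 2 ^ j with hφ'
  have hφ'B : ∀ u v, |φ' u v| ≤ B := by
    intro u v
    rw [hφ', abs_div, abs_of_pos hQ, div_le_iff₀ hQ]
    calc |∑ a, φ u v a| ≤ ∑ a, |φ u v a| := abs_sum_le_sum_abs _ _
      _ ≤ ∑ _a : Lb j, B := sum_le_sum (fun a _ => hφ u v a)
      _ = B * 2 ^ j := by rw [sum_const, card_univ, nsmul_eq_mul, hQc]; ring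
  have hbits : ∀ (π : Equiv.Perm (Fin n)), ∑ β : Fin n → Lb j,
      Real.exp (∑ u, φ u (π u) (β u)) ≤
      ((2 : ℝ) ^ j) ^ n * Real.exp (∑ u, φ' u (π u) + 4 * B ^ 2 * n) := by
    intro π
    have h1 : ∑ β : Fin n → Lb j, Real.exp (∑ u, φ u (π u) (β u)) =
        ∏ u, ∑ a, Real.exp (φ u (π u) a) := by
      rw [Finset.prod_univ_sum, Fintype.piFinset_univ]
      refine sum_congr rfl (fun β _ => ?_)
      rw [Real.exp_sum]
    rw [h1]
    have h2 : ∀ u, ∑ a, Real.exp (φ u (π u) a) ≤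
        (2 : ℝ) ^ j * Real.exp (φ' u (π u) + 4 * B ^ 2) := by
      intro u
      have h3 := sum_exp_le (fun a => φ u (π u) a) (C := 2 * B) (fun k l => by
        have h1 := hφ u (π u) k
        have h2 := hφ u (π u) l
        rw [abs_le] at *
        constructor <;> linarith)
      rw [hQc] at h3
      refine h3.trans (le_of_eq ?_)
      have e1 : (2 * B) ^ 2 = 4 * B ^ 2 := by ring
      rw [e1]
    calc ∏ u, ∑ a, Real.exp (φ u (π u) a)
        ≤ ∏ u, ((2 : ℝ) ^ j * Real.exp (φ' u (π u) + 4 * B ^ 2)) :=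
          prod_le_prod (fun i _ => sum_nonneg (fun b _ => (Real.exp_pos _).le))
            (fun i _ => h2 i)
      _ = ((2 : ℝ) ^ j) ^ n * Real.exp (∑ u, φ' u (π u) + 4 * B ^ 2 * n) := by
          rw [prod_mul_distrib, prod_const, card_univ, Fintype.card_fin, ← Real.exp_sum,
            sum_add_distrib, sum_const, card_univ, Fintype.card_fin, nsmul_eq_mul]
          congr 2
          ring
  calc ∑ π : Equiv.Perm (Fin n), ∑ β : Fin n → Lb j, Real.exp (∑ u, φ u (π u) (β u))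
      ≤ ∑ π : Equiv.Perm (Fin n), ((2 : ℝ) ^ j) ^ n *
        Real.exp (∑ u, φ' u (π u) + 4 * B ^ 2 * n) := sum_le_sum (fun π _ => hbits π)
    _ = ((2 : ℝ) ^ j) ^ n * Real.exp (4 * B ^ 2 * n) *
        ∑ π : Equiv.Perm (Fin n), Real.exp (∑ u, φ' u (π u)) := by
        rw [mul_sum]
        refine sum_congr rfl (fun σ _ => ?_)
        rw [Real.exp_add]; ring
    _ ≤ ((2 : ℝ) ^ j) ^ n * Real.exp (4 * B ^ 2 * n) * ((n.factorial : ℝ) *
        Real.exp ((∑ u, ∑ v, φ' u v) / n + 16 * B ^ 2 * n)) :=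
        mul_le_mul_of_nonneg_left (perm_mgf n φ' hφ'B) (by positivity)
    _ = n.factorial * ((2 : ℝ) ^ j) ^ n * (Real.exp (4 * B ^ 2 * n) *
        Real.exp ((∑ u, ∑ v, φ' u v) / n + 16 * B ^ 2 * n)) := by ring
    _ = _ := by
        rw [card_Oj, ← Real.exp_add]
        congr 2
        simp only [hφ', ← sum_div]
        field_simp
        ring

section
variable {n j D : ℕ}

/-- source -/
def ls (e : Fin n × Fin D) : Fin n := e.1

/-- target -/
def lt' (ω : Fin D → Oj n j) (e : Fin n × Fin D) : Fin n := (ω e.2).1 e.1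

/-- shift -/
def lc (ω : Fin D → Oj n j) (e : Fin n × Fin D) : Lb j := (ω e.2).2 e.1

lemma regSys_lift (ω : Fin D → Oj n j) : RegSys (ls (n := n) (D := D)) (lt' ω) D := by
  refine ⟨fun v => ?_, fun v => ?_⟩
  · have : univ.filter (fun e : Fin n × Fin D => ls e = v) =
        (univ : Finset (Fin D)).image (fun i => (v, i)) := by
      ext ⟨u, i⟩
      rw [mem_filter, mem_image]
      simp only [ls, mem_univ, true_and, Prod.mk.injEq]
      constructor
      · rintro rfl; exact ⟨i, rfl, rfl⟩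
      · rintro ⟨_, h, _⟩; exact h.symm
    rw [this, card_image_of_injective, card_univ, Fintype.card_fin]
    intro a b h
    exact (Prod.mk.inj h).2
  · have : univ.filter (fun e : Fin n × Fin D => lt' ω e = v) =
        (univ : Finset (Fin D)).image (fun i => ((ω i).1.symm v, i)) := by
      ext ⟨u, i⟩
      rw [mem_filter, mem_image]
      simp only [lt', mem_univ, true_and, Prod.mk.injEq]
      constructor
      · rintro rfl; exact ⟨i, by simp, rfl⟩
      · rintro ⟨i', h, rfl⟩; rw [← h]; simp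
    rw [this, card_image_of_injective, card_univ, Fintype.card_fin]
    intro a b h
    exact (Prod.mk.inj h).2

/-- the contribution of one edge -/
noncomputable def ctr (h : Fin n × Lb j → ℝ) (u v : Fin n) (d : Lb j) : ℝ :=
  ∑ a, h (u, a) * h (v, a + d)

/-- the number of edges, weighted by `h` -/
noncomputable def em (ω : Fin D → Oj n j) (h : Fin n × Lb j → ℝ) : ℝ :=
  ∑ e : Fin n × Fin D, ∑ a, h (ls e, a) * h (lt' ω e, a + lc ω e)

lemma em_eq (ω : Fin D → Oj n j) (h : Fin n × Lb j → ℝ) :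
    em ω h = ∑ i, ∑ u, ctr h u ((ω i).1 u) ((ω i).2 u) := by
  unfold em
  rw [Fintype.sum_prod_type, sum_comm]
  rfl

lemma sum_ctr (h : Fin n × Lb j → ℝ) : ∑ u, ∑ v, ∑ d, ctr h u v d = (∑ q, h q) ^ 2 := by
  have h1 : ∀ u v, ∑ d, ctr h u v d = (∑ a, h (u, a)) * ∑ b, h (v, b) := by
    intro u v
    unfold ctr
    rw [sum_comm, sum_mul]
    refine sum_congr rfl (fun a _ => ?_)
    rw [← mul_sum]
    congr 1
    exact Equiv.sum_comp (Equiv.addLeft a) (fun b => h (v, b))
  rw [sq, Fintype.sum_prod_type, sum_mul_sum]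
  exact sum_congr rfl (fun u _ => sum_congr rfl (fun v _ => h1 u v))

lemma ctr_abs {h : Fin n × Lb j → ℝ} (hh : ∀ q, 0 ≤ h q ∧ h q ≤ 1) (u v : Fin n) (d : Lb j) :
    |ctr h u v d| ≤ 2 ^ j := by
  unfold ctr
  rw [abs_of_nonneg (sum_nonneg (fun a _ => mul_nonneg (hh _).1 (hh _).1))]
  calc ∑ a, h (u, a) * h (v, a + d) ≤ ∑ _a : Lb j, (1 : ℝ) :=
        sum_le_sum (fun a _ => mul_le_one₀ (hh _).2 (hh _).1 (hh _).2)
    _ = 2 ^ j := by
        rw [sum_const, card_univ, Fintype.card_fun, ZMod.card, Fintype.card_fin, nsmul_eq_mul]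
        push_cast; ring

lemma em_mgf {h : Fin n × Lb j → ℝ} (hh : ∀ q, 0 ≤ h q ∧ h q ≤ 1) (x : ℝ) :
    ∑ ω : Fin D → Oj n j, Real.exp (x * em ω h) ≤
      ((Fintype.card (Oj n j) : ℝ) *
        Real.exp (x * (∑ q, h q) ^ 2 / (2 ^ j * n) + 20 * (x * 2 ^ j) ^ 2 * n)) ^ D := by
  have h1 : ∀ ω : Fin D → Oj n j, Real.exp (x * em ω h) =
      ∏ i, Real.exp (∑ u, x * ctr h u ((ω i).1 u) ((ω i).2 u)) := by
    intro ω
    rw [em_eq, mul_sum, Real.exp_sum]
    refine prod_congr rfl (fun j _ => ?_)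
    rw [mul_sum]
  rw [sum_congr rfl (fun ω _ => h1 ω)]
  have h2 := Fintype.sum_pow (fun o : Oj n j => Real.exp (∑ u, x * ctr h u (o.1 u) (o.2 u))) D
  rw [← h2]
  refine pow_le_pow_left₀ (sum_nonneg (fun _ _ => (Real.exp_pos _).le)) ?_ D
  have hc : ∀ u v d, |x * ctr h u v d| ≤ |x| * 2 ^ j := by
    intro u v d
    rw [abs_mul]
    exact mul_le_mul_of_nonneg_left (ctr_abs hh u v d) (abs_nonneg x)
  refine (lift_mgf (fun u v d => x * ctr h u v d) hc).trans (le_of_eq ?_)
  congr 2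
  have e1 : ∑ u, ∑ v, ∑ d, x * ctr h u v d = x * (∑ q, h q) ^ 2 := by
    rw [← sum_ctr]
    simp only [mul_sum]
  rw [e1, mul_pow, mul_pow, sq_abs]

/-- Chernoff bound for one function. -/
lemma em_tail {h : Fin n × Lb j → ℝ} (hn : 0 < n) (hh : ∀ q, 0 ≤ h q ∧ h q ≤ 1) {ε : ℝ}
    (hε : 0 ≤ ε) :
    ((univ.filter (fun ω : Fin D → Oj n j =>
      ((D * n : ℕ) : ℝ) * 2 ^ j * ((avg h) ^ 2 + ε) < em ω h)).card : ℝ) ≤
      (Fintype.card (Oj n j) : ℝ) ^ D * Real.exp (-(D * n * (ε ^ 2 / 80))) := by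
  have hn' : (0 : ℝ) < n := by exact_mod_cast hn
  have hQ : (0 : ℝ) < (2 : ℝ) ^ j := by positivity
  set x : ℝ := ε / (40 * 2 ^ j) with hx
  have hx0 : 0 ≤ x := by rw [hx]; positivity
  have havg : avg h = (∑ q, h q) / (2 ^ j * n) := by
    unfold avg
    rw [Fintype.card_prod, Fintype.card_fun, ZMod.card, Fintype.card_fin, Fintype.card_fin]
    push_cast
    rw [mul_comm (n : ℝ)]
  set thr : ℝ := ((D * n : ℕ) : ℝ) * 2 ^ j * ((avg h) ^ 2 + ε) with hthr
  have h1 : ((univ.filter (fun ω : Fin D → Oj n j => thr < em ω h)).card : ℝ) ≤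
      ∑ ω : Fin D → Oj n j, Real.exp (x * em ω h) * Real.exp (-(x * thr)) := by
    rw [card_filter]
    push_cast
    refine sum_le_sum (fun ω _ => ?_)
    split_ifs with h
    · rw [← Real.exp_add]
      refine Real.one_le_exp ?_
      nlinarith
    · positivity
  refine h1.trans ?_
  rw [← sum_mul]
  calc (∑ ω : Fin D → Oj n j, Real.exp (x * em ω h)) * Real.exp (-(x * thr))
      ≤ ((Fintype.card (Oj n j) : ℝ) *
        Real.exp (x * (∑ q, h q) ^ 2 / (2 ^ j * n) + 20 * (x * 2 ^ j) ^ 2 * n)) ^ D *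
          Real.exp (-(x * thr)) :=
        mul_le_mul_of_nonneg_right (em_mgf hh x) (Real.exp_pos _).le
    _ = _ := by
        rw [mul_pow, mul_assoc, ← Real.exp_nat_mul, ← Real.exp_add]
        congr 2
        rw [hthr, havg, hx]
        push_cast
        field_simp
        ring

lemma em_lip (ω : Fin D → Oj n j) {h h' : Fin n × Lb j → ℝ} {κ : ℝ}
    (hh : ∀ q, 0 ≤ h q ∧ h q ≤ 1) (hh' : ∀ q, 0 ≤ h' q ∧ h' q ≤ 1)
    (hd : ∀ q, |h q - h' q| ≤ κ) :
    em ω h ≤ em ω h' + ((D * n : ℕ) : ℝ) * 2 ^ j * (2 * κ) := by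
  have h1 : ∀ q r, h q * h r ≤ h' q * h' r + 2 * κ := by
    intro q r
    have a1 := (abs_le.1 (hd q)).2
    have a2 := (abs_le.1 (hd r)).2
    have b1 := hh q
    have b2 := hh r
    have b3 := hh' q
    have b4 := hh' r
    have hκ : 0 ≤ κ := (abs_nonneg _).trans (hd q)
    nlinarith
  unfold em
  calc ∑ e : Fin n × Fin D, ∑ a, h (ls e, a) * h (lt' ω e, a + lc ω e)
      ≤ ∑ e : Fin n × Fin D, ∑ a : Lb j, (h' (ls e, a) * h' (lt' ω e, a + lc ω e) + 2 * κ) :=
        sum_le_sum (fun e _ => sum_le_sum (fun a _ => h1 _ _))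
    _ = _ := by
        simp only [sum_add_distrib, sum_const, card_univ, Fintype.card_prod, Fintype.card_fin,
          Fintype.card_fun, ZMod.card, nsmul_eq_mul]
        push_cast
        ring

lemma avg_lip {h h' : Fin n × Lb j → ℝ} {κ : ℝ} (hn : 0 < n) (hh : ∀ q, 0 ≤ h q ∧ h q ≤ 1)
    (hh' : ∀ q, 0 ≤ h' q ∧ h' q ≤ 1) (hd : ∀ q, |h q - h' q| ≤ κ) :
    (avg h) ^ 2 ≤ (avg h') ^ 2 + 2 * κ := by
  have : Nonempty (Fin n × Lb j) := ⟨(⟨0, hn⟩, 0)⟩
  have h1 : avg h ≤ avg h' + κ := by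
    calc avg h ≤ avg (fun q => h' q + κ) := avg_mono (fun q => by
          have := (abs_le.1 (hd q)).2; linarith)
      _ = _ := by rw [avg_add, avg_const]
  have a0 : 0 ≤ avg h := avg_nonneg (fun q => (hh q).1)
  have b0 : 0 ≤ avg h' := avg_nonneg (fun q => (hh' q).1)
  have a1 : avg h ≤ 1 := by
    calc avg h ≤ avg (fun _ : Fin n × Lb j => (1 : ℝ)) := avg_mono (fun q => (hh q).2)
      _ = 1 := avg_const _
  have b1 : avg h' ≤ 1 := by
    calc avg h' ≤ avg (fun _ : Fin n × Lb j => (1 : ℝ)) := avg_mono (fun q => (hh' q).2)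
      _ = 1 := avg_const _
  have hκ : 0 ≤ κ := by
    have q : Fin n × Lb j := (⟨0, hn⟩, 0)
    exact (abs_nonneg _).trans (hd q)
  nlinarith

/-- grid functions -/
noncomputable def lgrid (K : ℕ) (G : Fin n × Lb j → Fin (K + 1)) (q : Fin n × Lb j) : ℝ :=
  (G q : ℕ) / (K : ℝ)

lemma lgrid_mem {K : ℕ} (hK : 0 < K) (G : Fin n × Lb j → Fin (K + 1)) (q : Fin n × Lb j) :
    0 ≤ lgrid K G q ∧ lgrid K G q ≤ 1 := by
  have hK' : (0 : ℝ) < K := by exact_mod_cast hK
  unfold lgrid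
  refine ⟨by positivity, ?_⟩
  rw [div_le_one hK']
  exact_mod_cast Nat.lt_succ_iff.1 (G q).2

lemma exists_lgrid {K : ℕ} (hK : 0 < K) {F : Fin n × Lb j → ℝ}
    (hF : ∀ ℓ, 0 ≤ F ℓ ∧ F ℓ ≤ 1) :
    ∃ G : Fin n × Lb j → Fin (K + 1), ∀ ℓ, |F ℓ - lgrid K G ℓ| ≤ 1 / K := by
  have hK' : (0 : ℝ) < K := by exact_mod_cast hK
  have hlt : ∀ ℓ, ⌊(K : ℝ) * F ℓ⌋₊ < K + 1 := by
    intro ℓ
    have h1 : ⌊(K : ℝ) * F ℓ⌋₊ ≤ ⌊(K : ℝ)⌋₊ := by
      refine Nat.floor_le_floor ?_
      calc (K : ℝ) * F ℓ ≤ K * 1 := mul_le_mul_of_nonneg_left (hF ℓ).2 hK'.le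
        _ = K := mul_one _
    rw [Nat.floor_natCast] at h1
    omega
  refine ⟨fun ℓ => ⟨⌊(K : ℝ) * F ℓ⌋₊, hlt ℓ⟩, fun ℓ => ?_⟩
  unfold lgrid
  simp only
  have h1 : (⌊(K : ℝ) * F ℓ⌋₊ : ℝ) ≤ K * F ℓ :=
    Nat.floor_le (mul_nonneg hK'.le (hF ℓ).1)
  have h2 : (K : ℝ) * F ℓ < ⌊(K : ℝ) * F ℓ⌋₊ + 1 := Nat.lt_floor_add_one _
  have h3 : F ℓ - (⌊(K : ℝ) * F ℓ⌋₊ : ℝ) / K = (K * F ℓ - ⌊(K : ℝ) * F ℓ⌋₊) / K := by
    field_simp
  rw [h3, abs_div, abs_of_pos hK']
  refine div_le_div_of_nonneg_right ?_ hK'.le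
  rw [abs_le]
  constructor <;> linarith

end

/-- For large `D`, at least `7/8` of the random lifts are quasi-random. -/
theorem card_not_QRL (j : ℕ) {ε : ℝ} (hε : 0 < ε) :
    ∃ D₀ : ℕ, ∀ D n : ℕ, D₀ ≤ D → 0 < n →
      ((univ.filter (fun ω : Fin D → Oj n j => ¬ QRL ls (lt' ω) (lc ω) ε)).card : ℝ) ≤
        (Fintype.card (Oj n j) : ℝ) ^ D / 8 := by
  obtain ⟨K, hK⟩ := exists_nat_gt (8 / ε)
  have hK0 : (0 : ℝ) < K := lt_of_le_of_lt (by positivity) hK
  have hKpos : 0 < K := by exact_mod_cast hK0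
  have hK6 : 4 * (1 / (K : ℝ)) ≤ ε / 2 := by
    rw [div_lt_iff₀ hε] at hK
    rw [mul_one_div, div_le_iff₀ hK0]
    linarith
  set c : ℝ := (ε / 2) ^ 2 / 80 with hc
  have hc0 : 0 < c := by positivity
  obtain ⟨D₀, hD₀⟩ := exists_nat_gt (Real.log (8 * (K + 1) ^ (2 ^ j)) / c)
  refine ⟨D₀, fun D n hD hn => ?_⟩
  have hn' : (0 : ℝ) < n := by exact_mod_cast hn
  have hexp : ((K : ℝ) + 1) ^ (2 ^ j) * Real.exp (-(D * c)) ≤ 1 / 8 := by
    have h1 : Real.log (8 * (K + 1) ^ (2 ^ j)) ≤ D * c := by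
      rw [div_lt_iff₀ hc0] at hD₀
      have : (D₀ : ℝ) ≤ D := by exact_mod_cast hD
      nlinarith
    have h2 : 8 * ((K : ℝ) + 1) ^ (2 ^ j) ≤ Real.exp (D * c) := by
      rw [← Real.exp_log (by positivity : (0 : ℝ) < 8 * (K + 1) ^ (2 ^ j))]
      exact Real.exp_le_exp.2 h1
    rw [Real.exp_neg, ← div_eq_mul_inv, div_le_div_iff₀ (Real.exp_pos _) (by norm_num)]
    linarith
  have hcardE : ∀ ω : Fin D → Oj n j, Fintype.card (Fin n × Fin D) = D * n := fun ω =>
    (regSys_lift ω).card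
  have hsub : univ.filter (fun ω : Fin D → Oj n j => ¬ QRL ls (lt' ω) (lc ω) ε) ⊆
      (univ : Finset (Fin n × Lb j → Fin (K + 1))).biUnion (fun G =>
        univ.filter (fun ω : Fin D → Oj n j =>
          ((D * n : ℕ) : ℝ) * 2 ^ j * ((avg (lgrid K G)) ^ 2 + ε / 2) < em ω (lgrid K G))) := by
    intro ω hω
    simp only [mem_filter, mem_univ, true_and] at hω
    unfold QRL at hω
    push Not at hω
    obtain ⟨F, hF, hlt⟩ := hω
    obtain ⟨G, hG⟩ := exists_lgrid hKpos hF
    simp only [mem_biUnion, mem_univ, true_and, mem_filter]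
    refine ⟨G, ?_⟩
    rw [hcardE ω] at hlt
    have h1 := em_lip ω hF (fun ℓ => lgrid_mem hKpos G ℓ) hG
    have h2 := avg_lip hn (fun ℓ => lgrid_mem hKpos G ℓ) hF
      (fun ℓ => by rw [abs_sub_comm]; exact hG ℓ)
    have hlt' : ((D * n : ℕ) : ℝ) * 2 ^ j * ((avg F) ^ 2 + ε) < em ω F := hlt
    have hM : 0 ≤ ((D * n : ℕ) : ℝ) * 2 ^ j := by positivity
    have h3 : ((D * n : ℕ) : ℝ) * 2 ^ j * ((avg (lgrid K G)) ^ 2 + ε / 2) ≤
        ((D * n : ℕ) : ℝ) * 2 ^ j * ((avg F) ^ 2 + ε - 2 * (1 / K)) :=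
      mul_le_mul_of_nonneg_left (by linarith) hM
    have h4 : ((D * n : ℕ) : ℝ) * 2 ^ j * ((avg F) ^ 2 + ε - 2 * (1 / K)) =
        ((D * n : ℕ) : ℝ) * 2 ^ j * ((avg F) ^ 2 + ε) -
          ((D * n : ℕ) : ℝ) * 2 ^ j * (2 * (1 / K)) := by ring
    linarith
  calc ((univ.filter (fun ω : Fin D → Oj n j => ¬ QRL ls (lt' ω) (lc ω) ε)).card : ℝ)
      ≤ ∑ G : Fin n × Lb j → Fin (K + 1), ((univ.filter (fun ω : Fin D → Oj n j =>
          ((D * n : ℕ) : ℝ) * 2 ^ j * ((avg (lgrid K G)) ^ 2 + ε / 2) <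
            em ω (lgrid K G))).card : ℝ) := by
        exact_mod_cast (card_le_card hsub).trans card_biUnion_le
    _ ≤ ∑ _G : Fin n × Lb j → Fin (K + 1), (Fintype.card (Oj n j) : ℝ) ^ D *
          Real.exp (-(D * n * ((ε / 2) ^ 2 / 80))) :=
        sum_le_sum (fun G _ => em_tail hn (fun ℓ => lgrid_mem hKpos G ℓ) (by positivity))
    _ = (Fintype.card (Oj n j) : ℝ) ^ D *
          (((K : ℝ) + 1) ^ (2 ^ j) * Real.exp (-(D * c))) ^ n := by
        rw [sum_const, card_univ, Fintype.card_fun, Fintype.card_fin, Fintype.card_prod,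
          Fintype.card_fun, ZMod.card, Fintype.card_fin, Fintype.card_fin, nsmul_eq_mul, mul_pow,
          ← Real.exp_nat_mul, ← pow_mul]
        push_cast
        have e1 : (n : ℝ) * -(D * c) = -(D * n * ((ε / 2) ^ 2 / 80)) := by
          rw [hc]; ring
        rw [e1, mul_comm n (2 ^ j)]
        ring
    _ ≤ (Fintype.card (Oj n j) : ℝ) ^ D * (1 / 8) ^ n := by
        refine mul_le_mul_of_nonneg_left ?_ (by positivity)
        exact pow_le_pow_left₀ (by positivity) hexp n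
    _ ≤ (Fintype.card (Oj n j) : ℝ) ^ D * (1 / 8) ^ 1 := by
        refine mul_le_mul_of_nonneg_left ?_ (by positivity)
        exact pow_le_pow_of_le_one (by norm_num) (by norm_num) hn
    _ = _ := by ring

section circ
variable {n j D : ℕ}

/-- the edges in short circulations -/
noncomputable def badE (g : ℕ) (ω : Fin D → Oj n j) : Finset (Fin n × Fin D) :=
  univ.filter (fun e => ∃ φ : Fin n × Fin D → Lb j, bdy ls (lt' ω) φ = 0 ∧
    (fs φ).card ≤ g ∧ φ e ≠ 0)

lemma noCirc_badE (g : ℕ) (ω : Fin D → Oj n j) : NoCirc j ls (lt' ω) (badE g ω)ᶜ g := by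
  intro φ h1 h2 h3
  funext e
  by_contra he
  have h4 := h1 (mem_fs.2 he)
  rw [mem_compl] at h4
  apply h4
  unfold badE
  simp only [mem_filter, mem_univ, true_and]
  exact ⟨φ, h3, h2, he⟩

/-- The support of a circulation touches at most as many vertices as it has edges. -/
lemma touched_le {E : Type} [Fintype E] {s t : E → Fin n} {φ : E → Lb j}
    (h : bdy s t φ = 0) : ((fs φ).image s ∪ (fs φ).image t).card ≤ (fs φ).card := by
  set F := fs φ with hF
  set V' := F.image s ∪ F.image t with hV'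
  have h1 : ∀ v ∈ V', 2 ≤ (F.filter (fun e => s e = v)).card + (F.filter (fun e => t e = v)).card := by
    intro v hv
    by_contra hcon
    push Not at hcon
    have hb : bdy s t φ v = ∑ e ∈ F.filter (fun e => s e = v), φ e +
        ∑ e ∈ F.filter (fun e => t e = v), φ e := by
      unfold bdy
      rw [sum_add_distrib]
      congr 1
      · rw [← sum_filter]
        symm
        refine sum_subset (fun e he => ?_) (fun e he hne => ?_)
        · exact mem_filter.2 ⟨mem_univ _, (mem_filter.1 he).2⟩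
        · by_contra h0
          exact hne (mem_filter.2 ⟨mem_fs.2 h0, (mem_filter.1 he).2⟩)
      · rw [← sum_filter]
        symm
        refine sum_subset (fun e he => ?_) (fun e he hne => ?_)
        · exact mem_filter.2 ⟨mem_univ _, (mem_filter.1 he).2⟩
        · by_contra h0
          exact hne (mem_filter.2 ⟨mem_fs.2 h0, (mem_filter.1 he).2⟩)
    rw [h] at hb
    rw [hV', mem_union, mem_image, mem_image] at hv
    rcases hv with ⟨e, he, hse⟩ | ⟨e, he, hte⟩
    · have hmem : e ∈ F.filter (fun e => s e = v) := mem_filter.2 ⟨he, hse⟩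
      have hpos : 0 < (F.filter (fun e => s e = v)).card := card_pos.2 ⟨e, hmem⟩
      have hc1 : (F.filter (fun e => s e = v)).card = 1 := by omega
      have hc2 : (F.filter (fun e => t e = v)).card = 0 := by omega
      rw [card_eq_zero] at hc2
      rw [card_eq_one] at hc1
      obtain ⟨e', he'⟩ := hc1
      rw [he', mem_singleton] at hmem
      subst hmem
      rw [he', hc2, sum_singleton, sum_empty, add_zero] at hb
      exact (mem_fs.1 he) hb.symm
    · have hmem : e ∈ F.filter (fun e => t e = v) := mem_filter.2 ⟨he, hte⟩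
      have hpos : 0 < (F.filter (fun e => t e = v)).card := card_pos.2 ⟨e, hmem⟩
      have hc1 : (F.filter (fun e => t e = v)).card = 1 := by omega
      have hc2 : (F.filter (fun e => s e = v)).card = 0 := by omega
      rw [card_eq_zero] at hc2
      rw [card_eq_one] at hc1
      obtain ⟨e', he'⟩ := hc1
      rw [he', mem_singleton] at hmem
      subst hmem
      rw [he', hc2, sum_singleton, sum_empty, zero_add] at hb
      exact (mem_fs.1 he) hb.symm
  have h2 : ∑ v ∈ V', ((F.filter (fun e => s e = v)).card + (F.filter (fun e => t e = v)).card) =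
      2 * F.card := by
    rw [sum_add_distrib, ← card_eq_sum_card_fiberwise, ← card_eq_sum_card_fiberwise]
    · ring
    · intro e he
      exact mem_coe.2 (mem_union_right _ (mem_image_of_mem _ he))
    · intro e he
      exact mem_coe.2 (mem_union_left _ (mem_image_of_mem _ he))
  have h3 : V'.card * 2 ≤ ∑ v ∈ V', ((F.filter (fun e => s e = v)).card +
      (F.filter (fun e => t e = v)).card) := by
    rw [← smul_eq_mul]
    exact card_nsmul_le_sum _ _ _ h1
  omega

lemma count_into' (F : Finset (Fin n × Fin D)) (W : Finset (Fin n)) :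
    (univ.filter (fun ω : Fin D → Oj n j => ∀ e ∈ F, lt' ω e ∈ W)).card *
      n ^ F.card ≤ Fintype.card (Oj n j) ^ D * W.card ^ F.card := by
  have hsub : univ.filter (fun ω : Fin D → Oj n j => ∀ e ∈ F, lt' ω e ∈ W) ⊆
      Fintype.piFinset (fun i => permInto n (slot F i) W ×ˢ
        (univ : Finset (Fin n → Lb j))) := by
    intro ω hω
    simp only [mem_filter, mem_univ, true_and] at hω
    rw [Fintype.mem_piFinset]
    intro i
    simp only [mem_product, mem_univ, and_true, permInto, mem_filter, true_and]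
    exact fun u hu => hω (u, i) (mem_slot.1 hu)
  have hc := card_le_card hsub
  rw [Fintype.card_piFinset] at hc
  have h1 : ∀ i, (permInto n (slot F i) W ×ˢ (univ : Finset (Fin n → Lb j))).card *
      n ^ (slot F i).card ≤ Fintype.card (Oj n j) * W.card ^ (slot F i).card := by
    intro i
    have h2 := permInto_card n W (slot F i)
    rw [card_product, card_univ]
    have h3 : Fintype.card (Oj n j) = n.factorial * Fintype.card (Fin n → Lb j) := by
      rw [Fintype.card_prod, Fintype.card_perm, Fintype.card_fin]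
    rw [h3]
    set P := (permInto n (slot F i) W).card
    set B := Fintype.card (Fin n → Lb j)
    calc P * B * n ^ (slot F i).card = (P * n ^ (slot F i).card) * B := by ring
      _ ≤ (n.factorial * W.card ^ (slot F i).card) * B := Nat.mul_le_mul_right _ h2
      _ = _ := by ring
  calc _ ≤ (∏ i, (permInto n (slot F i) W ×ˢ (univ : Finset (Fin n → Lb j))).card) *
        n ^ F.card := Nat.mul_le_mul_right _ hc
    _ = ∏ i, ((permInto n (slot F i) W ×ˢ (univ : Finset (Fin n → Lb j))).card *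
        n ^ (slot F i).card) := by
        rw [prod_mul_distrib, prod_pow_eq_pow_sum, slot_card]
    _ ≤ ∏ i : Fin D, (Fintype.card (Oj n j) * W.card ^ (slot F i).card) :=
        prod_le_prod' (fun j _ => h1 j)
    _ = _ := by
        rw [prod_mul_distrib, prod_pow_eq_pow_sum, slot_card, prod_const,
          card_univ, Fintype.card_fin]

/-- The average number of edges in short circulations is bounded. -/
lemma sum_badE {g : ℕ} (hg : 1 ≤ g) (hgn : g ≤ n) :
    ∑ ω : Fin D → Oj n j, ((badE g ω).card : ℝ) ≤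
      (Fintype.card (Oj n j) : ℝ) ^ D * (g * (2 ^ (g * D) * ((g + 1) * (g : ℝ) ^ g))) := by
  have hn : 0 < n := by omega
  have hn' : (0 : ℝ) < n := by exact_mod_cast hn
  have hgR : (1 : ℝ) ≤ g := by exact_mod_cast hg
  -- pairs: vertex set and edge set
  set 𝒱 := (univ : Finset (Finset (Fin n))).filter (fun V => V.card ≤ g) with h𝒱
  set 𝒬 : Finset (Fin n) → Finset (Finset (Fin n × Fin D)) := fun V =>
    (V ×ˢ (univ : Finset (Fin D))).powerset.filter (fun F => V.card ≤ F.card ∧ F.card ≤ g)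
    with h𝒬
  have hcov : ∀ ω : Fin D → Oj n j, ((badE g ω).card : ℝ) ≤
      ∑ V ∈ 𝒱, ∑ F ∈ 𝒬 V, (g : ℝ) * (if ∀ e ∈ F, lt' ω e ∈ V then 1 else 0) := by
    intro ω
    have h1 : badE g ω ⊆ 𝒱.biUnion (fun V => (𝒬 V).biUnion (fun F =>
        if ∀ e ∈ F, lt' ω e ∈ V then F else ∅)) := by
      intro e he
      unfold badE at he
      simp only [mem_filter, mem_univ, true_and] at he
      obtain ⟨φ, h2, h3, h4⟩ := he
      have h5 := touched_le h2
      rw [mem_biUnion]
      refine ⟨(fs φ).image ls ∪ (fs φ).image (lt' ω), ?_, ?_⟩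
      · rw [h𝒱, mem_filter]
        exact ⟨mem_univ _, h5.trans h3⟩
      · rw [mem_biUnion]
        refine ⟨fs φ, ?_, ?_⟩
        · rw [h𝒬]
          simp only
          rw [mem_filter, mem_powerset]
          refine ⟨?_, h5, h3⟩
          rintro ⟨u, i⟩ hui
          rw [mem_product]
          exact ⟨mem_union_left _ (mem_image_of_mem ls hui), mem_univ _⟩
        · rw [if_pos]
          · exact mem_fs.2 h4
          · intro e' he'
            exact mem_union_right _ (mem_image_of_mem _ he')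
    have h2 := (card_le_card h1).trans card_biUnion_le
    have h3 : ∑ V ∈ 𝒱, ((𝒬 V).biUnion (fun F =>
        if ∀ e ∈ F, lt' ω e ∈ V then F else ∅)).card ≤
        ∑ V ∈ 𝒱, ∑ F ∈ 𝒬 V, g * (if ∀ e ∈ F, lt' ω e ∈ V then 1 else 0) := by
      refine sum_le_sum (fun V _ => card_biUnion_le.trans (sum_le_sum (fun F hF => ?_)))
      rw [h𝒬] at hF
      simp only at hF
      rw [mem_filter] at hF
      split_ifs
      · rw [mul_one]; exact hF.2.2
      · simp
    have h4 := h2.trans h3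
    calc ((badE g ω).card : ℝ) ≤ ((∑ V ∈ 𝒱, ∑ F ∈ 𝒬 V, g *
          (if ∀ e ∈ F, lt' ω e ∈ V then 1 else 0) : ℕ) : ℝ) := by exact_mod_cast h4
      _ = _ := by push_cast; rfl
  refine (sum_le_sum (fun ω _ => hcov ω)).trans ?_
  rw [sum_comm]
  have hone : ∀ V ∈ 𝒱, ∀ F ∈ 𝒬 V, ∑ ω : Fin D → Oj n j,
      (g : ℝ) * (if ∀ e ∈ F, lt' ω e ∈ V then 1 else 0) ≤
      (Fintype.card (Oj n j) : ℝ) ^ D * (g * ((g : ℝ) / n) ^ V.card) := by
    intro V hV F hF
    rw [h𝒱, mem_filter] at hV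
    rw [h𝒬] at hF
    simp only at hF
    rw [mem_filter] at hF
    rw [← mul_sum, sum_boole]
    have h1 := count_into' (j := j) F V
    have h2 : ((univ.filter (fun ω : Fin D → Oj n j => ∀ e ∈ F, lt' ω e ∈ V)).card : ℝ) *
        (n : ℝ) ^ F.card ≤ (Fintype.card (Oj n j) : ℝ) ^ D * (V.card : ℝ) ^ F.card := by
      exact_mod_cast h1
    have h3 : ((univ.filter (fun ω : Fin D → Oj n j => ∀ e ∈ F, lt' ω e ∈ V)).card : ℝ) ≤
        (Fintype.card (Oj n j) : ℝ) ^ D * ((g : ℝ) / n) ^ V.card := by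
      rw [← le_div_iff₀ (pow_pos hn' _)] at h2
      refine h2.trans ?_
      rw [mul_div_assoc, ← div_pow]
      refine mul_le_mul_of_nonneg_left ?_ (by positivity)
      have h4 : (V.card : ℝ) / n ≤ g / n := by
        refine div_le_div_of_nonneg_right ?_ hn'.le
        exact_mod_cast hV.2
      calc ((V.card : ℝ) / n) ^ F.card ≤ ((g : ℝ) / n) ^ F.card :=
            pow_le_pow_left₀ (by positivity) h4 _
        _ ≤ ((g : ℝ) / n) ^ V.card := by
            refine pow_le_pow_of_le_one (by positivity) ?_ hF.2.1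
            rw [div_le_one hn']
            exact_mod_cast hgn
    calc (g : ℝ) * ((univ.filter (fun ω : Fin D → Oj n j => ∀ e ∈ F, lt' ω e ∈ V)).card : ℝ)
        ≤ g * ((Fintype.card (Oj n j) : ℝ) ^ D * ((g : ℝ) / n) ^ V.card) :=
          mul_le_mul_of_nonneg_left h3 (by positivity)
      _ = _ := by ring
  have hV : ∀ V ∈ 𝒱, ∑ ω : Fin D → Oj n j, ∑ F ∈ 𝒬 V,
      (g : ℝ) * (if ∀ e ∈ F, lt' ω e ∈ V then 1 else 0) ≤
      (Fintype.card (Oj n j) : ℝ) ^ D * (g * (2 ^ (g * D) * ((g : ℝ) / n) ^ V.card)) := by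
    intro V hV
    rw [sum_comm]
    refine (sum_le_sum (fun F hF => hone V hV F hF)).trans ?_
    rw [sum_const, nsmul_eq_mul]
    have h1 : ((𝒬 V).card : ℝ) ≤ 2 ^ (g * D) := by
      have h2 : (𝒬 V).card ≤ 2 ^ (g * D) := by
        calc (𝒬 V).card ≤ ((V ×ˢ (univ : Finset (Fin D))).powerset).card := by
              rw [h𝒬]; exact card_filter_le _ _
          _ = 2 ^ (V.card * D) := by
              rw [card_powerset, card_product, card_univ, Fintype.card_fin]
          _ ≤ 2 ^ (g * D) := by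
              rw [h𝒱, mem_filter] at hV
              exact Nat.pow_le_pow_right (by norm_num) (Nat.mul_le_mul_right _ hV.2)
      exact_mod_cast h2
    calc ((𝒬 V).card : ℝ) * ((Fintype.card (Oj n j) : ℝ) ^ D * (g * ((g : ℝ) / n) ^ V.card))
        ≤ 2 ^ (g * D) * ((Fintype.card (Oj n j) : ℝ) ^ D * (g * ((g : ℝ) / n) ^ V.card)) :=
          mul_le_mul_of_nonneg_right h1 (by positivity)
      _ = _ := by ring
  refine (sum_le_sum (fun V hV' => hV V hV')).trans ?_
  rw [← mul_sum, ← mul_sum, ← mul_sum]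
  refine mul_le_mul_of_nonneg_left ?_ (by positivity)
  refine mul_le_mul_of_nonneg_left ?_ (by positivity)
  refine mul_le_mul_of_nonneg_left ?_ (by positivity)
  -- sum over the vertex sets by cardinality
  have h5 : ∑ V ∈ 𝒱, ((g : ℝ) / n) ^ V.card = ∑ m ∈ Finset.range (g + 1),
      ∑ V ∈ 𝒱.filter (fun V => V.card = m), ((g : ℝ) / n) ^ V.card := by
    rw [sum_fiberwise_of_maps_to]
    intro V hV
    rw [h𝒱, mem_filter] at hV
    rw [mem_range]; omega
  rw [h5]
  have h6 : ∀ m ∈ Finset.range (g + 1),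
      ∑ V ∈ 𝒱.filter (fun V => V.card = m), ((g : ℝ) / n) ^ V.card ≤ (g : ℝ) ^ g := by
    intro m hm
    rw [mem_range] at hm
    calc ∑ V ∈ 𝒱.filter (fun V => V.card = m), ((g : ℝ) / n) ^ V.card
        = ∑ V ∈ 𝒱.filter (fun V => V.card = m), ((g : ℝ) / n) ^ m :=
          sum_congr rfl (fun V hV => by rw [(mem_filter.1 hV).2])
      _ = (𝒱.filter (fun V => V.card = m)).card * ((g : ℝ) / n) ^ m := by
          rw [sum_const, nsmul_eq_mul]
      _ ≤ (n : ℝ) ^ m * ((g : ℝ) / n) ^ m := by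
          refine mul_le_mul_of_nonneg_right ?_ (by positivity)
          have : (𝒱.filter (fun V => V.card = m)).card ≤ n ^ m := by
            calc (𝒱.filter (fun V => V.card = m)).card
                ≤ ((univ : Finset (Fin n)).powersetCard m).card := by
                  refine card_le_card (fun V hV => ?_)
                  rw [mem_filter] at hV
                  exact mem_powersetCard.2 ⟨subset_univ _, hV.2⟩
              _ = n.choose m := by rw [card_powersetCard, card_univ, Fintype.card_fin]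
              _ ≤ n ^ m := Nat.choose_le_pow _ _
          exact_mod_cast this
      _ = (g : ℝ) ^ m := by
          rw [← mul_pow]
          congr 1
          field_simp
      _ ≤ (g : ℝ) ^ g := pow_le_pow_right₀ hgR (by omega)
  refine (sum_le_card_nsmul _ _ _ h6).trans (le_of_eq ?_)
  rw [card_range, nsmul_eq_mul]
  push_cast; ring

end circ

/-- Quasi-random lifts without short circulations, up to few edges. -/
theorem exists_base (j : ℕ) {ε : ℝ} (hε : 0 < ε) : ∃ D : ℕ, 0 < D ∧ ∀ g : ℕ, ∃ n₀ : ℕ,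
    ∀ n : ℕ, n₀ ≤ n → ∃ (s t : Fin n × Fin D → Fin n) (c : Fin n × Fin D → Lb j)
      (G : Finset (Fin n × Fin D)), RegSys s t D ∧ QRL s t c ε ∧ NoCirc j s t G g ∧
      (1 - ε) * (D * n) ≤ G.card := by
  obtain ⟨D₀, hD₀⟩ := card_not_QRL j hε
  refine ⟨D₀ + 1, by omega, fun g => ?_⟩
  set D := D₀ + 1 with hD
  have hDR : (0 : ℝ) < D := by exact_mod_cast (by omega : 0 < D)
  set g' := g + 1 with hg'
  set C : ℝ := g' * (2 ^ (g' * D) * ((g' + 1) * (g' : ℝ) ^ g')) with hC
  have hC0 : 0 ≤ C := by rw [hC]; positivity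
  obtain ⟨n₀, hn₀⟩ := exists_nat_gt (2 * C / (ε * D))
  refine ⟨n₀ + g' + 1, fun n hn => ?_⟩
  have hnpos : 0 < n := by omega
  have hnR : (0 : ℝ) < n := by exact_mod_cast hnpos
  set Ω : ℝ := (Fintype.card (Oj n j) : ℝ) ^ D with hΩ
  have hΩ0 : 0 < Ω := by
    rw [hΩ, card_Oj]; positivity
  have hbig : 2 * C < ε * (D * n) := by
    rw [div_lt_iff₀ (by positivity)] at hn₀
    have : (n₀ : ℝ) ≤ n := by exact_mod_cast (by omega : n₀ ≤ n)
    nlinarith [mul_pos hε hDR]
  have h1 := hD₀ D n (by omega) hnpos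
  have h2 : ((univ.filter (fun ω : Fin D → Oj n j => ε * (D * n) ≤ ((badE g' ω).card : ℝ))).card :
      ℝ) ≤ Ω / 2 := by
    have h3 := markov (f := fun ω : Fin D → Oj n j => ((badE g' ω).card : ℝ))
      (fun _ => Nat.cast_nonneg _) (a := ε * (D * n)) (by positivity)
    refine h3.trans ?_
    have h4 := sum_badE (n := n) (j := j) (D := D) (g := g') (by omega) (by omega)
    rw [div_le_iff₀ (by positivity)]
    calc ∑ ω : Fin D → Oj n j, ((badE g' ω).card : ℝ) ≤ Ω * C := h4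
      _ ≤ Ω / 2 * (ε * (D * n)) := by nlinarith
  have h5 : ∃ ω : Fin D → Oj n j, QRL ls (lt' ω) (lc ω) ε ∧
      ¬ ε * (D * n) ≤ ((badE g' ω).card : ℝ) := by
    by_contra hcon
    push Not at hcon
    have h6 : (univ : Finset (Fin D → Oj n j)) ⊆
        univ.filter (fun ω => ¬ QRL ls (lt' ω) (lc ω) ε) ∪
        univ.filter (fun ω => ε * (D * n) ≤ ((badE g' ω).card : ℝ)) := by
      intro ω _
      simp only [mem_union, mem_filter, mem_univ, true_and]
      by_cases h7 : QRL ls (lt' ω) (lc ω) ε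
      · exact Or.inr (hcon ω h7)
      · exact Or.inl h7
    have h7 := (card_le_card h6).trans (card_union_le _ _)
    have h8 : Ω ≤ Ω / 8 + Ω / 2 := by
      calc Ω = ((univ : Finset (Fin D → Oj n j)).card : ℝ) := by
            rw [card_univ, Fintype.card_fun, Fintype.card_fin]
            push_cast; rfl
        _ ≤ (((univ.filter (fun ω => ¬ QRL ls (lt' ω) (lc ω) ε)).card +
            (univ.filter (fun ω : Fin D → Oj n j =>
              ε * (D * n) ≤ ((badE g' ω).card : ℝ))).card : ℕ) : ℝ) := by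
            exact_mod_cast h7
        _ ≤ Ω / 8 + Ω / 2 := by push_cast; exact add_le_add h1 h2
    linarith
  obtain ⟨ω, hq, hb⟩ := h5
  refine ⟨ls, lt' ω, lc ω, (badE g' ω)ᶜ, regSys_lift ω, hq, ?_, ?_⟩
  · intro φ a1 a2 a3
    exact noCirc_badE g' ω φ a1 (by omega) a3
  · have hc := card_compl_add_card (badE g' ω)
    have hE : Fintype.card (Fin n × Fin D) = D * n := (regSys_lift ω).card
    rw [hE] at hc
    have hcR : (((badE g' ω)ᶜ.card : ℝ)) + ((badE g' ω).card : ℝ) = D * n := by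
      exact_mod_cast hc
    push Not at hb
    linarith

end Pool.Agent.Lib.MP_8d8c46_lc
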