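import Pool.Agent.Lib.MP_8d8c46_lc.LPCore
import Pool.Agent.Lib.MP_8d8c46_lc.RandLift

/-!
No polynomial-size linear programming relaxation solves `SSE(η, δ)`.
-/

open scoped Classical
open Finset

namespace Pool.Agent.Lib.MP_8d8c46_lc

lemma exists_prime_bound {a κ : ℝ} (ha : 0 ≤ a) (hκ : 0 < κ) (B : ℕ) :
    ∃ p : ℕ, p.Prime ∧ B < p ∧ ((p : ℝ) / (p - 1)) * a + √(3 * p) / (p - 1) ≤ a + κ := by
  obtain ⟨M, hM⟩ := exists_nat_ge (24 / κ ^ 2 + 2 * a / κ + 2)
  obtain ⟨p, hp1, hp⟩ := Nat.exists_infinite_primes (M + B + 1)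
  refine ⟨p, hp, by omega, ?_⟩
  have hMp : (M : ℝ) + 1 ≤ p := by exact_mod_cast (by omega : M + 1 ≤ p)
  have h1 : 0 ≤ 24 / κ ^ 2 := by positivity
  have h2 : 0 ≤ 2 * a / κ := by positivity
  set x : ℝ := (p : ℝ) - 1 with hx
  have hx1 : 24 / κ ^ 2 ≤ x := by linarith
  have hx2 : 2 * a / κ ≤ x := by linarith
  have hx3 : 2 ≤ x := by linarith
  have hx0 : 0 < x := by linarith
  have hpx : (p : ℝ) = x + 1 := by rw [hx]; ring
  have h3 : 24 ≤ κ ^ 2 * x := by
    rw [div_le_iff₀ (by positivity)] at hx1; linarith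
  have h4 : 2 * a ≤ κ * x := by
    rw [div_le_iff₀ hκ] at hx2; linarith
  have h5 : √(3 * (p : ℝ)) ≤ κ / 2 * x := by
    rw [Real.sqrt_le_left (by positivity), hpx]
    nlinarith
  rw [← sub_nonneg]
  have h6 : a + κ - ((p : ℝ) / x * a + √(3 * p) / x) =
      ((κ * x - a) - √(3 * p)) / x := by
    rw [hpx]; field_simp; ring
  rw [h6]
  apply div_nonneg _ hx0.le
  linarith

/-- the number of low-degree indices -/
lemma card_lowk_le (n j k : ℕ) (hn : 0 < n) :
    (lowk n j k).card ≤ (k + 1) * n ^ k * (2 ^ j) ^ k := by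
  have h1 : lowk n j k ⊆ ((range (k + 1)).biUnion (fun i => powersetCard i (univ : Finset (Fin n)))).biUnion
      (fun T => univ.filter (fun β : Fin n → Lb j => sp β = T)) := by
    intro β hβ
    rw [mem_biUnion]
    refine ⟨sp β, ?_, mem_filter.2 ⟨mem_univ _, rfl⟩⟩
    rw [mem_biUnion]
    exact ⟨(sp β).card, mem_range.2 (Nat.lt_succ_of_le (mem_lowk.1 hβ)),
      mem_powersetCard.2 ⟨subset_univ _, rfl⟩⟩
  refine (card_le_card h1).trans (card_biUnion_le.trans ?_)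
  have h2 : ∀ T ∈ (range (k + 1)).biUnion (fun i => powersetCard i (univ : Finset (Fin n))),
      (univ.filter (fun β : Fin n → Lb j => sp β = T)).card ≤ (2 ^ j) ^ k := by
    intro T hT
    rw [mem_biUnion] at hT
    obtain ⟨i, hi, hT⟩ := hT
    rw [mem_powersetCard] at hT
    refine (card_sp_eq T).trans (Nat.pow_le_pow_right (by positivity) ?_)
    rw [hT.2]
    exact Nat.lt_succ_iff.1 (mem_range.1 hi)
  refine (sum_le_card_nsmul _ _ _ h2).trans ?_
  rw [smul_eq_mul]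
  refine Nat.mul_le_mul_right _ ?_
  refine card_biUnion_le.trans ?_
  calc ∑ i ∈ range (k + 1), (powersetCard i (univ : Finset (Fin n))).card
      ≤ ∑ i ∈ range (k + 1), n ^ k := by
        refine sum_le_sum (fun i hi => ?_)
        rw [card_powersetCard, card_univ, Fintype.card_fin]
        exact (Nat.choose_le_pow n i).trans
          (Nat.pow_le_pow_right hn (Nat.lt_succ_iff.1 (mem_range.1 hi)))
    _ = (k + 1) * n ^ k := by rw [sum_const, card_range, smul_eq_mul]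

/-- A family of subsets of a type with prescribed total size. -/
lemma exists_family {α : Type} [Fintype α] {n r : ℕ} (hr : r ≤ n * Fintype.card α) :
    ∃ Y : Fin n → Finset α, ∑ u, (Y u).card = r := by
  have h1 : r ≤ (univ : Finset (Fin n × α)).card := by
    rw [card_univ, Fintype.card_prod, Fintype.card_fin]; exact hr
  obtain ⟨Z, _, hZ⟩ := exists_subset_card_eq h1
  refine ⟨fun u => univ.filter (fun z => (u, z) ∈ Z), ?_⟩
  rw [← hZ, card_eq_sum_card_fiberwise (f := Prod.fst) (t := univ) (fun _ _ => mem_coe.2 (mem_univ _))]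
  refine sum_congr rfl (fun u _ => ?_)
  refine card_bij (fun z _ => (u, z)) ?_ ?_ ?_
  · intro z hz
    rw [mem_filter] at hz ⊢
    exact ⟨hz.2, rfl⟩
  · intro z _ z' _ h
    exact (Prod.mk.inj h).2
  · rintro ⟨u', z⟩ hz
    rw [mem_filter] at hz
    obtain ⟨hz1, hz2⟩ := hz
    simp only at hz2
    subst hz2
    exact ⟨z, mem_filter.2 ⟨mem_univ _, hz1⟩, rfl⟩

section yes
variable {n j : ℕ} {E : Type} [Fintype E] {s t : E → Fin n} {c : E → Lb j}
  {p : ℕ} [Fact p.Prime]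

/-- If the labelling `x` satisfies all equations then the planted set is nearly closed. -/
theorem inside_SX_ge {D : ℕ} (hreg : RegSys s t D) (hp : 4 * D < p)
    (P0 : Finset (Lb j)) (a0 : Lb j) (Y : Fin n → Finset (Pl p)) (x : Fin n → Lb j)
    (hx : ∀ e, x (s e) + x (t e) + c e = 0) :
    4 * (p : ℝ) ^ 2 * (p - 1) * P0.card * (D * n) ≤
      (inside (LG s t c p) (SX P0 a0 Y x) : ℝ) := by
  have hp1 : 1 < p := (Fact.out : p.Prime).one_lt
  have hpc : ((p - 1 : ℕ) : ℝ) = (p : ℝ) - 1 := by rw [Nat.cast_sub (by omega)]; simp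
  have hpR : (0 : ℝ) ≤ (p : ℝ) - 1 := by
    have : (1 : ℝ) ≤ p := by exact_mod_cast hp1.le
    linarith
  have hlW : ∀ q r, 2 * lW s t c q r < p := fun q r => by have := lW_le (c := c) hreg q r; omega
  set I0 : Fin n × Lb j → ℝ := fun q => if q.2 + x q.1 ∈ P0 then 1 else 0 with hI0
  have hle : ∀ q r, (2 * (p : ℝ) ^ 2 * (p - 1)) * ((lW s t c q r : ℝ) * (I0 q * I0 r)) ≤
      ∑ κ ∈ pm p (lW s t c q r),
        (relCount κ (sl (SX P0 a0 Y x) q) (sl (SX P0 a0 Y x) r) : ℝ) := by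
    intro q r
    have hnn : 0 ≤ ∑ κ ∈ pm p (lW s t c q r),
        (relCount κ (sl (SX P0 a0 Y x) q) (sl (SX P0 a0 Y x) r) : ℝ) :=
      sum_nonneg (fun _ _ => Nat.cast_nonneg _)
    by_cases h1 : q.2 + x q.1 ∈ P0
    · by_cases h2 : r.2 + x r.1 ∈ P0
      · rw [sl_SX, sl_SX, if_pos h1, if_pos h2,
            sum_congr rfl (fun κ _ => by rw [relCount_univ κ]), sum_const, card_pm (hlW q r),
            nsmul_eq_mul, hI0]
        simp only
        rw [if_pos h1, if_pos h2]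
        push_cast [hpc]
        apply le_of_eq; ring
      · rw [hI0]
        simp only
        rw [if_neg h2, mul_zero, mul_zero, mul_zero]
        exact hnn
    · rw [hI0]
      simp only
      rw [if_neg h1, zero_mul, mul_zero, mul_zero]
      exact hnn
  have hF : (inside (LG s t c p) (SX P0 a0 Y x) : ℝ) =
      ∑ q, ∑ r, ∑ κ ∈ pm p (lW s t c q r),
        (relCount κ (sl (SX P0 a0 Y x) q) (sl (SX P0 a0 Y x) r) : ℝ) := by
    unfold LG
    rw [inside_blow]
    push_cast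
    rfl
  have hcnt : ∀ e, ∑ a : Lb j, I0 (s e, a) * I0 (t e, a + c e) = (P0.card : ℝ) := by
    intro e
    have h2 : x (t e) + c e = x (s e) := by
      have := lb_add_eq_iff.1 (show x (s e) + (x (t e) + c e) = 0 by rw [← hx e]; abel)
      rw [this, add_zero]
    have h3 : ∑ a : Lb j, I0 (s e, a) * I0 (t e, a + c e) =
        ∑ a : Lb j, (if a + x (s e) ∈ P0 then (1 : ℝ) else 0) := by
      refine sum_congr rfl (fun a _ => ?_)
      rw [hI0]
      simp only
      have h4 : a + c e + x (t e) = a + x (s e) := by rw [← h2]; abel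
      rw [h4]
      split_ifs <;> norm_num
    rw [h3, sum_shift (x (s e)) (fun a => if a ∈ P0 then (1 : ℝ) else 0),
      sum_ite_mem, univ_inter, sum_const, nsmul_eq_mul, mul_one]
  have hsum0 : ∑ q, ∑ r, (2 * (p : ℝ) ^ 2 * (p - 1)) * ((lW s t c q r : ℝ) * (I0 q * I0 r)) =
      4 * (p : ℝ) ^ 2 * (p - 1) * P0.card * (D * n) := by
    have h1 := sum_lW s t c (fun q r => I0 q * I0 r)
    simp_rw [← mul_sum]
    rw [h1]
    have h2 : ∑ e, ∑ a, (I0 (s e, a) * I0 (t e, a + c e) +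
        I0 (t e, a + c e) * I0 (s e, a)) =
        2 * ∑ e, ∑ a, I0 (s e, a) * I0 (t e, a + c e) := by
      rw [mul_sum]
      refine sum_congr rfl (fun e _ => ?_)
      rw [mul_sum]
      exact sum_congr rfl (fun a _ => by ring)
    rw [h2, sum_congr rfl (fun e _ => hcnt e), sum_const, card_univ, nsmul_eq_mul, hreg.card]
    push_cast
    ring
  rw [hF, ← hsum0]
  exact sum_le_sum (fun q _ => sum_le_sum (fun r _ => hle q r))

lemma expansion_eq {V : Type*} [Fintype V] {G : SimpleGraph V} {d : ℕ} (hr : Regular G d)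
    (hd : 1 ≤ d) {S : Finset V} (hS : 0 < S.card) :
    ((expansion G d S : ℚ) : ℝ) = 1 + (-(1 / ((d : ℝ) * S.card))) * (inside G S : ℝ) := by
  have h1 : ((inside G S : ℝ)) + cut G S = d * S.card := by
    exact_mod_cast inside_add_cut hr S
  have hd' : (0 : ℝ) < d := by exact_mod_cast hd
  have hS' : (0 : ℝ) < S.card := by exact_mod_cast hS
  have h2 : (cut G S : ℝ) = d * S.card - inside G S := by linarith
  unfold expansion
  push_cast
  rw [h2]
  field_simp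
  ring

/-- The pseudo-expectation of the expansion of the planted set. -/
theorem L0_expansion {D k L g : ℕ} {lam : ℝ} {G : Finset E} (hreg : RegSys s t D)
    (hp : 4 * D < p) (hn : 0 < n) (hD : 0 < D) (hL : 1 ≤ L) (hk : 2 ≤ k)
    (hG : NoCirc j s t G g) (hg : 2 * L ≤ g) (hg' : (2 ^ j) ^ k * L ≤ g) (h0 : 0 ≤ lam)
    (h1 : lam ≤ 1) (hsmall : ((2 : ℝ) ^ j) ^ k * lam ^ L ≤ (1 - lam) ^ (2 * D * k))
    {P0 : Finset (Lb j)} {a0 : Lb j} {Y : Fin n → Finset (Pl p)} {δ : ℚ} (hδ : 0 < δ)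
    (hcard : ∀ x, ((SX P0 a0 Y x).card : ℚ) = δ * Fintype.card ((Fin n × Lb j) × Pl p)) :
    L0 (pmo lam s t c G L) k
      (fun x => ((expansion (LG s t c p) (4 * (p - 1) * D) (SX P0 a0 Y x) : ℚ) : ℝ)) ≤
      1 - P0.card * (lam * G.card) / (D * n * (δ * 2 ^ j)) := by
  have hp1 : 1 < p := (Fact.out : p.Prime).one_lt
  have hd1 : 1 ≤ 4 * (p - 1) * D := Nat.mul_pos (by omega) hD
  have hpR : (1 : ℝ) < p := by exact_mod_cast hp1
  have hp0 : (0 : ℝ) < p := by linarith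
  have hp10 : (0 : ℝ) < (p : ℝ) - 1 := by linarith
  have hDR : (0 : ℝ) < D := by exact_mod_cast hD
  have hnR : (0 : ℝ) < n := by exact_mod_cast hn
  have hδR : (0 : ℝ) < (δ : ℝ) := by exact_mod_cast hδ
  have hcast : ((p - 1 : ℕ) : ℝ) = (p : ℝ) - 1 := by
    rw [Nat.cast_sub (by omega)]; simp
  have hSR : ∀ x, ((SX P0 a0 Y x).card : ℝ) = δ * (n * 2 ^ j * p ^ 2) := by
    intro x
    have h1 : (((SX P0 a0 Y x).card : ℚ) : ℝ) =
        ((δ * Fintype.card ((Fin n × Lb j) × Pl p) : ℚ) : ℝ) := by rw [hcard]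
    rw [card_LG] at h1
    push_cast at h1
    exact_mod_cast h1
  have hS0 : ∀ x, 0 < (SX P0 a0 Y x).card := by
    intro x
    have : (0 : ℝ) < (SX P0 a0 Y x).card := by rw [hSR]; positivity
    exact_mod_cast this
  have hfun : (fun x => ((expansion (LG s t c p) (4 * (p - 1) * D) (SX P0 a0 Y x) : ℚ) : ℝ)) =
      fun x => (1 : ℝ) + (-(1 / ((4 * ((p : ℝ) - 1) * D) * (δ * (n * 2 ^ j * p ^ 2))))) *
        (inside (LG s t c p) (SX P0 a0 Y x) : ℝ) := by
    funext x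
    rw [expansion_eq (LG_regular (c := c) hreg hp) hd1 (hS0 x), hSR]
    push_cast
    rw [hcast]
  rw [hfun, L0_add, L0_one, pm_zero c hg hG, L0_const_mul]
  have hin := L0_inside (P := pmo lam s t c G L) (nr := near s t L) (c := c)
    (pd_of c hreg hG hg hg' h0 h1 hsmall) hk hreg hp
    (fun e he => L0_edge c hL hg hG h1 hk he) P0 a0 Y
  set X := L0 (pmo lam s t c G L) k (fun x => (inside (LG s t c p) (SX P0 a0 Y x) : ℝ)) with hX
  have h2 : P0.card * (lam * G.card) / (D * n * (δ * 2 ^ j)) ≤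
      (1 / ((4 * ((p : ℝ) - 1) * D) * (δ * (n * 2 ^ j * p ^ 2)))) * X := by
    calc P0.card * (lam * G.card) / (D * n * (δ * 2 ^ j))
        = (1 / ((4 * ((p : ℝ) - 1) * D) * (δ * (n * 2 ^ j * p ^ 2)))) *
          (4 * (p : ℝ) ^ 2 * (p - 1) * P0.card * (lam * G.card)) := by
          field_simp
      _ ≤ _ := mul_le_mul_of_nonneg_left hin (by positivity)
  linarith

end yes

/-- The choice of the set of labels. -/
lemma exists_labels {δ η : ℚ} (hδ : 0 < δ) (hδ1 : δ < 1) (hη : 0 < η) :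
    ∃ (j : ℕ) (P0 : Finset (Lb j)) (a0 : Lb j), a0 ∉ P0 ∧ (P0.card : ℝ) ≤ δ * 2 ^ j ∧
      δ * 2 ^ j < (P0.card : ℝ) + 1 ∧ (1 - (η : ℝ) / 16) * (δ * 2 ^ j) ≤ P0.card := by
  have hδR : (0 : ℝ) < (δ : ℝ) := by exact_mod_cast hδ
  have hδ1R : (δ : ℝ) < 1 := by exact_mod_cast hδ1
  have hηR : (0 : ℝ) < (η : ℝ) := by exact_mod_cast hη
  obtain ⟨j, hj⟩ := exists_nat_ge (16 / ((δ : ℝ) * η))
  have h1 : (j : ℝ) ≤ 2 ^ j := by exact_mod_cast (Nat.lt_two_pow_self (n := j)).le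
  have h2 : 16 ≤ (2 : ℝ) ^ j * (δ * η) := by
    rw [div_le_iff₀ (by positivity)] at hj
    exact hj.trans (mul_le_mul_of_nonneg_right h1 (by positivity))
  have hb : (0 : ℝ) ≤ δ * 2 ^ j := by positivity
  have h3 : ⌊(δ : ℝ) * 2 ^ j⌋₊ < 2 ^ j := by
    rw [Nat.floor_lt hb]
    push_cast
    nlinarith [show (0 : ℝ) < 2 ^ j by positivity]
  have h4 : ⌊(δ : ℝ) * 2 ^ j⌋₊ ≤ (univ : Finset (Lb j)).card := by
    rw [card_univ, Fintype.card_fun, ZMod.card, Fintype.card_fin]; exact h3.le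
  obtain ⟨P0, _, hP0⟩ := exists_subset_card_eq h4
  have h5 : P0 ≠ univ := by
    intro h
    rw [h, card_univ, Fintype.card_fun, ZMod.card, Fintype.card_fin] at hP0
    omega
  obtain ⟨a0, ha0⟩ : ∃ a, a ∉ P0 := by
    by_contra hcon
    push Not at hcon
    exact h5 (eq_univ_iff_forall.2 hcon)
  have h6 : (δ : ℝ) * 2 ^ j < (P0.card : ℝ) + 1 := by
    rw [hP0]; exact Nat.lt_floor_add_one _
  refine ⟨j, P0, a0, ha0, ?_, h6, ?_⟩
  · rw [hP0]; exact Nat.floor_le hb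
  · nlinarith

/-- The short flows can be chosen long enough. -/
lemma exists_length {lam : ℝ} (h0 : 0 ≤ lam) (h1 : lam < 1) (j k D : ℕ) :
    ∃ L : ℕ, 1 ≤ L ∧ ((2 : ℝ) ^ j) ^ k * lam ^ L ≤ (1 - lam) ^ (2 * D * k) := by
  have h2 : 0 < (1 - lam) ^ (2 * D * k) / ((2 : ℝ) ^ j) ^ k := by
    have : 0 < 1 - lam := by linarith
    positivity
  obtain ⟨L, hL⟩ := exists_pow_lt_of_lt_one h2 h1
  refine ⟨L + 1, by omega, ?_⟩
  rw [lt_div_iff₀ (by positivity)] at hL
  have h3 : lam ^ (L + 1) ≤ lam ^ L := pow_le_pow_of_le_one h0 h1.le (by omega)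
  calc ((2 : ℝ) ^ j) ^ k * lam ^ (L + 1) ≤ ((2 : ℝ) ^ j) ^ k * lam ^ L :=
        mul_le_mul_of_nonneg_left h3 (by positivity)
    _ ≤ _ := by rw [mul_comm]; exact hL.le

/-- No linear programming relaxation of polynomial size solves `SSE(η, δ)`. -/
theorem lp_main {η δ : ℚ} (hδ : 0 < δ) (hδη : δ < η) (hη : η < 1 / 2) :
    ∃ d : ℕ, 1 ≤ d ∧ ∀ c₀ N : ℕ, ∃ (V : Type) (_ : Fintype V), N ≤ Fintype.card V ∧
      (∃ G : SimpleGraph V, Regular G d ∧ SSEYes η δ G) ∧
      (∃ G : SimpleGraph V, Regular G d ∧ SSENo η δ G) ∧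
      ∀ P : LPRelaxation V δ d, P.Solves η → Fintype.card V ^ c₀ < P.size := by
  have hη0 : 0 < η := hδ.trans hδη
  have hδR : (0 : ℝ) < (δ : ℝ) := by exact_mod_cast hδ
  have hδηR : (δ : ℝ) < (η : ℝ) := by exact_mod_cast hδη
  have hηR0 : (0 : ℝ) < (η : ℝ) := by exact_mod_cast hη0
  have hηR : (η : ℝ) < 1 / 2 := by
    have : ((η : ℚ) : ℝ) < ((1 / 2 : ℚ) : ℝ) := by exact_mod_cast hη
    push_cast at this; exact this
  set ε : ℝ := δ * (η - δ) / 4 with hε
  have hε0 : 0 < ε := by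
    have : (0 : ℝ) < η - δ := by linarith
    rw [hε]; positivity
  have hε8 : ε ≤ η / 8 := by
    rw [hε]
    nlinarith
  obtain ⟨j, P0, a0, ha0, hP1, hP2, hP3⟩ := exists_labels hδ (by linarith) hη0
  obtain ⟨D, hD, hbase⟩ := exists_base j hε0
  have hεδ : ε / δ = (η - δ) / 4 := by rw [hε]; field_simp
  obtain ⟨p, hpp, hpD, hbound⟩ := exists_prime_bound (a := δ + ε / δ)
    (κ := η - (δ + ε / δ)) (by positivity) (by rw [hεδ]; linarith) (4 * D)
  have : Fact p.Prime := ⟨hpp⟩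
  have hp1 : 1 < p := hpp.one_lt
  have hbound' : ((p : ℝ) / (p - 1)) * (δ + ε / δ) + √(3 * p) / (p - 1) ≤ η := by linarith
  have hd1 : 1 ≤ 4 * (p - 1) * D := Nat.mul_pos (by omega) hD
  refine ⟨4 * (p - 1) * D, hd1, fun c₀ N => ?_⟩
  -- parameters
  set t₀ := c₀ + 1 with ht₀
  set k := 4 * t₀ + 4 with hk
  set lam : ℝ := 1 - η / 16 with hlam
  have hlam0 : 0 ≤ lam := by rw [hlam]; linarith
  have hlam1 : lam < 1 := by rw [hlam]; linarith
  obtain ⟨L, hL1, hLs⟩ := exists_length hlam0 hlam1 j k D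
  set g := 2 * L + (2 ^ j) ^ k * L with hg
  obtain ⟨n₀, hn₀⟩ := hbase g
  set K := (1 + 2 * D) ^ L with hK
  have hK1 : 1 ≤ K := Nat.one_le_pow _ _ (by omega)
  obtain ⟨ν₀, hν₁, hν₀⟩ := tail j k K t₀ (c₀ + k + 1) (η₀ := (η : ℝ) / 8) (by positivity) hK1
    (by omega)
  set C₂ : ℝ := ((2 : ℝ) ^ j * p ^ 2) ^ c₀ with hC₂
  set C₁ : ℝ := C₂ * ((k + 1) * (2 ^ j) ^ k) with hC₁
  have hC₂0 : 0 ≤ C₂ := by rw [hC₂]; positivity
  have hC₁0 : 0 ≤ C₁ := by rw [hC₁]; positivity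
  obtain ⟨B, hB⟩ := exists_nat_gt (8 * C₁ / η + C₂)
  set u := ν₀ + n₀ + N + B + 1 with hu
  set ν := δ.den * u with hν
  have hden : 1 ≤ δ.den := δ.pos
  have huν : u ≤ ν := by
    calc u = 1 * u := (one_mul _).symm
      _ ≤ δ.den * u := Nat.mul_le_mul_right _ hden
  have hν1 : 1 ≤ ν := by omega
  obtain ⟨n, hn⟩ : ∃ n, n = ν ^ 16 := ⟨_, rfl⟩
  have hνn : ν ≤ n := by
    rw [hn]
    calc ν = ν ^ 1 := (pow_one _).symm
      _ ≤ ν ^ 16 := Nat.pow_le_pow_right hν1 (by norm_num)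
  have hn0 : 0 < n := by omega
  have hnR : (0 : ℝ) < n := by exact_mod_cast hn0
  have hp0 : 0 < p := by omega
  have hBn : (B : ℝ) ≤ n := by exact_mod_cast (by omega : B ≤ n)
  obtain ⟨s, t, c, G, hreg, hq, hG, hGc⟩ := hn₀ n (by omega)
  have hV : Fintype.card ((Fin n × Lb j) × Pl p) = n * 2 ^ j * p ^ 2 := card_LG n j p
  -- the size of the sets
  obtain ⟨m, hm⟩ : ∃ m : ℕ, (m : ℚ) = δ * Fintype.card ((Fin n × Lb j) × Pl p) := by
    refine ⟨δ.num.toNat * (u * ν ^ 15) * (2 ^ j * p ^ 2), ?_⟩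
    have h1 : ((δ.num.toNat : ℕ) : ℚ) = δ.num := by
      have : ((δ.num.toNat : ℕ) : ℤ) = δ.num := Int.toNat_of_nonneg (Rat.num_pos.2 hδ).le
      exact_mod_cast this
    have h2 : (δ.num : ℚ) = δ * δ.den := by
      rw [Rat.mul_den_eq_num]
    rw [hV, hn]
    have h3 : ((ν : ℕ) : ℚ) = δ.den * u := by rw [hν]; push_cast; rfl
    push_cast
    rw [h1, h2]
    have h4 : (ν : ℚ) ^ 16 = (δ.den * u) * (ν : ℚ) ^ 15 := by
      rw [← h3]; ring
    rw [h4]
    ring
  have hmR : (m : ℝ) = δ * (n * 2 ^ j * p ^ 2) := by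
    have h1 : ((m : ℚ) : ℝ) = ((δ * Fintype.card ((Fin n × Lb j) × Pl p) : ℚ) : ℝ) := by rw [hm]
    rw [hV] at h1
    push_cast at h1
    exact_mod_cast h1
  have hm1 : n * P0.card * p ^ 2 ≤ m := by
    have : ((n * P0.card * p ^ 2 : ℕ) : ℝ) ≤ (m : ℝ) := by
      rw [hmR]
      push_cast
      calc (n : ℝ) * P0.card * p ^ 2 ≤ n * (δ * 2 ^ j) * p ^ 2 := by gcongr
        _ = _ := by ring
    exact_mod_cast this
  have hm2 : m ≤ n * P0.card * p ^ 2 + n * p ^ 2 := by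
    have : (m : ℝ) ≤ ((n * P0.card * p ^ 2 + n * p ^ 2 : ℕ) : ℝ) := by
      rw [hmR]
      push_cast
      calc (δ : ℝ) * (n * 2 ^ j * p ^ 2) = n * (δ * 2 ^ j) * p ^ 2 := by ring
        _ ≤ n * ((P0.card : ℝ) + 1) * p ^ 2 := by gcongr
        _ = _ := by ring
    exact_mod_cast this
  obtain ⟨Y, hY⟩ : ∃ Y : Fin n → Finset (Pl p), ∑ u, (Y u).card = m - n * P0.card * p ^ 2 := by
    apply exists_family
    have h1 : Fintype.card (Pl p) = p ^ 2 := by
      rw [Fintype.card_prod, ZMod.card]; ring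
    rw [h1]
    omega
  have hSm : ∀ x, (SX P0 a0 Y x).card = m := by
    intro x
    rw [card_SX P0 a0 Y ha0, hY]
    omega
  have hcard : ∀ x, ((SX P0 a0 Y x).card : ℚ) = δ * Fintype.card ((Fin n × Lb j) × Pl p) := by
    intro x
    rw [hSm, hm]
  have hV0 : 0 < Fintype.card ((Fin n × Lb j) × Pl p) := by rw [hV]; positivity
  have hm0 : 0 < m := by
    have : (0 : ℚ) < m := by
      rw [hm]
      exact mul_pos hδ (by exact_mod_cast hV0)
    exact_mod_cast this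
  have hno : ∀ (s' t' : Fin n × Fin D → Fin n) (c' : Fin n × Fin D → Lb j), RegSys s' t' D →
      QRL s' t' c' ε → SSENo η δ (LG s' t' c' p) := fun s' t' c' h1 h2 =>
    LG_no hn0 hD h1 hpD h2 hδ ⟨m, hm⟩ hbound'
  refine ⟨(Fin n × Lb j) × Pl p, inferInstance, ?_, ⟨LG s t (fun _ => 0) p, LG_regular hreg hpD, ?_⟩,
    ⟨LG s t c p, LG_regular hreg hpD, hno s t c hreg hq⟩, ?_⟩
  · rw [hV]
    calc N ≤ n := by omega
      _ = n * 1 * 1 := by ring
      _ ≤ n * 2 ^ j * p ^ 2 := by gcongr <;> exact Nat.one_le_pow _ _ (by omega)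
  · -- the Yes instance
    have hr := LG_regular (c := fun _ : Fin n × Fin D => (0 : Lb j)) hreg hpD
    refine ⟨4 * (p - 1) * D, ⟨hd1, hr, m, hm0, hm⟩, SX P0 a0 Y 0, hcard 0, ?_⟩
    have h1 := inside_SX_ge (c := fun _ : Fin n × Fin D => (0 : Lb j)) hreg hpD P0 a0 Y 0
      (fun e => by simp)
    have h2 := expansion_eq hr hd1 (S := SX P0 a0 Y 0) (by rw [hSm]; exact hm0)
    have hpR : (1 : ℝ) < p := by exact_mod_cast hp1
    have hp0R : (0 : ℝ) < p := by linarith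
    have hp10 : (0 : ℝ) < (p : ℝ) - 1 := by linarith
    have hDR : (0 : ℝ) < D := by exact_mod_cast hD
    have hcast : ((p - 1 : ℕ) : ℝ) = (p : ℝ) - 1 := by
      rw [Nat.cast_sub (by omega)]; simp
    have h3 : ((expansion (LG s t (fun _ => 0) p) (4 * (p - 1) * D) (SX P0 a0 Y 0) : ℚ) : ℝ) ≤
        (η : ℝ) := by
      rw [h2, hSm, hmR]
      push_cast
      rw [hcast]
      have h4 : (P0.card : ℝ) / (δ * 2 ^ j) ≤
          (1 / (4 * ((p : ℝ) - 1) * D * (δ * (n * 2 ^ j * p ^ 2)))) *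
            (inside (LG s t (fun _ => 0) p) (SX P0 a0 Y 0) : ℝ) := by
        calc (P0.card : ℝ) / (δ * 2 ^ j) =
            (1 / (4 * ((p : ℝ) - 1) * D * (δ * (n * 2 ^ j * p ^ 2)))) *
              (4 * (p : ℝ) ^ 2 * (p - 1) * P0.card * (D * n)) := by field_simp
          _ ≤ _ := mul_le_mul_of_nonneg_left h1 (by positivity)
      have h5 : 1 - (η : ℝ) / 16 ≤ (P0.card : ℝ) / (δ * 2 ^ j) := by
        rw [le_div_iff₀ (by positivity)]; exact hP3
      linarith
    exact_mod_cast h3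
  · -- the relaxations
    intro P hP
    by_contra hcon
    push Not at hcon
    -- the instances
    set Gω : Rlb n j → SimpleGraph ((Fin n × Lb j) × Pl p) := fun ω =>
      LG (rs s ω.1) (rs t ω.1) (rc s t c ω.1 ω.2) p with hGω
    have hGr : ∀ ω, Regular (Gω ω) (4 * (p - 1) * D) := fun ω =>
      LG_regular (regSys_rs s t ω.1 hreg) hpD
    have hGn : ∀ ω, SSENo η δ (Gω ω) := fun ω =>
      hno _ _ _ (regSys_rs s t ω.1 hreg) (QRL_rs s t c ω.1 ω.2 hq)
    have hfark : ∀ ω, ∃ (l : Fin P.size → ℝ) (mu : ℝ), (∀ i, 0 ≤ l i) ∧ 0 ≤ mu ∧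
        ∀ y : Fin P.vars → ℝ, ∑ a, P.obj (Gω ω) a * y a - (η - P.const (Gω ω)) =
          mu + ∑ i, l i * (P.b i - ∑ a, P.A i a * y a) := by
      intro ω
      refine farkas_aff P.A P.b (P.obj (Gω ω)) (η - P.const (Gω ω))
        ⟨P.point (SX P0 a0 Y 0), P.feasible _ (hcard 0)⟩ (fun y hy => ?_)
      have := hP (Gω ω) (hGr ω) (hGn ω) y hy
      linarith
    choose l mu hl hmu hF using hfark
    have hkey : ∀ ω x, ((expansion (Gω ω) (4 * (p - 1) * D) (SX P0 a0 Y x) : ℚ) : ℝ) - η =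
        mu ω + ∑ i, l ω i * (P.b i - ∑ a, P.A i a * P.point (SX P0 a0 Y x) a) := by
      intro ω x
      have h1 := P.exact (Gω ω) (hGr ω) (SX P0 a0 Y x) (hcard x)
      have h2 := hF ω (P.point (SX P0 a0 Y x))
      rw [← h2, ← h1]
      ring
    have hRle : (P.size : ℝ) ≤ (n : ℝ) ^ c₀ * C₂ := by
      have h1 : (P.size : ℝ) ≤ ((Fintype.card ((Fin n × Lb j) × Pl p) ^ c₀ : ℕ) : ℝ) := by
        exact_mod_cast hcon
      rw [hV] at h1
      push_cast at h1
      calc (P.size : ℝ) ≤ _ := h1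
        _ = _ := by rw [hC₂]; ring
    have hC₁n : C₁ ≤ (η / 8) * n := by
      have h1 : 8 * C₁ / η ≤ n := by linarith
      rw [div_le_iff₀ hηR0] at h1
      linarith
    have hC₂n : C₂ < n := by
      have h1 : 0 ≤ 8 * C₁ / η := by positivity
      linarith
    refine lp_contra (k := k) (pmo lam s t c G L) (abs_pm_le c (by omega) hG hlam0 hlam1.le)
      (pm_zero c (by omega) hG) (η := (η : ℝ)) (M := (n : ℝ) ^ (c₀ + k + 1))
      (T := (n : ℝ) ^ t₀) hηR0 (by positivity)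
      (fun i x => P.b i - ∑ a, P.A i a * P.point (SX P0 a0 Y x) a)
      (fun i x => sub_nonneg.2 (P.feasible _ (hcard x) i))
      (fun ω x => ((expansion (Gω ω) (4 * (p - 1) * D) (SX P0 a0 Y x) : ℚ) : ℝ)) ?_ l hl mu hmu hkey ?_ ?_ ?_ ?_
    · -- the expansion is at most one
      intro ω x
      rw [expansion_eq (hGr ω) hd1 (by rw [hSm]; exact hm0)]
      have : 0 ≤ (1 / (((4 * (p - 1) * D : ℕ) : ℝ) * (SX P0 a0 Y x).card)) * (inside (Gω ω) (SX P0 a0 Y x) : ℝ) := by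
        positivity
      linarith
    · -- the pseudo-expectation of the expansion is small
      intro ω
      have hnc := noCirc_rs s t ω.1 hG
      have h1 := L0_expansion (c := rc s t c ω.1 ω.2) (k := k) (L := L) (lam := lam)
        (regSys_rs s t ω.1 hreg) hpD hn0 hD hL1 (by omega) hnc (by omega) (by omega) hlam0
        hlam1.le hLs (P0 := P0) (a0 := a0) (Y := Y) hδ hcard
      rw [L0_rs] at h1
      refine h1.trans ?_
      have hDR : (0 : ℝ) < D := by exact_mod_cast hD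
      have h2 : (1 - η / 4 : ℝ) ≤ P0.card * (lam * G.card) / (D * n * (δ * 2 ^ j)) := by
        rw [le_div_iff₀ (by positivity)]
        have h3 : (1 - (η : ℝ) / 8) * (D * n) ≤ G.card := by
          refine le_trans ?_ hGc
          have : (0 : ℝ) ≤ D * n := by positivity
          nlinarith
        calc (1 - η / 4 : ℝ) * (D * n * (δ * 2 ^ j))
            ≤ ((1 - (η : ℝ) / 16) * (lam * (1 - (η : ℝ) / 8))) * (D * n * (δ * 2 ^ j)) := by
              refine mul_le_mul_of_nonneg_right ?_ (by positivity)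
              rw [hlam]
              nlinarith [sq_nonneg (η : ℝ), mul_pos hηR0 hηR0]
          _ = ((1 - (η : ℝ) / 16) * (δ * 2 ^ j)) * (lam * ((1 - (η : ℝ) / 8) * (D * n))) := by
              ring
          _ ≤ P0.card * (lam * G.card) := by
              have h4 : (0 : ℝ) ≤ (1 - (η : ℝ) / 8) * (D * n) := by
                have : (0 : ℝ) < 1 - (η : ℝ) / 8 := by linarith
                positivity
              gcongr
      linarith
    · -- the number of low-degree indices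
      have h1 : (((lowk n j k).card : ℕ) : ℝ) ≤ (k + 1) * n ^ k * (2 ^ j) ^ k := by
        exact_mod_cast card_lowk_le n j k hn0
      calc (P.size : ℝ) * (lowk n j k).card
          ≤ ((n : ℝ) ^ c₀ * C₂) * ((k + 1) * n ^ k * (2 ^ j) ^ k) := by gcongr
        _ = C₁ * ((n : ℝ) ^ (c₀ + k)) := by rw [hC₁]; ring
        _ ≤ ((η / 8) * n) * ((n : ℝ) ^ (c₀ + k)) := by gcongr
        _ = _ := by ring
    · calc (P.size : ℝ) ≤ (n : ℝ) ^ c₀ * C₂ := hRle
        _ < (n : ℝ) ^ c₀ * n := by gcongr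
        _ = (n : ℝ) ^ t₀ := by rw [ht₀]; ring
    · -- the tail bound
      intro h hh hh1 hhM
      exact hν₀ ν (by omega) n hn (pmo lam s t c G L) (near s t L)
        (pd_of c hreg hG (by omega) (by omega) hlam0 hlam1.le hLs) h hh hh1 hhM

end Pool.Agent.Lib.MP_8d8c46_lc
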