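import Mathlib

/-!
The promise problem `SSE(η, δ)` on finite simple regular graphs.
-/

open scoped Classical

namespace Pool.Agent.Lib.MP_8d8c46_lc

section
variable {V : Type*} [Fintype V]

/-- Every vertex of `G` has exactly `d` neighbours. -/
def Regular (G : SimpleGraph V) (d : ℕ) : Prop :=
  ∀ v, (Finset.univ.filter (fun u => G.Adj v u)).card = d

/-- The number of edges of `G` with exactly one endpoint in `S`, counted as the ordered pairs
`(u, v)` of adjacent vertices with `u ∈ S` and `v ∉ S`. -/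
noncomputable def cut (G : SimpleGraph V) (S : Finset V) : ℕ :=
  (Finset.univ.filter (fun p : V × V => p.1 ∈ S ∧ p.2 ∉ S ∧ G.Adj p.1 p.2)).card

/-- The expansion `Φ_G(S)` of a set `S` in a `d`-regular graph. -/
noncomputable def expansion (G : SimpleGraph V) (d : ℕ) (S : Finset V) : ℚ :=
  (cut G S : ℚ) / ((d : ℚ) * S.card)

/-- The admissible inputs: `G` is `d`-regular, `d ≥ 1`, and `δ n` is a positive integer. -/
def IsInput (δ : ℚ) (G : SimpleGraph V) (d : ℕ) : Prop :=
  1 ≤ d ∧ Regular G d ∧ ∃ k : ℕ, 0 < k ∧ (k : ℚ) = δ * Fintype.card V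

/-- The Yes instances of `SSE(η, δ)`. -/
def SSEYes (η δ : ℚ) (G : SimpleGraph V) : Prop :=
  ∃ d : ℕ, IsInput δ G d ∧
    ∃ S : Finset V, (S.card : ℚ) = δ * Fintype.card V ∧ expansion G d S ≤ η

/-- The No instances of `SSE(η, δ)`. -/
def SSENo (η δ : ℚ) (G : SimpleGraph V) : Prop :=
  ∃ d : ℕ, IsInput δ G d ∧
    ∀ S : Finset V, (S.card : ℚ) = δ * Fintype.card V → 1 - η ≤ expansion G d S

/-- The number of ordered pairs of adjacent vertices inside `S`. -/
noncomputable def inside (G : SimpleGraph V) (S : Finset V) : ℕ :=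
  (Finset.univ.filter (fun p : V × V => p.1 ∈ S ∧ p.2 ∈ S ∧ G.Adj p.1 p.2)).card

lemma inside_add_cut {G : SimpleGraph V} {d : ℕ} (h : Regular G d) (S : Finset V) :
    inside G S + cut G S = d * S.card := by
  have e : inside G S + cut G S =
      (Finset.univ.filter (fun p : V × V => p.1 ∈ S ∧ G.Adj p.1 p.2)).card := by
    unfold inside cut
    rw [← Finset.card_union_of_disjoint]
    · congr 1
      ext p
      simp only [Finset.mem_union, Finset.mem_filter, Finset.mem_univ, true_and]
      tauto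
    · refine Finset.disjoint_left.2 (fun p hp hp' => ?_)
      simp only [Finset.mem_filter, Finset.mem_univ, true_and] at hp hp'
      exact hp'.2.1 hp.2.1
  rw [e]
  have e2 : Finset.univ.filter (fun p : V × V => p.1 ∈ S ∧ G.Adj p.1 p.2) =
      S.biUnion (fun v => (Finset.univ.filter (fun u => G.Adj v u)).image (fun u => (v, u))) := by
    ext ⟨v, u⟩
    simp only [Finset.mem_filter, Finset.mem_univ, true_and, Finset.mem_biUnion,
      Finset.mem_image, Prod.mk.injEq]
    constructor
    · rintro ⟨h1, h2⟩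
      exact ⟨v, h1, u, h2, rfl, rfl⟩
    · rintro ⟨v', h1, u', h2, rfl, rfl⟩
      exact ⟨h1, h2⟩
  rw [e2, Finset.card_biUnion]
  · rw [Finset.sum_congr rfl (g := fun _ => d), Finset.sum_const, smul_eq_mul, mul_comm]
    intro v _
    rw [Finset.card_image_of_injective]
    · exact h v
    · intro a b hab
      simpa using hab
  · intro v _ v' _ hne
    refine Finset.disjoint_left.2 (fun q hq hq' => ?_)
    simp only [Finset.mem_image] at hq hq'
    obtain ⟨a, _, rfl⟩ := hq
    obtain ⟨b, _, h2⟩ := hq'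
    simp only [Prod.mk.injEq] at h2
    exact hne h2.1.symm

lemma expansion_le_iff {G : SimpleGraph V} {d : ℕ} (hr : Regular G d) (hd : 1 ≤ d)
    {S : Finset V} (hS : 0 < S.card) (η : ℚ) :
    expansion G d S ≤ η ↔ (1 - η) * (d * S.card) ≤ (inside G S : ℚ) := by
  have h1 : ((inside G S : ℚ)) + cut G S = d * S.card := by
    exact_mod_cast inside_add_cut hr S
  have hd' : (0 : ℚ) < d := by exact_mod_cast hd
  have hS' : (0 : ℚ) < S.card := by exact_mod_cast hS
  unfold expansion
  rw [div_le_iff₀ (mul_pos hd' hS')]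
  constructor <;> intro h <;> nlinarith

lemma le_expansion_iff {G : SimpleGraph V} {d : ℕ} (hr : Regular G d) (hd : 1 ≤ d)
    {S : Finset V} (hS : 0 < S.card) (η : ℚ) :
    1 - η ≤ expansion G d S ↔ (inside G S : ℚ) ≤ η * (d * S.card) := by
  have h1 : ((inside G S : ℚ)) + cut G S = d * S.card := by
    exact_mod_cast inside_add_cut hr S
  have hd' : (0 : ℚ) < d := by exact_mod_cast hd
  have hS' : (0 : ℚ) < S.card := by exact_mod_cast hS
  unfold expansion
  rw [le_div_iff₀ (mul_pos hd' hS')]
  constructor <;> intro h <;> nlinarith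

end

end Pool.Agent.Lib.MP_8d8c46_lc
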