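import Mathlib

/-!
Random permutations rarely map many elements of a set close to other elements of the set.
-/

open scoped Classical
open Finset

namespace Pool.Agent.Lib.MP_8d8c46_lc

section pairs
variable {n : ℕ}

lemma card_perm_fixed (B : Finset (Fin n)) (f : Fin n → Fin n) :
    (univ.filter (fun τ : Equiv.Perm (Fin n) => ∀ u ∈ B, τ u = f u)).card ≤
      (n - B.card).factorial := by
  by_cases hne : (univ.filter (fun τ : Equiv.Perm (Fin n) => ∀ u ∈ B, τ u = f u)).Nonempty
  · obtain ⟨τ₀, hτ₀⟩ := hne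
    simp only [mem_filter, mem_univ, true_and] at hτ₀
    have himg : (B.image f).card = B.card := by
      rw [card_image_of_injOn]
      intro a ha b hb hab
      have h1 := hτ₀ a ha
      have h2 := hτ₀ b hb
      apply τ₀.injective
      rw [h1, h2]; exact hab
    have hα : Fintype.card {x : Fin n // x ∉ B} = n - B.card := by
      rw [Fintype.card_subtype_compl, Fintype.card_fin, Fintype.card_coe]
    have hβ : Fintype.card {x : Fin n // x ∉ B.image f} = n - B.card := by
      rw [Fintype.card_subtype_compl, Fintype.card_fin, Fintype.card_coe, himg]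
    have hemb : Fintype.card ({x : Fin n // x ∉ B} ↪ {x : Fin n // x ∉ B.image f}) =
        (n - B.card).factorial := by
      rw [Fintype.card_embedding_eq, hα, hβ, Nat.descFactorial_self]
    rw [← hemb, ← card_univ]
    have hmem : ∀ τ ∈ univ.filter (fun τ : Equiv.Perm (Fin n) => ∀ u ∈ B, τ u = f u),
        ∀ x : {x : Fin n // x ∉ B}, τ x ∉ B.image f := by
      intro τ hτ x hx
      simp only [mem_filter, mem_univ, true_and] at hτ
      rw [mem_image] at hx
      obtain ⟨b, hb, hbx⟩ := hx
      rw [← hτ b hb] at hbx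
      exact x.2 (τ.injective hbx ▸ hb)
    refine card_le_card_of_injOn (fun τ => if h : ∀ x : {x : Fin n // x ∉ B}, τ x ∉ B.image f then
        ⟨fun x => ⟨τ x, h x⟩, fun a b hab => by
          simpa [Subtype.ext_iff] using hab⟩ else
        ⟨fun x => ⟨τ₀ x, hmem τ₀ (by simpa using hτ₀) x⟩, fun a b hab => by
          simpa [Subtype.ext_iff] using hab⟩) (fun _ _ => mem_coe.2 (mem_univ _)) ?_
    intro τ hτ τ' hτ' heq
    have h1 := hmem τ hτ
    have h2 := hmem τ' hτ'
    simp only [dif_pos h1, dif_pos h2] at heq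
    simp only [coe_filter, mem_univ, true_and, Set.mem_ofPred_eq] at hτ hτ'
    refine Equiv.ext (fun x => ?_)
    by_cases hx : x ∈ B
    · rw [hτ x hx, hτ' x hx]
    · exact congrArg (fun (g : {x : Fin n // x ∉ B} ↪ {x : Fin n // x ∉ B.image f}) =>
        ((g ⟨x, hx⟩ : {x : Fin n // x ∉ B.image f}) : Fin n)) heq
  · rw [not_nonempty_iff_eq_empty] at hne
    rw [hne, card_empty]
    exact Nat.zero_le _

variable (nr : Fin n → Fin n → Prop)

/-- every element of `U` is mapped close to another element of `U` -/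
def Paired (U : Finset (Fin n)) (τ : Equiv.Perm (Fin n)) : Prop :=
  ∀ u ∈ U, ∃ v ∈ U, v ≠ u ∧ nr (τ u) (τ v)

variable {nr}

lemma Paired.union {U V : Finset (Fin n)} {τ : Equiv.Perm (Fin n)} (h : Paired nr U τ)
    (h' : Paired nr V τ) : Paired nr (U ∪ V) τ := by
  intro u hu
  rw [mem_union] at hu
  rcases hu with hu | hu
  · obtain ⟨v, hv, h1⟩ := h u hu
    exact ⟨v, mem_union_left _ hv, h1⟩
  · obtain ⟨v, hv, h1⟩ := h' u hu
    exact ⟨v, mem_union_right _ hv, h1⟩

/-- the permutations that are `f` on `B` and pair every element of `U \ B` -/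
noncomputable def ps (nr : Fin n → Fin n → Prop) (U B : Finset (Fin n)) (f : Fin n → Fin n) :
    Finset (Equiv.Perm (Fin n)) :=
  univ.filter (fun τ => (∀ u ∈ B, τ u = f u) ∧ ∀ u ∈ U \ B, ∃ v ∈ U, v ≠ u ∧ nr (τ u) (τ v))

lemma arith_step {X K m n F r : ℕ} (hX : X = 2 * (K * m)) (hX1 : 1 ≤ X) (hn : 1 ≤ n) :
    K * m * (X ^ (r + 1) * n ^ ((r + 1) / 2) * F) + K * m * n * (X ^ r * n ^ (r / 2) * F) ≤
      X ^ (r + 2) * n ^ ((r + 2) / 2) * F := by
  have h1 : (r + 2) / 2 = r / 2 + 1 := by omega
  have h2 : n ^ ((r + 1) / 2) ≤ n ^ (r / 2 + 1) := Nat.pow_le_pow_right hn (by omega)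
  rw [h1]
  have h3 : 2 * (K * m * (X ^ (r + 1) * n ^ ((r + 1) / 2) * F)) ≤
      X ^ (r + 2) * n ^ (r / 2 + 1) * F := by
    calc 2 * (K * m * (X ^ (r + 1) * n ^ ((r + 1) / 2) * F))
        = (2 * (K * m)) * X ^ (r + 1) * n ^ ((r + 1) / 2) * F := by ring
      _ = X ^ (r + 2) * n ^ ((r + 1) / 2) * F := by rw [← hX]; ring
      _ ≤ X ^ (r + 2) * n ^ (r / 2 + 1) * F := by gcongr
  have h4 : 2 * (K * m * n * (X ^ r * n ^ (r / 2) * F)) ≤ X ^ (r + 2) * n ^ (r / 2 + 1) * F := by
    calc 2 * (K * m * n * (X ^ r * n ^ (r / 2) * F))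
        = (2 * (K * m)) * X ^ r * n ^ (r / 2 + 1) * F := by ring
      _ = X ^ (r + 1) * n ^ (r / 2 + 1) * F := by rw [← hX]; ring
      _ ≤ X ^ (r + 2) * n ^ (r / 2 + 1) * F :=
          Nat.mul_le_mul_right _ (Nat.mul_le_mul_right _ (Nat.pow_le_pow_right hX1 (by omega)))
  omega

lemma card_ps {K : ℕ} (hK : 1 ≤ K) (hn : 1 ≤ n) (hsym : ∀ u v, nr u v → nr v u)
    (hball : ∀ u, (univ.filter (fun v => nr u v)).card ≤ K) (U : Finset (Fin n)) :
    ∀ (r : ℕ) (B : Finset (Fin n)) (f : Fin n → Fin n), B ⊆ U → (U \ B).card = r →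
      (ps nr U B f).card ≤ (2 * (K * U.card)) ^ r * n ^ (r / 2) * (n - U.card).factorial := by
  intro r
  induction r using Nat.strong_induction_on with
  | _ r ih =>
  intro B f hBU hr
  rcases Nat.eq_zero_or_pos r with h0 | hpos
  · subst h0
    rw [card_eq_zero, sdiff_eq_empty_iff_subset] at hr
    have hUB : U = B := Subset.antisymm hr hBU
    rw [pow_zero, one_mul, Nat.zero_div, pow_zero, one_mul, hUB]
    refine le_trans (card_le_card ?_) (card_perm_fixed B f)
    intro τ hτ
    unfold ps at hτ
    simp only [mem_filter, mem_univ, true_and] at hτ ⊢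
    exact hτ.1
  · obtain ⟨u, hu⟩ : (U \ B).Nonempty := by
      rw [← card_pos, hr]; exact hpos
    rw [mem_sdiff] at hu
    have hUpos : 1 ≤ U.card := card_pos.2 ⟨u, hu.1⟩
    have hX1 : 1 ≤ 2 * (K * U.card) := by
      have := Nat.mul_pos hK hUpos; omega
    -- the two kinds of partners
    set nb : Fin n → Finset (Fin n) := fun w => univ.filter (fun v => nr w v) with hnb
    have hcov : ps nr U B f ⊆
        (B.biUnion (fun v => (nb (f v)).biUnion (fun w =>
          ps nr U (insert u B) (Function.update f u w)))) ∪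
        (((U \ B).erase u).biUnion (fun v => univ.biUnion (fun w => (nb w).biUnion (fun w' =>
          ps nr U (insert v (insert u B))
            (Function.update (Function.update f u w) v w'))))) := by
      intro τ hτ
      unfold ps at hτ
      simp only [mem_filter, mem_univ, true_and] at hτ
      obtain ⟨h1, h2⟩ := hτ
      obtain ⟨v, hvU, hvu, hnr⟩ := h2 u (mem_sdiff.2 hu)
      rw [mem_union]
      by_cases hvB : v ∈ B
      · left
        rw [mem_biUnion]
        refine ⟨v, hvB, ?_⟩
        rw [mem_biUnion]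
        refine ⟨τ u, ?_, ?_⟩
        · rw [hnb]
          simp only [mem_filter, mem_univ, true_and]
          rw [← h1 v hvB]
          exact hsym _ _ hnr
        · unfold ps
          simp only [mem_filter, mem_univ, true_and]
          refine ⟨?_, ?_⟩
          · intro x hx
            rw [mem_insert] at hx
            by_cases hxu : x = u
            · subst hxu; rw [Function.update_self]
            · rw [Function.update_of_ne hxu]
              exact h1 x (hx.resolve_left hxu)
          · intro x hx
            apply h2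
            rw [mem_sdiff, mem_insert, not_or] at hx
            exact mem_sdiff.2 ⟨hx.1, hx.2.2⟩
      · right
        rw [mem_biUnion]
        refine ⟨v, mem_erase.2 ⟨hvu, mem_sdiff.2 ⟨hvU, hvB⟩⟩, ?_⟩
        rw [mem_biUnion]
        refine ⟨τ u, mem_univ _, ?_⟩
        rw [mem_biUnion]
        refine ⟨τ v, ?_, ?_⟩
        · rw [hnb]
          simp only [mem_filter, mem_univ, true_and]
          exact hnr
        · unfold ps
          simp only [mem_filter, mem_univ, true_and]
          refine ⟨?_, ?_⟩
          · intro x hx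
            rw [mem_insert, mem_insert] at hx
            by_cases hxv : x = v
            · subst hxv; rw [Function.update_self]
            · rw [Function.update_of_ne hxv]
              by_cases hxu : x = u
              · subst hxu; rw [Function.update_self]
              · rw [Function.update_of_ne hxu]
                exact h1 x ((hx.resolve_left hxv).resolve_left hxu)
          · intro x hx
            apply h2
            rw [mem_sdiff, mem_insert, mem_insert, not_or, not_or] at hx
            exact mem_sdiff.2 ⟨hx.1, hx.2.2.2⟩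
    obtain ⟨r', rfl⟩ : ∃ r', r = r' + 1 := ⟨r - 1, by omega⟩
    set X := 2 * (K * U.card) with hX
    set F := (n - U.card).factorial with hF
    have hBc : B.card ≤ U.card := card_le_card hBU
    have hsub1 : insert u B ⊆ U := insert_subset_iff.2 ⟨hu.1, hBU⟩
    have hc1 : (U \ insert u B).card = r' := by
      have : U \ insert u B = (U \ B).erase u := by
        ext x
        simp only [mem_sdiff, mem_insert, mem_erase, not_or]
        tauto
      rw [this, card_erase_of_mem (mem_sdiff.2 hu), hr]; rfl
    have hfirst : (B.biUnion (fun v => (nb (f v)).biUnion (fun w =>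
          ps nr U (insert u B) (Function.update f u w)))).card ≤
        K * U.card * (X ^ r' * n ^ (r' / 2) * F) := by
      refine card_biUnion_le.trans ?_
      refine (sum_le_card_nsmul B _ (K * (X ^ r' * n ^ (r' / 2) * F)) (fun v _ => ?_)).trans ?_
      · refine card_biUnion_le.trans ?_
        refine (sum_le_card_nsmul _ _ (X ^ r' * n ^ (r' / 2) * F) (fun w _ => ?_)).trans ?_
        · exact ih r' (by omega) _ _ hsub1 hc1
        · rw [smul_eq_mul]
          exact Nat.mul_le_mul_right _ (hball _)
      · rw [smul_eq_mul]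
        calc B.card * (K * (X ^ r' * n ^ (r' / 2) * F)) ≤ U.card * (K * (X ^ r' * n ^ (r' / 2) * F)) :=
              Nat.mul_le_mul_right _ hBc
          _ = _ := by ring
    refine (card_le_card hcov).trans ((card_union_le _ _).trans ?_)
    rcases Nat.eq_zero_or_pos r' with h0 | hpos'
    · -- no second kind
      subst h0
      have hempty : (U \ B).erase u = ∅ := by
        rw [← card_eq_zero, card_erase_of_mem (mem_sdiff.2 hu), hr]
      rw [hempty, biUnion_empty, card_empty, add_zero]
      refine hfirst.trans ?_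
      simp only [pow_zero, Nat.zero_div, one_mul, zero_add, pow_one]
      have : (1 : ℕ) / 2 = 0 := rfl
      rw [this, pow_zero, mul_one]
      refine Nat.mul_le_mul_right _ ?_
      omega
    · obtain ⟨r'', rfl⟩ : ∃ r'', r' = r'' + 1 := ⟨r' - 1, by omega⟩
      have hsecond : (((U \ B).erase u).biUnion (fun v => univ.biUnion (fun w =>
          (nb w).biUnion (fun w' => ps nr U (insert v (insert u B))
            (Function.update (Function.update f u w) v w'))))).card ≤
          K * U.card * n * (X ^ r'' * n ^ (r'' / 2) * F) := by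
        refine card_biUnion_le.trans ?_
        refine (sum_le_card_nsmul _ _ (n * (K * (X ^ r'' * n ^ (r'' / 2) * F)))
          (fun v hv => ?_)).trans ?_
        · refine card_biUnion_le.trans ?_
          refine (sum_le_card_nsmul _ _ (K * (X ^ r'' * n ^ (r'' / 2) * F)) (fun w _ => ?_)).trans ?_
          · refine card_biUnion_le.trans ?_
            refine (sum_le_card_nsmul _ _ (X ^ r'' * n ^ (r'' / 2) * F) (fun w' _ => ?_)).trans ?_
            · rw [mem_erase, mem_sdiff] at hv
              refine ih r'' (by omega) _ _ (insert_subset_iff.2 ⟨hv.2.1, hsub1⟩) ?_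
              have : U \ insert v (insert u B) = (U \ insert u B).erase v := by
                ext x
                simp only [mem_sdiff, mem_insert, mem_erase, not_or]
                tauto
              rw [this, card_erase_of_mem, hc1]
              · rfl
              · rw [mem_sdiff, mem_insert, not_or]
                exact ⟨hv.2.1, hv.1, hv.2.2⟩
            · rw [smul_eq_mul]
              exact Nat.mul_le_mul_right _ (hball _)
          · rw [smul_eq_mul, card_univ, Fintype.card_fin]
        · rw [smul_eq_mul]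
          have h5 : ((U \ B).erase u).card ≤ U.card :=
            card_le_card ((erase_subset _ _).trans sdiff_subset)
          calc ((U \ B).erase u).card * (n * (K * (X ^ r'' * n ^ (r'' / 2) * F)))
              ≤ U.card * (n * (K * (X ^ r'' * n ^ (r'' / 2) * F))) := Nat.mul_le_mul_right _ h5
            _ = _ := by ring
      refine (Nat.add_le_add hfirst hsecond).trans ?_
      exact arith_step hX hX1 hn

/-- The probability that a random permutation pairs `U` is at most `θ ^ |U|`. -/
theorem card_paired {K ν l : ℕ} (hK : 1 ≤ K) (hν : 1 ≤ ν) (hn : n = ν ^ 16) (hl : 2 * l ≤ n)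
    (hsym : ∀ u v, nr u v → nr v u)
    (hball : ∀ u, (univ.filter (fun v => nr u v)).card ≤ K) {U : Finset (Fin n)}
    (hU : U.card ≤ l) :
    ((univ.filter (fun τ : Equiv.Perm (Fin n) => Paired nr U τ)).card : ℝ) ≤
      n.factorial * ((4 * K * l : ℝ) / ν ^ 8) ^ U.card := by
  have hn1 : 1 ≤ n := by rw [hn]; exact Nat.one_le_pow _ _ hν
  set m := U.card with hm
  have h1 := card_ps hK hn1 hsym hball U m ∅ id (empty_subset _) (by rw [sdiff_empty])
  have h2 : univ.filter (fun τ : Equiv.Perm (Fin n) => Paired nr U τ) ⊆ ps nr U ∅ id := by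
    intro τ hτ
    unfold ps
    simp only [mem_filter, mem_univ, true_and, notMem_empty, false_implies, implies_true,
      sdiff_empty] at hτ ⊢
    exact hτ
  have h3 := (card_le_card h2).trans h1
  set N := (univ.filter (fun τ : Equiv.Perm (Fin n) => Paired nr U τ)).card with hN
  have hmn : m ≤ n := by omega
  -- falling factorial
  have h4 : (n + 1 - m) ^ m ≤ n.descFactorial m := Nat.pow_sub_le_descFactorial n m
  have h5 : (n - m).factorial * n.descFactorial m = n.factorial := Nat.factorial_mul_descFactorial hmn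
  have h6 : n ^ m ≤ 2 ^ m * (n + 1 - m) ^ m := by
    rw [← mul_pow]
    exact Nat.pow_le_pow_left (by omega) m
  have h7 : (n - m).factorial * n ^ m ≤ 2 ^ m * n.factorial := by
    calc (n - m).factorial * n ^ m ≤ (n - m).factorial * (2 ^ m * (n + 1 - m) ^ m) :=
          Nat.mul_le_mul_left _ h6
      _ = 2 ^ m * ((n - m).factorial * (n + 1 - m) ^ m) := by ring
      _ ≤ 2 ^ m * ((n - m).factorial * n.descFactorial m) := by gcongr
      _ = _ := by rw [h5]
  have h8 : N * n ^ m ≤ (4 * (K * m)) ^ m * n ^ (m / 2) * n.factorial := by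
    calc N * n ^ m ≤ ((2 * (K * m)) ^ m * n ^ (m / 2) * (n - m).factorial) * n ^ m :=
          Nat.mul_le_mul_right _ h3
      _ = (2 * (K * m)) ^ m * n ^ (m / 2) * ((n - m).factorial * n ^ m) := by ring
      _ ≤ (2 * (K * m)) ^ m * n ^ (m / 2) * (2 ^ m * n.factorial) := Nat.mul_le_mul_left _ h7
      _ = (2 * (2 * (K * m))) ^ m * n ^ (m / 2) * n.factorial := by
          rw [mul_pow 2 (2 * (K * m)) m]; ring
      _ = _ := by ring_nf
  have h9 : N * n ^ (m - m / 2) ≤ (4 * (K * m)) ^ m * n.factorial := by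
    have e : n ^ m = n ^ (m - m / 2) * n ^ (m / 2) := by
      rw [← pow_add]; congr 1; omega
    rw [e] at h8
    have hp : 0 < n ^ (m / 2) := pow_pos hn1 _
    refine Nat.le_of_mul_le_mul_right ?_ hp
    calc N * n ^ (m - m / 2) * n ^ (m / 2) = N * (n ^ (m - m / 2) * n ^ (m / 2)) := by ring
      _ ≤ _ := h8
      _ = _ := by ring
  have h10 : N * ν ^ (8 * m) ≤ (4 * (K * l)) ^ m * n.factorial := by
    have e : ν ^ (8 * m) ≤ n ^ (m - m / 2) := by
      rw [hn, ← pow_mul]
      exact Nat.pow_le_pow_right hν (by omega)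
    calc N * ν ^ (8 * m) ≤ N * n ^ (m - m / 2) := Nat.mul_le_mul_left _ e
      _ ≤ _ := h9
      _ ≤ _ := by gcongr
  have h11 : (N : ℝ) * (ν : ℝ) ^ (8 * m) ≤ (4 * (K * l) : ℝ) ^ m * n.factorial := by
    exact_mod_cast h10
  have hνp : (0 : ℝ) < (ν : ℝ) ^ 8 := by
    have : (0 : ℝ) < ν := by exact_mod_cast hν
    positivity
  rw [div_pow, ← mul_div_assoc, le_div_iff₀ (pow_pos hνp m), ← pow_mul]
  calc (N : ℝ) * (ν : ℝ) ^ (8 * m) ≤ _ := h11
    _ = _ := by ring

/-- The hypothesis that sets are rarely paired. -/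
def PairBound (nr : Fin n → Fin n → Prop) (l : ℕ) (θ : ℝ) : Prop :=
  ∀ U : Finset (Fin n), U.card ≤ l →
    ((univ.filter (fun τ : Equiv.Perm (Fin n) => Paired nr U τ)).card : ℝ) ≤
      n.factorial * θ ^ U.card

/-- Moments of a weighted count of paired sets. -/
theorem moment_bound {l k : ℕ} {θ a W : ℝ} (hP : PairBound nr l θ) (hθ0 : 0 ≤ θ) (hθ1 : θ ≤ 1)
    (𝒯 : Finset (Finset (Fin n))) (w : Finset (Fin n) → ℝ) (hw0 : ∀ T ∈ 𝒯, 0 ≤ w T)
    (hwa : ∀ T ∈ 𝒯, w T ≤ a) (hW : ∑ T ∈ 𝒯, w T ≤ W) (hk : ∀ T ∈ 𝒯, T.card ≤ k)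
    (ha : 0 ≤ a) :
    ∀ (r : ℕ) (U : Finset (Fin n)), U.card + k * r ≤ l →
      ∑ τ : Equiv.Perm (Fin n), (if Paired nr U τ then 1 else 0) *
        (∑ T ∈ 𝒯, w T * (if Paired nr T τ then 1 else 0)) ^ r ≤
      n.factorial * θ ^ U.card * (2 ^ l * a + W * θ) ^ r := by
  have hW0 : 0 ≤ W := (sum_nonneg hw0).trans hW
  intro r
  induction r with
  | zero =>
    intro U hU
    simp only [pow_zero, mul_one]
    rw [sum_boole]
    exact hP U (by omega)
  | succ r ih =>
    intro U hU
    set Z : Equiv.Perm (Fin n) → ℝ := fun τ =>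
      ∑ T ∈ 𝒯, w T * (if Paired nr T τ then 1 else 0) with hZ
    have hZ0 : ∀ τ, 0 ≤ Z τ := fun τ => sum_nonneg (fun T hT => mul_nonneg (hw0 T hT) (by
      split_ifs <;> norm_num))
    have h1 : ∑ τ : Equiv.Perm (Fin n), (if Paired nr U τ then (1 : ℝ) else 0) * Z τ ^ (r + 1) =
        ∑ T ∈ 𝒯, w T * ∑ τ : Equiv.Perm (Fin n), ((if Paired nr U τ then (1 : ℝ) else 0) *
          (if Paired nr T τ then 1 else 0)) * Z τ ^ r := by
      simp_rw [mul_sum]
      rw [sum_comm]
      refine sum_congr rfl (fun τ _ => ?_)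
      rw [pow_succ]
      conv_lhs => rw [hZ]
      simp only
      rw [mul_sum, mul_sum]
      refine sum_congr rfl (fun T _ => ?_)
      ring
    rw [h1]
    have h2 : ∀ T ∈ 𝒯, ∑ τ : Equiv.Perm (Fin n), ((if Paired nr U τ then (1 : ℝ) else 0) *
          (if Paired nr T τ then 1 else 0)) * Z τ ^ r ≤
        n.factorial * θ ^ (U ∪ T).card * (2 ^ l * a + W * θ) ^ r := by
      intro T hT
      have hc : (U ∪ T).card + k * r ≤ l := by
        have := card_union_le U T
        have := hk T hT
        have : k * (r + 1) = k * r + k := by ring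
        omega
      refine le_trans (sum_le_sum (fun τ _ => ?_)) (ih (U ∪ T) hc)
      refine mul_le_mul_of_nonneg_right ?_ (pow_nonneg (hZ0 τ) _)
      by_cases a1 : Paired nr U τ
      · by_cases a2 : Paired nr T τ
        · rw [if_pos a1, if_pos a2, if_pos (a1.union a2)]; norm_num
        · rw [if_neg a2, mul_zero]; split_ifs <;> norm_num
      · rw [if_neg a1, zero_mul]; split_ifs <;> norm_num
    have hB0 : 0 ≤ 2 ^ l * a + W * θ := by positivity
    have h3 : ∑ T ∈ 𝒯, w T * θ ^ (U ∪ T).card ≤ θ ^ U.card * (2 ^ l * a + W * θ) := by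
      rw [← sum_filter_add_sum_filter_not 𝒯 (fun T => T ⊆ U), mul_add]
      apply add_le_add
      · calc ∑ T ∈ 𝒯.filter (fun T => T ⊆ U), w T * θ ^ (U ∪ T).card
            ≤ ∑ T ∈ 𝒯.filter (fun T => T ⊆ U), a * θ ^ U.card := by
              refine sum_le_sum (fun T hT => ?_)
              rw [mem_filter] at hT
              rw [union_eq_left.2 hT.2]
              exact mul_le_mul_of_nonneg_right (hwa T hT.1) (pow_nonneg hθ0 _)
          _ = (𝒯.filter (fun T => T ⊆ U)).card * (a * θ ^ U.card) := by
              rw [sum_const, nsmul_eq_mul]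
          _ ≤ 2 ^ l * (a * θ ^ U.card) := by
              refine mul_le_mul_of_nonneg_right ?_ (by positivity)
              have : (𝒯.filter (fun T => T ⊆ U)).card ≤ 2 ^ l := by
                calc (𝒯.filter (fun T => T ⊆ U)).card ≤ U.powerset.card := by
                      refine card_le_card (fun T hT => ?_)
                      exact mem_powerset.2 (mem_filter.1 hT).2
                  _ = 2 ^ U.card := card_powerset _
                  _ ≤ 2 ^ l := Nat.pow_le_pow_right (by norm_num) (by omega)
              exact_mod_cast this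
          _ = _ := by ring
      · calc ∑ T ∈ 𝒯.filter (fun T => ¬ T ⊆ U), w T * θ ^ (U ∪ T).card
            ≤ ∑ T ∈ 𝒯.filter (fun T => ¬ T ⊆ U), w T * (θ ^ U.card * θ) := by
              refine sum_le_sum (fun T hT => ?_)
              rw [mem_filter] at hT
              refine mul_le_mul_of_nonneg_left ?_ (hw0 T hT.1)
              rw [← pow_succ]
              apply pow_le_pow_of_le_one hθ0 hθ1
              have hss : U ⊂ U ∪ T := by
                refine ⟨subset_union_left, fun h => hT.2 (subset_union_right.trans h)⟩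
              exact card_lt_card hss
          _ = (∑ T ∈ 𝒯.filter (fun T => ¬ T ⊆ U), w T) * (θ ^ U.card * θ) := by
              rw [sum_mul]
          _ ≤ W * (θ ^ U.card * θ) := by
              refine mul_le_mul_of_nonneg_right ?_ (by positivity)
              refine le_trans ?_ hW
              exact sum_le_sum_of_subset_of_nonneg (filter_subset _ _) (fun T hT _ => hw0 T hT)
          _ = _ := by ring
    calc ∑ T ∈ 𝒯, w T * ∑ τ : Equiv.Perm (Fin n), ((if Paired nr U τ then (1 : ℝ) else 0) *
          (if Paired nr T τ then 1 else 0)) * Z τ ^ r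
        ≤ ∑ T ∈ 𝒯, w T * (n.factorial * θ ^ (U ∪ T).card * (2 ^ l * a + W * θ) ^ r) :=
          sum_le_sum (fun T hT => mul_le_mul_of_nonneg_left (h2 T hT) (hw0 T hT))
      _ = (n.factorial * (2 ^ l * a + W * θ) ^ r) * ∑ T ∈ 𝒯, w T * θ ^ (U ∪ T).card := by
          rw [mul_sum]
          exact sum_congr rfl (fun T _ => by ring)
      _ ≤ (n.factorial * (2 ^ l * a + W * θ) ^ r) * (θ ^ U.card * (2 ^ l * a + W * θ)) :=
          mul_le_mul_of_nonneg_left h3 (by positivity)
      _ = _ := by ring

/-- the elements of `J` that have a partner in `J` -/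
noncomputable def partners (nr : Fin n → Fin n → Prop) (J : Finset (Fin n))
    (τ : Equiv.Perm (Fin n)) : Finset (Fin n) :=
  J.filter (fun u => ∃ v ∈ J, v ≠ u ∧ nr (τ u) (τ v))

theorem card_partners {l k : ℕ} {θ : ℝ} (hP : PairBound nr l θ) (hθ0 : 0 ≤ θ)
    (hsym : ∀ u v, nr u v → nr v u) (hl : 2 * k + 2 ≤ l) (J : Finset (Fin n))
    (hJ : (J.card : ℝ) * θ ≤ 1) :
    ((univ.filter (fun τ : Equiv.Perm (Fin n) => k < (partners nr J τ).card)).card : ℝ) ≤
      n.factorial * ((k + 2) * (J.card * θ) ^ (k + 1)) := by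
  set 𝒰 := J.powerset.filter (fun U => k + 1 ≤ U.card ∧ U.card ≤ 2 * k + 2) with h𝒰
  have hcov : univ.filter (fun τ : Equiv.Perm (Fin n) => k < (partners nr J τ).card) ⊆
      𝒰.biUnion (fun U => univ.filter (fun τ => Paired nr U τ)) := by
    intro τ hτ
    simp only [mem_filter, mem_univ, true_and] at hτ
    obtain ⟨K₀, hK₀, hK₀c⟩ := exists_subset_card_eq (s := partners nr J τ) (n := k + 1) hτ
    have hpart : ∀ u ∈ K₀, ∃ v ∈ J, v ≠ u ∧ nr (τ u) (τ v) := fun u hu =>
      (mem_filter.1 (hK₀ hu)).2
    set q : Fin n → Fin n := fun u => if h : ∃ v ∈ J, v ≠ u ∧ nr (τ u) (τ v) then h.choose else u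
      with hq
    have hqs : ∀ u ∈ K₀, q u ∈ J ∧ q u ≠ u ∧ nr (τ u) (τ (q u)) := by
      intro u hu
      have h := hpart u hu
      rw [hq]
      simp only [dif_pos h]
      exact h.choose_spec
    rw [mem_biUnion]
    refine ⟨K₀ ∪ K₀.image q, ?_, ?_⟩
    · rw [h𝒰, mem_filter, mem_powerset]
      refine ⟨?_, ?_, ?_⟩
      · apply union_subset
        · exact hK₀.trans (filter_subset _ _)
        · intro x hx
          rw [mem_image] at hx
          obtain ⟨u, hu, rfl⟩ := hx
          exact (hqs u hu).1
      · rw [← hK₀c]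
        exact card_le_card subset_union_left
      · refine (card_union_le _ _).trans ?_
        have := card_image_le (s := K₀) (f := q)
        omega
    · simp only [mem_filter, mem_univ, true_and]
      intro x hx
      rw [mem_union, mem_image] at hx
      rcases hx with hx | ⟨u, hu, rfl⟩
      · exact ⟨q x, mem_union_right _ (mem_image_of_mem _ hx), (hqs x hx).2.1, (hqs x hx).2.2⟩
      · exact ⟨u, mem_union_left _ hu, (hqs u hu).2.1.symm, hsym _ _ (hqs u hu).2.2⟩
  have h1 : ((univ.filter (fun τ : Equiv.Perm (Fin n) => k < (partners nr J τ).card)).card : ℝ) ≤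
      ∑ U ∈ 𝒰, (n.factorial * θ ^ U.card : ℝ) := by
    have h2 := (card_le_card hcov).trans card_biUnion_le
    calc ((univ.filter (fun τ : Equiv.Perm (Fin n) => k < (partners nr J τ).card)).card : ℝ)
        ≤ ((∑ U ∈ 𝒰, (univ.filter (fun τ => Paired nr U τ)).card : ℕ) : ℝ) := by exact_mod_cast h2
      _ = ∑ U ∈ 𝒰, ((univ.filter (fun τ => Paired nr U τ)).card : ℝ) := by push_cast; rfl
      _ ≤ _ := by
          refine sum_le_sum (fun U hU => ?_)
          rw [h𝒰, mem_filter] at hU
          exact hP U (hU.2.2.trans hl)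
  refine h1.trans ?_
  rw [← mul_sum]
  refine mul_le_mul_of_nonneg_left ?_ (Nat.cast_nonneg _)
  -- group by cardinality
  have h2 : ∑ U ∈ 𝒰, θ ^ U.card = ∑ m ∈ Finset.Icc (k + 1) (2 * k + 2),
      ∑ U ∈ 𝒰.filter (fun U => U.card = m), θ ^ U.card := by
    rw [sum_fiberwise_of_maps_to]
    intro U hU
    rw [h𝒰, mem_filter] at hU
    rw [mem_Icc]
    exact hU.2
  rw [h2]
  have hx0 : 0 ≤ (J.card : ℝ) * θ := by positivity
  have h3 : ∀ m ∈ Finset.Icc (k + 1) (2 * k + 2),
      ∑ U ∈ 𝒰.filter (fun U => U.card = m), θ ^ U.card ≤ (J.card * θ) ^ (k + 1) := by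
    intro m hm
    rw [mem_Icc] at hm
    calc ∑ U ∈ 𝒰.filter (fun U => U.card = m), θ ^ U.card
        = ∑ U ∈ 𝒰.filter (fun U => U.card = m), θ ^ m :=
          sum_congr rfl (fun U hU => by rw [(mem_filter.1 hU).2])
      _ = (𝒰.filter (fun U => U.card = m)).card * θ ^ m := by rw [sum_const, nsmul_eq_mul]
      _ ≤ (J.card : ℝ) ^ m * θ ^ m := by
          refine mul_le_mul_of_nonneg_right ?_ (pow_nonneg hθ0 _)
          have : (𝒰.filter (fun U => U.card = m)).card ≤ J.card ^ m := by
            calc (𝒰.filter (fun U => U.card = m)).card ≤ (J.powersetCard m).card := by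
                  refine card_le_card (fun U hU => ?_)
                  rw [mem_filter, h𝒰, mem_filter, mem_powerset] at hU
                  exact mem_powersetCard.2 ⟨hU.1.1, hU.2⟩
              _ = J.card.choose m := card_powersetCard _ _
              _ ≤ J.card ^ m := Nat.choose_le_pow _ _
          exact_mod_cast this
      _ = (J.card * θ) ^ m := by rw [mul_pow]
      _ ≤ (J.card * θ) ^ (k + 1) := pow_le_pow_of_le_one hx0 hJ hm.1
  refine (sum_le_card_nsmul _ _ _ h3).trans ?_
  rw [nsmul_eq_mul, Nat.card_Icc]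
  refine mul_le_mul_of_nonneg_right ?_ (by positivity)
  have : 2 * k + 2 + 1 - (k + 1) = k + 2 := by omega
  rw [this]
  push_cast; linarith

end pairs

end Pool.Agent.Lib.MP_8d8c46_lc
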