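import Pool.Agent.Lib.MP_8d8c46_lc.Tail

/-!
The tail bound with all parameters chosen.
-/

open scoped Classical
open Finset

namespace Pool.Agent.Lib.MP_8d8c46_lc

lemma inv_pow_le {V c : ℝ} {a b : ℕ} (hV : 1 ≤ V) (hc : c ≤ V) (hab : b + 1 ≤ a) :
    c / V ^ a ≤ 1 / V ^ b := by
  have hV0 : 0 < V := by linarith
  rw [div_le_div_iff₀ (pow_pos hV0 _) (pow_pos hV0 _), one_mul]
  calc c * V ^ b ≤ V * V ^ b := mul_le_mul_of_nonneg_right hc (by positivity)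
    _ = V ^ (b + 1) := by ring
    _ ≤ V ^ a := pow_le_pow_right₀ hV hab

theorem tail (j k K t d : ℕ) {η₀ : ℝ} (hη₀ : 0 < η₀) (hK : 1 ≤ K) (hk : 16 * t + 1 ≤ 5 * (k + 1)) :
    ∃ ν₀ : ℕ, 1 ≤ ν₀ ∧ ∀ ν : ℕ, ν₀ ≤ ν → ∀ n : ℕ, n = ν ^ 16 →
      ∀ (p : (Fin n → Lb j) → ℝ) (nr : Fin n → Fin n → Prop), PD p nr k K →
      ∀ g : (Fin n → Lb j) → ℝ, (∀ x, 0 ≤ g x) → avg g = 1 → (∀ x, g x ≤ (n : ℝ) ^ d) →
      ((univ.filter (fun ω : Equiv.Perm (Fin n) × (Fin n → Lb j) =>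
        RL p k ω.1 ω.2 g < -η₀)).card : ℝ) ≤
        (Fintype.card (Equiv.Perm (Fin n) × (Fin n → Lb j)) : ℝ) / (n : ℝ) ^ t := by
  -- the exponent of hypercontractivity
  obtain ⟨i, hi⟩ : ∃ i : ℕ, 16 * d + 16 * t + 2 ≤ 2 ^ i :=
    ⟨16 * d + 16 * t + 2, (Nat.lt_two_pow_self).le⟩
  obtain ⟨C, hC0, hC⟩ := hyper (Lb j) k i
  set r := 16 * t + 1 with hr
  set l := 2 * k + 2 + k * r with hl
  set c1 : ℝ := 3 * (k + 2) * (4 * k * K * l) ^ (k + 1) with hc1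
  set c2 : ℝ := 3 * ((2 : ℝ) ^ l * ((2 : ℝ) ^ j) ^ k + 4 * K * l) ^ r with hc2
  set c3 : ℝ := 3 * C / η₀ ^ (2 ^ (i + 1)) with hc3
  have hc1' : 0 ≤ c1 := by rw [hc1]; positivity
  have hc2' : 0 ≤ c2 := by rw [hc2]; positivity
  have hc3' : 0 ≤ c3 := by rw [hc3]; positivity
  obtain ⟨ν₀, hν₀⟩ := exists_nat_ge (c1 + c2 + c3 + C + 4 * k * K * l + 4 * K * l + 2 * l + 2)
  refine ⟨ν₀ + 1, by omega, ?_⟩
  intro ν hν n hn p nr hp g hg h1 hgn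
  have hνR : (ν₀ : ℝ) ≤ ν := by exact_mod_cast (by omega : ν₀ ≤ ν)
  set V : ℝ := (ν : ℝ) with hVdef
  have hA0 : (0 : ℝ) ≤ 4 * k * K * l := by positivity
  have hA1 : (0 : ℝ) ≤ 4 * K * l := by positivity
  have hl0 : (0 : ℝ) ≤ l := Nat.cast_nonneg _
  have hbig : c1 + c2 + c3 + C + 4 * k * K * l + 4 * K * l + 2 * l + 2 ≤ V := hν₀.trans hνR
  have hV1 : 1 ≤ V := by linarith
  have hV0 : 0 < V := by linarith
  have hν1 : 1 ≤ ν := by omega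
  have hl2 : 2 * l ≤ n := by
    have h2 : (2 * l : ℕ) ≤ ν := by
      have : (2 : ℝ) * l ≤ (ν : ℝ) := by rw [← hVdef]; linarith
      exact_mod_cast this
    calc 2 * l ≤ ν := h2
      _ = ν ^ 1 := (pow_one _).symm
      _ ≤ ν ^ 16 := Nat.pow_le_pow_right hν1 (by norm_num)
      _ = n := hn.symm
  set θ : ℝ := (4 * K * l : ℝ) / V ^ 8 with hθ
  have hP : PairBound nr l θ := fun U hU =>
    card_paired hK hν1 hn hl2 hp.symm hp.ball hU
  have hθ0 : 0 ≤ θ := by rw [hθ]; positivity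
  have hθ1 : θ ≤ 1 := by
    rw [hθ, div_le_one (by positivity)]
    calc (4 * K * l : ℝ) ≤ V := by linarith
      _ = V ^ 1 := (pow_one _).symm
      _ ≤ V ^ 8 := pow_le_pow_right₀ hV1 (by norm_num)
  have hJe : k * V ^ 3 * θ = (4 * k * K * l) / V ^ 5 := by
    rw [hθ]; field_simp
  have hJθ : k * V ^ 3 * θ ≤ 1 := by
    rw [hJe, div_le_one (by positivity)]
    calc (4 * k * K * l : ℝ) ≤ V := by linarith
      _ = V ^ 1 := (pow_one _).symm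
      _ ≤ V ^ 5 := pow_le_pow_right₀ hV1 (by norm_num)
  have hnV : (n : ℝ) = V ^ 16 := by rw [hn, hVdef]; push_cast; rfl
  have hW : ∑ β ∈ lowk n j k, ft g β ^ 2 ≤ V := by
    have h2 := level_ineq hC hg h1 hgn
    by_contra hcon
    push Not at hcon
    have h3 : V ^ (2 ^ i) ≤ C * (n : ℝ) ^ d := (pow_le_pow_left₀ hV0.le hcon.le _).trans h2
    rw [hnV, ← pow_mul] at h3
    have h4 : V ^ (16 * d) * V ≤ V ^ (2 ^ i) := by
      rw [← pow_succ]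
      exact pow_le_pow_right₀ hV1 (by omega)
    have h5 : V ^ (16 * d) * V ≤ V ^ (16 * d) * C := by linarith
    have h6 : V ≤ C := le_of_mul_le_mul_left h5 (pow_pos hV0 _)
    linarith
  have key := tail_core hp hP hθ0 hθ1 hC hC0 hV1 hη₀ (by omega) (by omega) hg hW hJθ
    (r := r)
  -- the three terms
  have t1 : (k + 2) * (k * V ^ 3 * θ) ^ (k + 1) ≤ 1 / V ^ (16 * t) / 3 := by
    rw [hJe, div_pow, ← pow_mul]
    have h2 : (k + 2 : ℝ) * ((4 * k * K * l) ^ (k + 1) / V ^ (5 * (k + 1))) =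
        (c1 / V ^ (5 * (k + 1))) / 3 := by
      rw [hc1]; field_simp
    rw [h2]
    refine div_le_div_of_nonneg_right ?_ (by norm_num)
    exact inv_pow_le hV1 (by linarith) (by omega)
  have t2 : ((2 ^ l * (((2 : ℝ) ^ j) ^ k / V ^ 2) + V * θ) * V) ^ r ≤ 1 / V ^ (16 * t) / 3 := by
    have h2 : (2 ^ l * (((2 : ℝ) ^ j) ^ k / V ^ 2) + V * θ) * V ≤
        ((2 : ℝ) ^ l * ((2 : ℝ) ^ j) ^ k + 4 * K * l) / V := by
      have e1 : (2 ^ l * (((2 : ℝ) ^ j) ^ k / V ^ 2) + V * θ) * V =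
          ((2 : ℝ) ^ l * ((2 : ℝ) ^ j) ^ k) / V + (4 * K * l) / V ^ 6 := by
        rw [hθ]; field_simp
      rw [e1, add_div]
      gcongr
      calc V = V ^ 1 := (pow_one _).symm
        _ ≤ V ^ 6 := pow_le_pow_right₀ hV1 (by norm_num)
    calc ((2 ^ l * (((2 : ℝ) ^ j) ^ k / V ^ 2) + V * θ) * V) ^ r
        ≤ (((2 : ℝ) ^ l * ((2 : ℝ) ^ j) ^ k + 4 * K * l) / V) ^ r :=
          pow_le_pow_left₀ (by positivity) h2 _
      _ = (c2 / V ^ r) / 3 := by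
          rw [hc2, div_pow]; field_simp
      _ ≤ 1 / V ^ (16 * t) / 3 := by
          refine div_le_div_of_nonneg_right ?_ (by norm_num)
          exact inv_pow_le hV1 (by linarith) (by omega)
  have t3 : C / (V ^ (2 ^ i) * η₀ ^ (2 ^ (i + 1))) ≤ 1 / V ^ (16 * t) / 3 := by
    have h2 : C / (V ^ (2 ^ i) * η₀ ^ (2 ^ (i + 1))) = (c3 / V ^ (2 ^ i)) / 3 := by
      rw [hc3]; field_simp
    rw [h2]
    refine div_le_div_of_nonneg_right ?_ (by norm_num)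
    exact inv_pow_le hV1 (by linarith) (by omega)
  have hnt : (n : ℝ) ^ t = V ^ (16 * t) := by rw [hnV, ← pow_mul]
  have hsum := add_le_add (add_le_add t1 t2) t3
  have hend : 1 / V ^ (16 * t) / 3 + 1 / V ^ (16 * t) / 3 + 1 / V ^ (16 * t) / 3 =
      1 / V ^ (16 * t) := by ring
  rw [hend] at hsum
  refine (key.trans (mul_le_mul_of_nonneg_left hsum (Nat.cast_nonneg _))).trans (le_of_eq ?_)
  rw [hnt]; ring

end Pool.Agent.Lib.MP_8d8c46_lc
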