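import Pool.Agent.Lib.MP_8d8c46_lc.Lift
import Pool.Agent.Lib.MP_8d8c46_lc.TailNum

/-!
The pseudo-expectation of the number of edges inside the planted sets, and relabelled systems.
-/

open scoped Classical
open Finset

namespace Pool.Agent.Lib.MP_8d8c46_lc

section planted
variable {n j : ℕ} {p : ℕ} [Fact p.Prime] (P0 : Finset (Lb j)) (a0 : Lb j)
  (Y : Fin n → Finset (Pl p))

/-- the set attached to a labelling `x` -/
noncomputable def SX (x : Fin n → Lb j) : Finset ((Fin n × Lb j) × Pl p) :=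
  univ.filter (fun q => q.1.2 + x q.1.1 ∈ P0 ∨ (q.1.2 + x q.1.1 = a0 ∧ q.2 ∈ Y q.1.1))

/-- the slice of `SX` -/
lemma sl_SX (x : Fin n → Lb j) (q : Fin n × Lb j) :
    sl (SX P0 a0 Y x) q = if q.2 + x q.1 ∈ P0 then univ else
      if q.2 + x q.1 = a0 then Y q.1 else ∅ := by
  ext z
  unfold sl SX
  simp only [mem_filter, mem_univ, true_and]
  by_cases h1 : q.2 + x q.1 ∈ P0
  · simp [h1]
  · by_cases h2 : q.2 + x q.1 = a0
    · have h3 : a0 ∉ P0 := h2 ▸ h1
      simp [h2, h3]
    · simp [h1, h2]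

lemma sum_shift {j : ℕ} {M : Type*} [AddCommMonoid M] (b : Lb j) (f : Lb j → M) :
    ∑ a, f (a + b) = ∑ a, f a := Equiv.sum_comp (Equiv.addRight b) f

lemma card_SX (ha : a0 ∉ P0) (x : Fin n → Lb j) :
    (SX P0 a0 Y x).card = n * P0.card * p ^ 2 + ∑ u, (Y u).card := by
  rw [card_slices, Fintype.sum_prod_type]
  have h1 : ∀ u : Fin n, ∑ a : Lb j, (sl (SX P0 a0 Y x) (u, a)).card =
      P0.card * p ^ 2 + (Y u).card := by
    intro u
    have h2 : ∀ a : Lb j, (sl (SX P0 a0 Y x) (u, a)).card =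
        (if a + x u ∈ P0 then p ^ 2 else 0) + (if a + x u = a0 then (Y u).card else 0) := by
      intro a
      rw [sl_SX]
      simp only
      by_cases h3 : a + x u ∈ P0
      · have h4 : ¬ a + x u = a0 := fun h => ha (h ▸ h3)
        rw [if_pos h3, if_pos h3, if_neg h4, card_univ, Fintype.card_prod, ZMod.card]
        ring
      · by_cases h4 : a + x u = a0
        · rw [if_neg h3, if_neg h3, if_pos h4, if_pos h4, zero_add]
        · rw [if_neg h3, if_neg h3, if_neg h4, if_neg h4, card_empty]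
    rw [sum_congr rfl (fun a _ => h2 a), sum_add_distrib]
    have h5 : ∑ a : Lb j, (if a + x u ∈ P0 then p ^ 2 else 0) = P0.card * p ^ 2 := by
      refine (sum_shift (x u) (fun a => if a ∈ P0 then p ^ 2 else 0)).trans ?_
      rw [sum_ite_mem, univ_inter, sum_const, smul_eq_mul]
    have h6 : ∑ a : Lb j, (if a + x u = a0 then (Y u).card else 0) = (Y u).card := by
      refine (sum_shift (x u) (fun a => if a = a0 then (Y u).card else 0)).trans ?_
      rw [sum_ite_eq', if_pos (mem_univ _)]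
    rw [h5, h6]
  rw [sum_congr rfl (fun u _ => h1 u), sum_add_distrib, sum_const, card_univ, Fintype.card_fin,
    smul_eq_mul]
  ring

end planted

section pseudo
variable {n j : ℕ} {E : Type} [Fintype E] {s t : E → Fin n} {c : E → Lb j}
  {p : ℕ} [Fact p.Prime]

/-- `f` depends only on the coordinates in `W` -/
def OnW (W : Finset (Fin n)) (f : (Fin n → Lb j) → ℝ) : Prop :=
  ∀ x y, (∀ u ∈ W, x u = y u) → f x = f y

lemma L0_sub (P : (Fin n → Lb j) → ℝ) (k : ℕ) (g h : (Fin n → Lb j) → ℝ) :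
    L0 P k (fun x => g x - h x) = L0 P k g - L0 P k h := by
  have h1 : (fun x => g x - h x) = fun x => g x + (-1) * h x := by funext x; ring
  rw [h1, L0_add, L0_const_mul]; ring

lemma L0_mono {P : (Fin n → Lb j) → ℝ} {nr : Fin n → Fin n → Prop} {k K : ℕ} (hP : PD P nr k K)
    {W : Finset (Fin n)} (hW : W.card ≤ k) {g h : (Fin n → Lb j) → ℝ} (hgh : ∀ x, g x ≤ h x)
    (hg : OnW W g) (hh : OnW W h) : L0 P k g ≤ L0 P k h := by
  have h1 : 0 ≤ L0 P k (fun x => h x - g x) := by
    refine L0_nonneg P k hW (hP.pos W hW) (fun x => sub_nonneg.2 (hgh x)) ?_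
    intro x y hxy
    rw [hh x y hxy, hg x y hxy]
  rw [L0_sub] at h1
  linarith

/-- The pseudo-expectation of the number of edges inside the planted sets. -/
theorem L0_inside {P : (Fin n → Lb j) → ℝ} {nr : Fin n → Fin n → Prop} {k K D : ℕ}
    (hP : PD P nr k K) (hk : 2 ≤ k) (hreg : RegSys s t D) (hp : 4 * D < p)
    {lam : ℝ} {G : Finset E}
    (hG : ∀ e ∈ G, lam ≤ L0 P k (fun x => if x (s e) + x (t e) + c e = 0 then 1 else 0))
    (P0 : Finset (Lb j)) (a0 : Lb j) (Y : Fin n → Finset (Pl p)) :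
    4 * (p : ℝ) ^ 2 * (p - 1) * P0.card * (lam * G.card) ≤
      L0 P k (fun x => (inside (LG s t c p) (SX P0 a0 Y x) : ℝ)) := by
  have hp1 : 1 < p := (Fact.out : p.Prime).one_lt
  have hpc : ((p - 1 : ℕ) : ℝ) = (p : ℝ) - 1 := by rw [Nat.cast_sub (by omega)]; simp
  have hpR : (0 : ℝ) ≤ (p : ℝ) - 1 := by
    have : (1 : ℝ) ≤ p := by exact_mod_cast hp1.le
    linarith
  have hlW : ∀ q r, 2 * lW s t c q r < p := fun q r => by have := lW_le (c := c) hreg q r; omega
  -- the function of one pair of lifted vertices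
  set f : Fin n × Lb j → Fin n × Lb j → (Fin n → Lb j) → ℝ := fun q r x =>
    ∑ κ ∈ pm p (lW s t c q r),
      (relCount κ (sl (SX P0 a0 Y x) q) (sl (SX P0 a0 Y x) r) : ℝ) with hf
  set I0 : Fin n × Lb j → (Fin n → Lb j) → ℝ := fun q x => if q.2 + x q.1 ∈ P0 then 1 else 0
    with hI0
  set f0 : Fin n × Lb j → Fin n × Lb j → (Fin n → Lb j) → ℝ := fun q r x =>
    (2 * (p : ℝ) ^ 2 * (p - 1)) * ((lW s t c q r : ℝ) * (I0 q x * I0 r x)) with hf0
  have hF : (fun x => (inside (LG s t c p) (SX P0 a0 Y x) : ℝ)) =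
      fun x => ∑ q, ∑ r, f q r x := by
    funext x
    unfold LG
    rw [inside_blow]
    push_cast
    rfl
  have hslice : ∀ (q : Fin n × Lb j) (x y : Fin n → Lb j), x q.1 = y q.1 →
      sl (SX P0 a0 Y x) q = sl (SX P0 a0 Y y) q := by
    intro q x y h
    rw [sl_SX, sl_SX, h]
  have hle : ∀ q r x, f0 q r x ≤ f q r x := by
    intro q r x
    have hnn : 0 ≤ f q r x := sum_nonneg (fun _ _ => Nat.cast_nonneg _)
    by_cases h1 : q.2 + x q.1 ∈ P0
    · by_cases h2 : r.2 + x r.1 ∈ P0
      · have e1 : f q r x = 2 * lW s t c q r * ((p : ℝ) ^ 2 * (p - 1)) := by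
          rw [hf]
          simp only
          rw [sl_SX, sl_SX, if_pos h1, if_pos h2,
            sum_congr rfl (fun κ _ => by rw [relCount_univ κ]), sum_const, card_pm (hlW q r),
            nsmul_eq_mul]
          push_cast [hpc]
          ring
        rw [e1, hf0, hI0]
        simp only
        rw [if_pos h1, if_pos h2]
        apply le_of_eq; ring
      · rw [hf0, hI0]
        simp only
        rw [if_neg h2, mul_zero, mul_zero, mul_zero]
        exact hnn
    · rw [hf0, hI0]
      simp only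
      rw [if_neg h1, zero_mul, mul_zero, mul_zero]
      exact hnn
  have hstep : ∀ q r, L0 P k (f0 q r) ≤ L0 P k (f q r) := by
    intro q r
    have hW : ({q.1, r.1} : Finset (Fin n)).card ≤ k := card_le_two.trans hk
    refine L0_mono hP hW (hle q r) ?_ ?_
    · intro x y hxy
      have a1 := hxy q.1 (by simp)
      have a2 := hxy r.1 (by simp)
      rw [hf0, hI0]
      simp only
      rw [a1, a2]
    · intro x y hxy
      have a1 := hxy q.1 (by simp)
      have a2 := hxy r.1 (by simp)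
      rw [hf]
      simp only
      rw [hslice q x y a1, hslice r x y a2]
  -- the number of labels shared along an edge
  set cnt : E → (Fin n → Lb j) → ℝ := fun e x =>
    ∑ a : Lb j, I0 (s e, a) x * I0 (t e, a + c e) x with hcnt
  have hsum0 : (fun x => ∑ q, ∑ r, f0 q r x) =
      fun x => (4 * (p : ℝ) ^ 2 * (p - 1)) * ∑ e, cnt e x := by
    funext x
    rw [hf0]
    simp only
    have h1 := sum_lW s t c (fun q r => I0 q x * I0 r x)
    simp_rw [← mul_sum]
    rw [h1, hcnt]
    simp only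
    have h2 : ∑ e, ∑ a, (I0 (s e, a) x * I0 (t e, a + c e) x +
        I0 (t e, a + c e) x * I0 (s e, a) x) =
        2 * ∑ e, ∑ a, I0 (s e, a) x * I0 (t e, a + c e) x := by
      rw [mul_sum]
      refine sum_congr rfl (fun e _ => ?_)
      rw [mul_sum]
      exact sum_congr rfl (fun a _ => by ring)
    rw [h2]; ring
  have hcntle : ∀ e x, (P0.card : ℝ) * (if x (s e) + x (t e) + c e = 0 then 1 else 0) ≤
      cnt e x := by
    intro e x
    have hnn : 0 ≤ cnt e x := by
      refine sum_nonneg (fun a _ => mul_nonneg ?_ ?_) <;>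
      · rw [hI0]; simp only; split_ifs <;> norm_num
    by_cases h1 : x (s e) + x (t e) + c e = 0
    · rw [if_pos h1, mul_one]
      have h2 : x (t e) + c e = x (s e) := by
        have := lb_add_eq_iff.1 (show x (s e) + (x (t e) + c e) = 0 by rw [← h1]; abel)
        rw [this, add_zero]
      have h3 : cnt e x = ∑ a : Lb j, (if a + x (s e) ∈ P0 then (1 : ℝ) else 0) := by
        rw [hcnt]
        simp only
        refine sum_congr rfl (fun a _ => ?_)
        rw [hI0]
        simp only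
        have h4 : a + c e + x (t e) = a + x (s e) := by rw [← h2]; abel
        rw [h4]
        split_ifs <;> norm_num
      rw [h3, sum_shift (x (s e)) (fun a => if a ∈ P0 then (1 : ℝ) else 0),
        sum_ite_mem, univ_inter, sum_const, nsmul_eq_mul, mul_one]
    · rw [if_neg h1, mul_zero]; exact hnn
  have hOnC : ∀ e, OnW {s e, t e} (cnt e) := by
    intro e x y hxy
    have a1 := hxy (s e) (by simp)
    have a2 := hxy (t e) (by simp)
    rw [hcnt]
    simp only
    refine sum_congr rfl (fun a _ => ?_)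
    rw [hI0]
    simp only
    rw [a1, a2]
  have hOnS : ∀ e, OnW {s e, t e} (fun x : Fin n → Lb j =>
      (P0.card : ℝ) * (if x (s e) + x (t e) + c e = 0 then 1 else 0)) := by
    intro e x y hxy
    simp only
    rw [hxy (s e) (by simp), hxy (t e) (by simp)]
  have hcntL : ∀ e, (P0.card : ℝ) * (if e ∈ G then lam else 0) ≤ L0 P k (cnt e) := by
    intro e
    have hW : ({s e, t e} : Finset (Fin n)).card ≤ k := card_le_two.trans hk
    by_cases he : e ∈ G
    · rw [if_pos he]
      refine le_trans ?_ (L0_mono hP hW (hcntle e) (hOnS e) (hOnC e))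
      rw [L0_const_mul]
      exact mul_le_mul_of_nonneg_left (hG e he) (Nat.cast_nonneg _)
    · rw [if_neg he, mul_zero]
      refine L0_nonneg P k hW (hP.pos _ hW) (fun x => ?_) (hOnC e)
      refine sum_nonneg (fun a _ => mul_nonneg ?_ ?_) <;>
      · rw [hI0]; simp only; split_ifs <;> norm_num
  rw [hF]
  have hL : L0 P k (fun x => ∑ q, ∑ r, f q r x) = ∑ q, ∑ r, L0 P k (f q r) := by
    rw [L0_sum]
    exact sum_congr rfl (fun q _ => L0_sum _ _ _ _)
  have hL' : L0 P k (fun x => ∑ q, ∑ r, f0 q r x) = ∑ q, ∑ r, L0 P k (f0 q r) := by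
    rw [L0_sum]
    exact sum_congr rfl (fun q _ => L0_sum _ _ _ _)
  rw [hL]
  calc 4 * (p : ℝ) ^ 2 * (p - 1) * P0.card * (lam * G.card)
      = 4 * (p : ℝ) ^ 2 * (p - 1) * ∑ e, (P0.card : ℝ) * (if e ∈ G then lam else 0) := by
        rw [← mul_sum, sum_ite_mem, univ_inter, sum_const, nsmul_eq_mul]; ring
    _ ≤ 4 * (p : ℝ) ^ 2 * (p - 1) * ∑ e, L0 P k (cnt e) := by
        refine mul_le_mul_of_nonneg_left (sum_le_sum (fun e _ => hcntL e)) (by positivity)
    _ = L0 P k (fun x => ∑ q, ∑ r, f0 q r x) := by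
        rw [hsum0, L0_const_mul, L0_sum]
    _ = ∑ q, ∑ r, L0 P k (f0 q r) := hL'
    _ ≤ _ := sum_le_sum (fun q _ => sum_le_sum (fun r _ => hstep q r))

end pseudo

section relabel
variable {n j : ℕ} {E : Type} [Fintype E] (s t : E → Fin n) (c : E → Lb j)
  (τ : Equiv.Perm (Fin n)) (w : Fin n → Lb j)

/-- relabelled end points -/
def rs (s : E → Fin n) (τ : Equiv.Perm (Fin n)) (e : E) : Fin n := τ.symm (s e)

/-- relabelled shifts -/
def rc (e : E) : Lb j := c e + (w (τ.symm (s e)) + w (τ.symm (t e)))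

lemma bd_rs (φ : E → Lb j) (u : Fin n) : bdy (rs s τ) (rs t τ) φ u = bdy s t φ (τ u) := by
  unfold bdy rs
  refine sum_congr rfl (fun e _ => ?_)
  have h1 : ∀ v : Fin n, (τ.symm v = u) = (v = τ u) := fun v => by
    rw [Equiv.symm_apply_eq]
  simp only [h1]

lemma bd_rs_eq_iff (φ : E → Lb j) (β : Fin n → Lb j) :
    bdy (rs s τ) (rs t τ) φ = β ↔ bdy s t φ = rl τ β := by
  constructor
  · rintro rfl
    funext u
    unfold rl
    rw [bd_rs, Equiv.apply_symm_apply]
  · intro h
    funext u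
    rw [bd_rs, h]
    unfold rl
    rw [Equiv.symm_apply_apply]

lemma noCirc_rs {G : Finset E} {g : ℕ} (h : NoCirc j s t G g) :
    NoCirc j (rs s τ) (rs t τ) G g := by
  intro φ h1 h2 h3
  refine h φ h1 h2 ?_
  rw [bd_rs_eq_iff] at h3
  rw [h3]
  funext u
  rfl

lemma regSys_rs {D : ℕ} (h : RegSys s t D) : RegSys (rs s τ) (rs t τ) D := by
  have h1 : ∀ v u : Fin n, (τ.symm v = u) = (v = τ u) := fun v u => by
    rw [Equiv.symm_apply_eq]
  refine ⟨fun v => ?_, fun v => ?_⟩
  · unfold rs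
    simp only [h1]
    exact h.1 _
  · unfold rs
    simp only [h1]
    exact h.2 _

lemma pmo_rs (lam : ℝ) (G : Finset E) (L : ℕ) (β : Fin n → Lb j) :
    pmo lam (rs s τ) (rs t τ) (rc s t c τ w) G L β =
      pmo lam s t c G L (rl τ β) * chr β w := by
  unfold pmo
  rw [sum_mul]
  refine sum_congr rfl (fun φ _ => ?_)
  by_cases h : bdy (rs s τ) (rs t τ) φ = β
  · rw [if_pos h, if_pos ((bd_rs_eq_iff s t τ φ β).1 h)]
    unfold co
    rw [mul_assoc]
    congr 1
    unfold chr
    rw [← sg_add, ← h, pr_bd, ← sum_add_distrib]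
    congr 1
    refine sum_congr rfl (fun e _ => ?_)
    unfold rc rs
    rw [dt_add_right]
  · rw [if_neg h, if_neg (fun h' => h ((bd_rs_eq_iff s t τ φ β).2 h')), zero_mul]

lemma L0_rs (lam : ℝ) (G : Finset E) (L k : ℕ) (g : (Fin n → Lb j) → ℝ) :
    L0 (pmo lam (rs s τ) (rs t τ) (rc s t c τ w) G L) k g =
      RL (pmo lam s t c G L) k τ w g := by
  unfold L0 RL
  refine sum_congr rfl (fun β _ => ?_)
  rw [pmo_rs]; ring

lemma QRL_rs {ε : ℝ} (h : QRL s t c ε) : QRL (rs s τ) (rs t τ) (rc s t c τ w) ε := by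
  intro hh h01
  set h' : Fin n × Lb j → ℝ := fun q => hh (τ.symm q.1, q.2 + w (τ.symm q.1)) with hh'
  have h1 := h h' (fun q => h01 _)
  have e1 : avg h' = avg hh := by
    unfold avg
    congr 1
    rw [Fintype.sum_prod_type, Fintype.sum_prod_type, ← Equiv.sum_comp τ]
    refine sum_congr rfl (fun u _ => ?_)
    rw [hh']
    simp only [Equiv.symm_apply_apply]
    exact Equiv.sum_comp (Equiv.addRight (w u)) (fun a => hh (u, a))
  rw [e1] at h1
  refine le_trans (le_of_eq ?_) h1
  refine sum_congr rfl (fun e _ => ?_)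
  rw [← Equiv.sum_comp (Equiv.addRight (w (τ.symm (s e))))
    (fun a => hh (rs s τ e, a) * hh (rs t τ e, a + rc s t c τ w e))]
  refine sum_congr rfl (fun a _ => ?_)
  rw [hh']
  simp only [Equiv.coe_addRight, rs, rc]
  congr 2
  have : a + w (τ.symm (s e)) + (c e + (w (τ.symm (s e)) + w (τ.symm (t e)))) =
      a + c e + w (τ.symm (t e)) + (w (τ.symm (s e)) + w (τ.symm (s e))) := by abel
  rw [this, lb_add_self, add_zero]

end relabel

end Pool.Agent.Lib.MP_8d8c46_lc
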