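import Pool.Agent.Lib.MP_8d8c46_lc.Concentration

/-!
The quadratic form of the graph on the local solutions, for functions of small mean.
-/

open scoped Classical
open Finset

namespace Pool.Agent.Lib.MP_8d8c46_lc

section trisums
variable {L : Type*} [Fintype L]

lemma tri_sq (F : L → ℝ) (ν : ℝ) : tri (fun T => (T - ν) ^ 2) F =
    3 * (Fintype.card L : ℝ) ^ 2 * ∑ l, F l ^ 2 + 6 * (Fintype.card L : ℝ) * (∑ l, F l) ^ 2 -
      6 * ν * (Fintype.card L : ℝ) ^ 2 * ∑ l, F l + (Fintype.card L : ℝ) ^ 3 * ν ^ 2 := by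
  unfold tri
  set N : ℝ := (Fintype.card L : ℝ) with hN
  set S1 := ∑ l, F l with hS1
  set S2 := ∑ l, F l ^ 2 with hS2
  have h1 : ∀ x y : ℝ, ∑ c, (x + y + F c - ν) ^ 2 =
      N * (x + y - ν) ^ 2 + 2 * (x + y - ν) * S1 + S2 := by
    intro x y
    have : ∀ c, (x + y + F c - ν) ^ 2 = (x + y - ν) ^ 2 + 2 * (x + y - ν) * F c + F c ^ 2 := by
      intro c; ring
    simp only [this, sum_add_distrib, ← mul_sum, sum_const, card_univ, nsmul_eq_mul]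
    rw [← hN, ← hS1, ← hS2]
  have h2 : ∀ x : ℝ, ∑ b, ∑ c, (x + F b + F c - ν) ^ 2 =
      N ^ 2 * (x - ν) ^ 2 + 4 * N * (x - ν) * S1 + 2 * N * S2 + 2 * S1 ^ 2 := by
    intro x
    simp only [h1]
    have : ∀ b, N * (x + F b - ν) ^ 2 + 2 * (x + F b - ν) * S1 + S2 =
        (N * (x - ν) ^ 2 + 2 * (x - ν) * S1 + S2) + (2 * N * (x - ν) + 2 * S1) * F b +
          N * F b ^ 2 := by
      intro c; ring
    simp only [this, sum_add_distrib, ← mul_sum, sum_const, card_univ, nsmul_eq_mul]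
    rw [← hN, ← hS1, ← hS2]
    ring
  simp only [h2]
  have : ∀ a, N ^ 2 * (F a - ν) ^ 2 + 4 * N * (F a - ν) * S1 + 2 * N * S2 + 2 * S1 ^ 2 =
      (N ^ 2 * ν ^ 2 - 4 * N * ν * S1 + 2 * N * S2 + 2 * S1 ^ 2) +
      (4 * N * S1 - 2 * N ^ 2 * ν) * F a + N ^ 2 * F a ^ 2 := by
    intro a; ring
  simp only [this, sum_add_distrib, ← mul_sum, sum_const, card_univ, nsmul_eq_mul]
  rw [← hN, ← hS1, ← hS2]
  ring

/-- A lower bound for the mean of `(P ^ 2 - P) ^ 2`, `P = F a + F b + F c - 1 / 2`, for independent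
uniform `a`, `b`, `c`. -/
lemma tri_quartic (F : L → ℝ) {μ v : ℝ} (h1 : ∑ l, F l = Fintype.card L * μ)
    (h2 : ∑ l, F l ^ 2 = Fintype.card L * (μ ^ 2 + v)) :
    12 * (Fintype.card L : ℝ) ^ 3 * v ^ 2 ≤
      tri (fun T => ((T - 1 / 2) ^ 2 - (T - 1 / 2)) ^ 2) F := by
  set N : ℝ := (Fintype.card L : ℝ) with hN
  set a : L → ℝ := fun l => F l - μ with ha
  have hs0 : ∑ _l : L, (1 : ℝ) = N := by simp [hN]
  have hs1 : ∑ l, a l = 0 := by
    rw [ha, sum_sub_distrib, h1, sum_const, card_univ, nsmul_eq_mul]; ring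
  have hs2 : ∑ l, a l ^ 2 = N * v := by
    have : ∀ l, a l ^ 2 = F l ^ 2 - 2 * μ * F l + μ ^ 2 := by intro l; rw [ha]; ring
    simp only [this, sum_add_distrib, sum_sub_distrib, ← mul_sum, sum_const, card_univ,
      nsmul_eq_mul]
    rw [h1, h2, ← hN]; ring
  set S3 := ∑ l, a l ^ 3 with hS3
  set m : ℝ := 3 * μ - 1 / 2 with hm
  set c : ℝ := m ^ 2 - m + 3 * v with hc
  -- the pointwise inequality
  set K : ℝ → ℝ → ℝ → ℝ := fun x y z => 4 * (x * y + x * z + y * z) ^ 2 +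
    4 * (x * y + x * z + y * z) * (c + ((2 * m - 1) * x + x ^ 2 - v) +
      ((2 * m - 1) * y + y ^ 2 - v) + ((2 * m - 1) * z + z ^ 2 - v)) with hK
  have hpt : ∀ i j k, K (a i) (a j) (a k) ≤
      ((F i + F j + F k - 1 / 2) ^ 2 - (F i + F j + F k - 1 / 2)) ^ 2 := by
    intro i j k
    have e1 : F i + F j + F k - 1 / 2 = m + a i + a j + a k := by rw [ha, hm]; ring
    rw [e1]
    set x := a i
    set y := a j
    set z := a k
    have e2 : ((m + x + y + z) ^ 2 - (m + x + y + z)) ^ 2 - K x y z =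
        ((m + x + y + z) ^ 2 - (m + x + y + z) - 2 * (x * y + x * z + y * z)) ^ 2 := by
      rw [hK, hc]; ring
    have := sq_nonneg ((m + x + y + z) ^ 2 - (m + x + y + z) - 2 * (x * y + x * z + y * z))
    linarith
  have hz : ∀ x y : ℝ, ∑ k, K x y (a k) = N * (4 * x ^ 2 * y ^ 2 + 4 * x * y *
      (c + ((2 * m - 1) * x + x ^ 2 - v) + ((2 * m - 1) * y + y ^ 2 - v) - v)) +
      (N * v) * (4 * (x + y) ^ 2 + 4 * x * y + 4 * (x + y) * (2 * m - 1)) +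
      4 * (x + y) * S3 := by
    intro x y
    have : ∀ k, K x y (a k) = (4 * x ^ 2 * y ^ 2 + 4 * x * y *
      (c + ((2 * m - 1) * x + x ^ 2 - v) + ((2 * m - 1) * y + y ^ 2 - v) - v)) +
      (8 * x * y * (x + y) + 4 * (x + y) * (c + ((2 * m - 1) * x + x ^ 2 - v) +
        ((2 * m - 1) * y + y ^ 2 - v) - v) + 4 * x * y * (2 * m - 1)) * a k +
      (4 * (x + y) ^ 2 + 4 * x * y + 4 * (x + y) * (2 * m - 1)) * a k ^ 2 +
      (4 * (x + y)) * a k ^ 3 := by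
      intro k; rw [hK]; ring
    simp only [this, sum_add_distrib, ← mul_sum, sum_const, card_univ, nsmul_eq_mul]
    rw [hs1, hs2, ← hS3, ← hN]; ring
  have hy : ∀ x : ℝ, ∑ j, ∑ k, K x (a j) (a k) =
      N * (N * (8 * x ^ 2 * v + 4 * v ^ 2 + 8 * x * (2 * m - 1) * v) + 8 * x * S3) := by
    intro x
    simp only [hz]
    have : ∀ j, N * (4 * x ^ 2 * a j ^ 2 + 4 * x * a j *
      (c + ((2 * m - 1) * x + x ^ 2 - v) + ((2 * m - 1) * a j + a j ^ 2 - v) - v)) +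
      (N * v) * (4 * (x + a j) ^ 2 + 4 * x * a j + 4 * (x + a j) * (2 * m - 1)) +
      4 * (x + a j) * S3 =
      ((N * v) * (4 * x ^ 2 + 4 * x * (2 * m - 1)) + 4 * x * S3) +
      (4 * N * x * (c + ((2 * m - 1) * x + x ^ 2 - v) - 2 * v) + (N * v) * (12 * x +
        4 * (2 * m - 1)) + 4 * S3) * a j +
      (N * (4 * x ^ 2 + 4 * x * (2 * m - 1)) + 4 * (N * v)) * a j ^ 2 +
      (4 * N * x) * a j ^ 3 := by
      intro j; ring
    simp only [this, sum_add_distrib, ← mul_sum, sum_const, card_univ, nsmul_eq_mul]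
    rw [hs1, hs2, ← hS3, ← hN]; ring
  have hx : ∑ i, ∑ j, ∑ k, K (a i) (a j) (a k) = 12 * N ^ 3 * v ^ 2 := by
    simp only [hy]
    have : ∀ i, N * (N * (8 * a i ^ 2 * v + 4 * v ^ 2 + 8 * a i * (2 * m - 1) * v) +
        8 * a i * S3) = (4 * N ^ 2 * v ^ 2) + (N * (N * (8 * (2 * m - 1) * v) + 8 * S3)) * a i +
        (8 * N ^ 2 * v) * a i ^ 2 := by
      intro i; ring
    simp only [this, sum_add_distrib, ← mul_sum, sum_const, card_univ, nsmul_eq_mul]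
    rw [hs1, hs2, ← hN]; ring
  rw [← hx]
  unfold tri
  exact sum_le_sum (fun i _ => sum_le_sum (fun j _ => sum_le_sum (fun k _ => hpt i j k)))

end trisums

/-- The first test function. -/
noncomputable def test1 (T : ℝ) : ℝ := T ^ 2

/-- The second test function. -/
noncomputable def test2 (T : ℝ) : ℝ :=
  (T - 1 / 2) ^ 2 - 4 / 25 * ((T - 1 / 2) ^ 2 - (T - 1 / 2)) ^ 2

lemma test1_bound {T : ℝ} (h0 : 0 ≤ T) (h3 : T ≤ 3) : |test1 T| ≤ 10 := by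
  unfold test1
  rw [abs_le]
  constructor <;> nlinarith

lemma test1_lip {T T' : ℝ} (h0 : 0 ≤ T) (h3 : T ≤ 3) (h0' : 0 ≤ T') (h3' : T' ≤ 3) :
    |test1 T - test1 T'| ≤ 10 * |T - T'| := by
  unfold test1
  have : T ^ 2 - T' ^ 2 = (T + T') * (T - T') := by ring
  rw [this, abs_mul]
  refine mul_le_mul_of_nonneg_right ?_ (abs_nonneg _)
  rw [abs_le]
  constructor <;> linarith

lemma test2_bound {T : ℝ} (h0 : 0 ≤ T) (h3 : T ≤ 3) : |test2 T| ≤ 10 := by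
  unfold test2
  have h1 : -(1 / 4) ≤ (T - 1 / 2) ^ 2 - (T - 1 / 2) := by nlinarith [sq_nonneg (T - 1)]
  have h2 : (T - 1 / 2) ^ 2 - (T - 1 / 2) ≤ 15 / 4 := by nlinarith
  have h4 : (T - 1 / 2) ^ 2 ≤ 25 / 4 := by nlinarith
  have h5 : 0 ≤ (T - 1 / 2) ^ 2 := sq_nonneg _
  have h6 : ((T - 1 / 2) ^ 2 - (T - 1 / 2)) ^ 2 ≤ (15 / 4) ^ 2 := by
    rw [sq_le_sq, abs_of_pos (by norm_num : (0 : ℝ) < 15 / 4), abs_le]
    constructor <;> linarith
  have h7 : 0 ≤ ((T - 1 / 2) ^ 2 - (T - 1 / 2)) ^ 2 := sq_nonneg _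
  rw [abs_le]
  constructor <;> linarith

lemma test2_lip {T T' : ℝ} (h0 : 0 ≤ T) (h3 : T ≤ 3) (h0' : 0 ≤ T') (h3' : T' ≤ 3) :
    |test2 T - test2 T'| ≤ 20 * |T - T'| := by
  unfold test2
  set P := T - 1 / 2 with hP
  set P' := T' - 1 / 2 with hP'
  have e : P ^ 2 - 4 / 25 * (P ^ 2 - P) ^ 2 - (P' ^ 2 - 4 / 25 * (P' ^ 2 - P') ^ 2) =
      ((P + P') - 4 / 25 * (((P ^ 2 - P) + (P' ^ 2 - P')) * (P + P' - 1))) * (T - T') := by
    rw [hP, hP']; ring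
  rw [e, abs_mul]
  refine mul_le_mul_of_nonneg_right ?_ (abs_nonneg _)
  have hp1 : -(1 / 2) ≤ P := by rw [hP]; linarith
  have hp2 : P ≤ 5 / 2 := by rw [hP]; linarith
  have hp1' : -(1 / 2) ≤ P' := by rw [hP']; linarith
  have hp2' : P' ≤ 5 / 2 := by rw [hP']; linarith
  have h1 : |(P ^ 2 - P) + (P' ^ 2 - P')| ≤ 15 / 2 := by
    rw [abs_le]
    constructor
    · nlinarith [sq_nonneg (P - 1 / 2), sq_nonneg (P' - 1 / 2)]
    · nlinarith
  have h2 : |P + P' - 1| ≤ 4 := by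
    rw [abs_le]; constructor <;> linarith
  have h3 : |((P ^ 2 - P) + (P' ^ 2 - P')) * (P + P' - 1)| ≤ 30 := by
    rw [abs_mul]
    calc _ ≤ (15 / 2 : ℝ) * 4 := mul_le_mul h1 h2 (abs_nonneg _) (by norm_num)
      _ = 30 := by norm_num
  have h4 : |P + P'| ≤ 5 := by
    rw [abs_le]; constructor <;> linarith
  have h5 := abs_le.1 h3
  have h6 := abs_le.1 h4
  rw [abs_le]
  constructor <;> linarith [h5.1, h5.2, h6.1, h6.2]

/-- The numerical consequence of the two tests. -/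
lemma numeric {μ κ v ε : ℝ} (hμ0 : 0 ≤ μ) (hμ : μ ≤ 1 / 4) (hv : v = κ - μ ^ 2) (hε : 0 ≤ ε)
    (h1 : 3 * κ ≤ μ + 2 * μ ^ 2 + ε)
    (h2 : 6 * κ - 2 * μ ≤ ((3 * μ - 1 / 2) ^ 2 + 3 * v) - 48 / 25 * v ^ 2 + ε) :
    κ ≤ 983 / 2000 * μ + ε / 3 := by
  rcases le_or_gt μ (237 / 1000) with h | h
  · nlinarith
  · by_contra hcon
    push Not at hcon
    have hw : 603 / 10000 ≤ 983 / 2000 * μ - μ ^ 2 := by nlinarith
    have hvw : 603 / 10000 ≤ v := by rw [hv]; linarith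
    have hq : -6 * μ ^ 2 + 24745 / 10000 * μ - 1 / 4 ≥ -(6375 / 1000000) := by nlinarith
    have hv2 : (603 / 10000) ^ 2 ≤ v ^ 2 := pow_le_pow_left₀ (by norm_num) hvw 2
    have hv3 : v = κ - μ ^ 2 := hv
    nlinarith

end Pool.Agent.Lib.MP_8d8c46_lc
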