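import Pool.Agent.Lib.MP_8d8c46_lc.Problem

/-!
Randomized algorithms that explore a graph by asking for the neighbours of vertices.
-/

open scoped Classical

namespace Pool.Agent.Lib.MP_8d8c46_lc

/-- Deterministic adaptive algorithms on graphs with vertex set `V`: stop with an answer, or ask
for the set of all neighbours of a vertex and continue depending on the set received. -/
inductive QueryAlg (V : Type) : Type
  | answer (b : Bool) : QueryAlg V
  | ask (v : V) (next : Finset V → QueryAlg V) : QueryAlg V

section
variable {V : Type} [Fintype V]

/-- The set of the neighbours of `v`. -/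
noncomputable def nbrs (G : SimpleGraph V) (v : V) : Finset V :=
  Finset.univ.filter (fun u => G.Adj v u)

/-- The answer of the algorithm on the graph `G`. -/
noncomputable def QueryAlg.run (G : SimpleGraph V) : QueryAlg V → Bool
  | .answer b => b
  | .ask v next => (next (nbrs G v)).run G

/-- The number of vertices whose neighbours the algorithm asks for on the graph `G`. -/
noncomputable def QueryAlg.queries (G : SimpleGraph V) : QueryAlg V → ℕ
  | .answer _ => 0
  | .ask v next => (next (nbrs G v)).queries G + 1

/-- Randomized algorithms are probability distributions on deterministic ones: the probability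
that `A` answers `b` on the graph `G`. -/
noncomputable def answerProb (A : PMF (QueryAlg V)) (G : SimpleGraph V) (b : Bool) : ENNReal :=
  (A.map (fun T => T.run G)) b

/-- On `d`-regular graphs, `A` makes at most `q` queries, whatever the random choices. -/
def AtMostQueries (A : PMF (QueryAlg V)) (d : ℕ) (q : ℝ) : Prop :=
  ∀ T ∈ A.support, ∀ G : SimpleGraph V, Regular G d → (T.queries G : ℝ) ≤ q

/-- `A` solves `SSE(η, δ)` on the `d`-regular graphs with vertex set `V`: it accepts every Yes
instance and rejects every No instance with probability at least `2/3`. -/
def SolvesSSE (η δ : ℚ) (d : ℕ) (A : PMF (QueryAlg V)) : Prop :=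
  (∀ G : SimpleGraph V, Regular G d → SSEYes η δ G → 2 / 3 ≤ answerProb A G true) ∧
  (∀ G : SimpleGraph V, Regular G d → SSENo η δ G → 2 / 3 ≤ answerProb A G false)

end

end Pool.Agent.Lib.MP_8d8c46_lc
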