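import Pool.Agent.Lib.MP_8d8c46_lc.QueryMain

/-!
The lower bound on the number of queries.
-/

open scoped Classical
open Finset

namespace Pool.Agent.Lib.MP_8d8c46_lc

/-- Linearly many queries are needed for `SSE(η, δ)` if `η ≥ 0.496` and `δ ≤ 1/8`. -/
theorem query_main {η δ : ℚ} (hη : 496 / 1000 ≤ η) (hδ0 : 0 < δ) (hδ : δ ≤ 1 / 8) :
    ∃ (d : ℕ) (c : ℝ), 0 < c ∧ ∀ N₀ : ℕ, ∃ (V : Type) (_ : Fintype V),
      N₀ ≤ Fintype.card V ∧
        ¬ ∃ A : PMF (QueryAlg V), AtMostQueries A d (c * Fintype.card V) ∧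
          SolvesSSE η δ d A := by
  have hδr : (0 : ℝ) < (δ : ℝ) := by exact_mod_cast hδ0
  obtain ⟨D₁, hsys⟩ := exists_system (ε := 3 * δ / 10000) (by positivity)
  obtain ⟨D₂, hperm⟩ := exists_perms (ε := 3 * δ / 10000) (by positivity)
  set D' := D₁ + D₂ + 1 with hD'
  have hD'pos : 0 < D' := by omega
  set D := 1000 * D' with hD
  obtain ⟨p, hp1, hprime⟩ := Nat.exists_infinite_primes (2 * (9 + 153 * D') + 1 + 10 ^ 9)
  have : Fact p.Prime := ⟨hprime⟩
  set a := δ.num.toNat with ha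
  have hanum : (a : ℤ) = δ.num := Int.toNat_of_nonneg (Rat.num_nonneg.2 hδ0.le)
  have hapos : 0 < a := by
    have : 0 < δ.num := Rat.num_pos.2 hδ0
    omega
  have hdelta : δ = (a : ℚ) / δ.den := by
    have := Rat.num_div_den δ
    rw [← hanum, Int.cast_natCast] at this
    exact this.symm
  have hdenpos : 0 < δ.den := δ.den_pos
  have hden' : (0 : ℚ) < δ.den := by exact_mod_cast hdenpos
  have hab : 8 * a ≤ δ.den := by
    rw [hdelta, div_le_div_iff₀ hden' (by norm_num)] at hδ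
    have : (8 * a : ℚ) ≤ δ.den := by linarith
    exact_mod_cast this
  set β : ℝ := 1 / (432 * D) with hβ
  have hDpos : 0 < D := by omega
  have hDr : (0 : ℝ) < D := by exact_mod_cast hDpos
  have hβ0 : 0 < β := by positivity
  have hp0 : (0 : ℝ) < p := by exact_mod_cast hprime.pos
  have hdenr : (0 : ℝ) < δ.den := by exact_mod_cast hdenpos
  have har : (0 : ℝ) < a := by exact_mod_cast hapos
  refine ⟨2 * (p - 1) * (18 * D + 153 * D'), β ^ 4 * a / (36 * δ.den * D ^ 2 * p ^ 2),
    by positivity, fun N₀ => ?_⟩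
  set t := N₀ + 1 with ht
  set n₁ := 4 * a * t with hn₁
  set n₂ := (δ.den - 4 * a) * t with hn₂
  have hn₁pos : 0 < n₁ := by positivity
  have hn₁₂ : n₁ ≤ n₂ := Nat.mul_le_mul_right _ (by omega)
  have hn₂pos : 0 < n₂ := by omega
  have hsum : n₁ + n₂ = δ.den * t := by
    rw [hn₁, hn₂, ← add_mul]
    congr 1
    omega
  have hδn : (n₁ : ℚ) = 4 * δ * (n₁ + n₂) := by
    have h1 : ((n₁ : ℚ) + n₂) = δ.den * t := by exact_mod_cast hsum
    rw [h1]
    have h2 : δ * δ.den = a := by
      rw [hdelta]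
      have : ((a : ℚ) / δ.den).den = δ.den := by rw [← hdelta]
      rw [this]
      field_simp
    calc (n₁ : ℚ) = 4 * a * t := by rw [hn₁]; push_cast; ring
      _ = 4 * (δ * δ.den) * t := by rw [h2]
      _ = _ := by ring
  set S := ⌊β ^ 4 * n₁ / 2⌋₊ with hS
  have hS1 : 2 * (S : ℝ) ≤ β ^ 4 * n₁ := by
    have : (S : ℝ) ≤ β ^ 4 * n₁ / 2 := Nat.floor_le (by positivity)
    linarith
  have hn₁₂' : (n₁ : ℝ) ≤ n₂ := by exact_mod_cast hn₁₂
  have hS2 : 2 * (S : ℝ) ≤ β ^ 4 * n₂ :=
    hS1.trans (mul_le_mul_of_nonneg_left hn₁₂' (by positivity))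
  obtain ⟨ρ, hρ1, hρ2⟩ := hperm D n₁ S (by omega) hDpos hn₁pos hS1
  obtain ⟨ω₂, h21, h22, _⟩ := hsys D n₂ S (by omega) hDpos hn₂pos hS2
  have hexp : Expands (rx (mkO ρ 0)) (S / 2) := expands_of_not_bad (by omega) hρ1
  refine ⟨Vx n₁ n₂ D p, inferInstance, ?_, ?_⟩
  · rw [card_Vx]
    have h1 : 1 ≤ D * p ^ 2 := Nat.one_le_iff_ne_zero.2 (by
      have := hprime.pos
      positivity)
    have h2 : N₀ ≤ n₁ + n₂ := by
      rw [hsum]
      calc N₀ ≤ t := by omega
        _ = 1 * t := (one_mul _).symm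
        _ ≤ δ.den * t := Nat.mul_le_mul_right _ hdenpos
    calc N₀ ≤ n₁ + n₂ := h2
      _ = 1 * (n₁ + n₂) * 1 := by ring
      _ ≤ 4 * (n₁ + n₂) * (D * p ^ 2) := Nat.mul_le_mul (Nat.mul_le_mul_right _ (by omega)) h1
      _ = _ := by ring
  · rintro ⟨A, hA, hyes, hno⟩
    -- the family of graphs
    set Gr : (Fin n₁ × Fin D → ZMod 2) → SimpleGraph (Vx n₁ n₂ D p) := fun b =>
      gr (mkO ρ 0) ω₂ (Sum.elim b (rb ω₂)) (153 * D') p with hGr
    have hreg : ∀ b, Regular (Gr b) (2 * (p - 1) * (18 * D + 153 * D')) := fun b =>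
      gr_regular _ _ _ (by omega)
    have hYes : ∀ g : Fin n₁ → ZMod 2, SSEYes η δ (Gr (rhs (rx (mkO ρ 0)) g)) := by
      intro g
      have h0 := gr_yes (n₁ := n₁) (n₂ := n₂) (D' := D') (p := p) hη hD'pos hn₁pos hδn
        (mkO ρ 0) ω₂ (by omega) (rb ω₂)
      refine SSEYes.of_iso (shiftIso (sumx (rx (mkO ρ 0)) (rx ω₂))
        (Sum.elim g (fun _ => 0)) ?_ (153 * D') p) h0
      rintro (e | e)
      · simp only [sumx, Sum.elim_inl, rhs, zero_add]
      · simp only [sumx, Sum.elim_inr, add_zero]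
        exact (CharTwo.add_self_eq_zero _).symm
    have hNo : ∀ b, QR (mkO ρ b) test1 (3 * δ / 10000) → QR (mkO ρ b) test2 (3 * δ / 10000) →
        SSENo η δ (Gr b) := by
      intro b h11 h12
      exact gr_no (ω₁ := mkO ρ b) hη hδ0 hD'pos hn₁pos hn₁₂ hδn (by omega) (by omega)
        h11 h12 h21 h22
    -- the number of queries
    set q := ⌊β ^ 4 * a / (36 * δ.den * D ^ 2 * p ^ 2) *
      Fintype.card (Vx n₁ n₂ D p)⌋₊ with hq
    have hqT : ∀ T ∈ A.support, ∀ b, T.queries (Gr b) ≤ q := fun T hT b =>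
      Nat.le_floor (hA T hT (Gr b) (hreg b))
    have hqs : 9 * D * q ≤ S / 2 := by
      have h1 : ((n₁ : ℝ) + n₂) = δ.den * t := by exact_mod_cast hsum
      have h3 : (q : ℝ) ≤ β ^ 4 * a / (36 * δ.den * D ^ 2 * p ^ 2) *
          (4 * (δ.den * t) * D * p ^ 2) := by
        have h4 := Nat.floor_le (a := β ^ 4 * a / (36 * δ.den * D ^ 2 * p ^ 2) *
          Fintype.card (Vx n₁ n₂ D p)) (by positivity)
        rw [← hq, card_Vx] at h4
        push_cast at h4
        rw [h1] at h4
        exact h4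
      have h5 : ((18 * D * q : ℕ) : ℝ) ≤ β ^ 4 * n₁ / 2 := by
        push_cast
        calc 18 * (D : ℝ) * q ≤ 18 * D * (β ^ 4 * a / (36 * δ.den * D ^ 2 * p ^ 2) *
              (4 * (δ.den * t) * D * p ^ 2)) := mul_le_mul_of_nonneg_left h3 (by positivity)
          _ = β ^ 4 * n₁ / 2 := by
            rw [hn₁]; push_cast; field_simp; ring
      have h6 : 18 * D * q ≤ S := Nat.le_floor h5
      rw [Nat.le_div_iff_mul_le (by norm_num)]
      calc 9 * D * q * 2 = 18 * D * q := by ring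
        _ ≤ S := h6
    have hfool : ∀ T ∈ A.support,
        (univ.filter (fun g : Fin n₁ → ZMod 2 =>
          T.run (Gr (rhs (rx (mkO ρ 0)) g)) = true)).card *
          Fintype.card (Fin n₁ × Fin D → ZMod 2) =
        (univ.filter (fun b => T.run (Gr b) = true)).card * Fintype.card (Fin n₁ → ZMod 2) := by
      intro T hT
      have h1 := fooled' hexp Gr (fun w => touch (rx (mkO ρ 0)) w.1.1)
        (fun w => card_touch (rx_reg _) _) (fun w b b' h => nbrs_touch w h) T (hqT T hT) hqs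
      unfold meanA meanB at h1
      have hV : (0 : ℝ) < Fintype.card (Fin n₁ → ZMod 2) := by exact_mod_cast Fintype.card_pos
      have hE : (0 : ℝ) < Fintype.card (Fin n₁ × Fin D → ZMod 2) := by
        exact_mod_cast Fintype.card_pos
      rw [div_eq_div_iff hV.ne' hE.ne'] at h1
      have hc1 : ∑ g : Fin n₁ → ZMod 2, indR (T.run (Gr (rhs (rx (mkO ρ 0)) g)) = true) =
          ((univ.filter (fun g : Fin n₁ → ZMod 2 =>
          T.run (Gr (rhs (rx (mkO ρ 0)) g)) = true)).card : ℝ) := by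
        rw [card_filter]; push_cast
        refine sum_congr rfl (fun g _ => ?_)
        unfold indR
        by_cases h : T.run (Gr (rhs (rx (mkO ρ 0)) g)) = true
        · rw [if_pos h, if_pos h]
        · rw [if_neg h, if_neg h]
      have hc2 : ∑ b, indR (T.run (Gr b) = true) =
          ((univ.filter (fun b => T.run (Gr b) = true)).card : ℝ) := by
        rw [card_filter]; push_cast
        refine sum_congr rfl (fun g _ => ?_)
        unfold indR
        by_cases h : T.run (Gr g) = true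
        · rw [if_pos h, if_pos h]
        · rw [if_neg h, if_neg h]
      rw [hc1, hc2] at h1
      exact_mod_cast h1
    have hmean := answerProb_mean A (fun g : Fin n₁ → ZMod 2 => Gr (rhs (rx (mkO ρ 0)) g)) Gr
      hfool
    have hV : (0 : ℝ) < Fintype.card (Fin n₁ → ZMod 2) := by exact_mod_cast Fintype.card_pos
    have hE : (0 : ℝ) < Fintype.card (Fin n₁ × Fin D → ZMod 2) := by
      exact_mod_cast Fintype.card_pos
    have hne : ∀ (G : SimpleGraph (Vx n₁ n₂ D p)) (b : Bool), answerProb A G b ≠ ⊤ :=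
      fun G b => PMF.apply_ne_top _ _
    have h23 : (2 / 3 : ENNReal).toReal = 2 / 3 := by
      rw [ENNReal.toReal_div]; norm_num
    have hlow : (2 / 3 : ℝ) * Fintype.card (Fin n₁ → ZMod 2) ≤
        ∑ g : Fin n₁ → ZMod 2, (answerProb A (Gr (rhs (rx (mkO ρ 0)) g)) true).toReal := by
      have : (2 / 3 : ℝ) * Fintype.card (Fin n₁ → ZMod 2) =
          ∑ _g : Fin n₁ → ZMod 2, (2 / 3 : ℝ) := by
        rw [sum_const, card_univ, nsmul_eq_mul]; ring
      rw [this]
      refine sum_le_sum (fun g _ => ?_)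
      rw [← h23]
      exact ENNReal.toReal_mono (hne _ _) (hyes _ (hreg _) (hYes g))
    have hup : ∑ b, (answerProb A (Gr b) true).toReal <
        (2 / 3 : ℝ) * Fintype.card (Fin n₁ × Fin D → ZMod 2) := by
      have hb : ∀ b, (answerProb A (Gr b) true).toReal ≤
          indR (¬ (QR (mkO ρ b) test1 (3 * δ / 10000) ∧ QR (mkO ρ b) test2 (3 * δ / 10000))) +
            1 / 3 := by
        intro b
        have hadd : (answerProb A (Gr b) true).toReal + (answerProb A (Gr b) false).toReal = 1 := by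
          rw [← ENNReal.toReal_add (hne _ _) (hne _ _), answerProb_add, ENNReal.toReal_one]
        have hf0 : 0 ≤ (answerProb A (Gr b) false).toReal := ENNReal.toReal_nonneg
        unfold indR
        by_cases h : QR (mkO ρ b) test1 (3 * δ / 10000) ∧ QR (mkO ρ b) test2 (3 * δ / 10000)
        · rw [if_neg (not_not.2 h)]
          have h1 := ENNReal.toReal_mono (hne _ _) (hno _ (hreg b) (hNo b h.1 h.2))
          rw [h23] at h1
          linarith
        · rw [if_pos h]; linarith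
      calc ∑ b, (answerProb A (Gr b) true).toReal
          ≤ ∑ b, (indR (¬ (QR (mkO ρ b) test1 (3 * δ / 10000) ∧
            QR (mkO ρ b) test2 (3 * δ / 10000))) + 1 / 3) := sum_le_sum (fun b _ => hb b)
        _ = ∑ b, indR (¬ (QR (mkO ρ b) test1 (3 * δ / 10000) ∧
            QR (mkO ρ b) test2 (3 * δ / 10000))) +
            Fintype.card (Fin n₁ × Fin D → ZMod 2) / 3 := by
            rw [sum_add_distrib, sum_const, card_univ, nsmul_eq_mul]; ring
        _ < _ := by linarith
    have h1 : (2 / 3 : ℝ) * Fintype.card (Fin n₁ → ZMod 2) *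
        Fintype.card (Fin n₁ × Fin D → ZMod 2) ≤
        (∑ b, (answerProb A (Gr b) true).toReal) * Fintype.card (Fin n₁ → ZMod 2) := by
      rw [← hmean]
      exact mul_le_mul_of_nonneg_right hlow hE.le
    have h2 := mul_lt_mul_of_pos_right hup hV
    linarith

end Pool.Agent.Lib.MP_8d8c46_lc
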