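import Pool.Agent.Lib.MP_8d8c46_lc.Union

/-!
Assembly: pairs of a Yes and a No instance that the bijective pebble game does not distinguish.
-/

open scoped Classical
open Finset

namespace Pool.Agent.Lib.MP_8d8c46_lc

/-- Random systems with all the required properties exist. -/
theorem exists_system {ε : ℝ} (hε : 0 < ε) :
    ∃ D₀ : ℕ, ∀ D n S : ℕ, D₀ ≤ D → 0 < D → 0 < n → 2 * (S : ℝ) ≤ (1 / (432 * D)) ^ 4 * n →
      ∃ ω : Fin D → Om n, QR ω test1 ε ∧ QR ω test2 ε ∧ ¬ BadExp S ω := by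
  obtain ⟨D₁, h₁⟩ := card_not_QR (ψ := test1) (B := 10) (Λ := 10) (ε := ε) (by norm_num)
    (by norm_num) hε (fun T h0 h3 => test1_bound h0 h3)
    (fun T T' h0 h3 h0' h3' => test1_lip h0 h3 h0' h3')
  obtain ⟨D₂, h₂⟩ := card_not_QR (ψ := test2) (B := 10) (Λ := 20) (ε := ε) (by norm_num)
    (by norm_num) hε (fun T h0 h3 => test2_bound h0 h3)
    (fun T T' h0 h3 h0' h3' => test2_lip h0 h3 h0' h3')
  refine ⟨max D₁ D₂, fun D n S hD hDpos hn hS => ?_⟩
  by_contra hcon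
  push Not at hcon
  have hsub : (univ : Finset (Fin D → Om n)) ⊆
      (univ.filter (fun ω => ¬ QR ω test1 ε) ∪ univ.filter (fun ω => ¬ QR ω test2 ε)) ∪
        univ.filter (fun ω => BadExp S ω) := by
    intro ω _
    simp only [mem_union, mem_filter, mem_univ, true_and]
    by_cases h1 : QR ω test1 ε
    · by_cases h2 : QR ω test2 ε
      · exact Or.inr (hcon ω h1 h2)
      · exact Or.inl (Or.inr h2)
    · exact Or.inl (Or.inl h1)
  have hc := (card_le_card hsub).trans ((card_union_le _ _).trans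
    (Nat.add_le_add_right (card_union_le _ _) _))
  have hc' : (Fintype.card (Om n) : ℝ) ^ D ≤
      ((univ.filter (fun ω : Fin D → Om n => ¬ QR ω test1 ε)).card : ℝ) +
      ((univ.filter (fun ω : Fin D → Om n => ¬ QR ω test2 ε)).card : ℝ) +
      ((univ.filter (fun ω : Fin D → Om n => BadExp S ω)).card : ℝ) := by
    have e : (Fintype.card (Om n) : ℝ) ^ D = ((univ : Finset (Fin D → Om n)).card : ℝ) := by
      rw [card_univ, Fintype.card_fun, Fintype.card_fin]; push_cast; rfl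
    rw [e]
    exact_mod_cast hc
  have a1 := h₁ D n ((le_max_left _ _).trans hD) hn
  have a2 := h₂ D n ((le_max_right _ _).trans hD) hn
  have a3 := card_badExp (S := S) hn hDpos hS
  have hpos : (0 : ℝ) < (Fintype.card (Om n) : ℝ) ^ D := by
    have : 0 < Fintype.card (Om n) := Fintype.card_pos
    positivity
  linarith

section
variable {n₁ n₂ D : ℕ}

/-- the vertices of the graphs -/
abbrev Vx (n₁ n₂ D p : ℕ) := (((Fin n₁ × Fin D) ⊕ (Fin n₂ × Fin D)) × Lab) × Pl p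

/-- the graph of the union of two random systems with the given right-hand sides -/
noncomputable def gr (ω₁ : Fin D → Om n₁) (ω₂ : Fin D → Om n₂)
    (b : (Fin n₁ × Fin D) ⊕ (Fin n₂ × Fin D) → ZMod 2) (u p : ℕ) :
    SimpleGraph (Vx n₁ n₂ D p) :=
  blow p (wgt (sumx (rx ω₁) (rx ω₂)) b u) (wgt_symm _ _ _)

lemma card_Vx {p : ℕ} [Fact p.Prime] :
    Fintype.card (Vx n₁ n₂ D p) = 4 * (n₁ + n₂) * D * p ^ 2 := by
  rw [Fintype.card_prod, Fintype.card_prod, Fintype.card_sum, Fintype.card_prod,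
    Fintype.card_prod, Fintype.card_prod, Fintype.card_prod, ZMod.card, ZMod.card,
    Fintype.card_fin, Fintype.card_fin, Fintype.card_fin]
  ring

variable {D' p : ℕ} [Fact p.Prime]

lemma gr_regular (ω₁ : Fin D → Om n₁) (ω₂ : Fin D → Om n₂)
    (b : (Fin n₁ × Fin D) ⊕ (Fin n₂ × Fin D) → ZMod 2) {u : ℕ} (hp : 2 * (9 + u) < p) :
    Regular (gr ω₁ ω₂ b u p) (2 * (p - 1) * (18 * D + u)) := by
  refine blow_regular ?_ ?_
  · exact fun q => row_wgt (reg_sum (rx_reg ω₁) (rx_reg ω₂)) b u q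
  · intro q r
    have := wgt_le (sumx (rx ω₁) (rx ω₂)) b u q r
    omega

/-- The Yes instance. -/
theorem gr_yes {η δ : ℚ} (hη : 496 / 1000 ≤ η) (hD' : 0 < D') (hn₁ : 0 < n₁)
    (hδ : (n₁ : ℚ) = 4 * δ * (n₁ + n₂)) (ω₁ : Fin (1000 * D') → Om n₁)
    (ω₂ : Fin (1000 * D') → Om n₂) (hp : 2 * (9 + 153 * D') < p)
    (b₂ : Fin n₂ × Fin (1000 * D') → ZMod 2) :
    SSEYes η δ (gr ω₁ ω₂ (Sum.elim (fun _ => 0) b₂) (153 * D') p) := by
  have hp0 : 0 < p := by omega
  have hreg := gr_regular ω₁ ω₂ (Sum.elim (fun _ => 0) b₂) hp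
  have hd : 1 ≤ 2 * (p - 1) * (18 * (1000 * D') + 153 * D') := by
    have h1 : 1 ≤ p - 1 := by omega
    have h2 : 1 ≤ 18 * (1000 * D') + 153 * D' := by omega
    calc 1 = 1 * 1 := by norm_num
      _ ≤ (2 * (p - 1)) * (18 * (1000 * D') + 153 * D') := Nat.mul_le_mul (by omega) h2
  have hN : δ * Fintype.card (Vx n₁ n₂ (1000 * D') p) = ((n₁ * (1000 * D') * p ^ 2 : ℕ) : ℚ) := by
    rw [card_Vx]
    push_cast
    have : (n₁ : ℚ) * (1000 * D') * p ^ 2 = (4 * δ * (n₁ + n₂)) * (1000 * D') * p ^ 2 := by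
      rw [← hδ]
    rw [this]; ring
  have hcard : ((zeroSet : Finset (((Fin n₁ × Fin (1000 * D')) ⊕ (Fin n₂ × Fin (1000 * D'))) ×
      Lab)) ×ˢ (univ : Finset (Pl p))).card = n₁ * (1000 * D') * p ^ 2 := by
    rw [card_product, card_zeroSet, card_univ, Fintype.card_prod, Fintype.card_prod,
      Fintype.card_fin, Fintype.card_fin, ZMod.card]
    ring
  have hpos : 0 < n₁ * (1000 * D') * p ^ 2 := by positivity
  refine ⟨_, ⟨hd, hreg, n₁ * (1000 * D') * p ^ 2, hpos, hN.symm⟩,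
    zeroSet ×ˢ univ, ?_, ?_⟩
  · rw [hcard, hN]
  · rw [expansion_le_iff hreg hd (by rw [hcard]; exact hpos)]
    have hin : inside (gr ω₁ ω₂ (Sum.elim (fun _ => 0) b₂) (153 * D') p)
        (zeroSet ×ˢ (univ : Finset (Pl p))) =
        2 * (p - 1) * p ^ 2 * (n₁ * (1000 * D') * (9 * (1000 * D') + 153 * D')) := by
      unfold gr
      rw [inside_blow_full, wgt_zeroSet (rx_reg ω₁), Fintype.card_prod, Fintype.card_fin,
        Fintype.card_fin]
      intro q r
      have := wgt_le (sumx (rx ω₁) (rx ω₂)) (Sum.elim (fun _ => 0) b₂) (153 * D') q r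
      omega
    rw [hin, hcard]
    have hp1 : (1 : ℚ) ≤ p := by exact_mod_cast hp0
    have hpc : ((p - 1 : ℕ) : ℚ) = p - 1 := by
      rw [Nat.cast_sub hp0]; norm_num
    push_cast
    rw [hpc]
    have hD'' : (0 : ℚ) < D' := by exact_mod_cast hD'
    have hn₁' : (0 : ℚ) < n₁ := by exact_mod_cast hn₁
    have key : (1 - η) * 18153 ≤ 9153 := by linarith
    have hX : 0 ≤ 2 * ((p : ℚ) - 1) * p ^ 2 * (n₁ * (1000 * D') * D') := by
      have : 0 ≤ (p : ℚ) - 1 := by linarith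
      positivity
    have := mul_le_mul_of_nonneg_right key hX
    nlinarith

/-- The No instance. -/
theorem gr_no {η δ : ℚ} (hη : 496 / 1000 ≤ η) (hδ0 : 0 < δ) (hD' : 0 < D') (hn₁ : 0 < n₁)
    (hn : n₁ ≤ n₂) (hδ : (n₁ : ℚ) = 4 * δ * (n₁ + n₂)) {ω₁ : Fin (1000 * D') → Om n₁}
    {ω₂ : Fin (1000 * D') → Om n₂} (hp : 2 * (9 + 153 * D') < p) (hp9 : 10 ^ 9 ≤ p)
    (h11 : QR ω₁ test1 (3 * δ / 10000)) (h12 : QR ω₁ test2 (3 * δ / 10000))
    (h21 : QR ω₂ test1 (3 * δ / 10000)) (h22 : QR ω₂ test2 (3 * δ / 10000)) :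
    SSENo η δ (gr ω₁ ω₂ (Sum.elim (rb ω₁) (rb ω₂)) (153 * D') p) := by
  have hp0 : 0 < p := by omega
  have hreg := gr_regular ω₁ ω₂ (Sum.elim (rb ω₁) (rb ω₂)) hp
  have hd : 1 ≤ 2 * (p - 1) * (18 * (1000 * D') + 153 * D') := by
    have h1 : 1 ≤ p - 1 := by omega
    have h2 : 1 ≤ 18 * (1000 * D') + 153 * D' := by omega
    calc 1 = 1 * 1 := by norm_num
      _ ≤ (2 * (p - 1)) * (18 * (1000 * D') + 153 * D') := Nat.mul_le_mul (by omega) h2
  have hN : δ * Fintype.card (Vx n₁ n₂ (1000 * D') p) = ((n₁ * (1000 * D') * p ^ 2 : ℕ) : ℚ) := by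
    rw [card_Vx]
    push_cast
    have : (n₁ : ℚ) * (1000 * D') * p ^ 2 = (4 * δ * (n₁ + n₂)) * (1000 * D') * p ^ 2 := by
      rw [← hδ]
    rw [this]; ring
  have hpos : 0 < n₁ * (1000 * D') * p ^ 2 := by positivity
  refine ⟨_, ⟨hd, hreg, n₁ * (1000 * D') * p ^ 2, hpos, hN.symm⟩, fun S hS => ?_⟩
  rw [hN] at hS
  have hScard : S.card = n₁ * (1000 * D') * p ^ 2 := by exact_mod_cast hS
  rw [le_expansion_iff hreg hd (by rw [hScard]; exact hpos)]
  -- move to the reals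
  have hp' : (0 : ℝ) < p := by exact_mod_cast hp0
  have hp9' : (10 : ℝ) ^ 9 ≤ p := by exact_mod_cast hp9
  have hD'' : (0 : ℝ) < D' := by exact_mod_cast hD'
  have hn₁' : (0 : ℝ) < n₁ := by exact_mod_cast hn₁
  have hδr : (0 : ℝ) < (δ : ℝ) := by exact_mod_cast hδ0
  have hδ' : (n₁ : ℝ) = 4 * δ * (n₁ + n₂) := by exact_mod_cast hδ
  have hpc : ((p - 1 : ℕ) : ℝ) = p - 1 := by
    rw [Nat.cast_sub hp0]; norm_num
  set W := wgt (sumx (rx ω₁) (rx ω₂)) (Sum.elim (rb ω₁) (rb ω₂)) (153 * D') with hW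
  have hin := inside_blow_le (W := W) (hW := wgt_symm _ _ _) (d := 18 * (1000 * D') + 153 * D')
    (fun q => row_wgt (reg_sum (rx_reg ω₁) (rx_reg ω₂)) _ _ q)
    (fun q r => by
      have := wgt_le (sumx (rx ω₁) (rx ω₂)) (Sum.elim (rb ω₁) (rb ω₂)) (153 * D') q r
      rw [← hW] at this
      omega) (by omega) S
  set A : ((Fin n₁ × Fin (1000 * D')) ⊕ (Fin n₂ × Fin (1000 * D'))) × Lab → ℝ :=
    fun q => ((sl S q).card : ℝ) with hA
  set h : ((Fin n₁ × Fin (1000 * D')) ⊕ (Fin n₂ × Fin (1000 * D'))) × Lab → ℝ :=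
    fun q => A q / p ^ 2 with hh
  have hp2 : (0 : ℝ) < (p : ℝ) ^ 2 := pow_pos hp' 2
  have hAh : ∀ q, A q = p ^ 2 * h q := fun q => (mul_div_cancel₀ (A q) hp2.ne').symm
  have h01 : ∀ q, 0 ≤ h q ∧ h q ≤ 1 := by
    intro q
    refine ⟨div_nonneg (Nat.cast_nonneg _) hp2.le, (div_le_one hp2).2 ?_⟩
    have h1 : (sl S q).card ≤ p ^ 2 := by
      refine (card_le_univ _).trans (le_of_eq ?_)
      rw [Fintype.card_prod, ZMod.card, sq]
    have h2 : ((sl S q).card : ℝ) ≤ (p : ℝ) ^ 2 := by exact_mod_cast h1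
    exact h2
  have hsum : ∑ q, h q = n₁ * (1000 * D') := by
    have h1 : (S.card : ℝ) = ∑ q, A q := by
      rw [card_slices S]; push_cast; rfl
    have h2 : ∑ q, A q = p ^ 2 * ∑ q, h q := by
      rw [mul_sum]; exact sum_congr rfl (fun q _ => hAh q)
    rw [h2, hScard] at h1
    push_cast at h1
    have h3 : (p : ℝ) ^ 2 * (n₁ * (1000 * D')) = p ^ 2 * ∑ q, h q := by linarith
    exact (mul_left_cancel₀ (by positivity) h3).symm
  -- the two parts
  set f₁ : (Fin n₁ × Fin (1000 * D')) × Lab → ℝ := fun q => h (Sum.inl q.1, q.2) with hf₁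
  set f₂ : (Fin n₂ × Fin (1000 * D')) × Lab → ℝ := fun q => h (Sum.inr q.1, q.2) with hf₂
  have hsplit : ∑ q, h q = ∑ q, f₁ q + ∑ q, f₂ q := by
    simp only [Fintype.sum_prod_type, Fintype.sum_sum_type, hf₁, hf₂]
  have hf₁0 : 0 ≤ ∑ q, f₁ q := sum_nonneg (fun q _ => (h01 _).1)
  have hf₂0 : 0 ≤ ∑ q, f₂ q := sum_nonneg (fun q _ => (h01 _).1)
  have hn₂' : (n₁ : ℝ) ≤ n₂ := by exact_mod_cast hn
  have hn₂pos : 0 < n₂ := by omega
  have hDc : ((1000 * D' : ℕ) : ℝ) = 1000 * D' := by push_cast; ring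
  have s1 := sound (ω := ω₁) (ε := 3 * δ / 10000) hn₁ (by omega) (by positivity) h11 h12
    (h := f₁) (fun q => h01 _) (by rw [hDc]; linarith)
  have s2 := sound (ω := ω₂) (ε := 3 * δ / 10000) hn₂pos (by omega) (by positivity) h21 h22
    (h := f₂) (fun q => h01 _) (by
      rw [hDc]
      have : (n₁ : ℝ) * (1000 * D') ≤ n₂ * (1000 * D') :=
        mul_le_mul_of_nonneg_right hn₂' (by positivity)
      linarith)
  have hquad := quad_sum (rx ω₁) (rx ω₂) (rb ω₁) (rb ω₂) h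
  -- the quadratic form of the weights
  have hWq : ∑ q, ∑ r, (W q r : ℝ) * (A q * A r) ≤
      p ^ 4 * (n₁ * (1000 * D') * (90018 / 10 * D')) := by
    have e1 : ∀ q r, (W q r : ℝ) * (A q * A r) = p ^ 4 *
        ((links (sumx (rx ω₁) (rx ω₂)) (Sum.elim (rb ω₁) (rb ω₂)) q r : ℝ) * h q * h r +
          if q = r then (153 * D') * (h q * h r) else 0) := by
      intro q r
      rw [hAh, hAh, hW]
      unfold wgt
      by_cases hqr : q = r
      · rw [if_pos hqr, if_pos hqr]; push_cast; ring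
      · rw [if_neg hqr, if_neg hqr]; push_cast; ring
    have e2 : ∑ q, ∑ r, (W q r : ℝ) * (A q * A r) = p ^ 4 *
        (∑ q, ∑ r, (links (sumx (rx ω₁) (rx ω₂)) (Sum.elim (rb ω₁) (rb ω₂)) q r : ℝ) *
          h q * h r + ∑ q, (153 * D') * (h q * h q)) := by
      rw [← sum_add_distrib, mul_sum]
      refine sum_congr rfl (fun q _ => ?_)
      rw [sum_congr rfl (fun r _ => e1 q r), ← mul_sum, sum_add_distrib, sum_ite_eq,
        if_pos (mem_univ _)]
    have e3 : ∑ q, (153 * (D' : ℝ)) * (h q * h q) ≤ 153 * D' * (n₁ * (1000 * D')) := by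
      rw [← hsum, mul_sum]
      refine sum_le_sum (fun q _ => mul_le_mul_of_nonneg_left ?_ (by positivity))
      have := h01 q
      nlinarith
    rw [e2]
    refine mul_le_mul_of_nonneg_left ?_ (by positivity)
    rw [hquad]
    rw [hDc] at s1 s2
    have e4 : (4 * (n₁ : ℝ) * (1000 * D') * (3 * δ / 10000 / 3) +
        4 * n₂ * (1000 * D') * (3 * δ / 10000 / 3)) = n₁ * (1000 * D') / 10000 := by
      have : (n₁ : ℝ) * (1000 * D') / 10000 = (4 * δ * (n₁ + n₂)) * (1000 * D') / 10000 := by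
        rw [← hδ']
      rw [this]; ring
    have e5 : 18 * (1000 * (D' : ℝ)) * (983 / 2000 * ∑ q, f₁ q +
        4 * n₁ * (1000 * D') * (3 * δ / 10000 / 3)) +
        18 * (1000 * D') * (983 / 2000 * ∑ q, f₂ q +
        4 * n₂ * (1000 * D') * (3 * δ / 10000 / 3)) =
        18 * (1000 * D') * (983 / 2000 * (n₁ * (1000 * D')) + n₁ * (1000 * D') / 10000) := by
      rw [← e4, ← hsum, hsplit]; ring
    have e6 : 18 * (1000 * (D' : ℝ)) * (983 / 2000 * (n₁ * (1000 * D')) +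
        n₁ * (1000 * D') / 10000) + 153 * D' * (n₁ * (1000 * D')) =
        n₁ * (1000 * D') * (90018 / 10 * D') := by ring
    linarith
  have hsqrt : √(3 * (p : ℝ)) ≤ 6 / 100000 * p := by
    rw [Real.sqrt_le_left (by positivity)]
    nlinarith
  have hfin : (inside (gr ω₁ ω₂ (Sum.elim (rb ω₁) (rb ω₂)) (153 * D') p) S : ℝ) ≤
      (η : ℝ) * (((2 * (p - 1) * (18 * (1000 * D') + 153 * D') : ℕ) : ℝ) * (S.card : ℝ)) := by
    refine hin.trans ?_
    have hη' : (496 / 1000 : ℝ) ≤ η := by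
      have : ((496 / 1000 : ℚ) : ℝ) ≤ (η : ℝ) := Rat.cast_le.2 hη
      push_cast at this
      exact this
    rw [hScard]
    push_cast
    rw [hpc]
    set X : ℝ := n₁ * (1000 * D') * p ^ 2 * D' with hX
    have hX0 : 0 ≤ X := by positivity
    have g1 : 2 / (p : ℝ) * ∑ q, ∑ r, (W q r : ℝ) * (A q * A r) ≤ 2 * p * (90018 / 10) * X := by
      calc 2 / (p : ℝ) * ∑ q, ∑ r, (W q r : ℝ) * (A q * A r)
          ≤ 2 / p * (p ^ 4 * (n₁ * (1000 * D') * (90018 / 10 * D'))) :=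
            mul_le_mul_of_nonneg_left hWq (by positivity)
        _ = 2 * p * (90018 / 10) * X := by rw [hX]; field_simp
    have g2 : 2 * √(3 * (p : ℝ)) * (18 * (1000 * D') + 153 * D') *
        (n₁ * (1000 * D') * p ^ 2) ≤ 2 * (6 / 100000 * p) * 18153 * X := by
      have e : 2 * √(3 * (p : ℝ)) * (18 * (1000 * D') + 153 * D') *
        (n₁ * (1000 * D') * p ^ 2) = √(3 * (p : ℝ)) * (2 * 18153 * X) := by rw [hX]; ring
      rw [e]
      calc √(3 * (p : ℝ)) * (2 * 18153 * X) ≤ (6 / 100000 * p) * (2 * 18153 * X) :=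
            mul_le_mul_of_nonneg_right hsqrt (by positivity)
        _ = _ := by ring
    have g3 : (496 / 1000 : ℝ) * (2 * (p - 1) * 18153 * X) ≤
        η * (2 * (p - 1) * (18 * (1000 * D') + 153 * D') * (n₁ * (1000 * D') * p ^ 2)) := by
      have e : 2 * ((p : ℝ) - 1) * (18 * (1000 * D') + 153 * D') * (n₁ * (1000 * D') * p ^ 2) =
          2 * (p - 1) * 18153 * X := by rw [hX]; ring
      rw [e]
      refine mul_le_mul_of_nonneg_right hη' ?_
      have : 0 ≤ (p : ℝ) - 1 := by linarith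
      positivity
    have g4 : 2 * (p : ℝ) * (90018 / 10) * X + 2 * (6 / 100000 * p) * 18153 * X ≤
        (496 / 1000 : ℝ) * (2 * (p - 1) * 18153 * X) := by
      have e : (496 / 1000 : ℝ) * (2 * (p - 1) * 18153 * X) -
          (2 * (p : ℝ) * (90018 / 10) * X + 2 * (6 / 100000 * p) * 18153 * X) =
          ((496 / 1000 * 2 * 18153 - 2 * (90018 / 10) - 2 * (6 / 100000) * 18153) * p -
            496 / 1000 * 2 * 18153) * X := by ring
      have : 0 ≤ ((496 / 1000 * 2 * 18153 - 2 * (90018 / 10) - 2 * (6 / 100000) * 18153) *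
          (p : ℝ) - 496 / 1000 * 2 * 18153) := by linarith
      have := mul_nonneg this hX0
      linarith
    linarith
  exact_mod_cast hfin

end

/-- For every `η ≥ 0.496` and `δ ≤ 1/8` there are arbitrarily large pairs of a Yes and a No
instance of the same bounded degree that the bijective pebble game does not distinguish with linearly many pebbles. -/
theorem wl_main {η δ : ℚ} (hη : 496 / 1000 ≤ η) (hδ0 : 0 < δ) (hδ : δ ≤ 1 / 8) :
    ∃ (d : ℕ) (c : ℝ), 0 < c ∧ ∀ N₀ : ℕ, ∃ (V : Type) (_ : Fintype V) (G H : SimpleGraph V),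
      N₀ ≤ Fintype.card V ∧ Regular G d ∧ Regular H d ∧ SSEYes η δ G ∧ SSENo η δ H ∧
        ∀ k : ℕ, (k : ℝ) ≤ c * Fintype.card V → PebbleEquiv k G H := by
  have hδr : (0 : ℝ) < (δ : ℝ) := by exact_mod_cast hδ0
  obtain ⟨D₀, hsys⟩ := exists_system (ε := 3 * δ / 10000) (by positivity)
  set D' := D₀ + 1 with hD'
  have hD'pos : 0 < D' := by omega
  set D := 1000 * D' with hD
  obtain ⟨p, hp1, hprime⟩ := Nat.exists_infinite_primes (2 * (9 + 153 * D') + 1 + 10 ^ 9)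
  have : Fact p.Prime := ⟨hprime⟩
  set a := δ.num.toNat with ha
  have hanum : (a : ℤ) = δ.num := Int.toNat_of_nonneg (Rat.num_nonneg.2 hδ0.le)
  have hapos : 0 < a := by
    have : 0 < δ.num := Rat.num_pos.2 hδ0
    omega
  have hdelta : δ = (a : ℚ) / δ.den := by
    have := Rat.num_div_den δ
    rw [← hanum, Int.cast_natCast] at this
    exact this.symm
  have hdenpos : 0 < δ.den := δ.den_pos
  have hden' : (0 : ℚ) < δ.den := by exact_mod_cast hdenpos
  have hab : 8 * a ≤ δ.den := by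
    rw [hdelta, div_le_div_iff₀ hden' (by norm_num)] at hδ
    have : (8 * a : ℚ) ≤ δ.den := by linarith
    exact_mod_cast this
  set β : ℝ := 1 / (432 * D) with hβ
  have hDpos : 0 < D := by omega
  have hD' : (0 : ℝ) < D := by exact_mod_cast hDpos
  have hβ0 : 0 < β := by positivity
  have hp0 : (0 : ℝ) < p := by exact_mod_cast hprime.pos
  have hdenr : (0 : ℝ) < δ.den := by exact_mod_cast hdenpos
  have har : (0 : ℝ) < a := by exact_mod_cast hapos
  refine ⟨2 * (p - 1) * (18 * D + 153 * D'), β ^ 4 * a / (24 * δ.den * D * p ^ 2),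
    by positivity, fun N₀ => ?_⟩
  set t := N₀ + 1 with ht
  set n₁ := 4 * a * t with hn₁
  set n₂ := (δ.den - 4 * a) * t with hn₂
  have hn₁pos : 0 < n₁ := by positivity
  have hn₁₂ : n₁ ≤ n₂ := Nat.mul_le_mul_right _ (by omega)
  have hn₂pos : 0 < n₂ := by omega
  have hsum : n₁ + n₂ = δ.den * t := by
    rw [hn₁, hn₂, ← add_mul]
    congr 1
    omega
  have hδn : (n₁ : ℚ) = 4 * δ * (n₁ + n₂) := by
    have h1 : ((n₁ : ℚ) + n₂) = δ.den * t := by exact_mod_cast hsum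
    rw [h1]
    have h2 : δ * δ.den = a := by
      rw [hdelta]
      have : ((a : ℚ) / δ.den).den = δ.den := by rw [← hdelta]
      rw [this]
      field_simp
    calc (n₁ : ℚ) = 4 * a * t := by rw [hn₁]; push_cast; ring
      _ = 4 * (δ * δ.den) * t := by rw [h2]
      _ = _ := by ring
  set S := ⌊β ^ 4 * n₁ / 2⌋₊ with hS
  have hS1 : 2 * (S : ℝ) ≤ β ^ 4 * n₁ := by
    have : (S : ℝ) ≤ β ^ 4 * n₁ / 2 := Nat.floor_le (by positivity)
    linarith
  have hn₁₂' : (n₁ : ℝ) ≤ n₂ := by exact_mod_cast hn₁₂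
  have hS2 : 2 * (S : ℝ) ≤ β ^ 4 * n₂ :=
    hS1.trans (mul_le_mul_of_nonneg_left hn₁₂' (by positivity))
  obtain ⟨ω₁, h11, h12, h13⟩ := hsys D n₁ S (by omega) hDpos hn₁pos hS1
  obtain ⟨ω₂, h21, h22, h23⟩ := hsys D n₂ S (by omega) hDpos hn₂pos hS2
  have hexp : Expands (sumx (rx ω₁) (rx ω₂)) (S / 2) :=
    expands_sum (expands_of_not_bad (by omega) h13) (expands_of_not_bad (by omega) h23)
  refine ⟨Vx n₁ n₂ D p, inferInstance, gr ω₁ ω₂ (Sum.elim (fun _ => 0) (rb ω₂)) (153 * D') p,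
    gr ω₁ ω₂ (Sum.elim (rb ω₁) (rb ω₂)) (153 * D') p, ?_, gr_regular _ _ _ (by omega),
    gr_regular _ _ _ (by omega), ?_, ?_, ?_⟩
  · rw [card_Vx]
    have h1 : 1 ≤ D * p ^ 2 := Nat.one_le_iff_ne_zero.2 (by
      have := hprime.pos
      positivity)
    have h2 : N₀ ≤ n₁ + n₂ := by
      rw [hsum]
      calc N₀ ≤ t := by omega
        _ = 1 * t := (one_mul _).symm
        _ ≤ δ.den * t := Nat.mul_le_mul_right _ hdenpos
    calc N₀ ≤ n₁ + n₂ := h2
      _ = 1 * (n₁ + n₂) * 1 := by ring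
      _ ≤ 4 * (n₁ + n₂) * (D * p ^ 2) := Nat.mul_le_mul (Nat.mul_le_mul_right _ (by omega)) h1
      _ = _ := by ring
  · exact gr_yes hη hD'pos hn₁pos hδn ω₁ ω₂ (by omega) (rb ω₂)
  · exact gr_no hη hδ0 hD'pos hn₁pos hn₁₂ hδn (by omega) (by omega) h11 h12 h21 h22
  · intro k hk
    refine xor_pebble hexp ?_ (153 * D') p
    rw [card_Vx] at hk
    push_cast at hk
    have h1 : ((n₁ : ℝ) + n₂) = δ.den * t := by exact_mod_cast hsum
    rw [h1] at hk
    have h2 : β ^ 4 * a / (24 * δ.den * D * p ^ 2) * (4 * (δ.den * t) * D * p ^ 2) =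
        β ^ 4 * n₁ / 24 := by
      rw [hn₁]; push_cast; field_simp
    rw [h2] at hk
    have h3 : ((12 * k : ℕ) : ℝ) ≤ β ^ 4 * n₁ / 2 := by push_cast; linarith
    have h4 : 12 * k ≤ S := Nat.le_floor h3
    omega

end Pool.Agent.Lib.MP_8d8c46_lc
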