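import Pool.Agent.Lib.MP_8d8c46_lc.Fool
import Pool.Agent.Lib.MP_8d8c46_lc.WLMain

/-!
Assembly of the lower bound on the number of queries.
-/

open scoped Classical
open Finset

namespace Pool.Agent.Lib.MP_8d8c46_lc

section iso
variable {V W : Type*} [Fintype V] [Fintype W]

/-- Yes instances are preserved by isomorphisms. -/
lemma SSEYes.of_iso {η δ : ℚ} {G : SimpleGraph V} {H : SimpleGraph W} (φ : G ≃g H)
    (h : SSEYes η δ G) : SSEYes η δ H := by
  obtain ⟨d, ⟨hd, hr, k, hk, hkc⟩, S, hS, hexp⟩ := h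
  have hcard : Fintype.card W = Fintype.card V := Fintype.card_congr φ.symm.toEquiv
  have hr' : Regular H d := by
    intro w
    rw [← hr (φ.symm w)]
    refine card_equiv φ.symm.toEquiv (fun u => ?_)
    simp only [mem_filter, mem_univ, true_and]
    exact φ.symm.map_adj_iff.symm
  have hcut : cut H (S.map φ.toEquiv.toEmbedding) = cut G S := by
    unfold cut
    refine (card_equiv (φ.toEquiv.prodCongr φ.toEquiv) (fun q => ?_)).symm
    simp only [mem_filter, mem_univ, true_and, Equiv.prodCongr_apply, Prod.map_fst,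
      Prod.map_snd]
    have e1 : ∀ v : V, φ.toEquiv v ∈ S.map φ.toEquiv.toEmbedding ↔ v ∈ S := by
      intro v
      exact mem_map' φ.toEquiv.toEmbedding
    have e2 : H.Adj (φ.toEquiv q.1) (φ.toEquiv q.2) ↔ G.Adj q.1 q.2 := φ.map_adj_iff
    rw [e1, e1, e2]
  refine ⟨d, ⟨hd, hr', k, hk, by rw [hcard]; exact hkc⟩, S.map φ.toEquiv.toEmbedding, ?_, ?_⟩
  · rw [card_map, hcard]; exact hS
  · unfold expansion at *
    rw [hcut, card_map]; exact hexp

end iso

section shift
variable {V E : Type*} [Fintype V] [Fintype E]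

/-- Adding the right-hand side of an assignment gives an isomorphic graph. -/
noncomputable def shiftIso (x : E → Fin 3 → V) (g : V → ZMod 2) {b b' : E → ZMod 2}
    (h : ∀ e, g (x e 0) + g (x e 1) + g (x e 2) = b e + b' e) (u p : ℕ) :
    blow p (wgt x b u) (wgt_symm x b u) ≃g blow p (wgt x b' u) (wgt_symm x b' u) where
  toFun q := (shiftq x g q.1, q.2)
  invFun q := (shiftq x g q.1, q.2)
  left_inv q := Prod.ext (shiftq_shiftq g q.1) rfl
  right_inv q := Prod.ext (shiftq_shiftq g q.1) rfl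
  map_rel_iff' := by
    intro q r
    have hw := wgt_shiftq (x := x) (b := b) (b' := b') (g := g) (q := q.1) (r := r.1) u
      (h _) (h _)
    show (∃ κ ∈ pm p (wgt x b' u (shiftq x g q.1) (shiftq x g r.1)), Rel κ q.2 r.2) ↔
      ∃ κ ∈ pm p (wgt x b u q.1 r.1), Rel κ q.2 r.2
    rw [hw]

end shift

section perms
variable {n D : ℕ}

/-- the system with the given permutations and right-hand sides -/
def mkO (ρ : Fin D → Equiv.Perm (Fin n) × Equiv.Perm (Fin n)) (y : Fin n × Fin D → ZMod 2) :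
    Fin D → Om n :=
  fun j => ((ρ j).1, (ρ j).2, fun i => y (i, j))

/-- the permutations and the right-hand sides of a system -/
def mkE : ((Fin D → Equiv.Perm (Fin n) × Equiv.Perm (Fin n)) × (Fin n × Fin D → ZMod 2)) ≃
    (Fin D → Om n) where
  toFun q := mkO q.1 q.2
  invFun ω := (fun j => ((ω j).1, (ω j).2.1), fun e => (ω e.2).2.2 e.1)
  left_inv _ := rfl
  right_inv _ := rfl

/-- Permutations for which the system expands, and for which most right-hand sides have
concentrated statistics. -/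
theorem exists_perms {ε : ℝ} (hε : 0 < ε) :
    ∃ D₀ : ℕ, ∀ D n S : ℕ, D₀ ≤ D → 0 < D → 0 < n → 2 * (S : ℝ) ≤ (1 / (432 * D)) ^ 4 * n →
      ∃ ρ : Fin D → Equiv.Perm (Fin n) × Equiv.Perm (Fin n), ¬ BadExp S (mkO ρ 0) ∧
        ∑ y : Fin n × Fin D → ZMod 2, indR (¬ (QR (mkO ρ y) test1 ε ∧ QR (mkO ρ y) test2 ε)) <
          (Fintype.card (Fin n × Fin D → ZMod 2) : ℝ) / 3 := by
  obtain ⟨D₁, h₁⟩ := card_not_QR (ψ := test1) (B := 10) (Λ := 10) (ε := ε) (by norm_num)
    (by norm_num) hε (fun T h0 h3 => test1_bound h0 h3)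
    (fun T T' h0 h3 h0' h3' => test1_lip h0 h3 h0' h3')
  obtain ⟨D₂, h₂⟩ := card_not_QR (ψ := test2) (B := 10) (Λ := 20) (ε := ε) (by norm_num)
    (by norm_num) hε (fun T h0 h3 => test2_bound h0 h3)
    (fun T T' h0 h3 h0' h3' => test2_lip h0 h3 h0' h3')
  refine ⟨max D₁ D₂, fun D n S hD hDpos hn hS => ?_⟩
  have a1 := h₁ D n ((le_max_left _ _).trans hD) hn
  have a2 := h₂ D n ((le_max_right _ _).trans hD) hn
  have a3 := card_badExp (S := S) hn hDpos hS
  have hcardI : ∀ (P : (Fin D → Om n) → Prop) [DecidablePred P],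
      ((univ.filter P).card : ℝ) = ∑ ω, indR (P ω) := by
    intro P _
    rw [card_filter]
    push_cast
    refine sum_congr rfl (fun ω _ => ?_)
    unfold indR
    by_cases h : P ω
    · rw [if_pos h, if_pos h]
    · rw [if_neg h, if_neg h]
  rw [hcardI (fun ω => ¬ QR ω test1 ε)] at a1
  rw [hcardI (fun ω => ¬ QR ω test2 ε)] at a2
  rw [hcardI (fun ω => BadExp S ω)] at a3
  have hpos : (0 : ℝ) < (Fintype.card (Om n) : ℝ) ^ D := by
    have : 0 < Fintype.card (Om n) := Fintype.card_pos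
    positivity
  have htot : ∑ _ω : Fin D → Om n, (1 : ℝ) = (Fintype.card (Om n) : ℝ) ^ D := by
    rw [sum_const, card_univ, Fintype.card_fun, Fintype.card_fin, nsmul_eq_mul]
    push_cast; ring
  have hor : ∀ ω : Fin D → Om n, indR (¬ (QR ω test1 ε ∧ QR ω test2 ε)) ≤
      indR (¬ QR ω test1 ε) + indR (¬ QR ω test2 ε) := by
    intro ω
    unfold indR
    by_cases h1 : QR ω test1 ε <;> by_cases h2 : QR ω test2 ε <;> simp [h1, h2]
  have hsum : ∑ ω : Fin D → Om n, (indR (¬ (QR ω test1 ε ∧ QR ω test2 ε)) +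
      1 / 3 * indR (BadExp S ω)) < ∑ _ω : Fin D → Om n, (1 / 3 : ℝ) := by
    have e1 : ∑ _ω : Fin D → Om n, (1 / 3 : ℝ) = 1 / 3 * (Fintype.card (Om n) : ℝ) ^ D := by
      rw [← htot, mul_sum]; simp
    rw [e1, sum_add_distrib, ← mul_sum]
    have h4 : ∑ ω : Fin D → Om n, indR (¬ (QR ω test1 ε ∧ QR ω test2 ε)) ≤
        ∑ ω : Fin D → Om n, indR (¬ QR ω test1 ε) + ∑ ω : Fin D → Om n, indR (¬ QR ω test2 ε) := by
      rw [← sum_add_distrib]
      exact sum_le_sum (fun ω _ => hor ω)
    linarith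
  rw [← Equiv.sum_comp mkE, ← Equiv.sum_comp mkE, Fintype.sum_prod_type,
    Fintype.sum_prod_type] at hsum
  obtain ⟨ρ, _, hρ⟩ := exists_lt_of_sum_lt hsum
  have hbad : ∀ y, BadExp S (mkO ρ y) ↔ BadExp S (mkO ρ 0) := fun y => Iff.rfl
  have hρ' : ∑ y : Fin n × Fin D → ZMod 2, (indR (¬ (QR (mkO ρ y) test1 ε ∧
      QR (mkO ρ y) test2 ε)) + 1 / 3 * indR (BadExp S (mkO ρ 0))) <
      ∑ _y : Fin n × Fin D → ZMod 2, (1 / 3 : ℝ) := hρ
  have hnn : ∀ P : Prop, 0 ≤ indR P := by
    intro P; unfold indR; split_ifs <;> norm_num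
  refine ⟨ρ, ?_, ?_⟩
  · intro hB
    have h1 : indR (BadExp S (mkO ρ 0)) = 1 := if_pos hB
    rw [h1] at hρ'
    refine absurd hρ' (not_lt.2 (sum_le_sum (fun y _ => ?_)))
    have := hnn (¬ (QR (mkO ρ y) test1 ε ∧ QR (mkO ρ y) test2 ε))
    linarith
  · have h1 : ∑ _y : Fin n × Fin D → ZMod 2, (1 / 3 : ℝ) =
        (Fintype.card (Fin n × Fin D → ZMod 2) : ℝ) / 3 := by
      rw [sum_const, card_univ, nsmul_eq_mul]; ring
    rw [← h1]
    refine lt_of_le_of_lt (sum_le_sum (fun y _ => ?_)) hρ'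
    have := hnn (BadExp S (mkO ρ 0))
    linarith

end perms

section nb
variable {V₁ V₂ E₁ E₂ : Type*} [Fintype E₁] [Fintype E₂]

/-- the equations of the first system that share a variable with the equation of `w` -/
noncomputable def touch (x₁ : E₁ → Fin 3 → V₁) : E₁ ⊕ E₂ → Finset E₁
  | Sum.inl e => univ.filter (fun e' => ∃ ij : Fin 3 × Fin 3, x₁ e' ij.1 = x₁ e ij.2)
  | Sum.inr _ => ∅

omit [Fintype E₂] in
lemma card_touch {x₁ : E₁ → Fin 3 → V₁} {D : ℕ} (h : Reg x₁ D) (w : E₁ ⊕ E₂) :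
    (touch x₁ w).card ≤ 9 * D := by
  rcases w with e | e
  · have hsub : touch x₁ (Sum.inl e : E₁ ⊕ E₂) ⊆
        (univ : Finset (Fin 3 × Fin 3)).biUnion
          (fun ij => univ.filter (fun e' => x₁ e' ij.1 = x₁ e ij.2)) := by
      intro e' he'
      simp only [touch, mem_filter, mem_univ, true_and] at he'
      simp only [mem_biUnion, mem_univ, true_and, mem_filter]
      exact he'
    refine (card_le_card hsub).trans (card_biUnion_le.trans ?_)
    rw [sum_congr rfl (fun ij _ => h ij.1 (x₁ e ij.2)), sum_const, card_univ,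
      Fintype.card_prod, Fintype.card_fin, smul_eq_mul]
  · simp [touch]

omit [Fintype E₂] in
lemma wgt_touch {x₁ : E₁ → Fin 3 → V₁} {x₂ : E₂ → Fin 3 → V₂} {b b' : E₁ → ZMod 2}
    {b₂ : E₂ → ZMod 2} {u : ℕ} {q : (E₁ ⊕ E₂) × Lab}
    (h : ∀ e ∈ touch x₁ q.1, b e = b' e) (r : (E₁ ⊕ E₂) × Lab) :
    wgt (sumx x₁ x₂) (Sum.elim b b₂) u q r = wgt (sumx x₁ x₂) (Sum.elim b' b₂) u q r := by
  unfold wgt
  congr 1
  unfold links
  congr 1
  ext ij
  simp only [mem_filter, mem_univ, true_and]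
  refine and_congr_right (fun hx => ?_)
  obtain ⟨q1, α⟩ := q
  obtain ⟨r1, α'⟩ := r
  rcases q1 with e | e
  · rcases r1 with e' | e'
    · have hx' : x₁ e ij.1 = x₁ e' ij.2 := by
        simp only [sumx, Sum.elim_inl, Sum.inl.injEq] at hx
        exact hx
      have h1 : b e = b' e := h e (by
        simp only [touch, mem_filter, mem_univ, true_and]
        exact ⟨(0, 0), rfl⟩)
      have h2 : b e' = b' e' := h e' (by
        simp only [touch, mem_filter, mem_univ, true_and]
        exact ⟨(ij.2, ij.1), hx'.symm⟩)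
      have e1 : sval (Sum.elim b b₂) (Sum.inl e, α) = sval (Sum.elim b' b₂) (Sum.inl e, α) := by
        unfold sval
        simp only [Sum.elim_inl, h1]
      have e2 : sval (Sum.elim b b₂) (Sum.inl e', α') =
          sval (Sum.elim b' b₂) (Sum.inl e', α') := by
        unfold sval
        simp only [Sum.elim_inl, h2]
      rw [e1, e2]
    · simp [sumx] at hx
  · rcases r1 with e' | e'
    · simp [sumx] at hx
    · exact Iff.rfl

lemma nbrs_touch {V₁ V₂ E₁ E₂ : Type} [Fintype E₁] [Fintype E₂] {p : ℕ} [Fact p.Prime]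
    {x₁ : E₁ → Fin 3 → V₁} {x₂ : E₂ → Fin 3 → V₂}
    {b b' : E₁ → ZMod 2} {b₂ : E₂ → ZMod 2} {u : ℕ} (w : ((E₁ ⊕ E₂) × Lab) × Pl p)
    (h : ∀ e ∈ touch x₁ w.1.1, b e = b' e) :
    nbrs (blow p (wgt (sumx x₁ x₂) (Sum.elim b b₂) u) (wgt_symm _ _ _)) w =
      nbrs (blow p (wgt (sumx x₁ x₂) (Sum.elim b' b₂) u) (wgt_symm _ _ _)) w := by
  unfold nbrs
  ext r
  simp only [mem_filter, mem_univ, true_and]
  show (∃ κ ∈ pm p (wgt (sumx x₁ x₂) (Sum.elim b b₂) u w.1 r.1), Rel κ w.2 r.2) ↔
    ∃ κ ∈ pm p (wgt (sumx x₁ x₂) (Sum.elim b' b₂) u w.1 r.1), Rel κ w.2 r.2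
  rw [wgt_touch h]

end nb

section prob
variable {V : Type} [Fintype V]

lemma answerProb_eq (A : PMF (QueryAlg V)) (G : SimpleGraph V) (b : Bool) :
    answerProb A G b = ∑' T, A T * (if T.run G = b then 1 else 0) := by
  unfold answerProb
  rw [PMF.map_apply]
  refine tsum_congr (fun T => ?_)
  by_cases h : T.run G = b
  · rw [if_pos h, if_pos h.symm, mul_one]
  · rw [if_neg h, if_neg (fun h' => h h'.symm), mul_zero]

lemma answerProb_add (A : PMF (QueryAlg V)) (G : SimpleGraph V) :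
    answerProb A G true + answerProb A G false = 1 := by
  have := (A.map (fun T => T.run G)).tsum_coe
  rw [tsum_fintype, Fintype.sum_bool] at this
  exact this

lemma answerProb_sum {ι : Type*} [Fintype ι] (A : PMF (QueryAlg V)) (G : ι → SimpleGraph V) :
    ∑ i, answerProb A (G i) true =
      ∑' T, A T * ((univ.filter (fun i => T.run (G i) = true)).card : ENNReal) := by
  simp only [answerProb_eq]
  rw [← Summable.tsum_finsetSum (fun _ _ => ENNReal.summable)]
  refine tsum_congr (fun T => ?_)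
  rw [← mul_sum, card_filter]
  push_cast
  rfl

/-- If every algorithm in the support of `A` accepts the same fraction of two families of graphs,
then so does `A`. -/
lemma answerProb_mean {ι κ : Type*} [Fintype ι] [Fintype κ] (A : PMF (QueryAlg V))
    (G : ι → SimpleGraph V) (H : κ → SimpleGraph V)
    (h : ∀ T ∈ A.support, (univ.filter (fun i => T.run (G i) = true)).card * Fintype.card κ =
      (univ.filter (fun k => T.run (H k) = true)).card * Fintype.card ι) :
    (∑ i, (answerProb A (G i) true).toReal) * Fintype.card κ =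
      (∑ k, (answerProb A (H k) true).toReal) * Fintype.card ι := by
  have hne : ∀ G : SimpleGraph V, answerProb A G true ≠ ⊤ := fun G => PMF.apply_ne_top _ _
  have hE : (∑ i, answerProb A (G i) true) * (Fintype.card κ : ENNReal) =
      (∑ k, answerProb A (H k) true) * (Fintype.card ι : ENNReal) := by
    rw [answerProb_sum, answerProb_sum, ← ENNReal.tsum_mul_right, ← ENNReal.tsum_mul_right]
    refine tsum_congr (fun T => ?_)
    by_cases hT : T ∈ A.support
    · have h1 := h T hT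
      have h2 : ((univ.filter (fun i => T.run (G i) = true)).card : ENNReal) *
          (Fintype.card κ : ENNReal) = ((univ.filter (fun k => T.run (H k) = true)).card :
          ENNReal) * (Fintype.card ι : ENNReal) := by exact_mod_cast h1
      rw [mul_assoc, mul_assoc, h2]
    · have h0 : A T = 0 := by
        by_contra h0
        exact hT ((PMF.mem_support_iff A T).2 h0)
      rw [h0]; simp
  have := congrArg ENNReal.toReal hE
  rw [ENNReal.toReal_mul, ENNReal.toReal_mul, ENNReal.toReal_sum (fun i _ => hne _),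
    ENNReal.toReal_sum (fun i _ => hne _)] at this
  simpa using this

end prob

end Pool.Agent.Lib.MP_8d8c46_lc
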