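import Pool.Agent.Lib.MP_8d8c46_lc.Soundness

/-!
Disjoint unions of systems of equations.
-/

open scoped Classical
open Finset

namespace Pool.Agent.Lib.MP_8d8c46_lc

section
variable {V₁ V₂ E₁ E₂ : Type*}

/-- the disjoint union of two systems -/
def sumx (x₁ : E₁ → Fin 3 → V₁) (x₂ : E₂ → Fin 3 → V₂) : E₁ ⊕ E₂ → Fin 3 → V₁ ⊕ V₂ :=
  Sum.elim (fun e i => Sum.inl (x₁ e i)) (fun e i => Sum.inr (x₂ e i))

lemma occ_inl (x₁ : E₁ → Fin 3 → V₁) (x₂ : E₂ → Fin 3 → V₂) (F : Finset (E₁ ⊕ E₂)) (v : V₁) :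
    occ (sumx x₁ x₂) F (Sum.inl v) = occ x₁ F.toLeft v := by
  unfold occ
  symm
  refine card_bij (fun q _ => (Sum.inl q.1, q.2)) ?_ ?_ ?_
  · rintro ⟨e, i⟩ h
    simp only [mem_filter, mem_product, mem_toLeft, mem_univ, and_true] at h ⊢
    refine ⟨h.1, ?_⟩
    simp only [sumx, Sum.elim_inl, h.2]
  · rintro ⟨e, i⟩ _ ⟨e', i'⟩ _ h
    simp only [Prod.mk.injEq, Sum.inl.injEq] at h
    exact Prod.ext h.1 h.2
  · rintro ⟨e, i⟩ h
    simp only [mem_filter, mem_product, mem_univ, and_true] at h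
    rcases e with e | e
    · refine ⟨(e, i), ?_, rfl⟩
      simp only [mem_filter, mem_product, mem_toLeft, mem_univ, and_true]
      refine ⟨h.1, ?_⟩
      have h2 := h.2
      simp only [sumx, Sum.elim_inl, Sum.inl.injEq] at h2
      exact h2
    · have h2 := h.2
      simp [sumx] at h2

lemma occ_inr (x₁ : E₁ → Fin 3 → V₁) (x₂ : E₂ → Fin 3 → V₂) (F : Finset (E₁ ⊕ E₂)) (v : V₂) :
    occ (sumx x₁ x₂) F (Sum.inr v) = occ x₂ F.toRight v := by
  unfold occ
  symm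
  refine card_bij (fun q _ => (Sum.inr q.1, q.2)) ?_ ?_ ?_
  · rintro ⟨e, i⟩ h
    simp only [mem_filter, mem_product, mem_toRight, mem_univ, and_true] at h ⊢
    refine ⟨h.1, ?_⟩
    simp only [sumx, Sum.elim_inr, h.2]
  · rintro ⟨e, i⟩ _ ⟨e', i'⟩ _ h
    simp only [Prod.mk.injEq, Sum.inr.injEq] at h
    exact Prod.ext h.1 h.2
  · rintro ⟨e, i⟩ h
    simp only [mem_filter, mem_product, mem_univ, and_true] at h
    rcases e with e | e
    · have h2 := h.2
      simp [sumx] at h2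
    · refine ⟨(e, i), ?_, rfl⟩
      simp only [mem_filter, mem_product, mem_toRight, mem_univ, and_true]
      refine ⟨h.1, ?_⟩
      have h2 := h.2
      simp only [sumx, Sum.elim_inr, Sum.inr.injEq] at h2
      exact h2

lemma expands_sum {x₁ : E₁ → Fin 3 → V₁} {x₂ : E₂ → Fin 3 → V₂} {s : ℕ} (h₁ : Expands x₁ s)
    (h₂ : Expands x₂ s) : Expands (sumx x₁ x₂) s := by
  intro F hF U hU
  have hFc : F.toLeft.card + F.toRight.card = F.card := card_toLeft_add_card_toRight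
  have hUc : U.toLeft.card + U.toRight.card = U.card := card_toLeft_add_card_toRight
  by_cases h : 2 * U.toLeft.card < F.toLeft.card
  · obtain ⟨v, hv, hb⟩ := h₁ F.toLeft (by omega) U.toLeft h
    refine ⟨Sum.inl v, fun h' => hv (mem_toLeft.2 h'), ?_⟩
    have hb' : occ x₁ F.toLeft v = 1 := hb
    have : occ (sumx x₁ x₂) F (Sum.inl v) = 1 := by rw [occ_inl]; exact hb'
    exact this
  · have h' : 2 * U.toRight.card < F.toRight.card := by omega
    obtain ⟨v, hv, hb⟩ := h₂ F.toRight (by omega) U.toRight h'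
    refine ⟨Sum.inr v, fun h' => hv (mem_toRight.2 h'), ?_⟩
    have hb' : occ x₂ F.toRight v = 1 := hb
    have : occ (sumx x₁ x₂) F (Sum.inr v) = 1 := by rw [occ_inr]; exact hb'
    exact this

variable [Fintype E₁] [Fintype E₂]

lemma reg_sum {x₁ : E₁ → Fin 3 → V₁} {x₂ : E₂ → Fin 3 → V₂} {D : ℕ} (h₁ : Reg x₁ D)
    (h₂ : Reg x₂ D) : Reg (sumx x₁ x₂) D := by
  intro i v
  rw [card_filter, Fintype.sum_sum_type]
  rcases v with v | v
  · refine (congrArg₂ (· + ·) (?_ : _ = D) (?_ : _ = 0)).trans (add_zero _)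
    · refine Eq.trans ?_ (h₁ i v)
      rw [card_filter]
      refine sum_congr rfl (fun e _ => ?_)
      congr 1
      simp [sumx]
    · refine sum_eq_zero (fun e _ => ?_)
      rw [if_neg]
      simp [sumx]
  · refine (congrArg₂ (· + ·) (?_ : _ = 0) (?_ : _ = D)).trans (zero_add _)
    · refine sum_eq_zero (fun e _ => ?_)
      rw [if_neg]
      simp [sumx]
    · refine Eq.trans ?_ (h₂ i v)
      rw [card_filter]
      refine sum_congr rfl (fun e _ => ?_)
      congr 1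
      simp [sumx]

lemma Lsum_inl (x₁ : E₁ → Fin 3 → V₁) (x₂ : E₂ → Fin 3 → V₂) (b₁ : E₁ → ZMod 2)
    (b₂ : E₂ → ZMod 2) (h : (E₁ ⊕ E₂) × Lab → ℝ) (v : V₁) (a : ZMod 2) :
    Lsum (sumx x₁ x₂) (Sum.elim b₁ b₂) h (Sum.inl v, a) =
      Lsum x₁ b₁ (fun q => h (Sum.inl q.1, q.2)) (v, a) := by
  unfold Lsum
  rw [Fintype.sum_prod_type, Fintype.sum_prod_type, Fintype.sum_sum_type]
  have key : ∀ X Y Z : ℝ, Y = 0 → X = Z → X + Y = Z := by
    intro X Y Z h1 h2; rw [h1, h2, add_zero]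
  refine key _ _ _ ?_ ?_
  · refine sum_eq_zero (fun e _ => sum_eq_zero (fun α _ => sum_eq_zero (fun i _ => ?_)))
    rw [if_neg]
    intro h'
    have := congrArg Prod.fst h'
    simp [lit, sumx] at this
  refine sum_congr rfl (fun e _ => sum_congr rfl (fun α _ => sum_congr rfl (fun i _ => ?_)))
  have : (lit (sumx x₁ x₂) (Sum.elim b₁ b₂) (Sum.inl e, α) i = (Sum.inl v, a)) ↔
      (lit x₁ b₁ (e, α) i = (v, a)) := by
    unfold lit
    rw [Prod.ext_iff, Prod.ext_iff]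
    have hs : sval (Sum.elim b₁ b₂) (Sum.inl e, α) i = sval b₁ (e, α) i := rfl
    rw [hs]
    simp [sumx]
  by_cases h1 : lit x₁ b₁ (e, α) i = (v, a)
  · rw [if_pos (this.2 h1), if_pos h1]
  · rw [if_neg (fun h2 => h1 (this.1 h2)), if_neg h1]

lemma Lsum_inr (x₁ : E₁ → Fin 3 → V₁) (x₂ : E₂ → Fin 3 → V₂) (b₁ : E₁ → ZMod 2)
    (b₂ : E₂ → ZMod 2) (h : (E₁ ⊕ E₂) × Lab → ℝ) (v : V₂) (a : ZMod 2) :
    Lsum (sumx x₁ x₂) (Sum.elim b₁ b₂) h (Sum.inr v, a) =
      Lsum x₂ b₂ (fun q => h (Sum.inr q.1, q.2)) (v, a) := by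
  unfold Lsum
  rw [Fintype.sum_prod_type, Fintype.sum_prod_type, Fintype.sum_sum_type]
  have key : ∀ X Y Z : ℝ, X = 0 → Y = Z → X + Y = Z := by
    intro X Y Z h1 h2; rw [h1, h2, zero_add]
  refine key _ _ _ ?_ ?_
  · refine sum_eq_zero (fun e _ => sum_eq_zero (fun α _ => sum_eq_zero (fun i _ => ?_)))
    rw [if_neg]
    intro h'
    have := congrArg Prod.fst h'
    simp [lit, sumx] at this
  refine sum_congr rfl (fun e _ => sum_congr rfl (fun α _ => sum_congr rfl (fun i _ => ?_)))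
  have : (lit (sumx x₁ x₂) (Sum.elim b₁ b₂) (Sum.inr e, α) i = (Sum.inr v, a)) ↔
      (lit x₂ b₂ (e, α) i = (v, a)) := by
    unfold lit
    rw [Prod.ext_iff, Prod.ext_iff]
    have hs : sval (Sum.elim b₁ b₂) (Sum.inr e, α) i = sval b₂ (e, α) i := rfl
    rw [hs]
    simp [sumx]
  by_cases h1 : lit x₂ b₂ (e, α) i = (v, a)
  · rw [if_pos (this.2 h1), if_pos h1]
  · rw [if_neg (fun h2 => h1 (this.1 h2)), if_neg h1]

lemma quad_sum [Fintype V₁] [Fintype V₂] (x₁ : E₁ → Fin 3 → V₁) (x₂ : E₂ → Fin 3 → V₂)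
    (b₁ : E₁ → ZMod 2) (b₂ : E₂ → ZMod 2) (h : (E₁ ⊕ E₂) × Lab → ℝ) :
    ∑ q, ∑ r, (links (sumx x₁ x₂) (Sum.elim b₁ b₂) q r : ℝ) * h q * h r =
      ∑ q : E₁ × Lab, ∑ r : E₁ × Lab, (links x₁ b₁ q r : ℝ) * h (Sum.inl q.1, q.2) *
        h (Sum.inl r.1, r.2) +
      ∑ q : E₂ × Lab, ∑ r : E₂ × Lab, (links x₂ b₂ q r : ℝ) * h (Sum.inr q.1, q.2) *
        h (Sum.inr r.1, r.2) := by
  have h1 := quad_links x₁ b₁ (fun q => h (Sum.inl q.1, q.2))
  have h2 := quad_links x₂ b₂ (fun q => h (Sum.inr q.1, q.2))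
  rw [quad_links, h1, h2, Fintype.sum_prod_type, Fintype.sum_sum_type, Fintype.sum_prod_type,
    Fintype.sum_prod_type]
  simp only [Lsum_inl, Lsum_inr]

end

section
variable {V E : Type*} [Fintype E]

lemma row_links {x : E → Fin 3 → V} {D : ℕ} (hreg : Reg x D) (b : E → ZMod 2) (q : E × Lab) :
    ∑ r, links x b q r = 18 * D := by
  have h1 : ∀ r, links x b q r = ∑ i, ∑ j, if lit x b r j = lit x b q i then 1 else 0 := by
    intro r
    have := links_eq' x b q r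
    exact_mod_cast this
  simp only [h1]
  rw [sum_comm]
  have h2 : ∀ i : Fin 3, ∑ r, ∑ j, (if lit x b r j = lit x b q i then 1 else 0) = 6 * D := by
    intro i
    rw [sum_comm]
    have h3 : ∀ j : Fin 3, ∑ r, (if lit x b r j = lit x b q i then 1 else 0) = 2 * D := by
      intro j
      rw [← lit_count hreg b j (lit x b q i), card_filter]
    rw [sum_congr rfl (fun j _ => h3 j), sum_const, card_univ, Fintype.card_fin, smul_eq_mul]
    ring
  rw [sum_congr rfl (fun i _ => h2 i), sum_const, card_univ, Fintype.card_fin, smul_eq_mul]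
  ring

lemma row_wgt {x : E → Fin 3 → V} {D : ℕ} (hreg : Reg x D) (b : E → ZMod 2) (u : ℕ)
    (q : E × Lab) : ∑ r, wgt x b u q r = 18 * D + u := by
  unfold wgt
  rw [sum_add_distrib, row_links hreg, sum_ite_eq, if_pos (mem_univ _)]

end

section
variable {V₁ V₂ E₁ E₂ : Type*} [Fintype E₁] [Fintype E₂]

/-- the local solutions of the equations of the first system with all values `0` -/
noncomputable def zeroSet : Finset ((E₁ ⊕ E₂) × Lab) :=
  (univ : Finset E₁).image (fun e => (Sum.inl e, ((0 : ZMod 2), (0 : ZMod 2))))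

omit [Fintype E₂] in
lemma card_zeroSet : (zeroSet : Finset ((E₁ ⊕ E₂) × Lab)).card = Fintype.card E₁ := by
  unfold zeroSet
  rw [card_image_of_injective, card_univ]
  intro e e' h
  simpa using h

lemma wgt_zeroSet {x₁ : E₁ → Fin 3 → V₁} {x₂ : E₂ → Fin 3 → V₂} {D : ℕ} (h₁ : Reg x₁ D)
    (b₂ : E₂ → ZMod 2) (u : ℕ) :
    ∑ q ∈ (zeroSet : Finset ((E₁ ⊕ E₂) × Lab)), ∑ r ∈ (zeroSet : Finset ((E₁ ⊕ E₂) × Lab)),
      wgt (sumx x₁ x₂) (Sum.elim (fun _ => 0) b₂) u q r = Fintype.card E₁ * (9 * D + u) := by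
  have hinj : Function.Injective
      (fun e : E₁ => ((Sum.inl e, ((0 : ZMod 2), (0 : ZMod 2))) : (E₁ ⊕ E₂) × Lab)) := by
    intro e e' h
    simpa using h
  have hs : ∀ e : E₁, sval (Sum.elim (fun _ : E₁ => (0 : ZMod 2)) b₂)
      ((Sum.inl e, (0, 0)) : (E₁ ⊕ E₂) × Lab) = fun _ => 0 := by
    intro e
    funext i
    obtain rfl | rfl | rfl : i = 0 ∨ i = 1 ∨ i = 2 := by fin_cases i <;> simp
    · rfl
    · rfl
    · simp [sval]
  have hlinks : ∀ e e' : E₁, links (sumx x₁ x₂) (Sum.elim (fun _ => 0) b₂)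
      (Sum.inl e, (0, 0)) (Sum.inl e', (0, 0)) =
      ∑ i, ∑ j, if x₁ e' j = x₁ e i then 1 else 0 := by
    intro e e'
    unfold links
    rw [card_filter, Fintype.sum_prod_type]
    refine sum_congr rfl (fun i _ => sum_congr rfl (fun j _ => ?_))
    congr 1
    rw [hs, hs]
    simp only [sumx, Sum.elim_inl, Sum.inl.injEq, and_true, eq_iff_iff]
    exact eq_comm
  unfold zeroSet
  rw [sum_image (fun a _ b _ h => hinj h)]
  have hrow : ∀ e : E₁, ∑ r ∈ (univ : Finset E₁).image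
      (fun e => ((Sum.inl e, ((0 : ZMod 2), (0 : ZMod 2))) : (E₁ ⊕ E₂) × Lab)),
      wgt (sumx x₁ x₂) (Sum.elim (fun _ => 0) b₂) u (Sum.inl e, (0, 0)) r = 9 * D + u := by
    intro e
    rw [sum_image (fun a _ b _ h => hinj h)]
    unfold wgt
    rw [sum_add_distrib]
    congr 1
    · simp only [hlinks]
      rw [sum_comm]
      have h2 : ∀ i : Fin 3, ∑ e', ∑ j, (if x₁ e' j = x₁ e i then 1 else 0) = 3 * D := by
        intro i
        rw [sum_comm]
        have h3 : ∀ j : Fin 3, ∑ e', (if x₁ e' j = x₁ e i then 1 else 0) = D := by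
          intro j
          rw [← h₁ j (x₁ e i), card_filter]
        rw [sum_congr rfl (fun j _ => h3 j), sum_const, card_univ, Fintype.card_fin,
          smul_eq_mul]
      rw [sum_congr rfl (fun i _ => h2 i), sum_const, card_univ, Fintype.card_fin, smul_eq_mul]
      ring
    · refine Eq.trans (b := ∑ e', if e = e' then u else 0) (sum_congr rfl (fun e' _ => ?_)) ?_
      · by_cases h : e = e'
        · rw [if_pos (by rw [h]), if_pos h]
        · rw [if_neg (fun h' => h (hinj h')), if_neg h]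
      · rw [sum_ite_eq, if_pos (mem_univ _)]
  rw [sum_congr rfl (fun e _ => hrow e), sum_const, card_univ, smul_eq_mul]

end

end Pool.Agent.Lib.MP_8d8c46_lc
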