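import Pool.Agent.Lib.MP_8d8c46_lc.Quadratic

/-!
The quadratic form of the links of a random system on functions of mean at most `1/4`.
-/

open Finset

namespace Pool.Agent.Lib.MP_8d8c46_lc

private lemma cnt0 : ∀ a : ZMod 2, ((univ : Finset Lab).filter (fun α => α.1 = a)).card = 2 := by
  decide

private lemma cnt1 : ∀ a : ZMod 2, ((univ : Finset Lab).filter (fun α => α.2 = a)).card = 2 := by
  decide

private lemma cnt2 : ∀ b a : ZMod 2,
    ((univ : Finset Lab).filter (fun α => b + α.1 + α.2 = a)).card = 2 := by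
  decide

open scoped Classical

section general
variable {V E : Type*}

lemma links_eq (x : E → Fin 3 → V) (b : E → ZMod 2) (q r : E × Lab) :
    (links x b q r : ℝ) = ∑ i, ∑ j,
      if ((x r.1 j, sval b r j) : V × ZMod 2) = (x q.1 i, sval b q i) then 1 else 0 := by
  unfold links
  rw [card_filter, Fintype.sum_prod_type]
  push_cast
  refine sum_congr rfl (fun i _ => sum_congr rfl (fun j _ => ?_))
  congr 1
  rw [Prod.ext_iff]
  simp only [eq_iff_iff]
  constructor
  · rintro ⟨h1, h2⟩; exact ⟨h1.symm, h2.symm⟩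
  · rintro ⟨h1, h2⟩; exact ⟨h1.symm, h2.symm⟩

/-- the literal in slot `i` of the local solution `q` -/
def lit (x : E → Fin 3 → V) (b : E → ZMod 2) (q : E × Lab) (i : Fin 3) : V × ZMod 2 :=
  (x q.1 i, sval b q i)

lemma sval_count (b : E → ZMod 2) (e : E) (i : Fin 3) (a : ZMod 2) :
    (univ.filter (fun α : Lab => sval b (e, α) i = a)).card = 2 := by
  obtain rfl | rfl | rfl : i = 0 ∨ i = 1 ∨ i = 2 := by fin_cases i <;> simp
  · refine Eq.trans ?_ (cnt0 a)
    congr 1
  · refine Eq.trans ?_ (cnt1 a)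
    congr 1
  · refine Eq.trans ?_ (cnt2 (b e) a)
    congr 1

lemma links_eq' (x : E → Fin 3 → V) (b : E → ZMod 2) (q r : E × Lab) :
    (links x b q r : ℝ) = ∑ i, ∑ j, if lit x b r j = lit x b q i then 1 else 0 :=
  links_eq x b q r

variable [Fintype E]

/-- In each slot, each variable occurs in exactly `D` equations. -/
def Reg (x : E → Fin 3 → V) (D : ℕ) : Prop :=
  ∀ i v, (univ.filter (fun e => x e i = v)).card = D

lemma lit_count {x : E → Fin 3 → V} {D : ℕ} (hreg : Reg x D) (b : E → ZMod 2) (i : Fin 3)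
    (ℓ : V × ZMod 2) : (univ.filter (fun q : E × Lab => lit x b q i = ℓ)).card = 2 * D := by
  rw [card_filter, Fintype.sum_prod_type]
  have h1 : ∀ e : E, ∑ α : Lab, (if lit x b (e, α) i = ℓ then 1 else 0) =
      if x e i = ℓ.1 then 2 else 0 := by
    intro e
    by_cases he : x e i = ℓ.1
    · rw [if_pos he]
      refine Eq.trans ?_ (sval_count b e i ℓ.2)
      rw [card_filter]
      refine sum_congr rfl (fun α _ => ?_)
      congr 1
      unfold lit
      rw [Prod.ext_iff]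
      simp [he]
    · rw [if_neg he]
      refine sum_eq_zero (fun α _ => ?_)
      rw [if_neg]
      intro h
      exact he (congrArg Prod.fst h)
  rw [sum_congr rfl (fun e _ => h1 e), ← sum_filter, sum_const, hreg i ℓ.1, smul_eq_mul]
  ring

lemma sum_lit [Fintype V] {x : E → Fin 3 → V} {D : ℕ} (hreg : Reg x D) (b : E → ZMod 2)
    (i : Fin 3) (G : V × ZMod 2 → ℝ) : ∑ q, G (lit x b q i) = 2 * D * ∑ ℓ, G ℓ := by
  rw [← Finset.sum_fiberwise (s := univ) (g := fun q => lit x b q i), mul_sum]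
  refine sum_congr rfl (fun ℓ _ => ?_)
  rw [sum_congr rfl (g := fun _ => G ℓ), sum_const, lit_count hreg, nsmul_eq_mul]
  · push_cast; ring
  · intro q hq
    rw [(mem_filter.1 hq).2]

/-- the total of `h` over the local solutions with the literal `ℓ` -/
noncomputable def Lsum (x : E → Fin 3 → V) (b : E → ZMod 2) (h : E × Lab → ℝ)
    (ℓ : V × ZMod 2) : ℝ :=
  ∑ q, ∑ i, if lit x b q i = ℓ then h q else 0

lemma sum_mul_lit [Fintype V] (x : E → Fin 3 → V) (b : E → ZMod 2) (h : E × Lab → ℝ)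
    (G : V × ZMod 2 → ℝ) : ∑ q, h q * ∑ i, G (lit x b q i) = ∑ ℓ, G ℓ * Lsum x b h ℓ := by
  unfold Lsum
  simp only [mul_sum]
  symm
  rw [sum_comm]
  refine sum_congr rfl (fun q _ => ?_)
  rw [sum_comm]
  refine sum_congr rfl (fun i _ => ?_)
  rw [Finset.sum_eq_single (lit x b q i)]
  · rw [if_pos rfl]; ring
  · intro ℓ _ hne
    rw [if_neg (fun h' => hne h'.symm)]; ring
  · intro h'; exact absurd (mem_univ _) h'

lemma quad_links [Fintype V] (x : E → Fin 3 → V) (b : E → ZMod 2) (h : E × Lab → ℝ) :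
    ∑ q, ∑ r, (links x b q r : ℝ) * h q * h r = ∑ ℓ, Lsum x b h ℓ ^ 2 := by
  have h1 := sum_mul_lit x b h (Lsum x b h)
  simp only [← sq] at h1
  rw [← h1]
  refine sum_congr rfl (fun q _ => ?_)
  simp only [links_eq']
  have h2 : ∀ i, Lsum x b h (lit x b q i) =
      ∑ r, (∑ j, if lit x b r j = lit x b q i then (1 : ℝ) else 0) * h r := by
    intro i
    unfold Lsum
    refine sum_congr rfl (fun r _ => ?_)
    rw [sum_mul]
    refine sum_congr rfl (fun j _ => ?_)
    split_ifs <;> ring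
  simp only [h2]
  rw [sum_comm (s := (univ : Finset (Fin 3))), mul_sum]
  refine sum_congr rfl (fun r _ => ?_)
  rw [sum_mul, sum_mul, mul_sum]
  refine sum_congr rfl (fun i _ => ?_)
  ring

lemma Lsum_nonneg (x : E → Fin 3 → V) (b : E → ZMod 2) {h : E × Lab → ℝ} (hh : ∀ q, 0 ≤ h q)
    (ℓ : V × ZMod 2) : 0 ≤ Lsum x b h ℓ :=
  sum_nonneg (fun q _ => sum_nonneg (fun i _ => by split_ifs; exacts [hh q, le_rfl]))

lemma Lsum_le {x : E → Fin 3 → V} {D : ℕ} (hreg : Reg x D) (b : E → ZMod 2)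
    {h : E × Lab → ℝ} (hh : ∀ q, h q ≤ 1) (ℓ : V × ZMod 2) : Lsum x b h ℓ ≤ 6 * D := by
  unfold Lsum
  rw [sum_comm]
  have h1 : ∀ i, ∑ q, (if lit x b q i = ℓ then h q else 0) ≤ 2 * D := by
    intro i
    have h2 : ∑ q, (if lit x b q i = ℓ then h q else 0) ≤
        ∑ q : E × Lab, (if lit x b q i = ℓ then (1 : ℝ) else 0) := by
      refine sum_le_sum (fun q _ => ?_)
      split_ifs
      exacts [hh q, le_rfl]
    refine h2.trans (le_of_eq ?_)
    have h3 := lit_count hreg b i ℓ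
    rw [card_filter] at h3
    exact_mod_cast h3
  refine (sum_le_sum (fun i _ => h1 i)).trans (le_of_eq ?_)
  rw [sum_const, card_univ, Fintype.card_fin, nsmul_eq_mul]
  push_cast; ring

end general

section random
variable {n D : ℕ}

lemma rx_reg (ω : Fin D → Om n) : Reg (rx ω) D := by
  intro i v
  have key : ∀ f : Fin D → Equiv.Perm (Fin n),
      (univ.filter (fun e : Fin n × Fin D => f e.2 e.1 = v)).card = D := by
    intro f
    have : univ.filter (fun e : Fin n × Fin D => f e.2 e.1 = v) =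
        univ.image (fun j : Fin D => ((f j).symm v, j)) := by
      ext ⟨i, j⟩
      simp only [mem_filter, mem_univ, true_and, mem_image, Prod.mk.injEq]
      constructor
      · intro h
        exact ⟨j, by rw [← h, Equiv.symm_apply_apply], rfl⟩
      · rintro ⟨j', h1, rfl⟩
        rw [← h1, Equiv.apply_symm_apply]
    rw [this, card_image_of_injective, card_univ, Fintype.card_fin]
    intro j j' h
    exact (Prod.mk.inj h).2
  obtain rfl | rfl | rfl : i = 0 ∨ i = 1 ∨ i = 2 := by fin_cases i <;> simp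
  · convert key (fun _ => 1)
    rfl
  · convert key (fun j => (ω j).1)
    rfl
  · convert key (fun j => (ω j).2.1)
    rfl

/-- The quadratic form of the links for functions of mean at most `1/4`. -/
theorem sound {ω : Fin D → Om n} (hn : 0 < n) (hD : 0 < D) {ε : ℝ} (hε : 0 ≤ ε)
    (hq1 : QR ω test1 ε) (hq2 : QR ω test2 ε) {h : (Fin n × Fin D) × Lab → ℝ}
    (hh : ∀ q, 0 ≤ h q ∧ h q ≤ 1) (hsum : ∑ q, h q ≤ n * D) :
    ∑ q, ∑ r, (links (rx ω) (rb ω) q r : ℝ) * h q * h r ≤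
      18 * D * (983 / 2000 * ∑ q, h q + 4 * n * D * (ε / 3)) := by
  have hn' : (0 : ℝ) < n := by exact_mod_cast hn
  have hD' : (0 : ℝ) < D := by exact_mod_cast hD
  set x := rx ω with hx
  set b := rb ω with hb
  set F : Fin n × ZMod 2 → ℝ := fun ℓ => Lsum x b h ℓ / (6 * D) with hF
  have hLF : ∀ ℓ, Lsum x b h ℓ = 6 * D * F ℓ := by
    intro ℓ; rw [hF]; field_simp
  have hF01 : ∀ ℓ, 0 ≤ F ℓ ∧ F ℓ ≤ 1 := by
    intro ℓ
    rw [hF]
    refine ⟨div_nonneg (Lsum_nonneg x b (fun q => (hh q).1) ℓ) (by positivity), ?_⟩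
    rw [div_le_one (by positivity)]
    exact Lsum_le (rx_reg ω) b (fun q => (hh q).2) ℓ
  have hcardL : (Fintype.card (Fin n × ZMod 2) : ℝ) = 2 * n := by
    rw [Fintype.card_prod, Fintype.card_fin, ZMod.card]; push_cast; ring
  have hcardM : ∑ _q : (Fin n × Fin D) × Lab, (1 : ℝ) = 4 * n * D := by
    rw [sum_const, card_univ, Fintype.card_prod, Fintype.card_prod, Fintype.card_prod, ZMod.card,
      Fintype.card_fin, Fintype.card_fin, nsmul_eq_mul]
    push_cast; ring
  set S1 := ∑ ℓ, F ℓ with hS1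
  set S2 := ∑ ℓ, F ℓ ^ 2 with hS2
  set H := ∑ q, h q with hH
  -- the sum of `F`
  have e1 : H = 2 * D * S1 := by
    have h1 := sum_mul_lit x b h (fun _ => (1 : ℝ))
    simp only [sum_const, card_univ, Fintype.card_fin, nsmul_eq_mul, one_mul, hLF] at h1
    rw [← sum_mul, ← mul_sum, ← hH, ← hS1] at h1
    push_cast at h1
    linarith
  -- the sum of `h T`
  have e2 : ∑ q, h q * ∑ i, F (lit x b q i) = 6 * D * S2 := by
    rw [sum_mul_lit x b h F]
    simp only [hLF]
    rw [hS2, mul_sum]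
    exact sum_congr rfl (fun ℓ _ => by ring)
  -- the sum of `T`
  have e3 : ∑ q, ∑ i, F (lit x b q i) = 6 * D * S1 := by
    rw [sum_comm]
    have h1 : ∀ i, ∑ q, F (lit x b q i) = 2 * D * ∑ ℓ, F ℓ :=
      fun i => sum_lit (rx_reg ω) b i F
    simp only [h1, sum_const, card_univ, Fintype.card_fin, nsmul_eq_mul]
    push_cast; ring
  have e4 : ∑ q, ∑ r, (links x b q r : ℝ) * h q * h r = 36 * D ^ 2 * S2 := by
    rw [quad_links]
    simp only [hLF]
    rw [hS2, mul_sum]
    exact sum_congr rfl (fun ℓ _ => by ring)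
  set T : (Fin n × Fin D) × Lab → ℝ := fun q => ∑ i, F (lit x b q i) with hT
  set μ := S1 / (2 * n) with hμ
  set κ := S2 / (2 * n) with hκ
  have hS1' : S1 = 2 * n * μ := by rw [hμ]; field_simp
  have hS2' : S2 = 2 * n * κ := by rw [hκ]; field_simp
  have hμ0 : 0 ≤ μ := div_nonneg (sum_nonneg (fun ℓ _ => (hF01 ℓ).1)) (by positivity)
  have hμ1 : μ ≤ 1 / 4 := by
    rw [e1, hS1'] at hsum
    have : 4 * (n * D : ℝ) * μ ≤ 4 * (n * D) * (1 / 4) := by linarith
    exact le_of_mul_le_mul_left this (by positivity)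
  -- the first test
  have t1 : ∑ q, T q ^ 2 ≤ 4 * n * D * (3 * κ + 6 * μ ^ 2 + ε) := by
    have h1 := hq1 F hF01
    have h2 : emp ω test1 F = ∑ q, T q ^ 2 := rfl
    have h3 : tri test1 F = 12 * n ^ 2 * S2 + 12 * n * S1 ^ 2 := by
      have := tri_sq F 0
      rw [hcardL, ← hS1, ← hS2] at this
      have h4 : tri test1 F = tri (fun T => (T - 0) ^ 2) F := by
        unfold tri test1; simp only [sub_zero]
      rw [h4, this]; ring
    rw [h2, h3, hS1', hS2'] at h1
    refine h1.trans (le_of_eq ?_)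
    field_simp
    ring
  have p1 : 0 ≤ ∑ q, (h q - 2 * (h q * T q) + 4 * μ * h q + T q ^ 2 - 4 * μ * T q +
      4 * μ ^ 2 * 1) := by
    refine sum_nonneg (fun q _ => ?_)
    have h1 := mul_nonneg (hh q).1 (sub_nonneg.2 (hh q).2)
    have h2 := sq_nonneg (h q - (T q - 2 * μ))
    have e : h q - 2 * (h q * T q) + 4 * μ * h q + T q ^ 2 - 4 * μ * T q + 4 * μ ^ 2 * 1 =
        (h q - (T q - 2 * μ)) ^ 2 + h q * (1 - h q) := by ring
    rw [e]
    linarith
  have hTs : ∑ q, T q = 6 * D * S1 := e3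
  have hhT : ∑ q, h q * T q = 6 * D * S2 := e2
  have c1 : 3 * κ ≤ μ + 2 * μ ^ 2 + ε := by
    rw [sum_add_distrib, sum_sub_distrib, sum_add_distrib, sum_add_distrib, sum_sub_distrib,
      ← mul_sum, ← mul_sum, ← mul_sum, ← mul_sum, hcardM, hhT, hTs, ← hH, e1, hS1', hS2'] at p1
    have h5 : 0 ≤ 4 * (n * D : ℝ) * (μ + 2 * μ ^ 2 + ε - 3 * κ) := by linarith
    have h6 := nonneg_of_mul_nonneg_right h5 (by positivity)
    linarith
  -- the second test
  set v := κ - μ ^ 2 with hv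
  have t2 : ∑ q, test2 (T q) ≤ 4 * n * D * (((3 * μ - 1 / 2) ^ 2 + 3 * v) - 48 / 25 * v ^ 2 + ε)
      := by
    have h1 := hq2 F hF01
    have h2 : emp ω test2 F = ∑ q, test2 (T q) := rfl
    have h3 : tri test2 F = tri (fun T => (T - 1 / 2) ^ 2) F -
        4 / 25 * tri (fun T => ((T - 1 / 2) ^ 2 - (T - 1 / 2)) ^ 2) F := by
      unfold tri test2
      simp only [sum_sub_distrib, mul_sum]
    have h4 := tri_quartic F (μ := μ) (v := v) (by rw [hcardL, ← hS1, hS1'])
      (by rw [hcardL, ← hS2, hS2', hv]; ring)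
    have h5 := tri_sq F (1 / 2)
    rw [hcardL, ← hS1, ← hS2] at h5
    rw [hcardL] at h4
    have h6 : tri test2 F ≤ 8 * n ^ 3 * (((3 * μ - 1 / 2) ^ 2 + 3 * v) - 48 / 25 * v ^ 2) := by
      rw [h3, h5, hS1', hS2']
      have h7 : (κ : ℝ) = μ ^ 2 + v := by rw [hv]; ring
      rw [h7]
      linarith
    rw [h2] at h1
    refine h1.trans ?_
    have h8 : tri test2 F / (2 * n ^ 2) ≤
        4 * n * (((3 * μ - 1 / 2) ^ 2 + 3 * v) - 48 / 25 * v ^ 2) := by
      rw [div_le_iff₀ (by positivity)]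
      refine h6.trans (le_of_eq ?_)
      ring
    calc (D : ℝ) * (tri test2 F / (2 * n ^ 2) + 4 * n * ε)
        ≤ D * (4 * n * (((3 * μ - 1 / 2) ^ 2 + 3 * v) - 48 / 25 * v ^ 2) + 4 * n * ε) :=
          mul_le_mul_of_nonneg_left (by linarith) hD'.le
      _ = _ := by ring
  have hT03 : ∀ q, 0 ≤ T q ∧ T q ≤ 3 := by
    intro q
    simp only [hT]
    rw [Fin.sum_univ_three]
    have a0 := hF01 (lit x b q 0)
    have a1 := hF01 (lit x b q 1)
    have a2 := hF01 (lit x b q 2)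
    constructor <;> linarith
  have p2 : 0 ≤ ∑ q, (h q - 2 * (h q * T q) + h q + test2 (T q)) := by
    refine sum_nonneg (fun q _ => ?_)
    have h1 := (hh q).1
    have h2 := (hh q).2
    obtain ⟨h3, h4⟩ := hT03 q
    unfold test2
    set P := T q - 1 / 2 with hP
    have hTP : T q = P + 1 / 2 := by rw [hP]; ring
    have hP1 : -(1 / 2) ≤ P := by rw [hP]; linarith
    have hP2 : P ≤ 5 / 2 := by rw [hP]; linarith
    rw [hTP]
    -- linear in `h q`: the two extreme cases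
    have q0 : 0 ≤ P ^ 2 - 4 / 25 * (P ^ 2 - P) ^ 2 := by
      have : P ^ 2 - 4 / 25 * (P ^ 2 - P) ^ 2 = 4 / 25 * (P ^ 2 * ((7 / 2 - P) * (P + 3 / 2))) := by
        ring
      rw [this]
      have : 0 ≤ (7 / 2 - P) * (P + 3 / 2) := mul_nonneg (by linarith) (by linarith)
      positivity
    have q1 : 0 ≤ 1 - 2 * P + P ^ 2 - 4 / 25 * (P ^ 2 - P) ^ 2 := by
      have : 1 - 2 * P + P ^ 2 - 4 / 25 * (P ^ 2 - P) ^ 2 =
          4 / 25 * ((P - 1) ^ 2 * ((5 / 2 - P) * (P + 5 / 2))) := by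
        ring
      rw [this]
      have : 0 ≤ (5 / 2 - P) * (P + 5 / 2) := mul_nonneg (by linarith) (by linarith)
      positivity
    have e : h q - 2 * (h q * (P + 1 / 2)) + h q + (P ^ 2 - 4 / 25 * (P ^ 2 - P) ^ 2) =
        (1 - h q) * (P ^ 2 - 4 / 25 * (P ^ 2 - P) ^ 2) +
        h q * (1 - 2 * P + P ^ 2 - 4 / 25 * (P ^ 2 - P) ^ 2) := by ring
    rw [e]
    have := mul_nonneg (sub_nonneg.2 h2) q0
    have := mul_nonneg h1 q1
    linarith
  have c2 : 6 * κ - 2 * μ ≤ ((3 * μ - 1 / 2) ^ 2 + 3 * v) - 48 / 25 * v ^ 2 + ε := by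
    rw [sum_add_distrib, sum_add_distrib, sum_sub_distrib, ← mul_sum, hhT, ← hH, e1, hS1',
      hS2'] at p2
    have h5 : 0 ≤ 4 * (n * D : ℝ) * (((3 * μ - 1 / 2) ^ 2 + 3 * v) - 48 / 25 * v ^ 2 + ε -
        (6 * κ - 2 * μ)) := by linarith
    have h6 := nonneg_of_mul_nonneg_right h5 (by positivity)
    linarith
  have hfin := numeric hμ0 hμ1 hv hε c1 c2
  rw [e4, e1, hS1', hS2']
  have h7 : 72 * (n * D ^ 2 : ℝ) * κ ≤ 72 * (n * D ^ 2) * (983 / 2000 * μ + ε / 3) :=
    mul_le_mul_of_nonneg_left hfin (by positivity)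
  linarith

end random

end Pool.Agent.Lib.MP_8d8c46_lc
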