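import Mathlib

/-!
Random restrictions, decision trees and the switching lemma for disjunctive normal forms,
in a self-contained form with the constant `1 / (16 w)`.
-/

open scoped Classical

namespace Pool.Agent.Lib.MP_8d8c46_lc

/-- The Boolean cube on `m` coordinates. -/
abbrev Cube (m : ℕ) := Fin m → Bool

/-- A restriction (also used for terms): every coordinate is fixed (`some b`) or free (`none`). -/
abbrev Restr (m : ℕ) := Fin m → Option Bool

variable {m : ℕ}

/-- Fill the free coordinates of `ρ` with the bits of `x`. -/
def app (ρ : Restr m) (x : Cube m) : Cube m := fun i => (ρ i).getD (x i)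

/-- `DT n f`: the function `f` is computed by a decision tree of depth at most `n`. -/
inductive DT : ℕ → (Cube m → Bool) → Prop
  | const (n : ℕ) (f : Cube m → Bool) (b : Bool) (h : ∀ x, f x = b) : DT n f
  | query (n : ℕ) (f : Cube m → Bool) (i : Fin m)
      (h : ∀ b, DT n (fun x => f (Function.update x i b))) : DT (n + 1) f

lemma DT.succ {n : ℕ} {f : Cube m → Bool} (h : DT n f) : DT (n + 1) f := by
  induction h with
  | const n f b h => exact DT.const _ f b h
  | query n f i h ih => exact DT.query _ f i ih

lemma DT.mono {n k : ℕ} {f : Cube m → Bool} (h : DT n f) (hk : n ≤ k) : DT k f := by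
  induction hk with
  | refl => exact h
  | step _ ih => exact ih.succ

lemma DT.not {n : ℕ} {f : Cube m → Bool} (h : DT n f) : DT n (fun x => !(f x)) := by
  induction h with
  | const n f b h => exact DT.const _ _ (!b) (fun x => by rw [h x])
  | query n f i h ih => exact DT.query _ _ i ih

lemma DT.app {n : ℕ} {f : Cube m → Bool} (h : DT n f) (ρ : Restr m) :
    DT n (fun x => f (app ρ x)) := by
  induction h with
  | const n f b h => exact DT.const _ _ b (fun x => h _)
  | query n f i h ih =>
    cases hi : ρ i with
    | none =>
      refine DT.query _ _ i (fun b => ?_)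
      have := ih b
      convert this using 3 with x
      funext j
      by_cases hj : j = i
      · subst hj; simp [Pool.Agent.Lib.MP_8d8c46_lc.app, hi]
      · simp [Pool.Agent.Lib.MP_8d8c46_lc.app, Function.update, hj]
    | some b =>
      have := (ih b).succ
      convert this using 3 with x
      funext j
      by_cases hj : j = i
      · subst hj; simp [Pool.Agent.Lib.MP_8d8c46_lc.app, hi]
      · simp [Pool.Agent.Lib.MP_8d8c46_lc.app, Function.update, hj]

/-- Flip coordinate `i`. -/
def flipBit (x : Cube m) (i : Fin m) : Cube m := Function.update x i (!(x i))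

/-- A decision tree of depth `n` has sensitivity at most `n` everywhere. -/
lemma DT.sens {n : ℕ} {f : Cube m → Bool} (h : DT n f) (x : Cube m) :
    (Finset.univ.filter (fun i => f x ≠ f (flipBit x i))).card ≤ n := by
  induction h generalizing x with
  | const n f b h => simp [h]
  | query n f i h ih =>
    have h1 := ih (x i) x
    refine le_trans (Finset.card_le_card (t := insert i (Finset.univ.filter
      (fun j => f (Function.update x i (x i)) ≠
        f (Function.update (flipBit x j) i (x i))))) ?_) ?_
    · intro j hj
      simp only [Finset.mem_filter, Finset.mem_univ, true_and] at hj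
      simp only [Finset.mem_insert, Finset.mem_filter, Finset.mem_univ, true_and]
      by_cases hji : j = i
      · exact Or.inl hji
      · refine Or.inr ?_
        have e1 : Function.update x i (x i) = x := Function.update_eq_self i x
        have e2 : Function.update (flipBit x j) i (x i) = flipBit x j := by
          have : (flipBit x j) i = x i := by
            simp [flipBit, Function.update, Ne.symm hji]
          rw [← this]; exact Function.update_eq_self _ _
        rw [e1, e2]; exact hj
    · exact le_trans (Finset.card_insert_le _ _) (Nat.succ_le_succ h1)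

/-- Set the coordinates of `x` in `Y` according to membership in `A`. -/
def setOn (Y A : Finset (Fin m)) (x : Cube m) : Cube m :=
  fun i => if i ∈ Y then decide (i ∈ A) else x i

lemma DT.queryAll (Y : Finset (Fin m)) : ∀ {n : ℕ} {f : Cube m → Bool},
    (∀ A ⊆ Y, DT n (fun x => f (setOn Y A x))) → DT (n + Y.card) f := by
  induction Y using Finset.induction_on with
  | empty =>
    intro n f h
    have := h ∅ (by simp)
    have e : ∀ x : Cube m, setOn ∅ ∅ x = x := fun x => by funext i; simp [setOn]
    simpa only [e, Finset.card_empty, add_zero] using this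
  | insert i Y hi ih =>
    intro n f h
    rw [Finset.card_insert_of_notMem hi, ← add_assoc]
    refine DT.query _ _ i (fun b => ?_)
    refine ih (fun A hA => ?_)
    have h2 := h (if b then insert i A else A) (by
      cases b
      · exact hA.trans (Finset.subset_insert _ _)
      · exact Finset.insert_subset_insert _ hA)
    convert h2 using 3 with x
    funext j
    by_cases hj : j = i
    · subst hj
      have : j ∉ A := fun hh => hi (hA hh)
      cases b <;> simp [setOn, this]
    · cases b <;> simp [setOn, Function.update, hj]

/-- The set of coordinates mentioned by a term. -/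
def supp (T : Restr m) : Finset (Fin m) := Finset.univ.filter (fun i => T i ≠ none)

/-- A term is satisfied by a restriction if all its literals are set the right way. -/
def Sat (T ρ : Restr m) : Prop := ∀ i, T i ≠ none → ρ i = T i

/-- A term is falsified by a restriction if one of its literals is set the wrong way. -/
def Fals (T ρ : Restr m) : Prop := ∃ i, T i ≠ none ∧ ρ i ≠ none ∧ ρ i ≠ T i

/-- The free coordinates of a term under a restriction. -/
def stars (T ρ : Restr m) : Finset (Fin m) :=
  Finset.univ.filter (fun i => T i ≠ none ∧ ρ i = none)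

/-- A term holds at a point of the cube. -/
def Holds (T : Restr m) (x : Cube m) : Prop := ∀ i, T i ≠ none → T i = some (x i)

/-- Extend `ρ` by setting `Y` according to membership in `A`. -/
def ext (ρ : Restr m) (Y A : Finset (Fin m)) : Restr m :=
  fun i => if i ∈ Y then some (decide (i ∈ A)) else ρ i

/-- Overwrite `ρ` on `Y` with the values of `T`. -/
def put (ρ : Restr m) (Y : Finset (Fin m)) (T : Restr m) : Restr m :=
  fun i => if i ∈ Y then T i else ρ i

lemma app_ext (ρ : Restr m) (Y A : Finset (Fin m)) (hY : ∀ i ∈ Y, ρ i = none) (x : Cube m) :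
    app (ext ρ Y A) x = app ρ (setOn Y A x) := by
  funext i
  by_cases hi : i ∈ Y
  · simp [app, ext, setOn, hi, hY i hi]
  · simp [app, ext, setOn, hi]

/-- The canonical decision tree of the formula `L 0 ∨ L 1 ∨ ...` under `ρ` has depth at
least `t`. -/
inductive Bad {r : ℕ} (L : Fin r → Restr m) : ℕ → Restr m → Prop
  | zero (ρ : Restr m) : Bad L 0 ρ
  | step (t : ℕ) (ρ : Restr m) (i : Fin r) (A : Finset (Fin m))
      (hlt : ∀ j < i, Fals (L j) ρ) (hi : ¬ Fals (L i) ρ)
      (hne : (stars (L i) ρ).Nonempty) (hA : A ⊆ stars (L i) ρ)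
      (h : Bad L (t - (stars (L i) ρ).card) (ext ρ (stars (L i) ρ) A)) : Bad L t ρ

lemma holds_app_of_sat {T ρ : Restr m} (h : Sat T ρ) (x : Cube m) : Holds T (app ρ x) := by
  intro i hi
  have := h i hi
  cases hT : T i with
  | none => exact absurd hT hi
  | some b => rw [hT] at this; simp [app, this]

lemma not_holds_app_of_fals {T ρ : Restr m} (h : Fals T ρ) (x : Cube m) :
    ¬ Holds T (app ρ x) := by
  rintro hx
  obtain ⟨i, h1, h2, h3⟩ := h
  have := hx i h1
  cases hρ : ρ i with
  | none => exact h2 hρ
  | some b =>
    apply h3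
    rw [this]; simp [app, hρ]

lemma sat_of_not_fals {T ρ : Restr m} (h : ¬ Fals T ρ) (hs : stars T ρ = ∅) : Sat T ρ := by
  intro i hi
  by_contra hne
  apply h
  refine ⟨i, hi, ?_, hne⟩
  intro hn
  have : i ∈ stars T ρ := by simp [stars, hi, hn]
  rw [hs] at this
  simp at this

/-- If the canonical decision tree has depth less than `t`, then so has the function. -/
lemma dt_of_not_bad {r : ℕ} (L : Fin r → Restr m) (f : Cube m → Bool)
    (hf : ∀ x, f x = true ↔ ∃ i, Holds (L i) x) :
    ∀ (t : ℕ) (ρ : Restr m), ¬ Bad L (t + 1) ρ → DT t (fun x => f (app ρ x)) := by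
  intro t
  induction t using Nat.strong_induction_on with
  | _ t ih =>
    intro ρ hb
    by_cases hall : ∀ i, Fals (L i) ρ
    · refine DT.const _ _ false (fun x => ?_)
      by_contra hc
      have : f (app ρ x) = true := by simpa using hc
      obtain ⟨i, hi⟩ := (hf _).1 this
      exact not_holds_app_of_fals (hall i) x hi
    · push Not at hall
      obtain ⟨i, hi, hmin⟩ : ∃ i, ¬ Fals (L i) ρ ∧ ∀ j < i, Fals (L j) ρ := by
        obtain ⟨i0, hi0⟩ := hall
        have hne : (Finset.univ.filter (fun i => ¬ Fals (L i) ρ)).Nonempty :=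
          ⟨i0, by simp [hi0]⟩
        refine ⟨(Finset.univ.filter (fun i => ¬ Fals (L i) ρ)).min' hne, ?_, ?_⟩
        · have := Finset.min'_mem _ hne
          simpa using this
        · intro j hj
          by_contra hc
          have : j ∈ Finset.univ.filter (fun i => ¬ Fals (L i) ρ) := by simp [hc]
          exact absurd (Finset.min'_le _ _ this) (not_le.2 hj)
      by_cases hs : stars (L i) ρ = ∅
      · refine DT.const _ _ true (fun x => ?_)
        exact (hf _).2 ⟨i, holds_app_of_sat (sat_of_not_fals hi hs) x⟩
      · have hne : (stars (L i) ρ).Nonempty := Finset.nonempty_iff_ne_empty.2 hs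
        have hc : 1 ≤ (stars (L i) ρ).card := hne.card_pos
        have key : ∀ A ⊆ stars (L i) ρ,
            ¬ Bad L (t + 1 - (stars (L i) ρ).card) (ext ρ (stars (L i) ρ) A) :=
          fun A hA hbad => hb (Bad.step _ _ i A hmin hi hne hA hbad)
        have hct : (stars (L i) ρ).card ≤ t := by
          by_contra hcon
          push Not at hcon
          have : t + 1 - (stars (L i) ρ).card = 0 := by omega
          exact key ∅ (by simp) (this ▸ Bad.zero _)
        have h2 : DT (t - (stars (L i) ρ).card + (stars (L i) ρ).card)
            (fun x => f (app ρ x)) := by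
          refine DT.queryAll _ (fun A hA => ?_)
          have h3 := ih (t - (stars (L i) ρ).card) (by omega) (ext ρ (stars (L i) ρ) A)
            (by
              have := key A hA
              have e : t + 1 - (stars (L i) ρ).card = t - (stars (L i) ρ).card + 1 := by omega
              rwa [e] at this)
          convert h3 using 3 with x
          rw [app_ext]
          intro j hj
          simp only [stars, Finset.mem_filter, Finset.mem_univ, true_and] at hj
          exact hj.2
        rwa [Nat.sub_add_cancel hct] at h2

/-- The weight of a single coordinate: free with probability `p`, each of the two fixed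
values with probability `(1 - p) / 2`. -/
noncomputable def wt1 (p : ℝ) (o : Option Bool) : ℝ := if o = none then p else (1 - p) / 2

/-- The weight of a restriction. -/
noncomputable def wt (p : ℝ) (ρ : Restr m) : ℝ := ∏ i, wt1 p (ρ i)

lemma wt_nonneg {p : ℝ} (h0 : 0 ≤ p) (h1 : p ≤ 1) (ρ : Restr m) : 0 ≤ wt p ρ := by
  refine Finset.prod_nonneg (fun i _ => ?_)
  unfold wt1
  split_ifs
  · exact h0
  · linarith

/-- The weight of a set of restrictions. -/
noncomputable def W (p : ℝ) (E : Restr m → Prop) : ℝ := ∑ ρ : Restr m, if E ρ then wt p ρ else 0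

lemma W_mono {p : ℝ} (h0 : 0 ≤ p) (h1 : p ≤ 1) {E F : Restr m → Prop} (h : ∀ ρ, E ρ → F ρ) :
    W p E ≤ W p F := by
  refine Finset.sum_le_sum (fun ρ _ => ?_)
  by_cases hE : E ρ
  · simp [hE, h ρ hE]
  · simp only [hE, if_false]
    split_ifs
    · exact wt_nonneg h0 h1 ρ
    · exact le_rfl

lemma W_nonneg {p : ℝ} (h0 : 0 ≤ p) (h1 : p ≤ 1) (E : Restr m → Prop) : 0 ≤ W p E := by
  refine Finset.sum_nonneg (fun ρ _ => ?_)
  split_ifs
  · exact wt_nonneg h0 h1 ρ
  · exact le_rfl

/-- Union bound for weights. -/
lemma W_union {p : ℝ} (h0 : 0 ≤ p) (h1 : p ≤ 1) {ι : Type*} (s : Finset ι)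
    (E : Restr m → Prop) (F : ι → Restr m → Prop) (h : ∀ ρ, E ρ → ∃ i ∈ s, F i ρ) :
    W p E ≤ ∑ i ∈ s, W p (F i) := by
  unfold W
  rw [Finset.sum_comm]
  refine Finset.sum_le_sum (fun ρ _ => ?_)
  by_cases hE : E ρ
  · obtain ⟨i, hi, hF⟩ := h ρ hE
    simp only [hE, if_true]
    calc wt p ρ = if F i ρ then wt p ρ else 0 := by simp [hF]
      _ ≤ _ := Finset.single_le_sum (f := fun i => if F i ρ then wt p ρ else 0)
        (fun j _ => by
          split_ifs
          · exact wt_nonneg h0 h1 ρ
          · exact le_rfl) hi
  · simp only [hE, if_false]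
    refine Finset.sum_nonneg (fun j _ => ?_)
    split_ifs
    · exact wt_nonneg h0 h1 ρ
    · exact le_rfl

/-- A set of restrictions is closed if it is stable under fixing further coordinates. -/
def Closed (E : Restr m → Prop) : Prop :=
  ∀ ρ, E ρ → ∀ i, ρ i = none → ∀ b, E (Function.update ρ i (some b))

/-- Comparison of weights of two events along a map that is injective on the first event. -/
lemma W_le_of_map {p c : ℝ} (h0 : 0 ≤ p) (h1 : p ≤ 1) (hc : 0 ≤ c) {E F : Restr m → Prop}
    (φ : Restr m → Restr m) (hφ : ∀ ρ, E ρ → F (φ ρ))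
    (hinj : ∀ ρ σ, E ρ → E σ → φ ρ = φ σ → ρ = σ)
    (hw : ∀ ρ, E ρ → wt p ρ = c * wt p (φ ρ)) :
    W p E ≤ c * W p F := by
  unfold W
  rw [Finset.mul_sum, ← Finset.sum_filter, ]
  calc ∑ ρ ∈ Finset.univ.filter (fun ρ : Restr m => E ρ), wt p ρ
      = ∑ ρ ∈ Finset.univ.filter (fun ρ : Restr m => E ρ), c * wt p (φ ρ) := by
        refine Finset.sum_congr rfl (fun ρ hρ => hw ρ ?_)
        simpa using hρ
    _ = ∑ τ ∈ (Finset.univ.filter (fun ρ : Restr m => E ρ)).image φ, c * wt p τ := by
        rw [Finset.sum_image]
        intro a ha b hb hab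
        have ha' : E a := by simpa using ha
        have hb' : E b := by simpa using hb
        exact hinj a b ha' hb' hab
    _ ≤ ∑ τ : Restr m, c * (if F τ then wt p τ else 0) := by
        calc ∑ τ ∈ (Finset.univ.filter (fun ρ : Restr m => E ρ)).image φ, c * wt p τ
            = ∑ τ ∈ (Finset.univ.filter (fun ρ : Restr m => E ρ)).image φ,
                c * (if F τ then wt p τ else 0) := by
              refine Finset.sum_congr rfl (fun τ hτ => ?_)
              simp only [Finset.mem_image, Finset.mem_filter, Finset.mem_univ, true_and] at hτ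
              obtain ⟨ρ, hρ, rfl⟩ := hτ
              simp [hφ ρ hρ]
          _ ≤ _ := by
              refine Finset.sum_le_sum_of_subset_of_nonneg (Finset.subset_univ _) ?_
              intro τ _ _
              refine mul_nonneg hc ?_
              split_ifs
              · exact wt_nonneg h0 h1 τ
              · exact le_rfl

lemma closed_put {E : Restr m → Prop} (hE : Closed E) (T : Restr m) :
    ∀ (Y : Finset (Fin m)) (ρ : Restr m), E ρ → (∀ i ∈ Y, ρ i = none ∧ T i ≠ none) →
      E (put ρ Y T) := by
  intro Y
  induction Y using Finset.induction_on with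
  | empty =>
    intro ρ h _
    have : put ρ ∅ T = ρ := by funext i; simp [put]
    rw [this]; exact h
  | insert a Y ha ih =>
    intro ρ h hY
    have h1 := ih ρ h (fun i hi => hY i (Finset.mem_insert_of_mem hi))
    obtain ⟨ha1, ha2⟩ := hY a (Finset.mem_insert_self _ _)
    obtain ⟨b, hb⟩ := Option.ne_none_iff_exists'.1 ha2
    have h2 := hE _ h1 a (by simp [put, ha, ha1]) b
    have : put ρ (insert a Y) T = Function.update (put ρ Y T) a (some b) := by
      funext j
      by_cases hj : j = a
      · subst hj; simp [put, hb]
      · simp [put, hj]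
    rw [this]; exact h2

lemma Closed.fals {T : Restr m} : Closed (fun ρ : Restr m => Fals T ρ) := by
  intro ρ h i hi b
  obtain ⟨j, h1, h2, h3⟩ := h
  have hj : j ≠ i := fun e => h2 (e ▸ hi)
  exact ⟨j, h1, by simp [hj, h2], by simp [hj, h3]⟩

/-- **Switching lemma** (with the conditioning that makes the induction work). -/
lemma switching {w : ℕ} {p : ℝ} (h0 : 0 < p) (h1 : p < 1)
    (hp : (1 + 8 * p / (1 - p)) ^ w ≤ 2) {r : ℕ} (L : Fin r → Restr m)
    (hL : ∀ i, (supp (L i)).card ≤ w) :
    ∀ (t : ℕ) (E : Restr m → Prop), Closed E →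
      W p (fun ρ => E ρ ∧ Bad L t ρ) ≤ (1 / 2) ^ t * W p E := by
  intro t
  induction t using Nat.strong_induction_on with
  | _ t ih =>
    intro E hE
    rcases Nat.eq_zero_or_pos t with ht | ht
    · subst ht
      simp only [pow_zero, one_mul]
      exact W_mono h0.le h1.le (fun ρ h => h.1)
    -- the events attached to an index `i`
    set Ei : Fin r → Restr m → Prop := fun i ρ => E ρ ∧ ∀ j < i, Fals (L j) ρ with hEi
    set Fi : Fin r → Restr m → Prop := fun i ρ => Ei i ρ ∧ Sat (L i) ρ with hFi
    have hEiclosed : ∀ i, Closed (Ei i) := by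
      intro i ρ h j hj b
      exact ⟨hE ρ h.1 j hj b, fun k hk => Closed.fals ρ (h.2 k hk) j hj b⟩
    -- step 1: the event for given `i`, `Y`, `A`
    have step : ∀ (i : Fin r) (Y : Finset (Fin m)), Y ⊆ supp (L i) → Y.Nonempty →
        ∀ A ⊆ Y,
        W p (fun ρ => Ei i ρ ∧ ¬ Fals (L i) ρ ∧ stars (L i) ρ = Y ∧
          Bad L (t - Y.card) (ext ρ Y A)) ≤
        (2 * p / (1 - p)) ^ Y.card * ((1 / 2) ^ (t - Y.card) * W p (Fi i)) := by
      intro i Y hY hYne A hA
      set G : Restr m → Prop := fun τ => (∀ x ∈ Y, τ x = some (decide (x ∈ A))) ∧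
        Fi i (put τ Y (L i)) with hG
      have hGclosed : Closed G := by
        intro τ hτ x hx b
        have hxY : x ∉ Y := fun hh => by
          have := hτ.1 x hh
          rw [hx] at this; exact absurd this (by simp)
        refine ⟨fun y hy => ?_, ?_⟩
        · have : y ≠ x := fun e => hxY (e ▸ hy)
          simp [this, hτ.1 y hy]
        · have e : put (Function.update τ x (some b)) Y (L i) =
              Function.update (put τ Y (L i)) x (some b) := by
            funext y
            by_cases hy : y = x
            · subst hy; simp [put, hxY]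
            · simp [put, hy]
          rw [e]
          have hx2 : put τ Y (L i) x = none := by simp [put, hxY, hx]
          refine ⟨hEiclosed i _ hτ.2.1 x hx2 b, ?_⟩
          intro y hy
          by_cases hyx : y = x
          · exfalso
            have := hτ.2.2 y hy
            rw [hyx] at this hy
            rw [hx2] at this
            exact hy this.symm
          · simp only [Function.update, hyx, dif_neg, not_false_iff]
            have := hτ.2.2 y hy
            simpa using this
      have hcard : 1 ≤ Y.card := hYne.card_pos
      have ihG := ih (t - Y.card) (by omega) G hGclosed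
      have hc0 : (0 : ℝ) ≤ 2 * p / (1 - p) := div_nonneg (by linarith) (by linarith)
      have m1 : W p (fun ρ => Ei i ρ ∧ ¬ Fals (L i) ρ ∧ stars (L i) ρ = Y ∧
          Bad L (t - Y.card) (ext ρ Y A)) ≤
          (2 * p / (1 - p)) ^ Y.card * W p (fun ρ => G ρ ∧ Bad L (t - Y.card) ρ) := by
        refine W_le_of_map h0.le h1.le (pow_nonneg hc0 _) (fun ρ => ext ρ Y A) ?_ ?_ ?_
        · rintro ρ ⟨hρ, hnf, hst, hbad⟩
          refine ⟨⟨fun x hx => by simp [ext, hx], ?_⟩, hbad⟩
          have e : put (ext ρ Y A) Y (L i) = put ρ Y (L i) := by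
            funext y; by_cases hy : y ∈ Y <;> simp [put, ext, hy]
          rw [e]
          have hYst : ∀ y ∈ Y, ρ y = none ∧ L i y ≠ none := by
            intro y hy
            rw [← hst] at hy
            simp only [stars, Finset.mem_filter, Finset.mem_univ, true_and] at hy
            exact ⟨hy.2, hy.1⟩
          refine ⟨closed_put (hEiclosed i) (L i) Y ρ hρ hYst, ?_⟩
          intro y hy
          by_cases hyY : y ∈ Y
          · simp [put, hyY]
          · simp only [put, hyY, if_false]
            by_contra hne
            apply hnf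
            refine ⟨y, hy, ?_, hne⟩
            intro hn
            apply hyY
            rw [← hst]
            simp [stars, hy, hn]
        · rintro ρ σ ⟨_, _, hρ, _⟩ ⟨_, _, hσ, _⟩ heq
          funext y
          by_cases hy : y ∈ Y
          · have a1 : ρ y = none := by
              rw [← hρ] at hy
              simp only [stars, Finset.mem_filter, Finset.mem_univ, true_and] at hy
              exact hy.2
            have a2 : σ y = none := by
              rw [← hσ] at hy
              simp only [stars, Finset.mem_filter, Finset.mem_univ, true_and] at hy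
              exact hy.2
            rw [a1, a2]
          · have := congrFun heq y
            simpa [ext, hy] using this
        · rintro ρ ⟨_, _, hρ, _⟩
          unfold wt
          have hsplit : ∀ g : Fin m → ℝ, ∏ i, g i = (∏ i ∈ Y, g i) * ∏ i ∈ Yᶜ, g i :=
            fun g => (Finset.prod_mul_prod_compl Y g).symm
          rw [hsplit, hsplit]
          have b1 : ∏ i ∈ Y, wt1 p (ρ i) = p ^ Y.card := by
            rw [Finset.prod_congr rfl (g := fun _ => p), Finset.prod_const]
            intro y hy
            rw [← hρ] at hy
            simp only [stars, Finset.mem_filter, Finset.mem_univ, true_and] at hy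
            simp [wt1, hy.2]
          have b2 : ∏ i ∈ Y, wt1 p (ext ρ Y A i) = ((1 - p) / 2) ^ Y.card := by
            rw [Finset.prod_congr rfl (g := fun _ => (1 - p) / 2), Finset.prod_const]
            intro y hy
            simp [wt1, ext, hy]
          have b3 : ∏ i ∈ Yᶜ, wt1 p (ext ρ Y A i) = ∏ i ∈ Yᶜ, wt1 p (ρ i) := by
            refine Finset.prod_congr rfl (fun y hy => ?_)
            have : y ∉ Y := by simpa using hy
            simp [ext, this]
          rw [b1, b2, b3, ← mul_assoc, ← mul_pow]
          congr 2
          have : (1 : ℝ) - p ≠ 0 := by linarith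
          field_simp
      have m2 : W p G ≤ 1 * W p (Fi i) := by
        refine W_le_of_map h0.le h1.le zero_le_one (fun ρ => put ρ Y (L i)) ?_ ?_ ?_
        · intro τ hτ; exact hτ.2
        · intro τ σ hτ hσ heq
          funext y
          by_cases hy : y ∈ Y
          · rw [hτ.1 y hy, hσ.1 y hy]
          · have := congrFun heq y
            simpa [put, hy] using this
        · intro τ hτ
          rw [one_mul]
          unfold wt
          refine Finset.prod_congr rfl (fun y _ => ?_)
          by_cases hy : y ∈ Y
          · have hLy : L i y ≠ none := by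
              have := hY hy
              simpa [supp] using this
            simp [wt1, put, hy, hτ.1 y hy, hLy]
          · simp [put, hy]
      rw [one_mul] at m2
      calc _ ≤ _ := m1
        _ ≤ (2 * p / (1 - p)) ^ Y.card * ((1 / 2) ^ (t - Y.card) * W p G) :=
          mul_le_mul_of_nonneg_left ihG (pow_nonneg hc0 _)
        _ ≤ _ := by
          refine mul_le_mul_of_nonneg_left ?_ (pow_nonneg hc0 _)
          exact mul_le_mul_of_nonneg_left m2 (by positivity)
    -- step 2: sum over everything
    set Idx : Finset ((Fin r) × (Finset (Fin m) × Finset (Fin m))) :=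
      Finset.univ.filter (fun q => q.2.1 ⊆ supp (L q.1) ∧ q.2.1.Nonempty ∧ q.2.2 ⊆ q.2.1)
      with hIdx
    have hunion : W p (fun ρ => E ρ ∧ Bad L t ρ) ≤ ∑ q ∈ Idx,
        W p (fun ρ => Ei q.1 ρ ∧ ¬ Fals (L q.1) ρ ∧ stars (L q.1) ρ = q.2.1 ∧
          Bad L (t - q.2.1.card) (ext ρ q.2.1 q.2.2)) := by
      refine W_union h0.le h1.le Idx _ _ ?_
      rintro ρ ⟨hρ, hbad⟩
      cases hbad with
      | zero => exact absurd ht (lt_irrefl _)
      | step _ _ i A hlt hi hne hA h =>
        refine ⟨(i, (stars (L i) ρ, A)), ?_, ⟨hρ, hlt⟩, hi, rfl, h⟩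
        simp only [hIdx, Finset.mem_filter, Finset.mem_univ, true_and]
        refine ⟨?_, hne, hA⟩
        intro y hy
        simp only [stars, Finset.mem_filter, Finset.mem_univ, true_and] at hy
        simp [supp, hy.1]
    refine hunion.trans ?_
    have hterm : ∀ q ∈ Idx, W p (fun ρ => Ei q.1 ρ ∧ ¬ Fals (L q.1) ρ ∧
        stars (L q.1) ρ = q.2.1 ∧ Bad L (t - q.2.1.card) (ext ρ q.2.1 q.2.2)) ≤
        (1 / 2) ^ t * ((4 * p / (1 - p)) ^ q.2.1.card * W p (Fi q.1)) := by
      intro q hq
      simp only [hIdx, Finset.mem_filter, Finset.mem_univ, true_and] at hq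
      refine (step q.1 q.2.1 hq.1 hq.2.1 q.2.2 hq.2.2).trans ?_
      have hc0 : (0 : ℝ) ≤ 2 * p / (1 - p) := div_nonneg (by linarith) (by linarith)
      have e1 : (4 * p / (1 - p)) = 2 * (2 * p / (1 - p)) := by ring
      rw [e1, mul_pow]
      have e2 : ((1 : ℝ) / 2) ^ (t - q.2.1.card) ≤ (1 / 2) ^ t * 2 ^ q.2.1.card := by
        rcases le_total q.2.1.card t with hle | hle
        · have : ((1 : ℝ) / 2) ^ t = (1 / 2) ^ (t - q.2.1.card) * (1 / 2) ^ q.2.1.card := by
            rw [← pow_add]; congr 1; omega
          rw [this, mul_assoc, ← mul_pow]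
          norm_num
        · have h3 : t - q.2.1.card = 0 := by omega
          rw [h3, pow_zero]
          have : ((1 : ℝ) / 2) ^ t * 2 ^ t = 1 := by rw [← mul_pow]; norm_num
          calc (1 : ℝ) = (1 / 2) ^ t * 2 ^ t := this.symm
            _ ≤ _ := mul_le_mul_of_nonneg_left
                (pow_le_pow_right₀ (by norm_num) hle) (by positivity)
      have hWnn := W_nonneg (m := m) h0.le h1.le (Fi q.1)
      calc (2 * p / (1 - p)) ^ q.2.1.card * ((1 / 2) ^ (t - q.2.1.card) * W p (Fi q.1))
          = (1 / 2) ^ (t - q.2.1.card) * ((2 * p / (1 - p)) ^ q.2.1.card * W p (Fi q.1)) := by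
            ring
        _ ≤ ((1 / 2) ^ t * 2 ^ q.2.1.card) *
            ((2 * p / (1 - p)) ^ q.2.1.card * W p (Fi q.1)) :=
            mul_le_mul_of_nonneg_right e2 (mul_nonneg (pow_nonneg hc0 _) hWnn)
        _ = _ := by ring
    refine (Finset.sum_le_sum hterm).trans ?_
    rw [← Finset.mul_sum]
    refine mul_le_mul_of_nonneg_left ?_ (by positivity)
    -- now sum over `A`, then `Y`, then `i`
    have hsum : ∑ q ∈ Idx, (4 * p / (1 - p)) ^ q.2.1.card * W p (Fi q.1) =
        ∑ i : Fin r, W p (Fi i) *
          ∑ Y ∈ (supp (L i)).powerset.filter (fun Y => Y.Nonempty),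
            (8 * p / (1 - p)) ^ Y.card := by
      have e3 : Idx = (Finset.univ : Finset (Fin r)).biUnion (fun i =>
          ((supp (L i)).powerset.filter (fun Y => Y.Nonempty)).biUnion (fun Y =>
            Y.powerset.image (fun A => (i, (Y, A))))) := by
        ext ⟨i, Y, A⟩
        simp only [hIdx, Finset.mem_filter, Finset.mem_univ, true_and, Finset.mem_biUnion,
          Finset.mem_powerset, Finset.mem_image, Prod.mk.injEq]
        constructor
        · rintro ⟨h1, h2, h3⟩
          exact ⟨i, Y, ⟨h1, h2⟩, A, h3, rfl, rfl, rfl⟩
        · rintro ⟨i', Y', ⟨h1, h2⟩, A', h3, rfl, rfl, rfl⟩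
          exact ⟨h1, h2, h3⟩
      rw [e3, Finset.sum_biUnion]
      · refine Finset.sum_congr rfl (fun i _ => ?_)
        rw [Finset.sum_biUnion, Finset.mul_sum]
        · refine Finset.sum_congr rfl (fun Y _ => ?_)
          rw [Finset.sum_image]
          · simp only [Finset.sum_const, Finset.card_powerset, nsmul_eq_mul]
            push_cast
            have e4 : (8 * p / (1 - p)) = 2 * (4 * p / (1 - p)) := by ring
            rw [e4, mul_pow]
            ring
          · intro A _ B _ hAB
            simp only [Prod.mk.injEq, true_and] at hAB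
            exact hAB
        · intro Y _ Y' _ hne
          refine Finset.disjoint_left.2 (fun q hq hq' => ?_)
          simp only [Finset.mem_image] at hq hq'
          obtain ⟨A, _, rfl⟩ := hq
          obtain ⟨A', _, h⟩ := hq'
          simp only [Prod.mk.injEq] at h
          exact hne h.2.1.symm
      · intro i _ i' _ hne
        refine Finset.disjoint_left.2 (fun q hq hq' => ?_)
        simp only [Finset.mem_biUnion, Finset.mem_image] at hq hq'
        obtain ⟨Y, _, A, _, rfl⟩ := hq
        obtain ⟨Y', _, A', _, h⟩ := hq'
        simp only [Prod.mk.injEq] at h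
        exact hne h.1.symm
    rw [hsum]
    have hinner : ∀ i : Fin r, ∑ Y ∈ (supp (L i)).powerset.filter (fun Y => Y.Nonempty),
        (8 * p / (1 - p)) ^ Y.card ≤ 1 := by
      intro i
      set q : ℝ := 8 * p / (1 - p) with hq
      have hq0 : 0 ≤ q := div_nonneg (by linarith) (by linarith)
      have hall : ∑ Y ∈ (supp (L i)).powerset, q ^ Y.card = (1 + q) ^ (supp (L i)).card := by
        have := Finset.sum_pow_mul_eq_add_pow q 1 (supp (L i))
        simp only [one_pow, mul_one] at this
        rw [this, add_comm]
      have hsplit := Finset.sum_filter_add_sum_filter_not (supp (L i)).powerset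
        (fun Y => Y.Nonempty) (fun Y => q ^ Y.card)
      have hempty : ∑ Y ∈ (supp (L i)).powerset.filter (fun Y => ¬ Y.Nonempty), q ^ Y.card
          = 1 := by
        have : (supp (L i)).powerset.filter (fun Y => ¬ Y.Nonempty) = {∅} := by
          ext Y
          simp only [Finset.mem_filter, Finset.mem_powerset, Finset.not_nonempty_iff_eq_empty,
            Finset.mem_singleton]
          constructor
          · exact fun h => h.2
          · rintro rfl; exact ⟨Finset.empty_subset _, rfl⟩
        rw [this]; simp
      have hpow : (1 + q) ^ (supp (L i)).card ≤ 2 :=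
        (pow_le_pow_right₀ (by linarith) (hL i)).trans hp
      linarith
    calc ∑ i : Fin r, W p (Fi i) *
          ∑ Y ∈ (supp (L i)).powerset.filter (fun Y => Y.Nonempty), (8 * p / (1 - p)) ^ Y.card
        ≤ ∑ i : Fin r, W p (Fi i) := by
          refine Finset.sum_le_sum (fun i _ => ?_)
          have := W_nonneg (m := m) h0.le h1.le (Fi i)
          calc _ ≤ W p (Fi i) * 1 := mul_le_mul_of_nonneg_left (hinner i) this
            _ = _ := mul_one _
      _ ≤ W p E := by
          unfold W
          rw [Finset.sum_comm]
          refine Finset.sum_le_sum (fun ρ _ => ?_)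
          by_cases hex : ∃ i, Fi i ρ
          · obtain ⟨i, hi⟩ := hex
            rw [Finset.sum_eq_single i]
            · simp [hi, hi.1.1]
            · intro j _ hji
              rw [if_neg]
              intro hj
              rcases lt_or_gt_of_ne hji with hlt | hlt
              · obtain ⟨y, h1, h2, h3⟩ := hi.1.2 j hlt
                exact h3 (hj.2 y h1)
              · obtain ⟨y, h1, h2, h3⟩ := hj.1.2 i hlt
                exact h3 (hi.2 y h1)
            · simp
          · push Not at hex
            simp only [hex, if_false, Finset.sum_const_zero]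
            split_ifs
            · exact wt_nonneg h0.le h1.le ρ
            · exact le_rfl

end Pool.Agent.Lib.MP_8d8c46_lc
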