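import Pool.Agent.Lib.MP_8d8c46_lc.Mg.G023
import Pool.Agent.Lib.MP_8d8c46_lc.PermPairs

/-!
A bounded density has, with overwhelming probability, an almost nonnegative pseudo-expectation
after a random relabelling.
-/

open scoped Classical
open Finset

namespace Pool.Agent.Lib.MP_8d8c46_lc

section tail
variable {n j : ℕ}

/-- relabelling of the coordinates of an index -/
def rl (τ : Equiv.Perm (Fin n)) (β : Fin n → Lb j) (u : Fin n) : Lb j := β (τ.symm u)

lemma mem_sp_rl {τ : Equiv.Perm (Fin n)} {β : Fin n → Lb j} {u : Fin n} :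
    u ∈ sp (rl τ β) ↔ τ.symm u ∈ sp β := by
  rw [mem_sp, mem_sp]; rfl

lemma chr_rl (τ : Equiv.Perm (Fin n)) (β y : Fin n → Lb j) :
    chr (rl τ β) y = chr β (fun u => y (τ u)) := by
  unfold chr pr rl
  congr 1
  rw [← Equiv.sum_comp τ]
  refine sum_congr rfl (fun u _ => ?_)
  rw [Equiv.symm_apply_apply]

/-- the pseudo-expectation of `g` after the relabelling `(τ, s)` -/
noncomputable def RL (p : (Fin n → Lb j) → ℝ) (k : ℕ) (τ : Equiv.Perm (Fin n))
    (s : Fin n → Lb j) (g : (Fin n → Lb j) → ℝ) : ℝ :=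
  ∑ β ∈ lowk n j k, (p (rl τ β) * ft g β) * chr β s

/-- The properties of the pseudo-moments that are used. -/
structure PD (p : (Fin n → Lb j) → ℝ) (nr : Fin n → Fin n → Prop) (k K : ℕ) : Prop where
  symm : ∀ u v, nr u v → nr v u
  ball : ∀ u, (univ.filter (fun v => nr u v)).card ≤ K
  le_one : ∀ β, |p β| ≤ 1
  paired : ∀ β, p β ≠ 0 → ∀ u ∈ sp β, ∃ v ∈ sp β, v ≠ u ∧ nr u v
  pos : ∀ W : Finset (Fin n), W.card ≤ k → ∀ x,
    0 ≤ ∑ β ∈ univ.filter (fun β : Fin n → Lb j => sp β ⊆ W), p β * chr β x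

lemma paired_of_ne {p : (Fin n → Lb j) → ℝ} {nr : Fin n → Fin n → Prop} {k K : ℕ}
    (hp : PD p nr k K) {τ : Equiv.Perm (Fin n)} {β : Fin n → Lb j} (h : p (rl τ β) ≠ 0) :
    Paired nr (sp β) τ := by
  intro u hu
  have h1 : τ u ∈ sp (rl τ β) := by
    rw [mem_sp_rl, Equiv.symm_apply_apply]; exact hu
  obtain ⟨v, hv, hne, hnr⟩ := hp.paired _ h _ h1
  refine ⟨τ.symm v, mem_sp_rl.1 hv, ?_, ?_⟩
  · rintro rfl
    rw [Equiv.apply_symm_apply] at hne
    exact hne rfl
  · rw [Equiv.apply_symm_apply]; exact hnr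

/-- The part supported on `J` is nonnegative if few elements of `J` have partners. -/
lemma part_nonneg {p : (Fin n → Lb j) → ℝ} {nr : Fin n → Fin n → Prop} {k K : ℕ}
    (hp : PD p nr k K) {τ : Equiv.Perm (Fin n)} {J : Finset (Fin n)}
    (hJ : (partners nr J τ).card ≤ k) {g : (Fin n → Lb j) → ℝ} (hg : ∀ x, 0 ≤ g x)
    (s : Fin n → Lb j) :
    0 ≤ ∑ β ∈ (lowk n j k).filter (fun β => sp β ⊆ J), (p (rl τ β) * ft g β) * chr β s := by
  set J' := partners nr J τ with hJ'
  have h1 : ∑ β ∈ (lowk n j k).filter (fun β => sp β ⊆ J), (p (rl τ β) * ft g β) * chr β s =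
      ∑ β ∈ univ.filter (fun β : Fin n → Lb j => sp β ⊆ J'), (p (rl τ β) * ft g β) * chr β s := by
    symm
    refine sum_subset_zero_on_sdiff ?_ ?_ (fun _ _ => rfl)
    · intro β hβ
      rw [mem_filter] at hβ ⊢
      refine ⟨mem_lowk.2 ((card_le_card hβ.2).trans hJ), ?_⟩
      exact hβ.2.trans (filter_subset _ _)
    · intro β hβ
      rw [mem_sdiff, mem_filter, mem_filter, not_and] at hβ
      obtain ⟨⟨_, h2⟩, h3⟩ := hβ
      have h4 : p (rl τ β) = 0 := by
        by_contra hne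
        apply h3 (mem_univ _)
        intro u hu
        have h5 := paired_of_ne hp hne u hu
        obtain ⟨v, hv, hvu, hnr⟩ := h5
        rw [hJ']
        exact mem_filter.2 ⟨h2 hu, v, h2 hv, hvu, hnr⟩
      rw [h4, zero_mul, zero_mul]
  rw [h1]
  have h2 : ∑ β ∈ univ.filter (fun β : Fin n → Lb j => sp β ⊆ J'),
      (p (rl τ β) * ft g β) * chr β s =
      avg (fun x => g x * ∑ β ∈ univ.filter (fun β : Fin n → Lb j => sp β ⊆ J'),
        (p (rl τ β) * chr β s) * chr β x) := by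
    rw [avg_mul_sum]
    exact sum_congr rfl (fun β _ => by ring)
  rw [h2]
  refine avg_nonneg (fun x => mul_nonneg (hg x) ?_)
  have h3 : ∑ β ∈ univ.filter (fun β : Fin n → Lb j => sp β ⊆ J'),
      (p (rl τ β) * chr β s) * chr β x =
      ∑ α ∈ univ.filter (fun α : Fin n → Lb j => sp α ⊆ J'.image τ),
        p α * chr α (fun u => (s + x) (τ.symm u)) := by
    refine sum_bij (fun β _ => rl τ β) ?_ ?_ ?_ ?_
    · intro β hβ
      rw [mem_filter] at hβ ⊢
      refine ⟨mem_univ _, fun u hu => ?_⟩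
      rw [mem_sp_rl] at hu
      rw [mem_image]
      exact ⟨τ.symm u, hβ.2 hu, τ.apply_symm_apply u⟩
    · intro β _ β' _ h
      funext u
      have := congrFun h (τ u)
      unfold rl at this
      rwa [Equiv.symm_apply_apply] at this
    · intro α hα
      rw [mem_filter] at hα
      refine ⟨fun u => α (τ u), ?_, ?_⟩
      · rw [mem_filter]
        refine ⟨mem_univ _, fun u hu => ?_⟩
        rw [mem_sp] at hu
        have := hα.2 (mem_sp.2 hu)
        rw [mem_image] at this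
        obtain ⟨v, hv, hvu⟩ := this
        rwa [← τ.injective hvu]
      · funext u
        unfold rl
        simp only
        rw [Equiv.apply_symm_apply]
    · intro β _
      rw [chr_rl]
      have : (fun u => (fun u => (s + x) (τ.symm u)) (τ u)) = s + x := by
        funext u
        simp only
        rw [Equiv.symm_apply_apply]
      rw [this, chr_add_right]
      ring
  rw [h3]
  refine hp.pos _ ?_ _
  rw [card_image_of_injective _ τ.injective]
  exact hJ

/-- the number of indices with given support -/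
lemma card_sp_eq (T : Finset (Fin n)) :
    (univ.filter (fun β : Fin n → Lb j => sp β = T)).card ≤ (2 ^ j) ^ T.card := by
  have h3 : (2 ^ j) ^ T.card = (univ : Finset (T → Lb j)).card := by
    rw [card_univ, Fintype.card_fun, Fintype.card_fun, ZMod.card, Fintype.card_fin,
      Fintype.card_coe]
  rw [h3]
  refine card_le_card_of_injOn (fun β u => β u) (fun _ _ => mem_coe.2 (mem_univ _)) ?_
  intro β hβ β' hβ' h
  simp only [coe_filter, mem_univ, true_and, Set.mem_ofPred_eq] at hβ hβ'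
  funext u
  by_cases hu : u ∈ T
  · exact congrFun h ⟨u, hu⟩
  · have a1 : β u = 0 := by
      by_contra h0; exact hu (hβ ▸ mem_sp.2 h0)
    have a2 : β' u = 0 := by
      by_contra h0; exact hu (hβ' ▸ mem_sp.2 h0)
    rw [a1, a2]

/-- The heart of the tail bound: all quantities are explicit. -/
theorem tail_core {p : (Fin n → Lb j) → ℝ} {nr : Fin n → Fin n → Prop} {k K l r i : ℕ}
    (hp : PD p nr k K) {θ C V η₀ : ℝ} (hP : PairBound nr l θ) (hθ0 : 0 ≤ θ) (hθ1 : θ ≤ 1)
    (hC : HC (Lb j) k i C) (hC0 : 0 < C) (hV : 1 ≤ V) (hη₀ : 0 < η₀)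
    (hl1 : 2 * k + 2 ≤ l) (hl2 : k * r ≤ l)
    {g : (Fin n → Lb j) → ℝ} (hg : ∀ x, 0 ≤ g x) (hW : ∑ β ∈ lowk n j k, ft g β ^ 2 ≤ V)
    (hJθ : k * V ^ 3 * θ ≤ 1) :
    ((univ.filter (fun ω : Equiv.Perm (Fin n) × (Fin n → Lb j) =>
      RL p k ω.1 ω.2 g < -η₀)).card : ℝ) ≤
      (Fintype.card (Equiv.Perm (Fin n) × (Fin n → Lb j)) : ℝ) *
        ((k + 2) * (k * V ^ 3 * θ) ^ (k + 1) +
          ((2 ^ l * (((2 : ℝ) ^ j) ^ k / V ^ 2) + V * θ) * V) ^ r +
          C / (V ^ (2 ^ i) * η₀ ^ (2 ^ (i + 1)))) := by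
  have hV0 : 0 < V := by linarith
  -- the heavy indices
  set ℋ := (lowk n j k).filter (fun β => 1 ≤ V ^ 2 * ft g β ^ 2) with hℋ
  set J := ℋ.biUnion sp with hJ
  have hℋc : (ℋ.card : ℝ) ≤ V ^ 3 := by
    have h1 : (ℋ.card : ℝ) ≤ ∑ β ∈ ℋ, V ^ 2 * ft g β ^ 2 := by
      calc (ℋ.card : ℝ) = ∑ β ∈ ℋ, (1 : ℝ) := by rw [sum_const, nsmul_eq_mul, mul_one]
        _ ≤ _ := sum_le_sum (fun β hβ => (mem_filter.1 hβ).2)
    calc (ℋ.card : ℝ) ≤ ∑ β ∈ ℋ, V ^ 2 * ft g β ^ 2 := h1
      _ = V ^ 2 * ∑ β ∈ ℋ, ft g β ^ 2 := by rw [mul_sum]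
      _ ≤ V ^ 2 * V := by
          refine mul_le_mul_of_nonneg_left (le_trans ?_ hW) (by positivity)
          exact sum_le_sum_of_subset_of_nonneg (filter_subset _ _) (fun _ _ _ => sq_nonneg _)
      _ = V ^ 3 := by ring
  have hJc : (J.card : ℝ) ≤ k * V ^ 3 := by
    have h1 : J.card ≤ ℋ.card * k := by
      rw [hJ]
      refine card_biUnion_le.trans ?_
      refine (sum_le_card_nsmul ℋ _ k (fun β hβ => ?_)).trans (le_of_eq (smul_eq_mul _ _))
      exact mem_lowk.1 (mem_filter.1 hβ).1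
    calc (J.card : ℝ) ≤ ((ℋ.card * k : ℕ) : ℝ) := by exact_mod_cast h1
      _ = (ℋ.card : ℝ) * k := by push_cast; ring
      _ ≤ V ^ 3 * k := mul_le_mul_of_nonneg_right hℋc (Nat.cast_nonneg _)
      _ = _ := by ring
  have hJc' : (J.card : ℝ) * θ ≤ k * V ^ 3 * θ := mul_le_mul_of_nonneg_right hJc hθ0
  -- first kind of bad permutations
  have hbad1 := card_partners hP hθ0 hp.symm hl1 J (hJc'.trans hJθ)
  -- light supports
  set 𝒯 := (univ : Finset (Finset (Fin n))).filter (fun T => T.card ≤ k ∧ ¬ T ⊆ J) with h𝒯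
  set w : Finset (Fin n) → ℝ := fun T =>
    ∑ β ∈ univ.filter (fun β : Fin n → Lb j => sp β = T), ft g β ^ 2 with hw
  set a : ℝ := ((2 : ℝ) ^ j) ^ k / V ^ 2 with ha
  have ha0 : 0 ≤ a := by rw [ha]; positivity
  have hw0 : ∀ T ∈ 𝒯, 0 ≤ w T := fun T _ => sum_nonneg (fun _ _ => sq_nonneg _)
  have hwa : ∀ T ∈ 𝒯, w T ≤ a := by
    intro T hT
    rw [h𝒯, mem_filter] at hT
    have h1 : ∀ β ∈ univ.filter (fun β : Fin n → Lb j => sp β = T), ft g β ^ 2 ≤ 1 / V ^ 2 := by
      intro β hβ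
      rw [mem_filter] at hβ
      by_contra hcon
      push Not at hcon
      rw [div_lt_iff₀ (by positivity)] at hcon
      apply hT.2.2
      rw [← hβ.2, hJ]
      refine subset_biUnion_of_mem sp ?_
      rw [hℋ, mem_filter, mem_lowk, hβ.2]
      exact ⟨hT.2.1, by linarith⟩
    calc w T ≤ (univ.filter (fun β : Fin n → Lb j => sp β = T)).card * (1 / V ^ 2) := by
          refine (sum_le_card_nsmul _ _ _ h1).trans (le_of_eq (nsmul_eq_mul _ _))
      _ ≤ ((2 : ℝ) ^ j) ^ k * (1 / V ^ 2) := by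
          refine mul_le_mul_of_nonneg_right ?_ (by positivity)
          have h2 := card_sp_eq (j := j) T
          have h3 : (univ.filter (fun β : Fin n → Lb j => sp β = T)).card ≤ (2 ^ j) ^ k :=
            h2.trans (Nat.pow_le_pow_right (by positivity) hT.2.1)
          exact_mod_cast h3
      _ = a := by rw [ha]; ring
  have hfib : ∀ (f : (Fin n → Lb j) → ℝ),
      ∑ T ∈ 𝒯, ∑ β ∈ univ.filter (fun β : Fin n → Lb j => sp β = T), f β =
      ∑ β ∈ (lowk n j k).filter (fun β => ¬ sp β ⊆ J), f β := by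
    intro f
    have h1 : ∀ T ∈ 𝒯, univ.filter (fun β : Fin n → Lb j => sp β = T) =
        ((lowk n j k).filter (fun β => ¬ sp β ⊆ J)).filter (fun β => sp β = T) := by
      intro T hT
      rw [h𝒯, mem_filter] at hT
      ext β
      simp only [mem_filter, mem_univ, true_and, mem_lowk]
      constructor
      · intro h; rw [h]; exact ⟨hT.2, rfl⟩
      · intro h; exact h.2
    rw [sum_congr rfl (fun T hT => by rw [h1 T hT]), sum_fiberwise_of_maps_to]
    intro β hβ
    rw [mem_filter, mem_lowk] at hβ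
    rw [h𝒯, mem_filter]
    exact ⟨mem_univ _, hβ⟩
  have hwsum : ∑ T ∈ 𝒯, w T ≤ V := by
    rw [hw, hfib]
    refine le_trans ?_ hW
    exact sum_le_sum_of_subset_of_nonneg (filter_subset _ _) (fun _ _ _ => sq_nonneg _)
  have hmom := moment_bound hP hθ0 hθ1 𝒯 w hw0 hwa hwsum
    (fun T hT => (mem_filter.1 hT).2.1) ha0 r ∅ (by rw [card_empty]; omega)
  set Z : Equiv.Perm (Fin n) → ℝ := fun τ =>
    ∑ T ∈ 𝒯, w T * (if Paired nr T τ then 1 else 0) with hZ
  have hZ0 : ∀ τ, 0 ≤ Z τ := fun τ => sum_nonneg (fun T hT => mul_nonneg (hw0 T hT) (by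
      split_ifs <;> norm_num))
  have hempty : ∀ τ : Equiv.Perm (Fin n), Paired nr ∅ τ := by
    intro τ u hu; simp at hu
  have hmom' : ∑ τ : Equiv.Perm (Fin n), Z τ ^ r ≤
      n.factorial * (2 ^ l * a + V * θ) ^ r := by
    calc ∑ τ : Equiv.Perm (Fin n), Z τ ^ r = ∑ τ : Equiv.Perm (Fin n),
          (if Paired nr ∅ τ then (1 : ℝ) else 0) * Z τ ^ r := by
          refine sum_congr rfl (fun τ _ => ?_)
          rw [if_pos (hempty τ), one_mul]
      _ ≤ _ := hmom
      _ = _ := by rw [card_empty, pow_zero, mul_one]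
  have hbad2 : ((univ.filter (fun τ : Equiv.Perm (Fin n) => 1 / V ≤ Z τ)).card : ℝ) ≤
      n.factorial * ((2 ^ l * a + V * θ) * V) ^ r := by
    have h1 : univ.filter (fun τ : Equiv.Perm (Fin n) => 1 / V ≤ Z τ) ⊆
        univ.filter (fun τ => (1 / V) ^ r ≤ Z τ ^ r) := by
      intro τ hτ
      simp only [mem_filter, mem_univ, true_and] at hτ ⊢
      exact pow_le_pow_left₀ (by positivity) hτ r
    have h2 := markov (f := fun τ : Equiv.Perm (Fin n) => Z τ ^ r)
      (fun τ => pow_nonneg (hZ0 τ) r) (a := (1 / V) ^ r) (by positivity)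
    calc ((univ.filter (fun τ : Equiv.Perm (Fin n) => 1 / V ≤ Z τ)).card : ℝ)
        ≤ ((univ.filter (fun τ => (1 / V) ^ r ≤ Z τ ^ r)).card : ℝ) := by
          exact_mod_cast card_le_card h1
      _ ≤ _ := h2
      _ ≤ (n.factorial * (2 ^ l * a + V * θ) ^ r) / (1 / V) ^ r :=
          div_le_div_of_nonneg_right hmom' (by positivity)
      _ = _ := by
          rw [mul_pow, one_div, inv_pow, div_inv_eq_mul]; ring
  -- good permutations
  have hgood : ∀ τ : Equiv.Perm (Fin n), (partners nr J τ).card ≤ k → Z τ < 1 / V →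
      ((univ.filter (fun s : Fin n → Lb j => RL p k τ s g < -η₀)).card : ℝ) ≤
        (Fintype.card (Fin n → Lb j) : ℝ) * (C / (V ^ (2 ^ i) * η₀ ^ (2 ^ (i + 1)))) := by
    intro τ h1 h2
    set F := (lowk n j k).filter (fun β => ¬ sp β ⊆ J) with hF
    set R2 : (Fin n → Lb j) → ℝ := fun s => ∑ β ∈ F, (p (rl τ β) * ft g β) * chr β s with hR2
    have hsplit : ∀ s, RL p k τ s g =
        (∑ β ∈ (lowk n j k).filter (fun β => sp β ⊆ J), (p (rl τ β) * ft g β) * chr β s) +
          R2 s := by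
      intro s
      unfold RL
      rw [hR2, hF]
      simp only
      rw [sum_filter_add_sum_filter_not]
    have hdeg : Deg k R2 := deg_sum F (fun β hβ => mem_lowk.1 (mem_filter.1 hβ).1) _
    have hpars : avg (fun s => R2 s ^ 2) ≤ 1 / V := by
      refine le_trans (le_of_eq (parseval F _)) (le_trans ?_ h2.le)
      have h3 : Z τ = ∑ β ∈ F, ft g β ^ 2 * (if Paired nr (sp β) τ then 1 else 0) := by
        rw [hZ, hF, ← hfib]
        simp only
        refine sum_congr rfl (fun T _ => ?_)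
        rw [hw]
        simp only
        rw [sum_mul]
        refine sum_congr rfl (fun β hβ => ?_)
        rw [(mem_filter.1 hβ).2]
      rw [h3]
      refine sum_le_sum (fun β _ => ?_)
      by_cases hpz : p (rl τ β) = 0
      · rw [hpz, zero_mul, sq, zero_mul]
        refine mul_nonneg (sq_nonneg _) (by split_ifs <;> norm_num)
      · rw [if_pos (paired_of_ne hp hpz), mul_one, mul_pow]
        have h4 : p (rl τ β) ^ 2 ≤ 1 := by
          rw [← sq_abs]
          exact pow_le_one₀ (abs_nonneg _) (hp.le_one _)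
        nlinarith [sq_nonneg (ft g β)]
    have hhyp := hC n R2 hdeg
    have hev : Even (2 ^ (i + 1)) := by rw [pow_succ]; exact even_two.mul_left _
    have h5 : avg (fun s => R2 s ^ (2 ^ (i + 1))) ≤ C * (1 / V) ^ (2 ^ i) := by
      refine hhyp.trans (mul_le_mul_of_nonneg_left ?_ hC0.le)
      exact pow_le_pow_left₀ (avg_nonneg (fun _ => sq_nonneg _)) hpars _
    have h6 : univ.filter (fun s : Fin n → Lb j => RL p k τ s g < -η₀) ⊆
        univ.filter (fun s => η₀ ^ (2 ^ (i + 1)) ≤ R2 s ^ (2 ^ (i + 1))) := by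
      intro s hs
      simp only [mem_filter, mem_univ, true_and] at hs ⊢
      rw [hsplit] at hs
      have h7 := part_nonneg hp h1 hg s
      have h8 : η₀ ≤ -R2 s := by linarith
      calc η₀ ^ (2 ^ (i + 1)) ≤ (-R2 s) ^ (2 ^ (i + 1)) := pow_le_pow_left₀ hη₀.le h8 _
        _ = _ := hev.neg_pow _
    have h7 := markov (f := fun s : Fin n → Lb j => R2 s ^ (2 ^ (i + 1)))
      (fun s => hev.pow_nonneg _) (a := η₀ ^ (2 ^ (i + 1))) (by positivity)
    calc ((univ.filter (fun s : Fin n → Lb j => RL p k τ s g < -η₀)).card : ℝ)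
        ≤ ((univ.filter (fun s => η₀ ^ (2 ^ (i + 1)) ≤ R2 s ^ (2 ^ (i + 1)))).card : ℝ) := by
          exact_mod_cast card_le_card h6
      _ ≤ _ := h7
      _ = (Fintype.card (Fin n → Lb j) * avg (fun s => R2 s ^ (2 ^ (i + 1)))) /
            η₀ ^ (2 ^ (i + 1)) := by rw [card_mul_avg]
      _ ≤ (Fintype.card (Fin n → Lb j) * (C * (1 / V) ^ (2 ^ i))) / η₀ ^ (2 ^ (i + 1)) := by
          refine div_le_div_of_nonneg_right ?_ (by positivity)
          exact mul_le_mul_of_nonneg_left h5 (Nat.cast_nonneg _)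
      _ = _ := by
          rw [one_div, inv_pow]
          field_simp
  -- put together
  set X := (Fintype.card (Fin n → Lb j) : ℝ) with hX
  have hX0 : 0 ≤ X := Nat.cast_nonneg _
  set c3 := C / (V ^ (2 ^ i) * η₀ ^ (2 ^ (i + 1))) with hc3
  have hc30 : 0 ≤ c3 := by rw [hc3]; positivity
  have hcount : ((univ.filter (fun ω : Equiv.Perm (Fin n) × (Fin n → Lb j) =>
      RL p k ω.1 ω.2 g < -η₀)).card : ℝ) =
      ∑ τ : Equiv.Perm (Fin n),
        ((univ.filter (fun s : Fin n → Lb j => RL p k τ s g < -η₀)).card : ℝ) := by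
    have h1 : (univ.filter (fun ω : Equiv.Perm (Fin n) × (Fin n → Lb j) =>
      RL p k ω.1 ω.2 g < -η₀)).card = ∑ τ : Equiv.Perm (Fin n),
        (univ.filter (fun s : Fin n → Lb j => RL p k τ s g < -η₀)).card := by
      simp_rw [card_filter]
      rw [Fintype.sum_prod_type]
    rw [h1]; push_cast; rfl
  rw [hcount]
  have hterm : ∀ τ : Equiv.Perm (Fin n),
      ((univ.filter (fun s : Fin n → Lb j => RL p k τ s g < -η₀)).card : ℝ) ≤
      X * ((if k < (partners nr J τ).card then 1 else 0) + (if 1 / V ≤ Z τ then 1 else 0) +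
        c3) := by
    intro τ
    have htriv : ((univ.filter (fun s : Fin n → Lb j => RL p k τ s g < -η₀)).card : ℝ) ≤ X := by
      rw [hX, ← card_univ]
      exact_mod_cast card_filter_le _ _
    by_cases h1 : k < (partners nr J τ).card
    · rw [if_pos h1]
      have : (0 : ℝ) ≤ (if 1 / V ≤ Z τ then 1 else 0) := by split_ifs <;> norm_num
      nlinarith
    · by_cases h2 : 1 / V ≤ Z τ
      · rw [if_pos h2, if_neg h1]
        nlinarith
      · rw [if_neg h1, if_neg h2, zero_add, zero_add]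
        exact hgood τ (not_lt.1 h1) (not_le.1 h2)
  refine (sum_le_sum (fun τ _ => hterm τ)).trans ?_
  rw [← mul_sum, sum_add_distrib, sum_add_distrib, sum_boole, sum_boole, sum_const, card_univ,
    Fintype.card_prod, Fintype.card_perm, Fintype.card_fin, nsmul_eq_mul]
  push_cast
  have hf0 : (0 : ℝ) ≤ n.factorial := Nat.cast_nonneg _
  have hb1 : ((univ.filter (fun τ : Equiv.Perm (Fin n) => k < (partners nr J τ).card)).card : ℝ) ≤
      n.factorial * ((k + 2) * (k * V ^ 3 * θ) ^ (k + 1)) := by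
    refine hbad1.trans (mul_le_mul_of_nonneg_left ?_ hf0)
    refine mul_le_mul_of_nonneg_left ?_ (by positivity)
    exact pow_le_pow_left₀ (by positivity) hJc' _
  calc X * (((univ.filter (fun τ : Equiv.Perm (Fin n) => k < (partners nr J τ).card)).card : ℝ) +
        ((univ.filter (fun τ : Equiv.Perm (Fin n) => 1 / V ≤ Z τ)).card : ℝ) +
        (n.factorial : ℝ) * c3)
      ≤ X * (n.factorial * ((k + 2) * (k * V ^ 3 * θ) ^ (k + 1)) +
        n.factorial * ((2 ^ l * a + V * θ) * V) ^ r + (n.factorial : ℝ) * c3) := by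
        refine mul_le_mul_of_nonneg_left ?_ hX0
        linarith
    _ = _ := by rw [hX]; ring

end tail

end Pool.Agent.Lib.MP_8d8c46_lc
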